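import Pool.Agent.Work.MP_97bde0_lc.CompI2

/-!
# The main theorem
-/

set_option autoImplicit false

open Set MeasureTheory Topology
open scoped ENNReal

namespace Pool.Agent.Work.MP_97bde0_lc

/-- homeomorphisms of a sum -/
def sumH {K1 K2 : Type} [TopologicalSpace K1] [TopologicalSpace K2] {ι1 ι2 : Type}
    (H1 : ι1 → K1 ≃ₜ K1) (H2 : ι2 → K2 ≃ₜ K2) (i : ι1 ⊕ ι2) : (K1 ⊕ K2) ≃ₜ (K1 ⊕ K2) :=
  match i with
  | Sum.inl i => (H1 i).sumCongr (Homeomorph.refl K2)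
  | Sum.inr j => (Homeomorph.refl K1).sumCongr (H2 j)

theorem orb_sum {K1 K2 : Type} [TopologicalSpace K1] [TopologicalSpace K2] {ι1 ι2 : Type}
    (H1 : ι1 → K1 ≃ₜ K1) (H2 : ι2 → K2 ≃ₜ K2) (x y : K1 ⊕ K2) :
    Orb (sumH H1 H2) x y ↔ (∃ a b, x = Sum.inl a ∧ y = Sum.inl b ∧ Orb H1 a b) ∨
      ∃ a b, x = Sum.inr a ∧ y = Sum.inr b ∧ Orb H2 a b := by
  let R : K1 ⊕ K2 → K1 ⊕ K2 → Prop := fun x y =>
    (∃ a b, x = Sum.inl a ∧ y = Sum.inl b ∧ Orb H1 a b) ∨
      ∃ a b, x = Sum.inr a ∧ y = Sum.inr b ∧ Orb H2 a b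
  have hR : Equivalence R := by
    refine ⟨?_, ?_, ?_⟩
    · rintro (a | a)
      · exact Or.inl ⟨a, a, rfl, rfl, (Orb.equivalence H1).refl a⟩
      · exact Or.inr ⟨a, a, rfl, rfl, (Orb.equivalence H2).refl a⟩
    · rintro x y (⟨a, b, rfl, rfl, h⟩ | ⟨a, b, rfl, rfl, h⟩)
      · exact Or.inl ⟨b, a, rfl, rfl, (Orb.equivalence H1).symm h⟩
      · exact Or.inr ⟨b, a, rfl, rfl, (Orb.equivalence H2).symm h⟩
    · rintro x y z (⟨a, b, rfl, rfl, h⟩ | ⟨a, b, rfl, rfl, h⟩)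
        (⟨a', b', h1, rfl, h'⟩ | ⟨a', b', h1, rfl, h'⟩)
      · rw [Sum.inl.injEq] at h1
        subst h1
        exact Or.inl ⟨a, b', rfl, rfl, (Orb.equivalence H1).trans h h'⟩
      · exact absurd h1 (by simp)
      · exact absurd h1 (by simp)
      · rw [Sum.inr.injEq] at h1
        subst h1
        exact Or.inr ⟨a, b', rfl, rfl, (Orb.equivalence H2).trans h h'⟩
  constructor
  · intro h
    refine Orb.sub hR ?_ h
    rintro (i | j) (a | a)
    · exact Or.inl ⟨a, H1 i a, rfl, rfl, Orb.gen H1 i a⟩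
    · exact Or.inr ⟨a, a, rfl, rfl, (Orb.equivalence H2).refl a⟩
    · exact Or.inl ⟨a, a, rfl, rfl, (Orb.equivalence H1).refl a⟩
    · exact Or.inr ⟨a, H2 j a, rfl, rfl, Orb.gen H2 j a⟩
  · rintro (⟨a, b, rfl, rfl, h⟩ | ⟨a, b, rfl, rfl, h⟩)
    · let R' : K1 → K1 → Prop := fun a b => Orb (sumH H1 H2) (Sum.inl a) (Sum.inl b)
      have hR' : Equivalence R' := ⟨fun a => (Orb.equivalence _).refl _,
        fun h => (Orb.equivalence _).symm h, fun h h' => (Orb.equivalence _).trans h h'⟩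
      exact Orb.sub hR' (fun i x => Orb.gen (sumH H1 H2) (Sum.inl i) (Sum.inl x)) h
    · let R' : K2 → K2 → Prop := fun a b => Orb (sumH H1 H2) (Sum.inr a) (Sum.inr b)
      have hR' : Equivalence R' := ⟨fun a => (Orb.equivalence _).refl _,
        fun h => (Orb.equivalence _).symm h, fun h h' => (Orb.equivalence _).trans h h'⟩
      exact Orb.sub hR' (fun i x => Orb.gen (sumH H1 H2) (Sum.inr i) (Sum.inr x)) h

theorem sum_step {X : Type} [MeasurableSpace X] [StandardBorelSpace X] {E : X → X → Prop}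
    (μ : Measure X) [IsProbabilityMeasure μ] {K1 K2 : Type}
    [TopologicalSpace K1] [CompactSpace K1] [TopologicalSpace.MetrizableSpace K1]
    [MeasurableSpace K1] [BorelSpace K1]
    [TopologicalSpace K2] [CompactSpace K2] [TopologicalSpace.MetrizableSpace K2]
    [MeasurableSpace K2] [BorelSpace K2] {ι1 ι2 : Type} [Countable ι1] [Countable ι2]
    (H1 : ι1 → K1 ≃ₜ K1) (H2 : ι2 → K2 ≃ₜ K2) {ψ1 : K1 → X} {ψ2 : K2 → X}
    (hψ1 : Measurable ψ1) (hψ2 : Measurable ψ2)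
    (hi1 : Function.Injective ψ1) (hi2 : Function.Injective ψ2) (hr1 : Inv E (range ψ1))
    (hr2 : Inv E (range ψ2)) (hd : Disjoint (range ψ1) (range ψ2))
    (hμ : μ (range ψ1 ∪ range ψ2)ᶜ = 0)
    (hE1 : ∀ x y, Orb H1 x y ↔ E (ψ1 x) (ψ1 y)) (hE2 : ∀ x y, Orb H2 x y ↔ E (ψ2 x) (ψ2 y)) :
    ∃ Y : Set X, MeasurableSet Y ∧ (∀ x y : X, E x y → x ∈ Y → y ∈ Y) ∧ μ Y = 1 ∧
      ∃ (G : Type) (_ : Group G) (_ : Countable G) (Z : Type) (_ : TopologicalSpace Z)
        (_ : CompactSpace Z) (_ : TopologicalSpace.MetrizableSpace Z) (_ : MeasurableSpace Z)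
        (_ : BorelSpace Z) (_ : MulAction G Z) (_ : ContinuousConstSMul G Z) (f : Y ≃ᵐ Z),
        ∀ a b : Y, E a b ↔ ∃ g : G, g • f a = f b := by
  letI m1 : MetricSpace K1 := TopologicalSpace.metrizableSpaceMetric K1
  letI m2 : MetricSpace K2 := TopologicalSpace.metrizableSpaceMetric K2
  have hmz : TopologicalSpace.MetrizableSpace (K1 ⊕ K2) := inferInstance
  letI mK : MeasurableSpace (K1 ⊕ K2) := borel (K1 ⊕ K2)
  haveI bK : BorelSpace (K1 ⊕ K2) := ⟨rfl⟩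
  let ψ : K1 ⊕ K2 → X := Sum.elim ψ1 ψ2
  have hψm : Measurable ψ := by
    intro S hS
    have h1 : ψ ⁻¹' S = Sum.inl '' (ψ1 ⁻¹' S) ∪ Sum.inr '' (ψ2 ⁻¹' S) := by
      ext k
      rcases k with a | a
      · constructor
        · intro h; exact Or.inl ⟨a, h, rfl⟩
        · rintro (⟨b, hb, h⟩ | ⟨b, hb, h⟩)
          · rw [← h]; exact hb
          · exact absurd h (by simp)
      · constructor
        · intro h; exact Or.inr ⟨a, h, rfl⟩
        · rintro (⟨b, hb, h⟩ | ⟨b, hb, h⟩)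
          · exact absurd h (by simp)
          · rw [← h]; exact hb
    rw [h1]
    exact (IsOpenEmbedding.inl.measurableEmbedding.measurableSet_image' (hψ1 hS)).union
      (IsOpenEmbedding.inr.measurableEmbedding.measurableSet_image' (hψ2 hS))
  have hrange : range ψ = range ψ1 ∪ range ψ2 := by
    ext x
    constructor
    · rintro ⟨a | a, rfl⟩
      · exact Or.inl ⟨a, rfl⟩
      · exact Or.inr ⟨a, rfl⟩
    · rintro (⟨a, rfl⟩ | ⟨a, rfl⟩)
      · exact ⟨Sum.inl a, rfl⟩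
      · exact ⟨Sum.inr a, rfl⟩
  have hcross : ∀ a b, ¬ E (ψ1 a) (ψ2 b) ∧ ¬ E (ψ2 b) (ψ1 a) := by
    intro a b
    exact ⟨fun h => disjoint_left.1 hd (hr1 _ _ h ⟨a, rfl⟩) ⟨b, rfl⟩,
      fun h => disjoint_left.1 hd ⟨a, rfl⟩ (hr2 _ _ h ⟨b, rfl⟩)⟩
  refine final_step μ (sumH H1 H2) hψm ?_ ?_ ?_ ?_
  · rintro (a | a) (b | b) h
    · exact congrArg Sum.inl (hi1 h)
    · exact (disjoint_left.1 hd ⟨a, rfl⟩ ⟨b, h.symm⟩).elim
    · exact (disjoint_left.1 hd ⟨b, rfl⟩ ⟨a, h⟩).elim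
    · exact congrArg Sum.inr (hi2 h)
  · rw [hrange]; exact hr1.union hr2
  · rw [hrange]; exact hμ
  · intro x y
    rw [orb_sum]
    rcases x with a | a <;> rcases y with b | b
    · constructor
      · rintro (⟨a', b', h1, h2, h⟩ | ⟨a', b', h1, h2, h⟩)
        · rw [Sum.inl.injEq] at h1 h2
          subst h1 h2
          exact (hE1 _ _).1 h
        · exact absurd h1 (by simp)
      · intro h
        exact Or.inl ⟨a, b, rfl, rfl, (hE1 _ _).2 h⟩
    · constructor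
      · rintro (⟨a', b', h1, h2, h⟩ | ⟨a', b', h1, h2, h⟩)
        · exact absurd h2 (by simp)
        · exact absurd h1 (by simp)
      · intro h; exact ((hcross a b).1 h).elim
    · constructor
      · rintro (⟨a', b', h1, h2, h⟩ | ⟨a', b', h1, h2, h⟩)
        · exact absurd h1 (by simp)
        · exact absurd h2 (by simp)
      · intro h; exact ((hcross b a).2 h).elim
    · constructor
      · rintro (⟨a', b', h1, h2, h⟩ | ⟨a', b', h1, h2, h⟩)
        · exact absurd h1 (by simp)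
        · rw [Sum.inr.injEq] at h1 h2
          subst h1 h2
          exact (hE2 _ _).1 h
      · intro h
        exact Or.inr ⟨a, b, rfl, rfl, (hE2 _ _).2 h⟩

theorem main {X : Type} [MeasurableSpace X] [StandardBorelSpace X] {E : X → X → Prop}
    (μ : Measure X) [IsProbabilityMeasure μ] (hE : Equivalence E)
    (hm : MeasurableSet {p : X × X | E p.1 p.2}) (hc : ∀ x : X, {y : X | E x y}.Countable)
    (hap : ∀ x : X, {y : X | E x y}.Infinite)
    (hns : ∀ Y : Set X, MeasurableSet Y → (∀ x y : X, E x y → x ∈ Y → y ∈ Y) → μ Y = 1 →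
      ¬ ∃ f : X → ℝ, Measurable f ∧ ∀ x ∈ Y, ∀ y ∈ Y, (E x y ↔ f x = f y)) :
    ∃ Y : Set X, MeasurableSet Y ∧ (∀ x y : X, E x y → x ∈ Y → y ∈ Y) ∧ μ Y = 1 ∧
      ∃ (G : Type) (_ : Group G) (_ : Countable G) (Z : Type) (_ : TopologicalSpace Z)
        (_ : CompactSpace Z) (_ : TopologicalSpace.MetrizableSpace Z) (_ : MeasurableSpace Z)
        (_ : BorelSpace Z) (_ : MulAction G Z) (_ : ContinuousConstSMul G Z) (f : Y ≃ᵐ Z),
        ∀ a b : Y, E a b ↔ ∃ g : G, g • f a = f b := by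
  have hX : Nonempty X := by
    by_contra h
    rw [not_nonempty_iff] at h
    have h1 : μ univ = 1 := measure_univ
    rw [univ_eq_empty_iff.2 h, measure_empty] at h1
    exact zero_ne_one h1
  obtain ⟨F⟩ := exists_FM hE hm hc
  obtain ⟨AC, hACm, hACi, hACc, hACmax⟩ := exists_compressible_part hE F μ
  obtain ⟨θ, hθ, hθi, hθE, hNm, hN0⟩ := exists_null_theta hE F μ (by
    intro T hT hPT h0
    have hsm := F.measurableSet_sat hT
    refine hns (sat E T) hsm (inv_sat hE T) ((prob_compl_eq_zero_iff hsm).1 h0) ?_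
    exact PT.smooth hE F hT hPT)
  let N : Set X := sat E (range θ)
  have hNi : Inv E N := inv_sat hE _
  let v1 : ℕ → Bool := fun _ => false
  let v2 : ℕ → Bool := fun _ => true
  have hv : v1 ≠ v2 := fun h => by
    have := congrFun h 0
    simp [v1, v2] at this
  have hθv : ∀ v, Measurable (θ ∘ tag v) := fun v => hθ.comp (measurable_tag v)
  have hθvi : ∀ v, Function.Injective (θ ∘ tag v) := fun v => hθi.comp (tag_injective v)
  have hθvE : ∀ v a b, Ev a b ↔ E ((θ ∘ tag v) a) ((θ ∘ tag v) b) := by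
    intro v a b
    show Ev a b ↔ E (θ (tag v a)) (θ (tag v b))
    rw [← hθE, ev_tag]
    simp
  have hsub : ∀ v, sat E (range (θ ∘ tag v)) ⊆ N := fun v => sat_mono (by
    rintro _ ⟨a, rfl⟩; exact ⟨_, rfl⟩)
  have hdis : Disjoint (sat E (range (θ ∘ tag v1))) (sat E (range (θ ∘ tag v2))) := by
    rw [Set.disjoint_left]
    rintro x ⟨_, ⟨a, rfl⟩, ha⟩ ⟨_, ⟨b, rfl⟩, hb⟩
    have h1 : E (θ (tag v1 a)) (θ (tag v2 b)) := hE.trans (hE.symm ha) hb
    rw [← hθE, ev_tag] at h1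
    exact hv h1.2
  let A1 : Set X := AC \ N
  let A2 : Set X := ACᶜ \ N
  obtain ⟨K1, t1, c1, z1, s1, b1, ι1, n1, H1, ψ1, p1, p2, p3, p4, p5, p6⟩ :=
    real_compressible hE F μ (A := A1) (hACm.diff hNm) (hACi.diff hE hNi)
      (hACc.mono sdiff_subset) (hθv v1) (hθvi v1) (hθvE v1)
      (disjoint_left.2 fun x hx hx' => hx.2 (hsub v1 hx'))
  obtain ⟨K2, t2, c2, z2, s2, b2, ι2, n2, H2, ψ2, q1, q2, q3, q4, q5, q6⟩ :=
    real_finite hE F hap μ (A := A2) (hACm.compl.diff hNm) ((hACi.compl hE).diff hE hNi)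
      (by
        intro B hB hBA hBc
        have h1 := hACmax B hB hBc
        have h2 : sat E B ⊆ ACᶜ := (hACi.compl hE).sat_subset hE fun x hx => (hBA hx).1
        refine measure_mono_null ?_ h1
        exact fun x hx => ⟨hx, h2 hx⟩) (hθv v2) (hθvi v2) (hθvE v2)
      (disjoint_left.2 fun x hx hx' => hx.2 (hsub v2 hx'))
  refine sum_step μ H1 H2 p1 q1 p2 q2 p3 q3 ?_ ?_ p6 q6
  · refine Disjoint.mono p4 q4 ?_
    rw [Set.disjoint_left]
    rintro x (hx | hx) (hx' | hx')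
    · exact hx'.1 hx.1
    · exact hx.2 (hsub v2 hx')
    · exact hx'.2 (hsub v1 hx)
    · exact disjoint_left.1 hdis hx hx'
  · refine measure_mono_null ?_ (measure_union_null hN0 (measure_union_null p5 q5))
    intro x hx
    by_cases h1 : x ∈ N
    · exact Or.inl h1
    · right
      by_cases h2 : x ∈ AC
      · exact Or.inl ⟨⟨h2, h1⟩, fun h => hx (Or.inl h)⟩
      · exact Or.inr ⟨⟨h2, h1⟩, fun h => hx (Or.inr h)⟩

end Pool.Agent.Work.MP_97bde0_lc
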