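import Pool.Agent.Work.MP_97bde0_lc.Theta

/-!
# Embedding eventual equality on Baire space with null saturation
-/

set_option autoImplicit false

open Set MeasureTheory Topology

namespace Pool.Agent.Work.MP_97bde0_lc

/-- coding a sequence of naturals by bits -/
def encBits (a : ℕ → ℕ) : ℕ → Bool := fun n => decide (a (Nat.unpair n).1 = (Nat.unpair n).2)

theorem measurable_encBits : Measurable encBits := by
  refine measurable_pi_lambda _ fun n => ?_
  exact (measurable_of_countable (fun m : ℕ => decide (m = (Nat.unpair n).2))).comp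
    (measurable_pi_apply _)

theorem encBits_injective : Function.Injective encBits := by
  intro a b h
  funext k
  have := congrFun h (Nat.pair k (a k))
  simp only [encBits, Nat.unpair_pair, decide_true] at this
  have h2 : b k = a k := by simpa using this.symm
  exact h2.symm

theorem ev_encBits (a b : ℕ → ℕ) : Ev a b ↔ Ev (encBits a) (encBits b) := by
  constructor
  · rintro ⟨n, hn⟩
    -- differences are at the positions `(k, a k)`, `(k, b k)` with `k < n`
    refine ⟨∑ k ∈ Finset.range n, (Nat.pair k (a k) + Nat.pair k (b k)) + 1, fun m hm => ?_⟩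
    simp only [encBits]
    by_cases hk : n ≤ (Nat.unpair m).1
    · rw [hn _ hk]
    · push Not at hk
      have hle : Nat.pair (Nat.unpair m).1 (a (Nat.unpair m).1) +
          Nat.pair (Nat.unpair m).1 (b (Nat.unpair m).1) ≤
          ∑ k ∈ Finset.range n, (Nat.pair k (a k) + Nat.pair k (b k)) :=
        Finset.single_le_sum (f := fun k => Nat.pair k (a k) + Nat.pair k (b k))
          (fun _ _ => Nat.zero_le _) (Finset.mem_range.2 hk)
      have h1 : a (Nat.unpair m).1 ≠ (Nat.unpair m).2 := by
        intro h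
        rw [h, Nat.pair_unpair] at hle
        omega
      have h2 : b (Nat.unpair m).1 ≠ (Nat.unpair m).2 := by
        intro h
        rw [h, Nat.pair_unpair] at hle
        omega
      simp [h1, h2]
  · rintro ⟨n, hn⟩
    refine ⟨n, fun k hk => ?_⟩
    have := hn (Nat.pair k (a k)) (hk.trans (Nat.left_le_pair _ _))
    simp only [encBits, Nat.unpair_pair, decide_true] at this
    have h2 : b k = a k := by simpa using this.symm
    exact h2.symm

/-- code of the first `k` bits -/
def codeFirst (v : ℕ → Bool) (k : ℕ) : ℕ :=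
  Encodable.encode (List.ofFn (fun i : Fin k => v i))

theorem codeFirst_eq {v w : ℕ → Bool} {k : ℕ} (h : codeFirst v k = codeFirst w k) :
    ∀ i < k, v i = w i := by
  intro i hi
  have h1 := Encodable.encode_injective h
  have h2 := congrFun (List.ofFn_injective h1) ⟨i, hi⟩
  exact h2

theorem codeFirst_congr {v w : ℕ → Bool} {k : ℕ} (h : ∀ i < k, v i = w i) :
    codeFirst v k = codeFirst w k := by
  unfold codeFirst
  congr 2
  funext i
  exact h i i.2

/-- tagging a sequence by a real -/
def tag (v : ℕ → Bool) (a : ℕ → ℕ) : ℕ → ℕ := fun k => Nat.pair (a k) (codeFirst v k)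

theorem measurable_tag (v : ℕ → Bool) : Measurable (tag v) := by
  refine measurable_pi_lambda _ fun k => ?_
  exact (measurable_of_countable (fun m : ℕ => Nat.pair m (codeFirst v k))).comp
    (measurable_pi_apply _)

theorem measurable_tag2 : Measurable (fun p : (ℕ → Bool) × (ℕ → ℕ) => tag p.1 p.2) := by
  refine measurable_pi_lambda _ fun k => ?_
  have h1 : Measurable (fun v : ℕ → Bool => codeFirst v k) :=
    measurable_of_first k _ fun α β h => codeFirst_congr h
  have h2 : Measurable (fun p : (ℕ → Bool) × (ℕ → ℕ) => (p.2 k, codeFirst p.1 k)) :=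
    ((measurable_pi_apply k).comp measurable_snd).prodMk (h1.comp measurable_fst)
  exact (measurable_of_countable (fun q : ℕ × ℕ => Nat.pair q.1 q.2)).comp h2

theorem tag_injective (v : ℕ → Bool) : Function.Injective (tag v) := by
  intro a b h
  funext k
  exact (Nat.pair_eq_pair.1 (congrFun h k)).1

theorem ev_tag (v w : ℕ → Bool) (a b : ℕ → ℕ) : Ev (tag v a) (tag w b) ↔ Ev a b ∧ v = w := by
  constructor
  · rintro ⟨n, hn⟩
    refine ⟨⟨n, fun m hm => (Nat.pair_eq_pair.1 (hn m hm)).1⟩, ?_⟩
    funext i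
    exact codeFirst_eq (Nat.pair_eq_pair.1 (hn (max n (i + 1)) (le_max_left _ _))).2 i
      (lt_of_lt_of_le (Nat.lt_succ_self i) (le_max_right _ _))
  · rintro ⟨⟨n, hn⟩, rfl⟩
    exact ⟨n, fun m hm => by simp only [tag]; rw [hn m hm]⟩

section

variable {X : Type*} [MeasurableSpace X] [StandardBorelSpace X] {E : X → X → Prop}

theorem uncountable_cantor : ¬ Countable (ℕ → Bool) := by
  intro h1
  obtain ⟨f, hf⟩ := exists_surjective_nat (ℕ → Bool)
  obtain ⟨n, hn⟩ := hf (fun n => !(f n n))
  have := congrFun hn n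
  simp at this

/-- a nonsmooth relation contains an injective copy of eventual equality on sequences of
naturals with null saturation. -/
theorem exists_null_theta (hE : Equivalence E) (F : FM E) (μ : Measure X)
    [IsFiniteMeasure μ] (hns : ∀ T, MeasurableSet T → PT E T → μ (sat E T)ᶜ ≠ 0) :
    ∃ θ : (ℕ → ℕ) → X, Measurable θ ∧ Function.Injective θ ∧
      (∀ a b, Ev a b ↔ E (θ a) (θ b)) ∧ MeasurableSet (sat E (range θ)) ∧
      μ (sat E (range θ)) = 0 := by
  obtain ⟨T, hT1, hT2, hT3⟩ := exists_smooth_part hE F μ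
  have hN0 := hns T hT1 hT2
  have hne : Nonempty X := by
    obtain ⟨x, -⟩ := nonempty_of_measure_ne_zero hN0
    exact ⟨x⟩
  have hNm : MeasurableSet (sat E T)ᶜ := (F.measurableSet_sat hT1).compl
  obtain ⟨θ, hθ1, hθ2, hθ3⟩ := exists_theta hE F μ hNm hN0 (by
    intro C hCN hC
    obtain ⟨T', hT'1, hT'2, hT'3, hT'4⟩ := PT.minimal hE F hC
    refine ⟨sat E T' \ sat E T, hT3 T' hT'2 hT'3, ?_⟩
    rintro x ⟨hxC, hxZ⟩ hfin
    exact hxZ ⟨hT'4 x hxC hfin, hCN hxC⟩)
  let ϑ : (ℕ → Bool) → (ℕ → ℕ) → X := fun v a => θ (encBits (tag v a))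
  have h1 : ∀ v, Measurable (ϑ v) := fun v =>
    hθ1.comp (measurable_encBits.comp (measurable_tag v))
  have h2 : ∀ v, Function.Injective (ϑ v) := fun v =>
    hθ2.comp (encBits_injective.comp (tag_injective v))
  have h3 : ∀ v w a b, E (ϑ v a) (ϑ w b) ↔ Ev a b ∧ v = w := by
    intro v w a b
    rw [← hθ3, ← ev_encBits, ev_tag]
  have h4 : ∀ v, MeasurableSet (sat E (range (ϑ v))) := fun v =>
    F.measurableSet_sat ((h1 v).measurableEmbedding (h2 v)).measurableSet_range
  have h5 : Pairwise (Function.onFun Disjoint fun v => sat E (range (ϑ v))) := by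
    intro v w hvw
    show Disjoint _ _
    rw [Set.disjoint_left]
    rintro x ⟨_, ⟨a, rfl⟩, ha⟩ ⟨_, ⟨b, rfl⟩, hb⟩
    exact hvw ((h3 v w a b).1 (hE.trans (hE.symm ha) hb)).2
  have h6 : {v | 0 < μ (sat E (range (ϑ v)))}.Countable :=
    Measure.countable_meas_pos_of_disjoint_iUnion h4 h5
  obtain ⟨v, hv⟩ : ∃ v, v ∉ {v | 0 < μ (sat E (range (ϑ v)))} := by
    by_contra hcon
    push Not at hcon
    apply uncountable_cantor
    have : {v | 0 < μ (sat E (range (ϑ v)))} = univ := eq_univ_of_forall hcon
    rw [this] at h6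
    exact countable_univ_iff.1 h6
  refine ⟨ϑ v, h1 v, h2 v, fun a b => ?_, h4 v, ?_⟩
  · rw [h3]; simp
  · simpa using hv

end

end Pool.Agent.Work.MP_97bde0_lc
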