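import Pool.Agent.Work.MP_97bde0_lc.CSB
import Pool.Agent.Work.MP_97bde0_lc.Null

/-!
# Orbit relations of countable families of homeomorphisms, and assembly of realizations
-/

set_option autoImplicit false

open Set MeasureTheory Topology

namespace Pool.Agent.Work.MP_97bde0_lc

section orb

variable {K : Type*} [TopologicalSpace K] {ι : Type*}

/-- orbit equivalence relation of a family of homeomorphisms -/
def Orb (H : ι → K ≃ₜ K) : K → K → Prop := Relation.EqvGen (fun x y => ∃ i, H i x = y)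

theorem Orb.equivalence (H : ι → K ≃ₜ K) : Equivalence (Orb H) := Relation.EqvGen.is_equivalence _

theorem Orb.gen (H : ι → K ≃ₜ K) (i : ι) (x : K) : Orb H x (H i x) :=
  Relation.EqvGen.rel _ _ ⟨i, rfl⟩

theorem Orb.sub {H : ι → K ≃ₜ K} {R : K → K → Prop} (hR : Equivalence R)
    (h : ∀ i x, R x (H i x)) {x y : K} (hxy : Orb H x y) : R x y := by
  induction hxy with
  | rel x y h' => obtain ⟨i, rfl⟩ := h'; exact h i x
  | refl x => exact hR.refl x
  | symm x y _ ih => exact hR.symm ih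
  | trans x y z _ _ ih1 ih2 => exact hR.trans ih1 ih2

theorem orb_iff (H : ι → K ≃ₜ K) (x y : K) :
    Orb H x y ↔ ∃ g : FreeGroup ι, FreeGroup.lift H g x = y := by
  constructor
  · intro h
    induction h with
    | rel x y h' =>
      obtain ⟨i, rfl⟩ := h'
      exact ⟨FreeGroup.of i, by rw [FreeGroup.lift_apply_of]⟩
    | refl x => exact ⟨1, by rw [map_one]; rfl⟩
    | symm x y _ ih =>
      obtain ⟨g, rfl⟩ := ih
      refine ⟨g⁻¹, ?_⟩
      rw [map_inv]
      exact (FreeGroup.lift H g).symm_apply_apply x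
    | trans x y z _ _ ih1 ih2 =>
      obtain ⟨g, rfl⟩ := ih1
      obtain ⟨g', rfl⟩ := ih2
      refine ⟨g' * g, ?_⟩
      rw [map_mul]; rfl
  · rintro ⟨g, rfl⟩
    induction g using FreeGroup.induction_on generalizing x with
    | C1 => rw [map_one]; exact (Orb.equivalence H).refl x
    | of i => rw [FreeGroup.lift_apply_of]; exact Orb.gen H i x
    | inv_of i ih =>
      have h := ih ((FreeGroup.lift H (FreeGroup.of i)⁻¹) x)
      have h2 : FreeGroup.lift H (FreeGroup.of i) (FreeGroup.lift H (FreeGroup.of i)⁻¹ x) = x := by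
        rw [map_inv]
        exact (FreeGroup.lift H (FreeGroup.of i)).apply_symm_apply x
      rw [h2] at h
      exact (Orb.equivalence H).symm h
    | mul a b iha ihb =>
      rw [map_mul]
      exact (Orb.equivalence H).trans (ihb x) (iha _)

theorem exists_FM_orb [Countable ι] [MeasurableSpace K] [BorelSpace K] (H : ι → K ≃ₜ K) :
    Nonempty (FM (Orb H)) := by
  obtain ⟨e, he⟩ := exists_surjective_nat (FreeGroup ι)
  exact ⟨{ D := fun _ => univ
           ρ := fun k => FreeGroup.lift H (e k)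
           mD := fun _ => MeasurableSet.univ
           mρ := fun k => (FreeGroup.lift H (e k)).continuous.measurable
           inj := fun k => (FreeGroup.lift H (e k)).injective.injOn
           rel := fun k x _ => (orb_iff H _ _).2 ⟨e k, rfl⟩
           cov := fun x y h => by
             obtain ⟨g, hg⟩ := (orb_iff H _ _).1 h
             obtain ⟨k, rfl⟩ := he g
             exact ⟨k, mem_univ _, hg⟩ }⟩

end orb

/-- the final step: from a realization by a family of homeomorphisms -/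
theorem final_step {X : Type} [MeasurableSpace X] [StandardBorelSpace X] {E : X → X → Prop}
    (μ : Measure X) [IsProbabilityMeasure μ] {K : Type} [TopologicalSpace K] [CompactSpace K]
    [TopologicalSpace.MetrizableSpace K] [MeasurableSpace K] [BorelSpace K] {ι : Type}
    [Countable ι] (H : ι → K ≃ₜ K) {ψ : K → X} (hψ : Measurable ψ)
    (hi : Function.Injective ψ) (hr : Inv E (range ψ)) (hμ : μ (range ψ)ᶜ = 0)
    (hE : ∀ x y, Orb H x y ↔ E (ψ x) (ψ y)) :
    ∃ Y : Set X, MeasurableSet Y ∧ (∀ x y : X, E x y → x ∈ Y → y ∈ Y) ∧ μ Y = 1 ∧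
      ∃ (G : Type) (_ : Group G) (_ : Countable G) (Z : Type) (_ : TopologicalSpace Z)
        (_ : CompactSpace Z) (_ : TopologicalSpace.MetrizableSpace Z) (_ : MeasurableSpace Z)
        (_ : BorelSpace Z) (_ : MulAction G Z) (_ : ContinuousConstSMul G Z) (f : Y ≃ᵐ Z),
        ∀ a b : Y, E a b ↔ ∃ g : G, g • f a = f b := by
  letI := TopologicalSpace.metrizableSpaceMetric K
  have hemb := hψ.measurableEmbedding hi
  have hYm : MeasurableSet (range ψ) := hemb.measurableSet_range
  refine ⟨range ψ, hYm, hr, ?_, ?_⟩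
  · exact (prob_compl_eq_zero_iff hYm).1 hμ
  let act : MulAction (FreeGroup ι) K :=
    { smul := fun g x => FreeGroup.lift H g x
      one_smul := fun x => by
        show FreeGroup.lift H 1 x = x
        rw [map_one]; rfl
      mul_smul := fun g g' x => by
        show FreeGroup.lift H (g * g') x = FreeGroup.lift H g (FreeGroup.lift H g' x)
        rw [map_mul]; rfl }
  let f : range ψ ≃ᵐ K := hemb.equivRange.symm
  have hf : ∀ a : range ψ, ψ (f a) = a := fun a => by
    obtain ⟨_, k, rfl⟩ := a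
    have : hemb.equivRange.symm ⟨ψ k, mem_range_self k⟩ = k := hemb.equivRange_symm_apply_mk k
    exact congrArg ψ this
  refine ⟨FreeGroup ι, inferInstance, inferInstance, K, inferInstance, inferInstance,
    inferInstance, inferInstance, inferInstance, act, ⟨fun g => ?_⟩, f, fun a b => ?_⟩
  · exact (FreeGroup.lift H g).continuous
  · rw [← hf a, ← hf b, ← hE, orb_iff]
    rfl

/-- Assembly of a realization from two parts. -/
theorem assemble {X K : Type*} [MeasurableSpace X] [StandardBorelSpace X]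
    [MeasurableSpace K] [StandardBorelSpace K] {E : X → X → Prop} (hE : Equivalence E)
    (F : FM E) {R : K → K → Prop} (hR : Equivalence R) {Y : Set X} (hY : MeasurableSet Y)
    (hYE : Inv E Y) {ψ1 : X → K} (hψ1 : Measurable ψ1) (hψi : InjOn ψ1 Y)
    (hψE : ∀ x ∈ Y, ∀ y ∈ Y, (E x y ↔ R (ψ1 x) (ψ1 y))) (hψr : Inv R (ψ1 '' Y))
    {a : K → ℕ → ℕ} (ha : Measurable a) (hai : InjOn a (ψ1 '' Y)ᶜ)
    (haR : ∀ x ∉ ψ1 '' Y, ∀ y ∉ ψ1 '' Y, (R x y ↔ Ev (a x) (a y)))
    (hc : Copies R (ψ1 '' Y)ᶜ) {θ : (ℕ → ℕ) → X} (hθ : Measurable θ)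
    (hθi : Function.Injective θ) (hθE : ∀ a b, Ev a b ↔ E (θ a) (θ b))
    (hYθ : Disjoint Y (sat E (range θ))) :
    ∃ ψ : K → X, Measurable ψ ∧ Function.Injective ψ ∧ Inv E (range ψ) ∧ Y ⊆ range ψ ∧
      range ψ ⊆ Y ∪ sat E (range θ) ∧ ∀ x y, R x y ↔ E (ψ x) (ψ y) := by
  classical
  rcases isEmpty_or_nonempty X with hX | hX
  · have hK : IsEmpty K := ⟨fun k => hX.false (θ (a k))⟩
    refine ⟨fun k => (hK.false k).elim, measurable_of_empty _, fun k => (hK.false k).elim,
      fun x => (hX.false x).elim, fun x => (hX.false x).elim, fun x => (hX.false x).elim,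
      fun k => (hK.false k).elim⟩
  have hYsb : StandardBorelSpace Y := hY.standardBorel
  have hTm : MeasurableSet (ψ1 '' Y) := hY.image_of_measurable_injOn hψ1 hψi
  have hQsb : StandardBorelSpace ((ψ1 '' Y)ᶜ : Set K) := hTm.compl.standardBorel
  obtain ⟨e, he, heY⟩ := exists_leftInv hψ1 hY hψi
  -- the remainder
  let Q : Set K := (ψ1 '' Y)ᶜ
  let j : Q → X := fun q => θ (a q)
  have hj : Measurable j := hθ.comp (ha.comp measurable_subtype_coe)
  have hji : Function.Injective j := fun q q' h => Subtype.ext (hai q.2 q'.2 (hθi h))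
  have hjE : ∀ q q' : Q, R (q : K) (q' : K) ↔ E (j q) (j q') := fun q q' => by
    rw [haR q q.2 q' q'.2, hθE]
  have hQinv : Inv R Q := hψr.compl hR
  have hcQ : Copies (fun q q' : Q => R (q : K) (q' : K)) univ := by
    obtain ⟨p, hp1, hp2, hp3⟩ := hc
    rcases isEmpty_or_nonempty Q with hQ | ⟨⟨q0⟩⟩
    · exact ⟨fun _ q => q, fun _ => measurable_id, fun _ q => (hQ.false q).elim,
        fun _ _ q => (hQ.false q).elim⟩
    have hpQ : ∀ n, ∀ x ∈ Q, p n x ∈ Q := fun n x hx => hQinv _ _ (hp2 n x hx) hx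
    let p' : ℕ → Q → Q := fun n q => ⟨p n q, hpQ n q q.2⟩
    exact ⟨p', fun n => ((hp1 n).comp measurable_subtype_coe).subtype_mk,
      fun n q _ => hp2 n q q.2, fun m n q _ q' _ h => by
        obtain ⟨h1, h2⟩ := hp3 m n q q.2 q' q'.2 (congrArg Subtype.val h)
        exact ⟨h1, Subtype.ext h2⟩⟩
  obtain ⟨ψ2, h21, h22, h23, h24⟩ := exists_invariant_embedding hE F hj hji hjE hcQ
  -- glue
  obtain ⟨x0⟩ := hX
  let ψ : K → X := fun k => if h : k ∈ Q then ψ2 ⟨k, h⟩ else e k
  have hψQ : ∀ k (h : k ∈ Q), ψ k = ψ2 ⟨k, h⟩ := fun k h => dif_pos h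
  have hψT : ∀ y ∈ Y, ψ (ψ1 y) = y := fun y hy => by
    have : ψ1 y ∉ Q := fun h => h ⟨y, hy, rfl⟩
    show (if h : ψ1 y ∈ Q then ψ2 ⟨ψ1 y, h⟩ else e (ψ1 y)) = y
    rw [dif_neg this, heY y hy]
  have hsub : sat E (range j) ⊆ sat E (range θ) := sat_mono (by
    rintro _ ⟨q, rfl⟩; exact ⟨_, rfl⟩)
  have hψQ' : ∀ k ∈ Q, ψ k ∈ sat E (range j) := fun k hk => by
    rw [hψQ k hk, ← h23]; exact ⟨_, rfl⟩
  have hcase : ∀ k, k ∈ Q ∨ ∃ y ∈ Y, ψ1 y = k := fun k => by
    by_cases h : k ∈ Q
    · exact Or.inl h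
    · right
      have : k ∈ ψ1 '' Y := by simpa [Q] using h
      exact this
  have hdisj : ∀ x ∈ Y, ∀ y ∈ sat E (range j), ¬ E x y := by
    intro x hx y hy h
    exact disjoint_left.1 hYθ (hYE _ _ h hx) (hsub hy)
  refine ⟨ψ, ?_, ?_, ?_, ?_, ?_, ?_⟩
  · exact Measurable.dite h21 (he.comp measurable_subtype_coe) hTm.compl
  · intro k k' h
    rcases hcase k with hk | ⟨y, hy, rfl⟩ <;> rcases hcase k' with hk' | ⟨y', hy', rfl⟩
    · rw [hψQ k hk, hψQ k' hk'] at h
      exact congrArg Subtype.val (h22 h)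
    · exfalso
      have h1 := hψQ' k hk
      rw [h, hψT y' hy'] at h1
      exact hdisj y' hy' y' h1 (hE.refl _)
    · exfalso
      have h1 := hψQ' k' hk'
      rw [← h, hψT y hy] at h1
      exact hdisj y hy y h1 (hE.refl _)
    · rw [hψT y hy, hψT y' hy'] at h
      rw [h]
  · rintro x y hxy ⟨k, rfl⟩
    rcases hcase k with hk | ⟨x, hx, rfl⟩
    · have h1 := hψQ' k hk
      have h2 : y ∈ sat E (range j) := inv_sat hE _ _ _ hxy h1
      rw [← h23] at h2
      obtain ⟨q, rfl⟩ := h2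
      exact ⟨q, hψQ q q.2⟩
    · rw [hψT x hx] at hxy
      exact ⟨ψ1 y, hψT y (hYE _ _ hxy hx)⟩
  · intro y hy
    exact ⟨ψ1 y, hψT y hy⟩
  · rintro _ ⟨k, rfl⟩
    rcases hcase k with hk | ⟨x, hx, rfl⟩
    · exact Or.inr (hsub (hψQ' k hk))
    · rw [hψT x hx]; exact Or.inl hx
  · intro k k'
    rcases hcase k with hk | ⟨y, hy, rfl⟩ <;> rcases hcase k' with hk' | ⟨y', hy', rfl⟩
    · rw [hψQ k hk, hψQ k' hk']
      have h1 := h24 ⟨k, hk⟩
      have h2 := h24 ⟨k', hk'⟩
      have h3 := hjE ⟨k, hk⟩ ⟨k', hk'⟩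
      constructor
      · intro h
        exact hE.trans (hE.symm h1) (hE.trans (h3.1 h) h2)
      · intro h
        exact h3.2 (hE.trans h1 (hE.trans h (hE.symm h2)))
    · constructor
      · intro h
        exact (hQinv _ _ h hk ⟨y', hy', rfl⟩).elim
      · intro h
        rw [hψT y' hy'] at h
        exact (hdisj y' hy' _ (hψQ' k hk) (hE.symm h)).elim
    · constructor
      · intro h
        exact (hQinv _ _ (hR.symm h) hk' ⟨y, hy, rfl⟩).elim
      · intro h
        rw [hψT y hy] at h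
        exact (hdisj y hy _ (hψQ' k' hk') h).elim
    · rw [hψT y hy, hψT y' hy']
      exact (hψE y hy y' hy').symm

end Pool.Agent.Work.MP_97bde0_lc
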