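import Pool.Agent.Work.MP_97bde0_lc.FM

/-!
# Borel Cantor-Schroeder-Bernstein with a control relation, and invariant embeddings
-/

set_option autoImplicit false

open Set MeasureTheory Topology

namespace Pool.Agent.Work.MP_97bde0_lc

theorem exists_fixed {S T : Type*} [MeasurableSpace S] [StandardBorelSpace S]
    [MeasurableSpace T] [StandardBorelSpace T] {f : S → T} {g : T → S}
    (hf : MeasurableEmbedding f) (hg : MeasurableEmbedding g) :
    ∃ A : Set S, MeasurableSet A ∧ (g '' (f '' A)ᶜ)ᶜ = A := by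
  let F : Set S → Set S := fun A => (g '' (f '' A)ᶜ)ᶜ
  have Fmono : ∀ {A B}, A ⊆ B → F A ⊆ F B := fun h =>
    compl_subset_compl.mpr <| Set.image_mono <| compl_subset_compl.mpr <| Set.image_mono h
  let X : ℕ → Set S := fun n => F^[n] univ
  refine ⟨iInter X, ?_, ?_⟩
  · refine MeasurableSet.iInter fun n ↦ ?_
    induction n with
    | zero => exact MeasurableSet.univ
    | succ n ih =>
      show MeasurableSet (F^[n + 1] univ)
      rw [Function.iterate_succ', Function.comp_apply]
      exact (hg.measurableSet_image' (hf.measurableSet_image' ih).compl).compl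
  apply subset_antisymm
  · apply subset_iInter
    intro n
    cases n with
    | zero => exact subset_univ _
    | succ n =>
      show _ ⊆ F^[n + 1] univ
      rw [Function.iterate_succ', Function.comp_apply]
      exact Fmono (iInter_subset _ n)
  · rintro x hx ⟨y, hy, rfl⟩
    rw [mem_iInter] at hx
    apply hy
    rw [hf.injective.injOn.image_iInter_eq]
    rw [mem_iInter]
    intro n
    specialize hx n.succ
    change _ ∈ F^[n + 1] univ at hx
    rw [Function.iterate_succ', Function.comp_apply] at hx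
    by_contra h
    apply hx
    exact ⟨y, h, rfl⟩

theorem csb {S T : Type*} [MeasurableSpace S] [StandardBorelSpace S]
    [MeasurableSpace T] [StandardBorelSpace T] {f : S → T} {g : T → S}
    (hf : Measurable f) (hfi : Function.Injective f)
    (hg : Measurable g) (hgi : Function.Injective g) (Q : S → T → Prop)
    (h1 : ∀ s, Q s (f s)) (h2 : ∀ t, Q (g t) t) :
    ∃ e : S ≃ᵐ T, ∀ s, Q s (e s) := by
  classical
  rcases isEmpty_or_nonempty T with hT | hT
  · have hS : IsEmpty S := ⟨fun s => hT.false (f s)⟩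
    exact ⟨⟨Equiv.equivOfIsEmpty S T, measurable_of_empty _, measurable_of_empty _⟩,
      fun s => (hS.false s).elim⟩
  have hfe := hf.measurableEmbedding hfi
  have hge := hg.measurableEmbedding hgi
  obtain ⟨A, hA, hfix⟩ := exists_fixed hfe hge
  have hfix' : g '' (f '' A)ᶜ = Aᶜ := by
    have := congrArg compl hfix
    rwa [compl_compl] at this
  obtain ⟨g', hg', hgg'⟩ := exists_leftInv hg MeasurableSet.univ hgi.injOn
  have hgg : ∀ t, g' (g t) = t := fun t => hgg' t (mem_univ _)
  have hAc : ∀ s ∉ A, ∃ t ∉ f '' A, g t = s := by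
    intro s hs
    have : s ∈ g '' (f '' A)ᶜ := by rw [hfix']; exact hs
    obtain ⟨t, ht, rfl⟩ := this
    exact ⟨t, ht, rfl⟩
  have hgA : ∀ t ∉ f '' A, g t ∉ A := by
    intro t ht hgt
    have : g t ∈ Aᶜ := by rw [← hfix']; exact ⟨t, ht, rfl⟩
    exact this hgt
  let e : S → T := fun s => if s ∈ A then f s else g' s
  have he : Measurable e := Measurable.ite hA hf hg'
  have heA : ∀ s ∈ A, e s = f s := fun s hs => if_pos hs
  have heA' : ∀ s ∉ A, e s = g' s := fun s hs => if_neg hs
  have hei : Function.Injective e := by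
    intro s s' h
    by_cases hs : s ∈ A <;> by_cases hs' : s' ∈ A
    · rw [heA s hs, heA s' hs'] at h; exact hfi h
    · obtain ⟨t, ht, rfl⟩ := hAc s' hs'
      rw [heA s hs, heA' _ hs', hgg] at h
      exact (ht ⟨s, hs, h⟩).elim
    · obtain ⟨t, ht, rfl⟩ := hAc s hs
      rw [heA s' hs', heA' _ hs, hgg] at h
      exact (ht ⟨s', hs', h.symm⟩).elim
    · obtain ⟨t, ht, rfl⟩ := hAc s hs
      obtain ⟨t', ht', rfl⟩ := hAc s' hs'
      rw [heA' _ hs, heA' _ hs', hgg, hgg] at h
      rw [h]
  have hes : Function.Surjective e := by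
    intro t
    by_cases ht : t ∈ f '' A
    · obtain ⟨s, hs, rfl⟩ := ht
      exact ⟨s, heA s hs⟩
    · exact ⟨g t, by rw [heA' _ (hgA t ht), hgg]⟩
  have hee := he.measurableEmbedding hei
  refine ⟨⟨Equiv.ofBijective e ⟨hei, hes⟩, he, ?_⟩, ?_⟩
  · intro B hB
    rw [← Equiv.image_eq_preimage_symm]
    exact hee.measurableSet_image' hB
  · intro s
    show Q s (e s)
    by_cases hs : s ∈ A
    · rw [heA s hs]; exact h1 s
    · obtain ⟨t, ht, rfl⟩ := hAc s hs
      rw [heA' _ hs, hgg]; exact h2 t

/-- An embedding of a properly infinite relation can be improved to one with invariant image. -/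
theorem exists_invariant_embedding {X R : Type*} [MeasurableSpace X] [StandardBorelSpace X]
    [MeasurableSpace R] [StandardBorelSpace R] {E : X → X → Prop} (hE : Equivalence E)
    (F : FM E) {Fr : R → R → Prop} {j : R → X} (hj : Measurable j)
    (hji : Function.Injective j) (hjE : ∀ x y, Fr x y ↔ E (j x) (j y))
    (hc : Copies Fr univ) :
    ∃ ψ : R → X, Measurable ψ ∧ Function.Injective ψ ∧ range ψ = sat E (range j) ∧
      ∀ r, E (j r) (ψ r) := by
  classical
  rcases isEmpty_or_nonempty R with hR | hR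
  · refine ⟨j, hj, hji, ?_, fun r => (hR.false r).elim⟩
    rw [range_eq_empty]
    ext x; simp [sat]
  obtain ⟨p, hp1, hp2, hp3⟩ := hc
  have hje := hj.measurableEmbedding hji
  have hrange : MeasurableSet (range j) := hje.measurableSet_range
  obtain ⟨j', hj', hjj'⟩ := exists_leftInv hj MeasurableSet.univ hji.injOn
  have hjj : ∀ r, j' (j r) = r := fun r => hjj' r (mem_univ _)
  let T : Set X := sat E (range j)
  have hT : MeasurableSet T := F.measurableSet_sat hrange
  have hTsb : StandardBorelSpace T := hT.standardBorel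
  let f : R → T := fun r => ⟨j r, subset_sat hE _ ⟨r, rfl⟩⟩
  have hf : Measurable f := hj.subtype_mk
  have hfi : Function.Injective f := fun a b h => hji (congrArg Subtype.val h)
  obtain ⟨g0, i, hg0, hi, hgi⟩ := exists_glue (fun k => F.D k ∩ F.ρ k ⁻¹' (range j))
    (fun k => (F.mD k).inter (F.mρ k hrange)) (fun k x => p k (j' (F.ρ k x)))
    (fun k => (hp1 k).comp (hj'.comp (F.mρ k)))
  rw [← F.sat_eq] at hgi
  let g : T → R := fun t => g0 t
  have hg : Measurable g := hg0.comp measurable_subtype_coe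
  have key : ∀ t : T, ∃ r, F.ρ (i t) t = j r ∧ (t : X) ∈ F.D (i t) ∧ g t = p (i t) r := by
    intro t
    obtain ⟨⟨h1, r, hr⟩, h2, -⟩ := hgi t t.2
    refine ⟨r, hr.symm, h1, ?_⟩
    show g0 t = _
    rw [h2, ← hr, hjj]
  have hgi' : Function.Injective g := by
    intro t t' h
    obtain ⟨r, h1, h2, h3⟩ := key t
    obtain ⟨r', h1', h2', h3'⟩ := key t'
    rw [h3, h3'] at h
    obtain ⟨h4, h5⟩ := hp3 _ _ _ (mem_univ _) _ (mem_univ _) h
    rw [h4] at h1 h2
    apply Subtype.ext
    exact F.inj _ h2 h2' (by rw [h1, h1', h5])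
  obtain ⟨e, he⟩ := csb hf hfi hg hgi' (fun r t => E (j r) t) (fun r => hE.refl _) (by
    intro t
    obtain ⟨r, h1, h2, h3⟩ := key t
    rw [h3]
    have e1 : E (t : X) (j r) := by rw [← h1]; exact F.rel _ _ h2
    have e2 : E (j r) (j (p (i t) r)) := (hjE _ _).1 (hp2 _ _ (mem_univ _))
    exact hE.symm (hE.trans e1 e2))
  refine ⟨fun r => (e r : X), measurable_subtype_coe.comp e.measurable,
    fun a b h => e.injective (Subtype.ext h), ?_, he⟩
  ext x
  constructor
  · rintro ⟨r, rfl⟩; exact (e r).2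
  · intro hx
    exact ⟨e.symm ⟨x, hx⟩, by simp⟩

end Pool.Agent.Work.MP_97bde0_lc
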