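import Pool.Agent.Work.MP_97bde0_lc.Tower
import Pool.Agent.Work.MP_97bde0_lc.Null

/-!
# Addresses and codes: an `E`-invariant code `w` and an address `s` with `(s, w)` injective
-/

set_option autoImplicit false

open Set MeasureTheory Topology

namespace Pool.Agent.Work.MP_97bde0_lc

variable {X : Type*} [MeasurableSpace X] [StandardBorelSpace X] {E : X → X → Prop}

theorem measurable_gcomp {Z : Type*} [MeasurableSpace Z] {h : ℕ → X → X}
    (hh : ∀ n, Measurable (h n)) {v : Z → ℕ → Bool} (hv : Measurable v) (n : ℕ) :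
    ∀ {y : Z → X}, Measurable y → Measurable (fun z => gcomp h (v z) n (y z)) := by
  induction n with
  | zero => intro y hy; exact hy
  | succ n ih =>
    intro y hy
    have h1 : MeasurableSet {z | v z n = true} :=
      ((measurable_pi_apply n).comp hv) (measurableSet_singleton true)
    have h2 : (fun z => gcomp h (v z) (n + 1) (y z)) = fun z =>
        if z ∈ {z | v z n = true} then gcomp h (v z) n (h n (y z)) else gcomp h (v z) n (y z) := by
      funext z
      by_cases hz : v z n = true
      · have : z ∈ {z | v z n = true} := hz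
        rw [if_pos this]
        simp only [gcomp, hz, if_true]; rfl
      · have : z ∉ {z | v z n = true} := hz
        rw [if_neg this]
        simp only [gcomp, hz, if_false]
        rfl
    rw [h2]
    exact Measurable.ite h1 (ih ((hh n).comp hy)) (ih hy)

section tower

variable {κ : X → ℕ → Bool} {Y : Set X} {S : ℕ → TS X} {h : ℕ → X → X} {b : ℕ → X → X}
  {s : X → ℕ → Bool}

omit [StandardBorelSpace X] in
theorem Tower.eq_gcomp (H : Tower E κ Y S h b s) (n : ℕ) {x : X} (hx : x ∈ Y) :
    x = gcomp h (s x) n (b n x) := by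
  induction n with
  | zero => rw [H.b0]; rfl
  | succ n ih =>
    have h1 := H.st n x hx
    by_cases hs : s x n = true
    · rw [if_pos hs] at h1
      simp only [gcomp, hs, if_true]
      show x = gcomp h (s x) n (h n (b (n + 1) x))
      rw [← h1]; exact ih
    · rw [if_neg hs] at h1
      simp only [gcomp, hs, if_false]
      show x = gcomp h (s x) n (b (n + 1) x)
      rw [← h1]; exact ih

omit [StandardBorelSpace X] in
theorem Tower.gcomp_mem (H : Tower E κ Y S h b s) (hE : Equivalence E) (u : ℕ → Bool) (n : ℕ) :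
    ∀ {y : X}, y ∈ Y → y ∈ (S n).R → gcomp h u n y ∈ Y ∧ E (gcomp h u n y) y ∧
      b n (gcomp h u n y) = y ∧ ∀ i < n, s (gcomp h u n y) i = u i := by
  induction n with
  | zero =>
    intro y hy _
    exact ⟨hy, hE.refl _, H.b0 y, fun i hi => absurd hi (Nat.not_lt_zero i)⟩
  | succ n ih =>
    intro y hy hyR
    have hrel := (H.nx n).rel y hyR
    by_cases hu : u n = true
    · have hyY : h n y ∈ Y := H.iY _ _ hrel hy
      obtain ⟨h1, h2, h3, h4⟩ := ih hyY ((H.nx n).img y hyR)
      have e : gcomp h u (n + 1) y = gcomp h u n (h n y) := by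
        simp only [gcomp, hu, if_true]; rfl
      rw [e]
      have h5 := H.un' n _ h1 y hyR h3
      refine ⟨h1, hE.trans h2 (hE.symm hrel), h5, fun i hi => ?_⟩
      rcases Nat.lt_succ_iff_lt_or_eq.1 hi with hi | rfl
      · exact h4 i hi
      · by_contra hne
        have hs : ¬ s (gcomp h u i (h i y)) i = true := by rw [hu] at hne; exact hne
        have h6 := H.st i _ h1
        rw [if_neg hs, h3, h5] at h6
        exact (H.nx i).dis y hyR y hyR h6
    · obtain ⟨h1, h2, h3, h4⟩ := ih hy ((H.nx n).sub hyR)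
      have e : gcomp h u (n + 1) y = gcomp h u n y := by
        simp only [gcomp, hu, if_false]; rfl
      rw [e]
      have h5 := H.un n _ h1 y hyR h3
      refine ⟨h1, h2, h5, fun i hi => ?_⟩
      rcases Nat.lt_succ_iff_lt_or_eq.1 hi with hi | rfl
      · exact h4 i hi
      · by_contra hne
        have hs : s (gcomp h u i y) i = true := by
          revert hne hu
          cases s (gcomp h u i y) i <;> cases u i <;> simp
        have h6 := H.st i _ h1
        rw [if_pos hs, h3, h5] at h6
        exact (H.nx i).dis y hyR y hyR h6.symm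

omit [StandardBorelSpace X] in
theorem Tower.b_eq_succ (H : Tower E κ Y S h b s) {n : ℕ} {x y : X} (hx : x ∈ Y) (hy : y ∈ Y)
    (hxy : b n x = b n y) : b (n + 1) x = b (n + 1) y ∧ s x n = s y n := by
  have h1 := H.st n x hx
  have h2 := H.st n y hy
  have hxR := H.bR (n + 1) x hx
  have hyR := H.bR (n + 1) y hy
  by_cases hsx : s x n = true <;> by_cases hsy : s y n = true
  · rw [if_pos hsx] at h1
    rw [if_pos hsy] at h2
    rw [h1, h2] at hxy
    exact ⟨(H.nx n).inj hxR hyR hxy, by rw [hsx, hsy]⟩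
  · rw [if_pos hsx] at h1
    rw [if_neg hsy] at h2
    rw [h1, h2] at hxy
    exact ((H.nx n).dis _ hxR _ hyR hxy).elim
  · rw [if_neg hsx] at h1
    rw [if_pos hsy] at h2
    rw [h1, h2] at hxy
    exact ((H.nx n).dis _ hyR _ hxR hxy.symm).elim
  · rw [if_neg hsx] at h1
    rw [if_neg hsy] at h2
    rw [h1, h2] at hxy
    refine ⟨hxy, ?_⟩
    revert hsx hsy
    cases s x n <;> cases s y n <;> simp

omit [StandardBorelSpace X] in
theorem Tower.b_eq (H : Tower E κ Y S h b s) {n : ℕ} {x y : X} (hx : x ∈ Y) (hy : y ∈ Y)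
    (hxy : b n x = b n y) : ∀ i, n ≤ i → b i x = b i y ∧ s x i = s y i := by
  intro i hi
  induction i, hi using Nat.le_induction with
  | base => exact ⟨hxy, (H.b_eq_succ hx hy hxy).2⟩
  | succ i _ ih =>
    have h1 := H.b_eq_succ hx hy ih.1
    exact ⟨h1.1, (H.b_eq_succ hx hy h1.1).2⟩

omit [StandardBorelSpace X] in
/-- the set of addresses is closed under finite changes -/
theorem Tower.exists_move (H : Tower E κ Y S h b s) (hE : Equivalence E) {x : X} (hx : x ∈ Y)
    {z : ℕ → Bool} {n : ℕ} (hz : ∀ i, n ≤ i → s x i = z i) :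
    gcomp h z n (b n x) ∈ Y ∧ E x (gcomp h z n (b n x)) ∧ s (gcomp h z n (b n x)) = z ∧
      b n (gcomp h z n (b n x)) = b n x := by
  have hbY : b n x ∈ Y := H.iY _ _ (H.bE n x hx) hx
  obtain ⟨h1, h2, h3, h4⟩ := H.gcomp_mem hE z n hbY (H.bR n x hx)
  refine ⟨h1, hE.trans (H.bE n x hx) (hE.symm h2), ?_, h3⟩
  funext i
  rcases Nat.lt_or_ge i n with hi | hi
  · exact h4 i hi
  · rw [(H.b_eq h1 hx h3 i hi).2, hz i hi]

omit [StandardBorelSpace X] in
theorem Tower.ext (H : Tower E κ Y S h b s) {x y : X} (hx : x ∈ Y) (hy : y ∈ Y) {n : ℕ}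
    (hb : b n x = b n y) (hs : ∀ i < n, s x i = s y i) : x = y := by
  rw [H.eq_gcomp n hx, H.eq_gcomp n hy, hb, gcomp_congr h hs]

/-- A set on which the address only depends on the class has infinitely many copies. -/
theorem Tower.copies (H : Tower E κ Y S h b s) (hE : Equivalence E) {A : Set X} (hA : A ⊆ Y)
    (hs : ∀ x ∈ A, ∀ y ∈ A, E x y → s x = s y) : Copies E A := by
  classical
  let fl : ℕ → (ℕ → Bool) → (ℕ → Bool) := fun i z => fun j => if j = i then !z j else z j
  have hfl : ∀ i, Measurable (fl i) := by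
    intro i
    refine measurable_pi_lambda _ fun j => ?_
    by_cases hj : j = i
    · simp only [fl, hj, if_true]
      exact (measurable_of_countable (fun b : Bool => !b)).comp (measurable_pi_apply i)
    · simp only [fl, hj, if_false]
      exact measurable_pi_apply j
  have hflz : ∀ i z j, i + 1 ≤ j → z j = fl i z j := by
    intro i z j hj
    have : j ≠ i := by omega
    simp only [fl, this, if_false]
  have hflinj : ∀ i j z, fl i z = fl j z → i = j := by
    intro i j z hij
    by_contra hne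
    have := congrFun hij i
    simp only [fl, if_true, hne, if_false] at this
    revert this
    cases z i <;> simp
  let p : ℕ → X → X := fun i x => gcomp h (fl i (s x)) (i + 1) (b (i + 1) x)
  refine ⟨p, fun i => ?_, fun i x hx => ?_, fun i j x hx y hy hxy => ?_⟩
  · exact measurable_gcomp (fun n => (H.nx n).mh) ((hfl i).comp H.ms) (i + 1) (H.mb (i + 1))
  · exact (H.exists_move hE (hA hx) (hflz i (s x))).2.1
  · obtain ⟨h1, h2, h3, h4⟩ := H.exists_move hE (hA hx) (hflz i (s x))
    obtain ⟨h1', h2', h3', h4'⟩ := H.exists_move hE (hA hy) (hflz j (s y))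
    have hxy' : gcomp h (fl i (s x)) (i + 1) (b (i + 1) x) =
        gcomp h (fl j (s y)) (j + 1) (b (j + 1) y) := hxy
    have hExy : E x y := by
      rw [← hxy'] at h2'
      exact hE.trans h2 (hE.symm h2')
    have hsxy := hs x hx y hy hExy
    rw [hxy', h3'] at h3
    rw [← hsxy] at h3
    have hij := hflinj _ _ _ h3
    subst hij
    refine ⟨rfl, H.ext (hA hx) (hA hy) (n := j + 1) ?_ (fun i _ => by rw [hsxy])⟩
    rw [← h4, ← h4', hxy']

omit [StandardBorelSpace X] in
/-- monotonicity of the old types along the tower -/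
theorem Tower.mono (H : Tower E κ Y S h b s) (hE : Equivalence E) (m d : ℕ) :
    ∀ {x y : X}, x ∈ Y → y ∈ Y → E x y →
    (∀ i < d, s x (m + i) = s y (m + i)) →
    (S (m + d)).T (b (m + d) x) ≤ (S (m + d)).T (b (m + d) y) →
    (if par m d (s x) = true then (S m).T (b m y) ≤ (S m).T (b m x)
      else (S m).T (b m x) ≤ (S m).T (b m y)) := by
  induction d with
  | zero =>
    intro x y hx hy hxy _ hle
    simpa [par] using hle
  | succ d ih =>
    intro x y hx hy hxy hag hle
    have hExy : E (b (m + (d + 1)) x) (b (m + (d + 1)) y) :=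
      hE.trans (hE.symm (H.bE _ x hx)) (hE.trans hxy (H.bE _ y hy))
    have hleT := (H.nx (m + d)).leT _ (H.bR (m + (d + 1)) x hx) _ (H.bR (m + (d + 1)) y hy)
      hExy hle
    have h1 := H.st (m + d) x hx
    have h2 := H.st (m + d) y hy
    have hsd := hag d (by omega)
    by_cases hs : s x (m + d) = true
    · rw [if_pos hs] at h1
      rw [if_pos (by rw [← hsd]; exact hs)] at h2
      have h3 : (S (m + d)).T (b (m + d) y) ≤ (S (m + d)).T (b (m + d) x) := by
        rw [h1, h2]; exact hleT.2
      have h4 := ih hy hx (hE.symm hxy) (fun i hi => (hag i (by omega)).symm) h3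
      have hpc : par m d (s x) = par m d (s y) := par_congr (fun i hi => hag i (by omega))
      rw [← hpc] at h4
      simp only [par, hs, Bool.xor_true]
      cases hpar : par m d (s x)
      · rw [hpar] at h4
        simpa using h4
      · rw [hpar] at h4
        simpa using h4
    · rw [if_neg hs] at h1
      rw [if_neg (by rw [← hsd]; exact hs)] at h2
      have h3 : (S (m + d)).T (b (m + d) x) ≤ (S (m + d)).T (b (m + d) y) := by
        rw [h1, h2]; exact hleT.1
      have h4 := ih hx hy hxy (fun i hi => hag i (by omega)) h3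
      have hs' : s x (m + d) = false := by simpa using hs
      simp only [par, hs', Bool.xor_false]
      exact h4

omit [StandardBorelSpace X] in
theorem Tower.sep (H : Tower E κ Y S h b s) (hE : Equivalence E) (m d : ℕ) (x0 : X) :
    ∀ (p q : ℕ → Bool), (∃ i < d, p (m + i) ≠ q (m + i)) →
    (∀ x ∈ Y, ∀ y ∈ Y, E x0 x → E x0 y → (∀ i < d, s x (m + i) = p (m + i)) →
      (∀ i < d, s y (m + i) = q (m + i)) → (S m).T (b m x) ≤ (S m).T (b m y)) ∨
    (∀ x ∈ Y, ∀ y ∈ Y, E x0 x → E x0 y → (∀ i < d, s x (m + i) = p (m + i)) →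
      (∀ i < d, s y (m + i) = q (m + i)) → (S m).T (b m y) ≤ (S m).T (b m x)) := by
  induction d with
  | zero => rintro p q ⟨i, hi, -⟩; exact absurd hi (Nat.not_lt_zero i)
  | succ d ih =>
    intro p q hpq
    by_cases hd : ∃ i < d, p (m + i) ≠ q (m + i)
    · rcases ih p q hd with h1 | h1
      · left
        intro x hx y hy hx0 hy0 hxp hyq
        exact h1 x hx y hy hx0 hy0 (fun i hi => hxp i (by omega)) (fun i hi => hyq i (by omega))
      · right
        intro x hx y hy hx0 hy0 hxp hyq
        exact h1 x hx y hy hx0 hy0 (fun i hi => hxp i (by omega)) (fun i hi => hyq i (by omega))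
    · push Not at hd
      -- the basic comparison
      have basic : ∀ x ∈ Y, ∀ y ∈ Y, E x y → (∀ i < d, s x (m + i) = s y (m + i)) →
          s x (m + d) = false → s y (m + d) = true →
          (if par m d (s x) = true then (S m).T (b m y) ≤ (S m).T (b m x)
            else (S m).T (b m x) ≤ (S m).T (b m y)) := by
        intro x hx y hy hxy hag hx0 hy1
        refine H.mono hE m d hx hy hxy hag ?_
        have h1 := H.st (m + d) x hx
        have h2 := H.st (m + d) y hy
        rw [if_neg (by rw [hx0]; simp)] at h1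
        rw [if_pos hy1] at h2
        rw [h1, h2]
        refine (H.nx (m + d)).sorted _ (H.bR (m + (d + 1)) x hx) _ (H.bR (m + (d + 1)) y hy) ?_
        exact hE.trans (hE.symm (H.bE _ x hx)) (hE.trans hxy (H.bE _ y hy))
      have hne : p (m + d) ≠ q (m + d) := by
        obtain ⟨i, hi, hne⟩ := hpq
        rcases Nat.lt_succ_iff_lt_or_eq.1 hi with hi | rfl
        · exact (hne (hd i hi)).elim
        · exact hne
      by_cases hp : p (m + d) = true
      · -- `q (m+d) = false`
        have hq : q (m + d) = false := by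
          revert hne; rw [hp]; cases q (m + d) <;> simp
        have b1 : ∀ x ∈ Y, ∀ y ∈ Y, E x0 x → E x0 y → (∀ i < d + 1, s x (m + i) = p (m + i)) →
            (∀ i < d + 1, s y (m + i) = q (m + i)) →
            (if par m d q = true then (S m).T (b m x) ≤ (S m).T (b m y)
            else (S m).T (b m y) ≤ (S m).T (b m x)) := by
          intro x hx y hy hx0 hy0 hxp hyq
          have := basic y hy x hx (hE.trans (hE.symm hy0) hx0) (fun i hi => by
            rw [hyq i (by omega), hxp i (by omega), hd i hi])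
            (by rw [hyq d (by omega), hq]) (by rw [hxp d (by omega), hp])
          rwa [par_congr (fun i hi => hyq i (by omega))] at this
        cases hpar : par m d q
        · right
          intro x hx y hy hx0 hy0 hxp hyq
          have := b1 x hx y hy hx0 hy0 hxp hyq
          rw [hpar] at this
          simpa using this
        · left
          intro x hx y hy hx0 hy0 hxp hyq
          have := b1 x hx y hy hx0 hy0 hxp hyq
          rw [hpar] at this
          simpa using this
      · have hp' : p (m + d) = false := by simpa using hp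
        have hq : q (m + d) = true := by
          revert hne; rw [hp']; cases q (m + d) <;> simp
        have b1 : ∀ x ∈ Y, ∀ y ∈ Y, E x0 x → E x0 y → (∀ i < d + 1, s x (m + i) = p (m + i)) →
            (∀ i < d + 1, s y (m + i) = q (m + i)) →
            (if par m d p = true then (S m).T (b m y) ≤ (S m).T (b m x)
            else (S m).T (b m x) ≤ (S m).T (b m y)) := by
          intro x hx y hy hx0 hy0 hxp hyq
          have := basic x hx y hy (hE.trans (hE.symm hx0) hy0) (fun i hi => by
            rw [hyq i (by omega), hxp i (by omega), hd i hi])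
            (by rw [hxp d (by omega), hp']) (by rw [hyq d (by omega), hq])
          rwa [par_congr (fun i hi => hxp i (by omega))] at this
        cases hpar : par m d p
        · left
          intro x hx y hy hx0 hy0 hxp hyq
          have := b1 x hx y hy hx0 hy0 hxp hyq
          rw [hpar] at this
          simpa using this
        · right
          intro x hx y hy hx0 hy0 hxp hyq
          have := b1 x hx y hy hx0 hy0 hxp hyq
          rw [hpar] at this
          simpa using this

/-- points all of whose pieces are mixed -/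
def Mixed (E : X → X → Prop) (Y : Set X) (S : ℕ → TS X) (b : ℕ → X → X) (s : X → ℕ → Bool)
    (m : ℕ) : Set X :=
  {x | x ∈ Y ∧ ∀ d, ∃ y y', y ∈ Y ∧ y' ∈ Y ∧ E x y ∧ E x y' ∧
    (∀ i < d, s y (m + i) = s x (m + i)) ∧ (∀ i < d, s y' (m + i) = s x (m + i)) ∧
    (S m).T (b m y) < (S m).T (b m y')}

omit [StandardBorelSpace X] in
/-- at most `k` mixed branches -/
theorem Tower.finite_branches (H : Tower E κ Y S h b s) (hE : Equivalence E) (m : ℕ) (x0 : X) :
    ((fun x : X => fun i => s x (m + i)) '' {x | x ∈ Mixed E Y S b s m ∧ E x0 x}).Finite := by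
  classical
  have hne0 : Nonempty X := ⟨x0⟩
  by_contra hinf
  obtain ⟨t, ht, hcard⟩ := Set.Infinite.exists_subset_card_eq hinf ((S m).k + 1)
  -- representatives
  have hrep : ∀ z ∈ t, ∃ x, (x ∈ Mixed E Y S b s m ∧ E x0 x) ∧ (fun i => s x (m + i)) = z := by
    intro z hz
    exact ht hz
  choose! r hr hrz using hrep
  -- a level separating all of them
  have hsep : ∀ p : (ℕ → Bool) × (ℕ → Bool), ∃ n, p.1 ≠ p.2 → ∃ i < n, p.1 i ≠ p.2 i := by
    rintro ⟨p, q⟩
    by_cases hpq : p = q
    · exact ⟨0, fun h => (h hpq).elim⟩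
    · obtain ⟨i, hi⟩ := Function.ne_iff.1 hpq
      exact ⟨i + 1, fun _ => ⟨i, by omega, hi⟩⟩
  choose lev hlev using hsep
  let d := (t ×ˢ t).sup lev
  have hd : ∀ z ∈ t, ∀ z' ∈ t, z ≠ z' → ∃ i < d, z i ≠ z' i := by
    intro z hz z' hz' hne
    obtain ⟨i, hi, hne'⟩ := hlev (z, z') hne
    have : lev (z, z') ≤ d := Finset.le_sup (f := lev) (Finset.mem_product.2 ⟨hz, hz'⟩)
    exact ⟨i, by omega, hne'⟩
  -- lower values
  let P : (ℕ → Bool) → Set ℕ := fun z => {v | ∃ y ∈ Y, E x0 y ∧ (∀ i < d, s y (m + i) = z i) ∧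
    (S m).T (b m y) = v}
  let a : (ℕ → Bool) → ℕ := fun z => sInf (P z)
  have ha : ∀ z ∈ t, ∃ y ∈ Y, E x0 y ∧ (∀ i < d, s y (m + i) = z i) ∧ (S m).T (b m y) = a z ∧
      ∃ y' ∈ Y, E x0 y' ∧ (∀ i < d, s y' (m + i) = z i) ∧ a z < (S m).T (b m y') := by
    intro z hz
    obtain ⟨⟨hxY, hmix⟩, hx0⟩ := hr z hz
    obtain ⟨y, y', hy, hy', h1, h2, h3, h4, h5⟩ := hmix d
    have hsz : ∀ i, s (r z) (m + i) = z i := fun i => congrFun (hrz z hz) i
    have hne : (P z).Nonempty := ⟨_, y, hy, hE.trans hx0 h1, fun i hi => by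
      rw [h3 i hi, hsz], rfl⟩
    obtain ⟨w, hw1, hw2, hw3, hw4⟩ := Nat.sInf_mem hne
    refine ⟨w, hw1, hw2, hw3, hw4, y', hy', hE.trans hx0 h2, fun i hi => by
      rw [h4 i hi, hsz], ?_⟩
    have : a z ≤ (S m).T (b m y) := Nat.sInf_le ⟨y, hy, hE.trans hx0 h1, fun i hi => by
      rw [h3 i hi, hsz], rfl⟩
    omega
  have hainj : Set.InjOn a (t : Set (ℕ → Bool)) := by
    intro z hz z' hz' hzz
    by_contra hne
    obtain ⟨i, hi, hne'⟩ := hd z hz z' hz' hne
    obtain ⟨y, hy, hy0, hyz, hya, y1, hy1, hy10, hy1z, hy1a⟩ := ha z hz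
    obtain ⟨y', hy', hy0', hyz', hya', y1', hy1', hy10', hy1z', hy1a'⟩ := ha z' hz'
    have hzfun : ∀ i : ℕ, m + i - m = i := fun i => Nat.add_sub_cancel_left m i
    rcases H.sep hE m d x0 (fun j => z (j - m)) (fun j => z' (j - m)) ⟨i, hi, by
      rw [hzfun]; exact hne'⟩ with h1 | h1
    · have := h1 y1 hy1 y' hy' hy10 hy0' (fun i hi => by rw [hzfun]; exact hy1z i hi)
        (fun i hi => by rw [hzfun]; exact hyz' i hi)
      omega
    · have := h1 y hy y1' hy1' hy0 hy10' (fun i hi => by rw [hzfun]; exact hyz i hi)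
        (fun i hi => by rw [hzfun]; exact hy1z' i hi)
      omega
  have hmaps : ∀ z ∈ t, a z ∈ Finset.range (S m).k := by
    intro z hz
    obtain ⟨y, hy, hy0, hyz, hya, -⟩ := ha z hz
    rw [← hya]
    exact Finset.mem_range.2 ((H.ok m).Tk _)
  have := Finset.card_le_card_of_injOn a hmaps hainj
  rw [hcard, Finset.card_range] at this
  omega

omit [StandardBorelSpace X] in
theorem FM.measurableSet_exists (F : FM E) {P : X → X → Prop}
    (hP : MeasurableSet {q : X × X | P q.1 q.2}) : MeasurableSet {x | ∃ y, E x y ∧ P x y} := by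
  have : {x | ∃ y, E x y ∧ P x y} = ⋃ k, (F.D k ∩ {x | P x (F.ρ k x)}) := by
    ext x
    simp only [mem_iUnion]
    constructor
    · rintro ⟨y, hy, hP⟩
      obtain ⟨k, hk, rfl⟩ := F.cov x y hy
      exact ⟨k, hk, hP⟩
    · rintro ⟨k, hk, hP⟩
      exact ⟨_, F.rel k x hk, hP⟩
  rw [this]
  refine MeasurableSet.iUnion fun k => (F.mD k).inter ?_
  have h2 : Measurable (fun x : X => (x, F.ρ k x)) := measurable_id.prodMk (F.mρ k)
  exact h2 hP

omit [StandardBorelSpace X] in
theorem FM.measurableSet_forall (F : FM E) {P : X → X → Prop}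
    (hP : MeasurableSet {q : X × X | P q.1 q.2}) : MeasurableSet {x | ∀ y, E x y → P x y} := by
  have : {x | ∀ y, E x y → P x y} = {x | ∃ y, E x y ∧ ¬ P x y}ᶜ := by
    ext x
    simp only [mem_compl_iff]
    show (∀ y, E x y → P x y) ↔ ¬ ∃ y, E x y ∧ ¬ P x y
    push Not
    rfl
  rw [this]
  exact (F.measurableSet_exists (P := fun x y => ¬ P x y) hP.compl).compl

theorem measurableSet_agree {Z : Type*} [MeasurableSpace Z] {f g : Z → ℕ → Bool}
    (hf : Measurable f) (hg : Measurable g) (p : ℕ → Prop) :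
    MeasurableSet {z | ∀ i, p i → f z i = g z i} := by
  have : {z | ∀ i, p i → f z i = g z i} = ⋂ i, {z | p i → f z i = g z i} := by
    ext z; simp only [mem_iInter]; rfl
  rw [this]
  refine MeasurableSet.iInter fun i => ?_
  by_cases hp : p i
  · have : {z | p i → f z i = g z i} = {z | f z i = g z i} := by
      ext z
      exact ⟨fun h => h hp, fun h _ => h⟩
    rw [this]
    exact measurableSet_eq_fun ((measurable_pi_apply i).comp hf)
      ((measurable_pi_apply i).comp hg)
  · have : {z | p i → f z i = g z i} = univ := by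
      ext z
      exact ⟨fun _ => trivial, fun _ h => (hp h).elim⟩
    rw [this]
    exact MeasurableSet.univ

theorem Tower.measurableSet_mixed (H : Tower E κ Y S h b s) (F : FM E) (m : ℕ) :
    MeasurableSet (Mixed E Y S b s m) := by
  have hT : Measurable (fun x => (S m).T (b m x)) := (H.ok m).mT.comp (H.mb m)
  have : Mixed E Y S b s m = Y ∩ ⋂ d, ⋃ v : ℕ, ({x | ∃ y, E x y ∧ (y ∈ Y ∧
      (∀ i, (m ≤ i ∧ i < m + d) → s y i = s x i) ∧ (S m).T (b m y) = v)} ∩
      {x | ∃ y, E x y ∧ (y ∈ Y ∧
      (∀ i, (m ≤ i ∧ i < m + d) → s y i = s x i) ∧ v < (S m).T (b m y))}) := by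
    ext x
    constructor
    · rintro ⟨hx, hmix⟩
      refine ⟨hx, mem_iInter.2 fun d => ?_⟩
      obtain ⟨y, y', hy, hy', h1, h2, h3, h4, h5⟩ := hmix d
      refine mem_iUnion.2 ⟨(S m).T (b m y), ⟨y, h1, hy, ?_, rfl⟩, ⟨y', h2, hy', ?_, h5⟩⟩
      · rintro i ⟨hi1, hi2⟩
        have := h3 (i - m) (by omega)
        rwa [show m + (i - m) = i by omega] at this
      · rintro i ⟨hi1, hi2⟩
        have := h4 (i - m) (by omega)
        rwa [show m + (i - m) = i by omega] at this
    · rintro ⟨hx, hmix⟩
      refine ⟨hx, fun d => ?_⟩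
      obtain ⟨v, ⟨y, h1, hy, h3, h5⟩, ⟨y', h2, hy', h4, h6⟩⟩ := mem_iUnion.1 (mem_iInter.1 hmix d)
      exact ⟨y, y', hy, hy', h1, h2, fun i hi => h3 _ ⟨by omega, by omega⟩,
        fun i hi => h4 _ ⟨by omega, by omega⟩, by omega⟩
  rw [this]
  refine H.mY.inter (MeasurableSet.iInter fun d => MeasurableSet.iUnion fun v =>
    MeasurableSet.inter ?_ ?_)
  · refine F.measurableSet_exists (P := fun x y => y ∈ Y ∧
      (∀ i, (m ≤ i ∧ i < m + d) → s y i = s x i) ∧ (S m).T (b m y) = v) ?_
    refine (measurable_snd H.mY).inter (MeasurableSet.inter ?_ ?_)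
    · exact measurableSet_agree (H.ms.comp measurable_snd) (H.ms.comp measurable_fst) _
    · exact (hT.comp measurable_snd) (measurableSet_singleton v)
  · refine F.measurableSet_exists (P := fun x y => y ∈ Y ∧
      (∀ i, (m ≤ i ∧ i < m + d) → s y i = s x i) ∧ v < (S m).T (b m y)) ?_
    refine (measurable_snd H.mY).inter (MeasurableSet.inter ?_ ?_)
    · exact measurableSet_agree (H.ms.comp measurable_snd) (H.ms.comp measurable_fst) _
    · exact (hT.comp measurable_snd) (measurableSet_Ioi)

/-- the mixed points have null saturation -/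
theorem Tower.mixed_null (H : Tower E κ Y S h b s) (hE : Equivalence E) (F : FM E)
    {μ : Measure X} {A : Set X} (hYA : Y ⊆ A)
    (hfin : ∀ B, MeasurableSet B → B ⊆ A → Copies E B → μ (sat E B) = 0) (m : ℕ) :
    μ (sat E (Mixed E Y S b s m)) = 0 := by
  have hM := H.measurableSet_mixed F m
  -- countable decomposition
  let ι := Σ N : ℕ, (Fin N → Bool)
  let ag : ι → X → Prop := fun q x => ∀ i : Fin q.1, s x i = q.2 i
  have hag : ∀ q, MeasurableSet {x | ag q x} := by
    intro q
    have : {x | ag q x} = ⋂ i : Fin q.1, {x | s x i = q.2 i} := by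
      ext x; simp only [mem_iInter]; rfl
    rw [this]
    exact MeasurableSet.iInter fun i =>
      ((measurable_pi_apply _).comp H.ms) (measurableSet_singleton _)
  let Aq : ι → Set X := fun q => Mixed E Y S b s m ∩ ({x | ag q x} ∩
    {x | ∀ y, E x y → (y ∈ Mixed E Y S b s m ∧ ag q y → s y = s x)})
  have hAq : ∀ q, MeasurableSet (Aq q) := by
    intro q
    refine hM.inter ((hag q).inter ?_)
    refine F.measurableSet_forall (P := fun x y => (y ∈ Mixed E Y S b s m ∧ ag q y →
      s y = s x)) ?_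
    have : {p : X × X | p.2 ∈ Mixed E Y S b s m ∧ ag q p.2 → s p.2 = s p.1} =
        {p : X × X | p.2 ∈ Mixed E Y S b s m ∧ ag q p.2}ᶜ ∪ {p : X × X | s p.2 = s p.1} := by
      ext p
      exact imp_iff_not_or
    rw [this]
    refine MeasurableSet.union ?_ ?_
    · exact ((measurable_snd hM).inter (measurable_snd (hag q))).compl
    · exact measurableSet_eq_fun (H.ms.comp measurable_snd) (H.ms.comp measurable_fst)
  have hc : ∀ q, Copies E (Aq q) := by
    intro q
    refine H.copies hE (fun x hx => hx.1.1) ?_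
    intro x hx y hy hxy
    exact (hx.2.2 y hxy ⟨hy.1, hy.2.1⟩).symm
  have hcov : Mixed E Y S b s m ⊆ ⋃ q, Aq q := by
    intro x hx
    -- finitely many addresses in the class
    have hfin1 := H.finite_branches hE m x
    have hfin2 : (s '' {y | y ∈ Mixed E Y S b s m ∧ E x y}).Finite := by
      let Φ : (ℕ → Bool) → (Fin m → Bool) × (ℕ → Bool) := fun z =>
        (fun i => z i, fun i => z (m + i))
      have hΦ : Function.Injective Φ := by
        intro z z' hzz
        funext i
        rcases Nat.lt_or_ge i m with hi | hi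
        · exact congrFun (congrArg Prod.fst hzz) ⟨i, hi⟩
        · have := congrFun (congrArg Prod.snd hzz) (i - m)
          simp only [Φ] at this
          rwa [show m + (i - m) = i by omega] at this
      refine Set.Finite.of_finite_image (f := Φ) ?_ hΦ.injOn
      refine ((Set.finite_univ (α := Fin m → Bool)).prod hfin1).subset ?_
      rintro _ ⟨_, ⟨y, hy, rfl⟩, rfl⟩
      exact ⟨mem_univ _, ⟨y, hy, rfl⟩⟩
    have hsep : ∀ z : ℕ → Bool, ∃ n, z ≠ s x → ∃ i < n, z i ≠ s x i := by
      intro z
      by_cases hz : z = s x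
      · exact ⟨0, fun h => (h hz).elim⟩
      · obtain ⟨i, hi⟩ := Function.ne_iff.1 hz
        exact ⟨i + 1, fun _ => ⟨i, by omega, hi⟩⟩
    choose lev hlev using hsep
    let N := hfin2.toFinset.sup lev
    refine mem_iUnion.2 ⟨⟨N, fun i => s x i⟩, hx, fun i => rfl, ?_⟩
    rintro y hxy ⟨hyM, hyag⟩
    by_contra hne
    obtain ⟨i, hi, hne'⟩ := hlev (s y) hne
    have : lev (s y) ≤ N := Finset.le_sup (f := lev) (hfin2.mem_toFinset.2 ⟨y, ⟨hyM, hxy⟩, rfl⟩)
    have hiN : i < N := lt_of_lt_of_le hi this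
    exact hne' (hyag ⟨i, hiN⟩)
  have h1 : sat E (Mixed E Y S b s m) ⊆ ⋃ q, sat E (Aq q) := by
    rw [← sat_iUnion]; exact sat_mono hcov
  refine measure_mono_null h1 (measure_iUnion_null fun q => ?_)
  exact hfin _ (hAq q) (fun x hx => hYA hx.1.1) (hc q)

/-- points with address eventually zero have null saturation -/
theorem Tower.zero_null (H : Tower E κ Y S h b s) (hE : Equivalence E)
    {μ : Measure X} {A : Set X} (hYA : Y ⊆ A)
    (hfin : ∀ B, MeasurableSet B → B ⊆ A → Copies E B → μ (sat E B) = 0) :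
    μ (sat E {x | x ∈ Y ∧ Ev (s x) (fun _ => false)}) = 0 := by
  let ι := Σ N : ℕ, (Fin N → Bool)
  let Zq : ι → Set X := fun q => {x | x ∈ Y ∧ (∀ i, q.1 ≤ i → s x i = false) ∧
    ∀ i : Fin q.1, s x i = q.2 i}
  have hZm : ∀ q, MeasurableSet (Zq q) := by
    intro q
    refine H.mY.inter (MeasurableSet.inter ?_ ?_)
    · exact measurableSet_agree H.ms (measurable_const (a := fun _ : ℕ => false)) _
    · have : {x | ∀ i : Fin q.1, s x i = q.2 i} = ⋂ i : Fin q.1, {x | s x i = q.2 i} := by
        ext x; simp only [mem_iInter]; rfl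
      have h2 : MeasurableSet {x | ∀ i : Fin q.1, s x i = q.2 i} := by
        rw [this]
        exact MeasurableSet.iInter fun i =>
          ((measurable_pi_apply _).comp H.ms) (measurableSet_singleton _)
      exact h2
  have hZc : ∀ q, Copies E (Zq q) := by
    intro q
    refine H.copies hE (fun x hx => hx.1) ?_
    intro x hx y hy _
    funext i
    rcases Nat.lt_or_ge i q.1 with hi | hi
    · rw [hx.2.2 ⟨i, hi⟩, hy.2.2 ⟨i, hi⟩]
    · rw [hx.2.1 i hi, hy.2.1 i hi]
  have hcov : {x | x ∈ Y ∧ Ev (s x) (fun _ => false)} ⊆ ⋃ q, Zq q := by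
    rintro x ⟨hx, n, hn⟩
    exact mem_iUnion.2 ⟨⟨n, fun i => s x i⟩, hx, hn, fun i => rfl⟩
  have h1 : sat E {x | x ∈ Y ∧ Ev (s x) (fun _ => false)} ⊆ ⋃ q, sat E (Zq q) := by
    rw [← sat_iUnion]; exact sat_mono hcov
  refine measure_mono_null h1 (measure_iUnion_null fun q => ?_)
  exact hfin _ (hZm q) (fun x hx => hYA hx.1) (hZc q)

omit [StandardBorelSpace X] in
theorem Tower.pat_inj (H : Tower E κ Y S h b s) (n j : ℕ) :
    ∀ {x y : X}, x ∈ Y → y ∈ Y → (S n).pat (b n x) j = (S n).pat (b n y) j →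
    (∀ i < n, s x i = s y i) → κ x j = κ y j := by
  induction n with
  | zero =>
    intro x y hx hy hp _
    rw [H.b0, H.b0, H.p0, H.p0] at hp
    revert hp
    cases κ x j <;> cases κ y j <;> simp
  | succ n ih =>
    intro x y hx hy hp hs
    rw [(H.nx n).pat, (H.nx n).pat] at hp
    obtain ⟨h1, h2⟩ := Nat.pair_eq_pair.1 hp
    refine ih hx hy ?_ (fun i hi => hs i (by omega))
    have h3 := H.st n x hx
    have h4 := H.st n y hy
    have h5 := hs n (by omega)
    by_cases h6 : s x n = true
    · rw [if_pos h6] at h3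
      rw [if_pos (by rw [← h5]; exact h6)] at h4
      rw [h3, h4]; exact h2
    · rw [if_neg h6] at h3
      rw [if_neg (by rw [← h5]; exact h6)] at h4
      rw [h3, h4]; exact h1

end tower

/-- The coding theorem. -/
theorem exists_coding [Nonempty X] (hE : Equivalence E) (F : FM E)
    (hap : ∀ x, {y | E x y}.Infinite) (μ : Measure X) {A : Set X}
    (hA : MeasurableSet A) (hAE : Inv E A)
    (hfin : ∀ B, MeasurableSet B → B ⊆ A → Copies E B → μ (sat E B) = 0) :
    ∃ (Y : Set X) (s w : X → ℕ → Bool), Y ⊆ A ∧ μ (A \ Y) = 0 ∧ MeasurableSet Y ∧ Inv E Y ∧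
      Measurable s ∧ Measurable w ∧ (∀ x y, E x y → w x = w y) ∧
      (∀ x ∈ Y, ∀ y ∈ Y, s x = s y → w x = w y → x = y) ∧
      (∀ x ∈ Y, ∀ z, Ev (s x) z → ∃ y ∈ Y, E x y ∧ s y = z) ∧
      (∀ x ∈ Y, ¬ Ev (s x) (fun _ => false)) := by
  classical
  obtain ⟨κ, hκ, hκi⟩ : ∃ κ : X → ℕ → Bool, Measurable κ ∧ Function.Injective κ :=
    ⟨_, MeasurableSpace.measurable_mapNatBool X, MeasurableSpace.injective_mapNatBool X⟩
  obtain ⟨Y0, S, h, b, s, hY0A, hY0μ, H⟩ := exists_Tower hE F hap μ hA hAE hfin hκ
  have hMm := fun m => H.measurableSet_mixed F m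
  have hMn := fun m => H.mixed_null hE F hY0A hfin m
  have hZn := H.zero_null hE hY0A hfin
  let Z : Set X := {x | x ∈ Y0 ∧ Ev (s x) (fun _ => false)}
  have hZm : MeasurableSet Z := by
    have : Z = Y0 ∩ ⋃ n, {x | ∀ i, n ≤ i → s x i = (fun _ => false : ℕ → Bool) i} := by
      ext x
      constructor
      · rintro ⟨hx, n, hn⟩; exact ⟨hx, mem_iUnion.2 ⟨n, hn⟩⟩
      · rintro ⟨hx, hx'⟩
        obtain ⟨n, hn⟩ := mem_iUnion.1 hx'
        exact ⟨hx, n, hn⟩
    rw [this]
    exact H.mY.inter (MeasurableSet.iUnion fun n =>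
      measurableSet_agree H.ms (measurable_const (a := fun _ : ℕ => false)) _)
  let N : Set X := (⋃ m, sat E (Mixed E Y0 S b s m)) ∪ sat E Z
  have hNm : MeasurableSet N := (MeasurableSet.iUnion fun m =>
    F.measurableSet_sat (hMm m)).union (F.measurableSet_sat hZm)
  have hNi : Inv E N := (Inv.iUnion fun m => inv_sat hE _).union (inv_sat hE _)
  have hNμ : μ N = 0 := measure_union_null (measure_iUnion_null hMn) hZn
  let Y : Set X := Y0 \ N
  have hYi : Inv E Y := H.iY.diff hE hNi
  -- the code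
  let ι := (Σ n : ℕ, (Fin n → Bool)) × ℕ × Bool
  let J : ι → Set X := fun q => {x | ∀ y, E x y → ((∀ i : Fin q.1.1, s y i = q.1.2 i) →
    κ y q.2.1 = q.2.2)}
  have hJm : ∀ q, MeasurableSet (J q) := by
    intro q
    refine F.measurableSet_forall (P := fun _ y => (∀ i : Fin q.1.1, s y i = q.1.2 i) →
      κ y q.2.1 = q.2.2) ?_
    have h1 : MeasurableSet {y | (∀ i : Fin q.1.1, s y i = q.1.2 i) → κ y q.2.1 = q.2.2} := by
      have : {y | (∀ i : Fin q.1.1, s y i = q.1.2 i) → κ y q.2.1 = q.2.2} =
          (⋂ i : Fin q.1.1, {y | s y i = q.1.2 i})ᶜ ∪ {y | κ y q.2.1 = q.2.2} := by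
        ext y
        rw [mem_union, mem_compl_iff, mem_iInter]
        exact imp_iff_not_or
      rw [this]
      refine MeasurableSet.union (MeasurableSet.iInter fun i => ?_).compl ?_
      · exact ((measurable_pi_apply _).comp H.ms) (measurableSet_singleton _)
      · exact ((measurable_pi_apply _).comp hκ) (measurableSet_singleton _)
    exact measurable_snd h1
  have hJi : ∀ q x y, E x y → x ∈ J q → y ∈ J q := by
    intro q x y hxy hx z hyz
    exact hx z (hE.trans hxy hyz)
  obtain ⟨e, he⟩ := exists_surjective_nat ι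
  let w : X → ℕ → Bool := fun x n => decide (x ∈ J (e n))
  have hwm : Measurable w := by
    refine measurable_pi_lambda _ fun n => ?_
    have : (fun x => w x n) = fun x => if x ∈ J (e n) then true else false := by
      funext x
      simp [w]
    rw [this]
    exact Measurable.ite (hJm _) measurable_const measurable_const
  refine ⟨Y, s, w, sdiff_subset.trans hY0A, ?_, H.mY.diff hNm, hYi, H.ms, hwm, ?_, ?_, ?_, ?_⟩
  · refine measure_mono_null ?_ (measure_union_null hY0μ hNμ)
    intro x hx
    by_cases h1 : x ∈ Y0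
    · right
      by_contra h2
      exact hx.2 ⟨h1, h2⟩
    · left; exact ⟨hx.1, h1⟩
  · intro x y hxy
    funext n
    have : x ∈ J (e n) ↔ y ∈ J (e n) := ⟨hJi _ x y hxy, hJi _ y x (hE.symm hxy)⟩
    simp only [w, this]
  · intro x hx y hy hs hw
    apply hκi
    funext j
    have hxM : x ∉ Mixed E Y0 S b s j := by
      intro h1
      exact hx.2 (Or.inl (mem_iUnion.2 ⟨j, subset_sat hE _ h1⟩))
    have hpure : ∃ d, ∀ y y', y ∈ Y0 → y' ∈ Y0 → E x y → E x y' →
        (∀ i < d, s y (j + i) = s x (j + i)) → (∀ i < d, s y' (j + i) = s x (j + i)) →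
        (S j).T (b j y') ≤ (S j).T (b j y) := by
      by_contra hcon
      push Not at hcon
      apply hxM
      refine ⟨hx.1, fun d => ?_⟩
      obtain ⟨y, y', h1, h2, h3, h4, h5, h6, h7⟩ := hcon d
      exact ⟨y, y', h1, h2, h3, h4, h5, h6, h7⟩
    obtain ⟨d, hd⟩ := hpure
    let q : ι := (⟨j + d, fun i => s x i⟩, j, κ x j)
    have hxJ : x ∈ J q := by
      intro z hxz hz
      have hzY : z ∈ Y0 := H.iY _ _ hxz hx.1
      have hz' : ∀ i, i < j + d → s z i = s x i := fun i hi => hz ⟨i, hi⟩
      have h1 := hd z x hzY hx.1 hxz (hE.refl x) (fun i hi => hz' _ (by omega)) (fun i hi => rfl)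
      have h2 := hd x z hx.1 hzY (hE.refl x) hxz (fun i hi => rfl) (fun i hi => hz' _ (by omega))
      have h3 := (H.ok j).Tp (b j z) (b j x) (le_antisymm h2 h1) j le_rfl
      exact H.pat_inj j j hzY hx.1 h3 (fun i hi => hz' i (by omega))
    obtain ⟨n, hn⟩ := he q
    have hyJ : y ∈ J q := by
      have h1 := congrFun hw n
      simp only [w, hn] at h1
      have h2 : (x ∈ J q) = (y ∈ J q) := by
        have := decide_eq_decide.1 h1
        exact propext this
      rw [← h2]; exact hxJ
    exact (hyJ y (hE.refl y) (fun i => by rw [← hs])).symm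
  · rintro x hx z ⟨n, hn⟩
    obtain ⟨h1, h2, h3, -⟩ := H.exists_move hE hx.1 hn
    exact ⟨_, hYi _ _ h2 hx, h2, h3⟩
  · intro x hx hev
    exact hx.2 (Or.inr (subset_sat hE _ ⟨hx.1, hev⟩))

end Pool.Agent.Work.MP_97bde0_lc
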