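import Pool.Agent.Work.MP_97bde0_lc.Mu

/-!
# Embedding eventual equality into a nonsmooth relation
-/

set_option autoImplicit false

open Set MeasureTheory Topology

namespace Pool.Agent.Work.MP_97bde0_lc

instance instPolishCantor : PolishSpace (ℕ → Bool) := {}

instance instPolishPi {ι : Type*} [Countable ι] : PolishSpace (ι → ℕ → Bool) := {}

/-- eventual equality -/
def Ev {S : Type*} (α β : ℕ → S) : Prop := ∃ n, ∀ m, n ≤ m → α m = β m

theorem Ev.equivalence {S : Type*} : Equivalence (Ev (S := S)) where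
  refl := fun _ => ⟨0, fun _ _ => rfl⟩
  symm := fun ⟨n, h⟩ => ⟨n, fun m hm => (h m hm).symm⟩
  trans := fun ⟨n, h⟩ ⟨n', h'⟩ => ⟨max n n', fun m hm =>
    (h m ((le_max_left _ _).trans hm)).trans (h' m ((le_max_right _ _).trans hm))⟩

theorem exists_pos_of_iUnion {X : Type*} [MeasurableSpace X] {μ : Measure X} {ι : Type*}
    [Countable ι] {A : Set X} {B : ι → Set X} (hA : μ A ≠ 0) (h : A ⊆ ⋃ i, B i) :
    ∃ i, μ (B i) ≠ 0 := by
  by_contra hcon
  push Not at hcon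
  exact hA (measure_mono_null h (measure_iUnion_null hcon))

theorem measurable_of_first {Y : Type*} [MeasurableSpace Y] (m : ℕ) (f : (ℕ → Bool) → Y)
    (h : ∀ α β : ℕ → Bool, (∀ i, i < m → α i = β i) → f α = f β) : Measurable f := by
  let r : (ℕ → Bool) → (Fin m → Bool) := fun α i => α i
  let e : (Fin m → Bool) → (ℕ → Bool) := fun a i => if h : i < m then a ⟨i, h⟩ else false
  have hr : Measurable r := measurable_pi_lambda _ fun i => measurable_pi_apply _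
  have : f = (f ∘ e) ∘ r := by
    funext α
    refine h _ _ fun i hi => ?_
    simp [e, r, hi]
  rw [this]
  exact (measurable_of_countable _).comp hr

section

variable {X : Type*} [MeasurableSpace X] [StandardBorelSpace X] {E : X → X → Prop}

/-- states of the construction -/
def OKState (E : X → X → Prop) (μ : Measure X) (N : Set X) (p : Set X × List (X → X)) : Prop :=
  MeasurableSet p.1 ∧ p.1 ⊆ N ∧ μ p.1 ≠ 0 ∧ id ∈ p.2 ∧
    ∀ g ∈ p.2, Measurable g ∧ InjOn g p.1 ∧ ∀ x ∈ p.1, E x (g x)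

theorem exists_step (hE : Equivalence E) (F : FM E) (μ : Measure X) [IsFiniteMeasure μ]
    {N : Set X}
    (hN : ∀ C, C ⊆ N → MeasurableSet C → ∃ Z, μ Z = 0 ∧
      ∀ x ∈ C \ Z, {y | y ∈ C ∧ E x y}.Infinite)
    {κ : X → ℕ → Bool} (hκ : Measurable κ) (hκi : Function.Injective κ) (n : ℕ)
    (p : Set X × List (X → X)) (hp : OKState E μ N p) :
    ∃ (τ : X → X) (C' : Set X), C' ⊆ p.1 ∧ MapsTo τ C' p.1 ∧
      OKState E μ N (C', p.2 ++ p.2.map (fun g => g ∘ τ)) ∧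
      (∀ g ∈ p.2 ++ p.2.map (fun g => g ∘ τ), IsCompact (κ '' (g '' C')) ∧
        ∀ x ∈ C', ∀ y ∈ C', ∀ i < n, κ (g x) i = κ (g y) i) ∧
      ∀ g ∈ p.2, ∀ h ∈ p.2, ∀ x ∈ C', ∀ y ∈ C', g x ≠ h (τ y) ∧ ∀ j < n,
        (g x ∈ F.D j → F.ρ j (g x) ≠ h (τ y)) ∧
        (h (τ y) ∈ F.D j → F.ρ j (h (τ y)) ≠ g x) := by
  obtain ⟨C, L⟩ := p
  obtain ⟨hC, hCN, hμC, hid, hL⟩ := hp
  simp only at hC hCN hμC hid hL ⊢
  obtain ⟨Z, hZ, hZinf⟩ := hN C hCN hC
  -- the good sets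
  let Q : ℕ → Set X := fun k => {x | x ∈ C ∧ x ∈ F.D k ∧ F.ρ k x ∈ C ∧
    ∀ g ∈ L, ∀ h ∈ L, h (F.ρ k x) ≠ g x ∧ ∀ j < n,
      (g x ∈ F.D j → h (F.ρ k x) ≠ F.ρ j (g x)) ∧
      (h (F.ρ k x) ∈ F.D j → F.ρ j (h (F.ρ k x)) ≠ g x)}
  have hLfin : {g | g ∈ L}.Finite := L.finite_toSet
  have hQm : ∀ k, MeasurableSet (Q k) := by
    intro k
    have e : Q k = C ∩ F.D k ∩ F.ρ k ⁻¹' C ∩ ⋂ g ∈ {g | g ∈ L}, ⋂ h ∈ {g | g ∈ L},
        ({x | h (F.ρ k x) = g x}ᶜ ∩ ⋂ j ∈ {j | j < n},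
          (((g ⁻¹' F.D j)ᶜ ∪ {x | h (F.ρ k x) = F.ρ j (g x)}ᶜ) ∩
          (((fun x => h (F.ρ k x)) ⁻¹' F.D j)ᶜ ∪ {x | F.ρ j (h (F.ρ k x)) = g x}ᶜ))) := by
      ext x
      simp only [Q, mem_ofPred_eq, mem_inter_iff, mem_preimage, mem_iInter, mem_compl_iff,
        mem_union, imp_iff_not_or, and_assoc, Ne]
    rw [e]
    refine ((hC.inter (F.mD k)).inter (F.mρ k hC)).inter ?_
    refine MeasurableSet.biInter hLfin.countable fun g hg =>
      MeasurableSet.biInter hLfin.countable fun h hh => ?_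
    have hgm := (hL g hg).1
    have hhm := (hL h hh).1
    refine (measurableSet_eq_fun (hhm.comp (F.mρ k)) hgm).compl.inter ?_
    refine MeasurableSet.biInter (Set.to_countable _) fun j _ => ?_
    refine ((hgm (F.mD j)).compl.union
      (measurableSet_eq_fun (hhm.comp (F.mρ k)) ((F.mρ j).comp hgm)).compl).inter ?_
    exact ((hhm.comp (F.mρ k)) (F.mD j)).compl.union
      (measurableSet_eq_fun ((F.mρ j).comp (hhm.comp (F.mρ k))) hgm).compl
  have hcov : C \ Z ⊆ ⋃ k, Q k := by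
    intro x hx
    have hinf := hZinf x hx
    let Bd : Set X := ⋃ g ∈ {g | g ∈ L}, ⋃ h ∈ {g | g ∈ L},
      ({x' | x' ∈ C ∧ h x' = g x} ∪ ⋃ j ∈ {j | j < n},
        ({x' | x' ∈ C ∧ h x' = F.ρ j (g x)} ∪
          {x' | x' ∈ C ∧ h x' ∈ F.D j ∧ F.ρ j (h x') = g x}))
    have hBd : Bd.Finite := by
      refine hLfin.biUnion fun g hg => hLfin.biUnion fun h hh => ?_
      have hinj := (hL h hh).2.1
      refine Set.Finite.union (Set.Subsingleton.finite ?_)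
        ((Set.finite_lt_nat n).biUnion fun j _ =>
          Set.Finite.union (Set.Subsingleton.finite ?_) (Set.Subsingleton.finite ?_))
      · rintro a ⟨ha, ha'⟩ b ⟨hb, hb'⟩
        exact hinj ha hb (ha'.trans hb'.symm)
      · rintro a ⟨ha, ha'⟩ b ⟨hb, hb'⟩
        exact hinj ha hb (ha'.trans hb'.symm)
      · rintro a ⟨ha, ha', ha''⟩ b ⟨hb, hb', hb''⟩
        exact hinj ha hb (F.inj j ha' hb' (ha''.trans hb''.symm))
    obtain ⟨x', ⟨hx'C, hx'E⟩, hx'B⟩ := hinf.exists_notMem_finite hBd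
    obtain ⟨k, hk, rfl⟩ := F.cov x x' hx'E
    refine mem_iUnion.2 ⟨k, hx.1, hk, hx'C, ?_⟩
    intro g hg h hh
    refine ⟨fun he => hx'B ?_, fun j hj => ⟨fun _ he => hx'B ?_, fun hd he => hx'B ?_⟩⟩
    · exact mem_biUnion hg (mem_biUnion hh (Or.inl ⟨hx'C, he⟩))
    · exact mem_biUnion hg (mem_biUnion hh (Or.inr (mem_biUnion hj (Or.inl ⟨hx'C, he⟩))))
    · exact mem_biUnion hg (mem_biUnion hh (Or.inr (mem_biUnion hj (Or.inr ⟨hx'C, hd, he⟩))))
  have hpos : μ (C \ Z) ≠ 0 := by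
    intro h
    apply hμC
    refine measure_mono_null (t := (C \ Z) ∪ Z) ?_ (measure_union_null h hZ)
    intro x hx
    by_cases hxZ : x ∈ Z
    · exact Or.inr hxZ
    · exact Or.inl ⟨hx, hxZ⟩
  obtain ⟨k, hk⟩ := exists_pos_of_iUnion hpos hcov
  let τ := F.ρ k
  have hτ : Measurable τ := F.mρ k
  -- all maps
  let 𝓐 : Set (X → X) := {a | a ∈ L} ∪ (fun h => h ∘ τ) '' {a | a ∈ L} ∪
    ⋃ j ∈ {j | j < n}, ((fun g => F.ρ j ∘ g) '' {a | a ∈ L} ∪
      (fun h => F.ρ j ∘ h ∘ τ) '' {a | a ∈ L})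
  have h𝓐fin : 𝓐.Finite :=
    (hLfin.union (hLfin.image _)).union
      ((Set.finite_lt_nat n).biUnion fun j _ => (hLfin.image _).union (hLfin.image _))
  have h𝓐m : ∀ a ∈ 𝓐, Measurable a := by
    rintro a ((ha | ⟨h, hh, rfl⟩) | ha)
    · exact (hL a ha).1
    · exact (hL h hh).1.comp hτ
    · obtain ⟨j, -, (⟨g, hg, rfl⟩ | ⟨h, hh, rfl⟩)⟩ := mem_iUnion₂.1 ha
      · exact (F.mρ j).comp (hL g hg).1
      · exact (F.mρ j).comp ((hL h hh).1.comp hτ)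
  have m1 : ∀ g ∈ L, g ∈ 𝓐 := fun g hg => Or.inl (Or.inl hg)
  have m2 : ∀ g ∈ L, g ∘ τ ∈ 𝓐 := fun g hg => Or.inl (Or.inr ⟨g, hg, rfl⟩)
  have m3 : ∀ j < n, ∀ g ∈ L, F.ρ j ∘ g ∈ 𝓐 := fun j hj g hg =>
    Or.inr (mem_biUnion hj (Or.inl ⟨g, hg, rfl⟩))
  have m4 : ∀ j < n, ∀ g ∈ L, F.ρ j ∘ g ∘ τ ∈ 𝓐 := fun j hj g hg =>
    Or.inr (mem_biUnion hj (Or.inr ⟨g, hg, rfl⟩))
  let R : ℕ → Set X := fun M => {x | x ∈ Q k ∧ ∀ a ∈ 𝓐, ∀ b ∈ 𝓐, a x ≠ b x →
    ∃ i < M, κ (a x) i ≠ κ (b x) i}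
  have hQR : Q k ⊆ ⋃ M, R M := by
    intro x hx
    have : ∀ q ∈ 𝓐 ×ˢ 𝓐, ∃ M, q.1 x ≠ q.2 x → ∃ i < M, κ (q.1 x) i ≠ κ (q.2 x) i := by
      rintro ⟨a, b⟩ -
      by_cases hab : a x = b x
      · exact ⟨0, fun h => (h hab).elim⟩
      · have : κ (a x) ≠ κ (b x) := fun h => hab (hκi h)
        obtain ⟨i, hi⟩ := Function.ne_iff.1 this
        exact ⟨i + 1, fun _ => ⟨i, Nat.lt_succ_self _, hi⟩⟩
    choose! M hM using this
    have hfin : (M '' (𝓐 ×ˢ 𝓐)).Finite := (h𝓐fin.prod h𝓐fin).image _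
    obtain ⟨B, hB⟩ := hfin.bddAbove
    refine mem_iUnion.2 ⟨B, hx, fun a ha b hb hab => ?_⟩
    obtain ⟨i, hi, hi'⟩ := hM (a, b) ⟨ha, hb⟩ hab
    exact ⟨i, lt_of_lt_of_le hi (hB ⟨(a, b), ⟨ha, hb⟩, rfl⟩), hi'⟩
  obtain ⟨M0, hM0⟩ := exists_pos_of_iUnion hk hQR
  obtain ⟨M, hMn, hM⟩ : ∃ M, n ≤ M ∧ μ (R M) ≠ 0 := by
    refine ⟨max M0 n, le_max_right _ _, fun h => hM0 (measure_mono_null ?_ h)⟩
    rintro x ⟨hx, hx'⟩
    refine ⟨hx, fun a ha b hb hab => ?_⟩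
    obtain ⟨i, hi, hi'⟩ := hx' a ha b hb hab
    exact ⟨i, lt_of_lt_of_le hi (le_max_left _ _), hi'⟩
  have hcoord : ∀ a ∈ 𝓐, ∀ i, Measurable (fun x => κ (a x) i) := fun a ha i =>
    (measurable_pi_apply i).comp (hκ.comp (h𝓐m a ha))
  have hRm : MeasurableSet (R M) := by
    have e : R M = Q k ∩ ⋂ a ∈ 𝓐, ⋂ b ∈ 𝓐, ({x | a x = b x} ∪
        ⋃ i ∈ {i | i < M}, {x | κ (a x) i = κ (b x) i}ᶜ) := by
      ext x
      simp only [R, mem_ofPred_eq, mem_inter_iff, mem_iInter, mem_union, mem_iUnion,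
        mem_compl_iff, exists_prop, ne_eq, imp_iff_not_or, not_not]
    rw [e]
    refine (hQm k).inter ?_
    refine MeasurableSet.biInter h𝓐fin.countable fun a ha =>
      MeasurableSet.biInter h𝓐fin.countable fun b hb => ?_
    refine (measurableSet_eq_fun (h𝓐m a ha) (h𝓐m b hb)).union ?_
    exact MeasurableSet.biUnion (Set.to_countable _) fun i _ =>
      (measurableSet_eq_fun (hcoord a ha i) (hcoord b hb i)).compl
  have hfin𝓐 : Finite 𝓐 := h𝓐fin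
  let Ψ : X → (𝓐 × Fin M → Bool) := fun x q => κ (q.1.1 x) q.2
  have hΨ : Measurable Ψ := measurable_pi_lambda _ fun q => hcoord q.1.1 q.1.2 q.2
  obtain ⟨v, hv⟩ := exists_pos_of_iUnion (B := fun v => R M ∩ Ψ ⁻¹' {v}) hM (by
    intro x hx
    exact mem_iUnion.2 ⟨Ψ x, hx, rfl⟩)
  have hR'm : MeasurableSet (R M ∩ Ψ ⁻¹' {v}) := hRm.inter (hΨ (measurableSet_singleton v))
  -- compactness
  let L' := L ++ L.map (fun g => g ∘ τ)
  have hL'𝓐 : ∀ g ∈ L', g ∈ 𝓐 := by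
    intro g hg
    rcases List.mem_append.1 hg with hg | hg
    · exact m1 g hg
    · obtain ⟨h, hh, rfl⟩ := List.mem_map.1 hg
      exact m2 h hh
  have hL'fin : Finite {g | g ∈ L'} := L'.finite_toSet
  let κ' : X → ({g | g ∈ L'} → (ℕ → Bool)) := fun x g => κ (g.1 x)
  have hκ' : Measurable κ' := measurable_pi_lambda _ fun g => hκ.comp (h𝓐m _ (hL'𝓐 _ g.2))
  have hid' : id ∈ L' := List.mem_append.2 (Or.inl hid)
  have hκ'i : InjOn κ' (R M ∩ Ψ ⁻¹' {v}) := by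
    intro x _ y _ hxy
    exact hκi (congrFun hxy ⟨id, hid'⟩)
  obtain ⟨C', hC'1, hC'2, hC'3, hC'4⟩ := exists_compact_coord μ hκ' hR'm hκ'i hv
  have hμC' : μ C' ≠ 0 := by
    intro h
    have : μ (R M ∩ Ψ ⁻¹' {v}) ≤ μ ((R M ∩ Ψ ⁻¹' {v}) \ C') := by
      calc μ (R M ∩ Ψ ⁻¹' {v}) ≤ μ (((R M ∩ Ψ ⁻¹' {v}) \ C') ∪ C') := by
            refine measure_mono fun x hx => ?_
            by_cases hxC : x ∈ C'
            · exact Or.inr hxC
            · exact Or.inl ⟨hx, hxC⟩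
        _ ≤ μ ((R M ∩ Ψ ⁻¹' {v}) \ C') + μ C' := measure_union_le _ _
        _ = _ := by rw [h, add_zero]
    exact absurd hC'4 (not_lt.2 this)
  have hQ' : ∀ x ∈ C', x ∈ Q k := fun x hx => (hC'1 hx).1.1
  have hlev : ∀ x ∈ C', ∀ y ∈ C', ∀ a ∈ 𝓐, ∀ i < M, κ (a x) i = κ (a y) i := by
    intro x hx y hy a ha i hi
    have h1 : Ψ x = v := (hC'1 hx).2
    have h2 : Ψ y = v := (hC'1 hy).2
    exact congrFun (h1.trans h2.symm) (⟨a, ha⟩, ⟨i, hi⟩)
  have hsepx : ∀ x ∈ C', ∀ a ∈ 𝓐, ∀ b ∈ 𝓐, a x ≠ b x → ∃ i < M, κ (a x) i ≠ κ (b x) i :=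
    fun x hx => (hC'1 hx).1.2
  refine ⟨τ, C', ?_, ?_, ⟨hC'2, ?_, hμC', hid', ?_⟩, ?_, ?_⟩
  · exact fun x hx => (hQ' x hx).1
  · exact fun x hx => (hQ' x hx).2.2.1
  · exact fun x hx => hCN (hQ' x hx).1
  · intro g hg
    rcases List.mem_append.1 hg with hg | hg
    · refine ⟨(hL g hg).1, (hL g hg).2.1.mono fun x hx => (hQ' x hx).1, fun x hx =>
        (hL g hg).2.2 x (hQ' x hx).1⟩
    · obtain ⟨h, hh, rfl⟩ := List.mem_map.1 hg
      refine ⟨(hL h hh).1.comp hτ, ?_, ?_⟩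
      · intro x hx y hy hxy
        have := (hL h hh).2.1 (hQ' x hx).2.2.1 (hQ' y hy).2.2.1 hxy
        exact F.inj k (hQ' x hx).2.1 (hQ' y hy).2.1 this
      · intro x hx
        exact hE.trans (F.rel k x (hQ' x hx).2.1) ((hL h hh).2.2 _ (hQ' x hx).2.2.1)
  · intro g hg
    refine ⟨?_, fun x hx y hy i hi => hlev x hx y hy g (hL'𝓐 g hg) i (lt_of_lt_of_le hi hMn)⟩
    have : κ '' (g '' C') = (fun f : ({g | g ∈ L'} → (ℕ → Bool)) => f ⟨g, hg⟩) ''
        (κ' '' C') := by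
      rw [← image_comp, ← image_comp]; rfl
    rw [this]
    exact hC'3.image (continuous_apply _)
  · intro g hg h hh x hx y hy
    refine ⟨?_, fun j hj => ⟨fun hd => ?_, fun hd => ?_⟩⟩
    · intro he
      obtain ⟨i, hi, hi'⟩ := hsepx y hy _ (m1 g hg) _ (m2 h hh)
        (fun h' => ((hQ' y hy).2.2.2 g hg h hh).1 h'.symm)
      apply hi'
      rw [← hlev x hx y hy g (m1 g hg) i hi, he]
      rfl
    · intro he
      obtain ⟨i, hi, hi'⟩ := hsepx x hx _ (m2 h hh) _ (m3 j hj g hg)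
        ((((hQ' x hx).2.2.2 g hg h hh).2 j hj).1 hd)
      apply hi'
      rw [hlev x hx y hy _ (m2 h hh) i hi]
      show κ (h (τ y)) i = κ (F.ρ j (g x)) i
      rw [he]
    · intro he
      obtain ⟨i, hi, hi'⟩ := hsepx y hy _ (m4 j hj h hh) _ (m1 g hg)
        ((((hQ' y hy).2.2.2 g hg h hh).2 j hj).2 hd)
      apply hi'
      rw [← hlev x hx y hy g (m1 g hg) i hi, ← he]
      rfl

/-- composition along a branch -/
def gcomp (τ : ℕ → X → X) (α : ℕ → Bool) : ℕ → X → X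
  | 0 => id
  | n + 1 => if α n then gcomp τ α n ∘ τ n else gcomp τ α n

omit [MeasurableSpace X] [StandardBorelSpace X] in
theorem gcomp_congr (τ : ℕ → X → X) {α β : ℕ → Bool} {n : ℕ}
    (h : ∀ i < n, α i = β i) : gcomp τ α n = gcomp τ β n := by
  induction n with
  | zero => rfl
  | succ n ih =>
    simp only [gcomp]
    rw [ih (fun i hi => h i (by omega)), h n (by omega)]

theorem exists_theta [Nonempty X] (hE : Equivalence E) (F : FM E) (μ : Measure X)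
    [IsFiniteMeasure μ] {N : Set X} (hNm : MeasurableSet N) (hN0 : μ N ≠ 0)
    (hN : ∀ C, C ⊆ N → MeasurableSet C → ∃ Z, μ Z = 0 ∧
      ∀ x ∈ C \ Z, {y | y ∈ C ∧ E x y}.Infinite) :
    ∃ θ : (ℕ → Bool) → X, Measurable θ ∧ Function.Injective θ ∧
      ∀ α β, Ev α β ↔ E (θ α) (θ β) := by
  classical
  let κ : X → ℕ → Bool := MeasurableSpace.mapNatBool X
  have hκ : Measurable κ := MeasurableSpace.measurable_mapNatBool X
  have hκi : Function.Injective κ := MeasurableSpace.injective_mapNatBool X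
  let S := {p : Set X × List (X → X) // OKState E μ N p}
  have hstep : ∀ (n : ℕ) (p : S), ∃ (τ : X → X) (q : S), q.1.1 ⊆ p.1.1 ∧
      MapsTo τ q.1.1 p.1.1 ∧ q.1.2 = p.1.2 ++ p.1.2.map (fun g => g ∘ τ) ∧
      (∀ g ∈ q.1.2, IsCompact (κ '' (g '' q.1.1)) ∧
        ∀ x ∈ q.1.1, ∀ y ∈ q.1.1, ∀ i < n, κ (g x) i = κ (g y) i) ∧
      ∀ g ∈ p.1.2, ∀ h ∈ p.1.2, ∀ x ∈ q.1.1, ∀ y ∈ q.1.1, g x ≠ h (τ y) ∧ ∀ j < n,
        (g x ∈ F.D j → F.ρ j (g x) ≠ h (τ y)) ∧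
        (h (τ y) ∈ F.D j → F.ρ j (h (τ y)) ≠ g x) := by
    intro n p
    obtain ⟨τ, C', h1, h2, h3, h4, h5⟩ := exists_step hE F μ hN hκ hκi n p.1 p.2
    exact ⟨τ, ⟨_, h3⟩, h1, h2, rfl, h4, h5⟩
  choose T nxt s1 s2 s3 s4 s5 using hstep
  have h0 : OKState E μ N (N, [id]) := by
    refine ⟨hNm, subset_rfl, hN0, by simp, ?_⟩
    intro g hg
    rw [List.mem_singleton.1 hg]
    exact ⟨measurable_id, injOn_id _, fun x _ => hE.refl x⟩
  let U : ℕ → S := fun n => Nat.rec ⟨(N, [id]), h0⟩ (fun n p => nxt n p) n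
  let τ : ℕ → X → X := fun n => T n (U n)
  let C : ℕ → Set X := fun n => (U n).1.1
  let L : ℕ → List (X → X) := fun n => (U n).1.2
  have hCs : ∀ n, C (n + 1) ⊆ C n := fun n => s1 n (U n)
  have hτ : ∀ n, MapsTo (τ n) (C (n + 1)) (C n) := fun n => s2 n (U n)
  have hL : ∀ n, L (n + 1) = L n ++ (L n).map (fun g => g ∘ τ n) := fun n => s3 n (U n)
  have hcomp : ∀ n, ∀ g ∈ L (n + 1), IsCompact (κ '' (g '' C (n + 1))) ∧
        ∀ x ∈ C (n + 1), ∀ y ∈ C (n + 1), ∀ i < n, κ (g x) i = κ (g y) i :=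
    fun n => s4 n (U n)
  have hav : ∀ n, ∀ g ∈ L n, ∀ h ∈ L n, ∀ x ∈ C (n + 1), ∀ y ∈ C (n + 1),
      g x ≠ h (τ n y) ∧ ∀ j < n, (g x ∈ F.D j → F.ρ j (g x) ≠ h (τ n y)) ∧
        (h (τ n y) ∈ F.D j → F.ρ j (h (τ n y)) ≠ g x) := fun n => s5 n (U n)
  have hok : ∀ n, OKState E μ N (C n, L n) := fun n => (U n).2
  have hne : ∀ n, (C n).Nonempty := fun n => nonempty_of_measure_ne_zero (hok n).2.2.1
  have hG : ∀ α n, gcomp τ α n ∈ L n := by
    intro α n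
    induction n with
    | zero => exact (hok 0).2.2.2.1
    | succ n ih =>
      rw [hL]
      simp only [gcomp]
      split_ifs
      · exact List.mem_append.2 (Or.inr (List.mem_map.2 ⟨_, ih, rfl⟩))
      · exact List.mem_append.2 (Or.inl ih)
  have hGinj : ∀ α n, InjOn (gcomp τ α n) (C n) := fun α n => ((hok n).2.2.2.2 _ (hG α n)).2.1
  have hGE : ∀ α n, ∀ x ∈ C n, E x (gcomp τ α n x) := fun α n =>
    ((hok n).2.2.2.2 _ (hG α n)).2.2
  let V : (ℕ → Bool) → ℕ → Set X := fun α n => gcomp τ α n '' C n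
  -- one step of the nesting
  have hstep1 : ∀ α n, ∀ x ∈ C (n + 1), ∃ x' ∈ C n,
      gcomp τ α (n + 1) x = gcomp τ α n x' ∧ x' = if α n then τ n x else x := by
    intro α n x hx
    by_cases hα : α n
    · refine ⟨τ n x, hτ n hx, ?_, by rw [if_pos hα]⟩
      simp only [gcomp]
      rw [if_pos hα]; rfl
    · refine ⟨x, hCs n hx, ?_, by rw [if_neg hα]⟩
      simp only [gcomp]
      rw [if_neg hα]
  have hVs : ∀ α n, V α (n + 1) ⊆ V α n := by
    rintro α n _ ⟨x, hx, rfl⟩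
    obtain ⟨x', hx', he, -⟩ := hstep1 α n x hx
    exact ⟨x', hx', he.symm⟩
  have hVc : ∀ α n, IsCompact (κ '' V α (n + 1)) := fun α n => (hcomp n _ (hG α (n + 1))).1
  have hθ : ∀ α, ∃ x, ∀ n, x ∈ V α n := by
    intro α
    obtain ⟨y, hy⟩ := IsCompact.nonempty_iInter_of_sequence_nonempty_isCompact_isClosed
      (fun n => κ '' V α (n + 1)) (fun n => image_mono (hVs α (n + 1)))
      (fun n => ((hne (n + 1)).image _).image _) (hVc α 0) (fun n => (hVc α n).isClosed)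
    rw [mem_iInter] at hy
    obtain ⟨x, hx, rfl⟩ := hy 0
    refine ⟨x, fun n => ?_⟩
    obtain ⟨x', hx', he⟩ := hy n
    rw [hκi he] at hx'
    exact hVs α n hx'
  choose θ hθ using hθ
  -- coordinates of `θ`
  have hcoord : ∀ α n, ∀ x ∈ C (n + 1), ∀ i < n, κ (θ α) i = κ (gcomp τ α (n + 1) x) i := by
    intro α n x hx i hi
    obtain ⟨z, hz, hz'⟩ := hθ α (n + 1)
    rw [← hz']
    exact (hcomp n _ (hG α (n + 1))).2 z hz x hx i hi
  have hκθ : Measurable (fun α => κ (θ α)) := by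
    refine measurable_pi_lambda _ fun i => ?_
    refine measurable_of_first (i + 2) _ fun α β hαβ => ?_
    obtain ⟨x, hx⟩ := hne (i + 1 + 1)
    rw [hcoord α (i + 1) x hx i (by omega), hcoord β (i + 1) x hx i (by omega),
      gcomp_congr τ hαβ]
  obtain ⟨κ', hκ', hκκ'⟩ := exists_leftInv hκ MeasurableSet.univ hκi.injOn
  have hθm : Measurable θ := by
    have : θ = κ' ∘ (fun α => κ (θ α)) := by
      funext α
      exact (hκκ' _ (mem_univ _)).symm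
    rw [this]
    exact hκ'.comp hκθ
  -- uniqueness
  have huniq : ∀ α x, (∀ n, x ∈ V α n) → x = θ α := by
    intro α x hx
    apply hκi
    funext i
    obtain ⟨z, hz, hz'⟩ := hx (i + 1 + 1)
    rw [← hz', hcoord α (i + 1) z hz i (by omega)]
  -- nested structure
  have hnest : ∀ (α β : ℕ → Bool) (n : ℕ), (∀ m, n ≤ m → α m = β m) → ∀ m, n ≤ m →
      ∀ v ∈ C m, ∃ u ∈ C n, gcomp τ α m v = gcomp τ α n u ∧ gcomp τ β m v = gcomp τ β n u := by
    intro α β n hαβ m hm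
    induction m, hm using Nat.le_induction with
    | base => exact fun v hv => ⟨v, hv, rfl, rfl⟩
    | succ m hm ih =>
      intro v hv
      obtain ⟨x', hx', he, hx''⟩ := hstep1 α m v hv
      obtain ⟨y', hy', he', hy''⟩ := hstep1 β m v hv
      have : x' = y' := by rw [hx'', hy'', hαβ m hm]
      subst this
      obtain ⟨u, hu, h1, h2⟩ := ih x' hx'
      exact ⟨u, hu, he.trans h1, he'.trans h2⟩
  have hEv : ∀ α β, Ev α β → E (θ α) (θ β) := by
    rintro α β ⟨n, hn⟩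
    obtain ⟨u, hu, hu'⟩ := hθ α n
    have : gcomp τ β n u = θ β := by
      refine huniq β _ fun m => ?_
      have hbig : gcomp τ β n u ∈ V β (max m n) := by
        obtain ⟨v, hv, hv'⟩ := hθ α (max m n)
        obtain ⟨u', hu'C, h1, h2⟩ := hnest α β n hn (max m n) (le_max_right _ _) v hv
        have : u' = u := hGinj α n hu'C hu (by rw [← h1, hv', hu'])
        subst this
        exact ⟨v, hv, h2⟩
      have hmono : ∀ a b, a ≤ b → V β b ⊆ V β a := by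
        intro a b hab
        induction b, hab using Nat.le_induction with
        | base => exact subset_rfl
        | succ b _ ih => exact (hVs β b).trans ih
      exact hmono m _ (le_max_left _ _) hbig
    rw [← hu', ← this]
    exact hE.trans (hE.symm (hGE α n u hu)) (hGE β n u hu)
  -- at a difference
  have hdiff : ∀ α β n, α n = false → β n = true →
      θ α ≠ θ β ∧ ∀ j < n, (θ α ∈ F.D j → F.ρ j (θ α) ≠ θ β) ∧
        (θ β ∈ F.D j → F.ρ j (θ β) ≠ θ α) := by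
    intro α β n hα hβ
    obtain ⟨x, hx, hx'⟩ := hθ α (n + 1)
    obtain ⟨y, hy, hy'⟩ := hθ β (n + 1)
    have e1 : gcomp τ α (n + 1) x = gcomp τ α n x := by
      simp only [gcomp]
      rw [if_neg (by simp [hα])]
    have e2 : gcomp τ β (n + 1) y = gcomp τ β n (τ n y) := by
      simp only [gcomp]
      rw [if_pos hβ]; rfl
    rw [e1] at hx'
    rw [e2] at hy'
    have := hav n _ (hG α n) _ (hG β n) x hx y hy
    rw [hx', hy'] at this
    exact this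
  have hdiff' : ∀ α β n, α n ≠ β n →
      θ α ≠ θ β ∧ ∀ j < n, (θ α ∈ F.D j → F.ρ j (θ α) ≠ θ β) := by
    intro α β n hn
    cases ha : α n <;> cases hb : β n
    · rw [ha, hb] at hn; exact (hn rfl).elim
    · have := hdiff α β n ha hb
      exact ⟨this.1, fun j hj => (this.2 j hj).1⟩
    · have := hdiff β α n hb ha
      exact ⟨this.1.symm, fun j hj => (this.2 j hj).2⟩
    · rw [ha, hb] at hn; exact (hn rfl).elim
  refine ⟨θ, hθm, ?_, fun α β => ⟨hEv α β, fun h => ?_⟩⟩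
  · intro α β hαβ
    by_contra hne'
    obtain ⟨n, hn⟩ := Function.ne_iff.1 hne'
    exact (hdiff' α β n hn).1 hαβ
  · obtain ⟨j, hj, hj'⟩ := F.cov _ _ h
    refine ⟨j + 1, fun m hm => ?_⟩
    by_contra hmm
    exact (hdiff' α β m hmm).2 j (by omega) hj hj'

end

end Pool.Agent.Work.MP_97bde0_lc
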