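import Pool.Agent.Work.MP_97bde0_lc.ELC
import Pool.Agent.Work.MP_97bde0_lc.Theta

/-!
# The coin tossing measure on Cantor space
-/

set_option autoImplicit false

open Set MeasureTheory Topology
open scoped ENNReal

namespace Pool.Agent.Work.MP_97bde0_lc

/-- cylinder -/
def cyl (n : ℕ) (z : ℕ → Bool) : Set (ℕ → Bool) := {x | ∀ i < n, x i = z i}

theorem mem_cyl_iff {n : ℕ} {z x : ℕ → Bool} : x ∈ cyl n z ↔ takeN n x = takeN n z := by
  constructor
  · intro h; funext i; exact h i i.2
  · intro h i hi; exact congrFun h ⟨i, hi⟩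

theorem mem_cyl_self (n : ℕ) (z : ℕ → Bool) : z ∈ cyl n z := fun _ _ => rfl

theorem cyl_eq_pi (n : ℕ) (z : ℕ → Bool) :
    cyl n z = Set.pi (Finset.range n : Set ℕ) (fun i => {z i}) := by
  ext x
  simp [cyl, Set.mem_pi]

theorem isClopen_takeN (n : ℕ) (S : Set (Fin n → Bool)) :
    IsClopen {z : ℕ → Bool | takeN n z ∈ S} :=
  (isClopen_discrete S).preimage (continuous_takeN n)

theorem isClopen_cyl (n : ℕ) (z : ℕ → Bool) : IsClopen (cyl n z) := by
  have : cyl n z = {x | takeN n x ∈ ({takeN n z} : Set (Fin n → Bool))} := by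
    ext x; exact mem_cyl_iff
  rw [this]
  exact isClopen_takeN n _

theorem measurableSet_cyl (n : ℕ) (z : ℕ → Bool) : MeasurableSet (cyl n z) :=
  (isClopen_cyl n z).1.measurableSet

theorem exists_cyl_subset {O : Set (ℕ → Bool)} (hO : IsOpen O) {z : ℕ → Bool} (hz : z ∈ O) :
    ∃ N, ∀ n, N ≤ n → cyl n z ⊆ O := by
  obtain ⟨I, t, ht1, ht2⟩ := isOpen_pi_iff.1 hO z hz
  refine ⟨I.sup id + 1, fun n hn x hx => ht2 ?_⟩
  intro i hi
  have : i ≤ I.sup id := Finset.le_sup (f := id) hi
  rw [hx i (by omega)]
  exact (ht1 i hi).2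

theorem ext_cyl (N : ℕ) {ν1 ν2 : Measure (ℕ → Bool)} [IsFiniteMeasure ν1]
    (huniv : ν1 univ = ν2 univ) (h : ∀ n, N ≤ n → ∀ z, ν1 (cyl n z) = ν2 (cyl n z)) :
    ν1 = ν2 := by
  let C : Set (Set (ℕ → Bool)) := {s | ∃ n z, N ≤ n ∧ s = cyl n z}
  refine ext_of_generate_finite C ?_ ?_ ?_ huniv
  · apply le_antisymm
    · rw [MeasurableSpace.pi]
      refine iSup_le fun i => ?_
      rintro _ ⟨t, -, rfl⟩
      -- preimage of `t` under evaluation
      have key : (fun z : ℕ → Bool => z i) ⁻¹' t =
          ⋃ u : {u : Fin (max N (i + 1)) → Bool // u ⟨i, by omega⟩ ∈ t},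
            cyl (max N (i + 1)) (joinN _ u.1 (fun _ => false)) := by
        ext z
        simp only [mem_preimage, mem_iUnion]
        constructor
        · intro hz
          refine ⟨⟨takeN _ z, hz⟩, ?_⟩
          rw [mem_cyl_iff, takeN_joinN]
        · rintro ⟨⟨u, hu⟩, hz⟩
          rw [mem_cyl_iff, takeN_joinN] at hz
          have := congrFun hz ⟨i, by omega⟩
          show z i ∈ t
          have h2 : z i = u ⟨i, by omega⟩ := this
          rw [h2]; exact hu
      rw [key]
      refine MeasurableSet.iUnion fun u => ?_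
      exact MeasurableSpace.measurableSet_generateFrom ⟨_, _, le_max_left _ _, rfl⟩
    · refine MeasurableSpace.generateFrom_le ?_
      rintro _ ⟨n, z, -, rfl⟩
      exact measurableSet_cyl n z
  · have hsub : ∀ n z n' z', n ≤ n' → (cyl n z ∩ cyl n' z').Nonempty →
        cyl n z ∩ cyl n' z' = cyl n' z' := by
      rintro n z n' z' hnn ⟨x, hx1, hx2⟩
      refine inter_eq_right.2 ?_
      intro y hy i hi
      rw [hy i (by omega), ← hx2 i (by omega), hx1 i hi]
    rintro _ ⟨n, z, hn, rfl⟩ _ ⟨n', z', hn', rfl⟩ hne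
    rcases le_total n n' with hnn | hnn
    · exact ⟨n', z', hn', hsub n z n' z' hnn hne⟩
    · refine ⟨n, z, hn, ?_⟩
      rw [inter_comm]
      exact hsub n' z' n z hnn (by rwa [inter_comm])
  · rintro _ ⟨n, z, hn, rfl⟩
    exact h n hn z

/-- fair coin on `Bool` -/
noncomputable def coinB : Measure Bool := (2 : ℝ≥0∞)⁻¹ • Measure.count

instance : IsProbabilityMeasure coinB := by
  constructor
  simp only [coinB, Measure.smul_apply, smul_eq_mul]
  rw [Measure.count_univ]
  simp
  exact ENNReal.inv_mul_cancel (by norm_num) (by norm_num)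

theorem coinB_singleton (b : Bool) : coinB {b} = 2⁻¹ := by
  simp [coinB]

/-- the coin tossing measure -/
noncomputable def coin : Measure (ℕ → Bool) := Measure.infinitePi (fun _ => coinB)

instance : IsProbabilityMeasure coin := by
  unfold coin; infer_instance

theorem coin_cyl (n : ℕ) (z : ℕ → Bool) : coin (cyl n z) = (2⁻¹ : ℝ≥0∞) ^ n := by
  rw [cyl_eq_pi, coin, Measure.infinitePi_pi]
  · simp [coinB_singleton]
  · intro i _; exact measurableSet_singleton _

theorem coin_perm (n : ℕ) (π : Equiv.Perm (Fin n → Bool)) :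
    coin.map (permHomeo n π) = coin := by
  have hm : Measurable (permHomeo n π) := (permHomeo n π).continuous.measurable
  have : IsProbabilityMeasure (coin.map (permHomeo n π)) :=
    Measure.isProbabilityMeasure_map hm.aemeasurable
  refine ext_cyl n (by rw [measure_univ, measure_univ]) ?_
  intro m hm' z
  rw [Measure.map_apply hm (measurableSet_cyl m z), coin_cyl]
  have : (permHomeo n π) ⁻¹' cyl m z = cyl m ((permHomeo n π).symm z) := by
    have hsymm : ∀ y, (permHomeo n π).symm y = joinN n (π.symm (takeN n y)) (dropN n y) :=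
      fun y => rfl
    have hcong : ∀ (σ : Equiv.Perm (Fin n → Bool)) (x y : ℕ → Bool), (∀ i < m, x i = y i) →
        ∀ i < m, joinN n (σ (takeN n x)) (dropN n x) i = joinN n (σ (takeN n y)) (dropN n y) i := by
      intro σ x y hxy i hi
      have h1 : takeN n x = takeN n y := funext fun j => hxy j (by omega)
      rw [h1]
      by_cases hin : i < n
      · simp [joinN, hin]
      · simp only [joinN, hin, dif_neg, not_false_eq_true, dropN]
        exact hxy _ (by omega)
    ext x
    constructor
    · intro hx i hi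
      have h1 := hcong π.symm _ _ hx i hi
      rw [← hsymm, ← hsymm, Homeomorph.symm_apply_apply] at h1
      exact h1
    · intro hx i hi
      have h1 := hcong π _ _ hx i hi
      rw [← permHomeo_apply, ← permHomeo_apply, Homeomorph.apply_symm_apply] at h1
      exact h1
  rw [this, coin_cyl]

theorem coin_perm_preimage (n : ℕ) (π : Equiv.Perm (Fin n → Bool)) {A : Set (ℕ → Bool)}
    (hA : MeasurableSet A) : coin (permHomeo n π ⁻¹' A) = coin A := by
  rw [← Measure.map_apply (permHomeo n π).continuous.measurable hA, coin_perm]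

theorem coin_perm_image (n : ℕ) (π : Equiv.Perm (Fin n → Bool)) {A : Set (ℕ → Bool)}
    (hA : MeasurableSet A) : coin (permHomeo n π '' A) = coin A := by
  have hB : MeasurableSet (permHomeo n π '' A) :=
    (permHomeo n π).measurableEmbedding.measurableSet_image' hA
  rw [← coin_perm_preimage n π hB, preimage_image_eq _ (permHomeo n π).injective]

theorem permHomeo_ev (n : ℕ) (π : Equiv.Perm (Fin n → Bool)) (x : ℕ → Bool) :
    Ev x (permHomeo n π x) := by
  refine ⟨n, fun m hm => ?_⟩
  rw [permHomeo_apply]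
  have : ¬ m < n := by omega
  simp only [joinN, this, dif_neg, not_false_eq_true, dropN]
  congr 1
  omega

theorem exists_perm_of_ev {x y : ℕ → Bool} (h : Ev x y) :
    ∃ (n : ℕ) (π : Equiv.Perm (Fin n → Bool)), permHomeo n π x = y := by
  obtain ⟨n, hn⟩ := h
  refine ⟨n, Equiv.swap (takeN n x) (takeN n y), ?_⟩
  rw [permHomeo_apply, Equiv.swap_apply_left]
  have : dropN n x = dropN n y := funext fun i => hn _ (by omega)
  rw [this, joinN_take_drop]

/-- disjoint decomposition by cylinders of length `n` -/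
theorem measure_eq_sum_cyl (ν : Measure (ℕ → Bool)) (n : ℕ) {A : Set (ℕ → Bool)}
    (hA : MeasurableSet A) : ν A = ∑ u : Fin n → Bool,
      ν (A ∩ cyl n (joinN n u (fun _ => false))) := by
  have h1 : A = ⋃ u ∈ (Finset.univ : Finset (Fin n → Bool)),
      (A ∩ cyl n (joinN n u (fun _ => false))) := by
    ext x
    simp only [mem_iUnion]
    constructor
    · intro hx
      exact ⟨takeN n x, Finset.mem_univ _, hx, by rw [mem_cyl_iff, takeN_joinN]⟩
    · rintro ⟨u, -, hx, -⟩; exact hx
  conv_lhs => rw [h1]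
  rw [measure_biUnion_finset]
  · intro u _ v _ huv
    refine Set.disjoint_left.2 ?_
    rintro x ⟨-, hx⟩ ⟨-, hx'⟩
    rw [mem_cyl_iff, takeN_joinN] at hx hx'
    exact huv (hx.symm.trans hx')
  · intro u _
    exact hA.inter (measurableSet_cyl _ _)

theorem coin_takeN (n : ℕ) (S : Finset (Fin n → Bool)) :
    coin {z | takeN n z ∈ S} = S.card * (2⁻¹ : ℝ≥0∞) ^ n := by
  have h1 : {z : ℕ → Bool | takeN n z ∈ S} = ⋃ u ∈ S, cyl n (joinN n u (fun _ => false)) := by
    ext x
    simp only [mem_iUnion]
    constructor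
    · intro hx
      exact ⟨takeN n x, hx, by rw [mem_cyl_iff, takeN_joinN]⟩
    · rintro ⟨u, hu, hx⟩
      rw [mem_cyl_iff, takeN_joinN] at hx
      show takeN n x ∈ S
      rw [hx]; exact hu
  rw [h1, measure_biUnion_finset]
  · simp [coin_cyl]
  · intro u _ v _ huv
    refine Set.disjoint_left.2 ?_
    intro x hx hx'
    rw [mem_cyl_iff, takeN_joinN] at hx hx'
    exact huv (hx.symm.trans hx')
  · intro u _
    exact measurableSet_cyl _ _

/-- zero-one law -/
theorem coin_zero_one {A : Set (ℕ → Bool)} (hA : MeasurableSet A)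
    (hinv : ∀ x y, Ev x y → x ∈ A → y ∈ A) : coin A = 0 ∨ coin A = 1 := by
  have hperm : ∀ (n : ℕ) (π : Equiv.Perm (Fin n → Bool)), permHomeo n π ⁻¹' A = A := by
    intro n π
    ext x
    exact ⟨fun h => hinv _ _ (Ev.equivalence.symm (permHomeo_ev n π x)) h,
      fun h => hinv _ _ (permHomeo_ev n π x) h⟩
  -- equality of the measures on cylinders
  have heq : ∀ n (z z' : ℕ → Bool), coin (A ∩ cyl n z) = coin (A ∩ cyl n z') := by
    intro n z z'
    let π : Equiv.Perm (Fin n → Bool) := Equiv.swap (takeN n z) (takeN n z')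
    rw [← coin_perm_preimage n π (hA.inter (measurableSet_cyl n z')), preimage_inter, hperm]
    congr 2
    ext x
    rw [mem_preimage, mem_cyl_iff, mem_cyl_iff, permHomeo_apply, takeN_joinN]
    constructor
    · intro h
      rw [h]; exact Equiv.swap_apply_left _ _
    · intro h
      have := congrArg π.symm h
      rw [Equiv.symm_apply_apply] at this
      rw [this]
      show (Equiv.swap _ _).symm _ = _
      rw [Equiv.symm_swap, Equiv.swap_apply_right]
  have hcyl : ∀ n z, coin (A ∩ cyl n z) = coin A * (2⁻¹ : ℝ≥0∞) ^ n := by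
    intro n z
    have h1 := measure_eq_sum_cyl coin n hA
    have h2 : ∑ u : Fin n → Bool, coin (A ∩ cyl n (joinN n u (fun _ => false))) =
        2 ^ n * coin (A ∩ cyl n z) := by
      rw [Finset.sum_congr rfl (fun u _ => heq n (joinN n u (fun _ => false)) z)]
      simp
    rw [h1, h2, mul_comm, ← mul_assoc, ← mul_pow, ENNReal.inv_mul_cancel (by norm_num)
      (by norm_num), one_pow, one_mul]
  have hme : coin.restrict A = coin A • coin := by
    refine ext_cyl 0 ?_ ?_
    · rw [Measure.restrict_apply MeasurableSet.univ, Measure.smul_apply, measure_univ,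
        univ_inter, smul_eq_mul, mul_one]
    · intro n _ z
      rw [Measure.restrict_apply (measurableSet_cyl n z), inter_comm, hcyl, Measure.smul_apply,
        coin_cyl, smul_eq_mul]
  have h3 : coin A = coin A * coin A := by
    have := congrArg (fun ν : Measure (ℕ → Bool) => ν A) hme
    simp only [Measure.restrict_apply hA, inter_self, Measure.smul_apply, smul_eq_mul] at this
    exact this
  by_cases h0 : coin A = 0
  · exact Or.inl h0
  · right
    have hfin : coin A ≠ ∞ := measure_ne_top _ _
    have h4 : coin A * 1 = coin A * coin A := by rw [mul_one]; exact h3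
    exact ((ENNReal.mul_right_inj h0 hfin).1 h4).symm

end Pool.Agent.Work.MP_97bde0_lc
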