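import Pool.Agent.Work.MP_97bde0_lc.Null

/-!
# Tail equivalence on Cantor space embeds into eventual equality of sequences of naturals
-/

set_option autoImplicit false

open Set MeasureTheory Topology

namespace Pool.Agent.Work.MP_97bde0_lc

/-- tail equivalence -/
def Tail (x y : ℕ → Bool) : Prop := ∃ m n, ∀ i, x (m + i) = y (n + i)

theorem Tail.equivalence : Equivalence Tail where
  refl := fun _ => ⟨0, 0, fun _ => rfl⟩
  symm := fun ⟨m, n, h⟩ => ⟨n, m, fun i => (h i).symm⟩
  trans := by
    rintro x y z ⟨m, n, h⟩ ⟨m', n', h'⟩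
    refine ⟨m + m', n' + n, fun i => ?_⟩
    have h1 := h (m' + i)
    have h2 := h' (n + i)
    rw [show m + m' + i = m + (m' + i) by ring, h1, show n + (m' + i) = m' + (n + i) by ring,
      h2, show n' + n + i = n' + (n + i) by ring]

/-- numerical value of the word of length `k` at position `n` -/
def wval (x : ℕ → Bool) : ℕ → ℕ → ℕ
  | 0, _ => 0
  | k + 1, n => 2 * wval x k n + (x (n + k)).toNat

theorem wval_shift {x y : ℕ → Bool} {n n' k : ℕ} (h : ∀ i < k, x (n + i) = y (n' + i)) :
    wval x k n = wval y k n' := by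
  induction k with
  | zero => rfl
  | succ k ih =>
    simp only [wval]
    rw [ih (fun i hi => h i (by omega)), h k (by omega)]

theorem wval_inj {x y : ℕ → Bool} {n n' k : ℕ} (h : wval x k n = wval y k n') :
    ∀ i < k, x (n + i) = y (n' + i) := by
  induction k with
  | zero => intro i hi; omega
  | succ k ih =>
    simp only [wval] at h
    have h1 : (x (n + k)).toNat = (y (n' + k)).toNat := by
      have a := Bool.toNat_lt (x (n + k))
      have b := Bool.toNat_lt (y (n' + k))
      omega
    have h2 : wval x k n = wval y k n' := by omega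
    intro i hi
    rcases Nat.lt_succ_iff_lt_or_eq.1 hi with hi | rfl
    · exact ih h2 i hi
    · cases hx : x (n + i) <;> cases hy : y (n' + i) <;> simp_all

open Classical in
/-- a word value recurring infinitely often, chosen by preferring zeros -/
noncomputable def rv (x : ℕ → Bool) : ℕ → ℕ
  | 0 => 0
  | k + 1 => if ∀ N, ∃ n, N ≤ n ∧ wval x (k + 1) n = 2 * rv x k then 2 * rv x k
      else 2 * rv x k + 1

theorem wval_half (x : ℕ → Bool) (k n : ℕ) : wval x (k + 1) n / 2 = wval x k n := by
  simp only [wval]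
  have := Bool.toNat_lt (x (n + k))
  omega

theorem rv_half (x : ℕ → Bool) (k : ℕ) : rv x (k + 1) / 2 = rv x k := by
  simp only [rv]
  split_ifs <;> omega

theorem rv_io (x : ℕ → Bool) (k N : ℕ) : ∃ n, N ≤ n ∧ wval x k n = rv x k := by
  induction k generalizing N with
  | zero => exact ⟨N, le_rfl, rfl⟩
  | succ k ih =>
    by_cases h : ∀ N, ∃ n, N ≤ n ∧ wval x (k + 1) n = 2 * rv x k
    · obtain ⟨n, hn, hn'⟩ := h N
      refine ⟨n, hn, ?_⟩
      simp only [rv]
      rw [if_pos h, hn']
    · have h' := h
      push Not at h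
      obtain ⟨N', hN'⟩ := h
      obtain ⟨n, hn, hn'⟩ := ih (max N N')
      refine ⟨n, (le_max_left _ _).trans hn, ?_⟩
      simp only [rv]
      rw [if_neg h']
      have h1 := hN' n ((le_max_right _ _).trans hn)
      simp only [wval] at h1 ⊢
      have h2 := Bool.toNat_lt (x (n + k))
      omega

theorem wval_rv_mono {x : ℕ → Bool} {k n : ℕ} (h : wval x (k + 1) n = rv x (k + 1)) :
    wval x k n = rv x k := by
  rw [← wval_half, ← rv_half, h]

theorem wval_rv_mono' {x : ℕ → Bool} {j k n : ℕ} (hjk : j ≤ k) (h : wval x k n = rv x k) :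
    wval x j n = rv x j := by
  induction k, hjk using Nat.le_induction with
  | base => exact h
  | succ k _ ih => exact ih (wval_rv_mono h)

theorem rv_tail {x y : ℕ → Bool} {a b : ℕ} (h : ∀ i, x (a + i) = y (b + i)) (k : ℕ) :
    rv x k = rv y k := by
  induction k with
  | zero => rfl
  | succ k ih =>
    simp only [rv]
    rw [ih]
    have hsh : ∀ m, wval x (k + 1) (a + m) = wval y (k + 1) (b + m) := by
      intro m
      refine wval_shift fun i _ => ?_
      rw [add_assoc, add_assoc]
      exact h (m + i)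
    have hio : (∀ N, ∃ n, N ≤ n ∧ wval x (k + 1) n = 2 * rv y k) ↔
        (∀ N, ∃ n, N ≤ n ∧ wval y (k + 1) n = 2 * rv y k) := by
      constructor
      · intro h1 N
        obtain ⟨n, hn, hn'⟩ := h1 (a + N)
        obtain ⟨m, rfl⟩ := Nat.exists_eq_add_of_le (show a ≤ n by omega)
        exact ⟨b + m, by omega, by rw [← hsh]; exact hn'⟩
      · intro h1 N
        obtain ⟨n, hn, hn'⟩ := h1 (b + N)
        obtain ⟨m, rfl⟩ := Nat.exists_eq_add_of_le (show b ≤ n by omega)
        exact ⟨a + m, by omega, by rw [hsh]; exact hn'⟩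
    by_cases h1 : ∀ N, ∃ n, N ≤ n ∧ wval x (k + 1) n = 2 * rv y k
    · rw [if_pos h1, if_pos (hio.1 h1)]
    · rw [if_neg h1, if_neg (fun h2 => h1 (hio.2 h2))]

/-- eventually periodic points -/
def EP (x : ℕ → Bool) : Prop := ∃ n p, 0 < p ∧ ∀ i, x (n + i) = x (n + p + i)

theorem EP.tail {x y : ℕ → Bool} (h : Tail x y) (hx : EP x) : EP y := by
  obtain ⟨a, b, h⟩ := h
  obtain ⟨n, p, hp, hn⟩ := hx
  refine ⟨b + n, p, hp, fun i => ?_⟩
  have h1 := h (n + i)
  have h2 := h (n + p + i)
  rw [show b + n + i = b + (n + i) by ring, ← h1,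
    show b + n + p + i = b + (n + p + i) by ring, ← h2]
  have h3 := hn (a + i)
  rw [show a + (n + i) = n + (a + i) by ring, h3]
  congr 1
  ring

/-- marker condition at level `k` -/
def Mk (x : ℕ → Bool) (k n : ℕ) : Prop :=
  wval x k n = rv x k ∧ ∃ j, wval x j n ≠ rv x j

theorem exists_marker {x : ℕ → Bool} (hx : ¬ EP x) (k N : ℕ) : ∃ n, N ≤ n ∧ Mk x k n := by
  by_contra hcon
  push Not at hcon
  have h1 : ∀ n, N ≤ n → wval x k n = rv x k → ∀ j, wval x j n = rv x j := by
    intro n hn hn' j
    by_contra hj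
    exact hcon n hn ⟨hn', j, hj⟩
  obtain ⟨n, hn, hn'⟩ := rv_io x k N
  obtain ⟨n', hn2, hn2'⟩ := rv_io x k (n + 1)
  apply hx
  refine ⟨n, n' - n, by omega, fun i => ?_⟩
  have e1 := h1 n hn hn' (i + 1)
  have e2 := h1 n' (by omega) hn2' (i + 1)
  have := wval_inj (e1.trans e2.symm) i (Nat.lt_succ_self i)
  rw [this]
  congr 1
  omega

open Classical in
/-- the markers -/
noncomputable def mk (x : ℕ → Bool) (k : ℕ) : ℕ :=
  if h : ∃ n, Mk x k n then Nat.find h else 0

theorem mk_spec {x : ℕ → Bool} (hx : ¬ EP x) (k : ℕ) : Mk x k (mk x k) := by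
  classical
  have h : ∃ n, Mk x k n := by
    obtain ⟨n, -, hn⟩ := exists_marker hx k 0
    exact ⟨n, hn⟩
  rw [mk, dif_pos h]
  exact Nat.find_spec h

theorem mk_min {x : ℕ → Bool} {k n : ℕ} (h : Mk x k n) : mk x k ≤ n := by
  classical
  rw [mk, dif_pos ⟨n, h⟩]
  exact Nat.find_min' _ h

theorem mk_mono {x : ℕ → Bool} (hx : ¬ EP x) (k : ℕ) : mk x k ≤ mk x (k + 1) := by
  have h := mk_spec hx (k + 1)
  exact mk_min ⟨wval_rv_mono h.1, h.2⟩

theorem mk_mono' {x : ℕ → Bool} (hx : ¬ EP x) {j k : ℕ} (hjk : j ≤ k) : mk x j ≤ mk x k := by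
  induction k, hjk using Nat.le_induction with
  | base => exact le_rfl
  | succ k _ ih => exact ih.trans (mk_mono hx k)

theorem mk_unbounded {x : ℕ → Bool} (hx : ¬ EP x) (N : ℕ) : ∃ K, ∀ k, K ≤ k → N ≤ mk x k := by
  induction N with
  | zero => exact ⟨0, fun _ _ => Nat.zero_le _⟩
  | succ N ih =>
    obtain ⟨K, hK⟩ := ih
    by_cases h : ∃ j, wval x j N ≠ rv x j
    · obtain ⟨j, hj⟩ := h
      refine ⟨max K j, fun k hk => ?_⟩
      have h1 := hK k ((le_max_left _ _).trans hk)
      have h2 : mk x k ≠ N := by
        intro he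
        have := (mk_spec hx k).1
        rw [he] at this
        exact hj (wval_rv_mono' ((le_max_right _ _).trans hk) this)
      omega
    · refine ⟨K, fun k hk => ?_⟩
      have h1 := hK k hk
      have h2 : mk x k ≠ N := by
        intro he
        have := (mk_spec hx k).2
        rw [he] at this
        exact h this
      omega

/-- markers of tail equivalent points agree eventually -/
theorem mk_tail {x y : ℕ → Bool} (hx : ¬ EP x) (hy : ¬ EP y) {a b : ℕ}
    (h : ∀ i, x (a + i) = y (b + i)) {k : ℕ} (hka : a ≤ mk x k) (hkb : b ≤ mk y k) :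
    mk x k - a = mk y k - b := by
  have hsh : ∀ k m, wval x k (a + m) = wval y k (b + m) := by
    intro k m
    refine wval_shift fun i _ => ?_
    rw [add_assoc, add_assoc]
    exact h (m + i)
  have hrv : ∀ k, rv x k = rv y k := rv_tail h
  have hM : ∀ m, Mk x k (a + m) ↔ Mk y k (b + m) := by
    intro m
    simp only [Mk, hsh, hrv]
  obtain ⟨m, hm⟩ := Nat.exists_eq_add_of_le hka
  obtain ⟨m', hm'⟩ := Nat.exists_eq_add_of_le hkb
  have h1 : mk y k ≤ b + m := mk_min ((hM m).1 (hm ▸ mk_spec hx k))
  have h2 : mk x k ≤ a + m' := mk_min ((hM m').2 (hm' ▸ mk_spec hy k))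
  omega

/-- word between two positions -/
def word (x : ℕ → Bool) (m n : ℕ) : List Bool := (List.range (n - m)).map (fun i => x (m + i))

theorem word_eq {x y : ℕ → Bool} {m n m' n' : ℕ} (h : word x m n = word y m' n') :
    n - m = n' - m' ∧ ∀ i < n - m, x (m + i) = y (m' + i) := by
  have h1 : (word x m n).length = (word y m' n').length := by rw [h]
  simp only [word, List.length_map, List.length_range] at h1
  refine ⟨h1, fun i hi => ?_⟩
  have h2 : (word x m n)[i]? = (word y m' n')[i]? := by rw [h]
  simp only [word, List.getElem?_map] at h2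
  rw [List.getElem?_range (by omega), List.getElem?_range (by omega)] at h2
  simpa using h2

theorem word_congr {x y : ℕ → Bool} {m n m' n' : ℕ} (h : n - m = n' - m')
    (h' : ∀ i < n - m, x (m + i) = y (m' + i)) : word x m n = word y m' n' := by
  unfold word
  rw [← h]
  apply List.map_congr_left
  intro i hi
  exact h' i (List.mem_range.1 hi)

theorem countable_EP : {x : ℕ → Bool | EP x}.Countable := by
  -- an eventually periodic point is determined by `n, p` and its first `n + p` values
  have : {x : ℕ → Bool | EP x} ⊆ ⋃ n : ℕ, ⋃ p : ℕ, {x | 0 < p ∧ ∀ i, x (n + i) = x (n + p + i)} := by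
    rintro x ⟨n, p, hp, h⟩
    exact mem_iUnion.2 ⟨n, mem_iUnion.2 ⟨p, hp, h⟩⟩
  refine Set.Countable.mono this (countable_iUnion fun n => countable_iUnion fun p => ?_)
  have hinj : InjOn (fun (x : ℕ → Bool) (i : Fin (n + p)) => x i)
      {x | 0 < p ∧ ∀ i, x (n + i) = x (n + p + i)} := by
    rintro x ⟨hp, hx⟩ y ⟨-, hy⟩ hxy
    funext i
    induction i using Nat.strong_induction_on with
    | _ i ih =>
      by_cases hi : i < n + p
      · exact congrFun hxy ⟨i, hi⟩
      · push Not at hi
        obtain ⟨j, rfl⟩ := Nat.exists_eq_add_of_le hi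
        rw [← hx j, ← hy j]
        exact ih (n + j) (by omega)
  exact Set.countable_of_injective_of_countable_image hinj (Set.to_countable _)

open Classical in
/-- index of eventually periodic points -/
noncomputable def epIdx : (ℕ → Bool) → ℕ :=
  fun x => if h : EP x then (Set.countable_iff_exists_injective.1 countable_EP).choose ⟨x, h⟩
    else 0

theorem epIdx_inj {x y : ℕ → Bool} (hx : EP x) (hy : EP y) (h : epIdx x = epIdx y) : x = y := by
  rw [epIdx, epIdx, dif_pos hx, dif_pos hy] at h
  exact congrArg Subtype.val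
    ((Set.countable_iff_exists_injective.1 countable_EP).choose_spec h)

/-- index of the class of an eventually periodic point -/
noncomputable def epRep (x : ℕ → Bool) : ℕ := sInf {m | ∃ y, Tail x y ∧ epIdx y = m}

theorem epRep_eq {x y : ℕ → Bool} (h : Tail x y) : epRep x = epRep y := by
  unfold epRep
  congr 1
  ext m
  constructor
  · rintro ⟨z, hz, rfl⟩
    exact ⟨z, Tail.equivalence.trans (Tail.equivalence.symm h) hz, rfl⟩
  · rintro ⟨z, hz, rfl⟩
    exact ⟨z, Tail.equivalence.trans h hz, rfl⟩

theorem tail_of_epRep {x y : ℕ → Bool} (hx : EP x) (hy : EP y) (h : epRep x = epRep y) :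
    Tail x y := by
  have h1 : ∃ z, Tail x z ∧ epIdx z = epRep x :=
    Nat.sInf_mem (s := {m | ∃ y, Tail x y ∧ epIdx y = m}) ⟨_, x, Tail.equivalence.refl x, rfl⟩
  have h2 : ∃ z, Tail y z ∧ epIdx z = epRep y :=
    Nat.sInf_mem (s := {m | ∃ z, Tail y z ∧ epIdx z = m}) ⟨_, y, Tail.equivalence.refl y, rfl⟩
  obtain ⟨z, hz, hz'⟩ := h1
  obtain ⟨w, hw, hw'⟩ := h2
  have : z = w := epIdx_inj (hx.tail hz) (hy.tail hw) (by rw [hz', hw', h])
  subst this
  exact Tail.equivalence.trans hz (Tail.equivalence.symm hw)

open Classical in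
/-- the embedding -/
noncomputable def ft (x : ℕ → Bool) : ℕ → ℕ := fun k =>
  if EP x then (if k = 0 then 2 * epIdx x + 1 else 2 * epRep x + 1)
  else (if k = 0 then 2 * Encodable.encode (word x 0 (mk x 0))
    else 2 * Encodable.encode (word x (mk x (k - 1)) (mk x k)))

theorem ft_ep {x : ℕ → Bool} (hx : EP x) (k : ℕ) :
    ft x k = if k = 0 then 2 * epIdx x + 1 else 2 * epRep x + 1 := by
  rw [ft, if_pos hx]

theorem ft_zero {x : ℕ → Bool} (hx : ¬ EP x) :
    ft x 0 = 2 * Encodable.encode (word x 0 (mk x 0)) := by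
  rw [ft, if_neg hx, if_pos rfl]

theorem ft_succ {x : ℕ → Bool} (hx : ¬ EP x) (k : ℕ) :
    ft x (k + 1) = 2 * Encodable.encode (word x (mk x k) (mk x (k + 1))) := by
  rw [ft, if_neg hx, if_neg (Nat.succ_ne_zero k)]
  rfl

theorem word_of_ft {x y : ℕ → Bool} (hx : ¬ EP x) (hy : ¬ EP y) {k : ℕ}
    (h : ft x (k + 1) = ft y (k + 1)) :
    word x (mk x k) (mk x (k + 1)) = word y (mk y k) (mk y (k + 1)) := by
  rw [ft_succ hx, ft_succ hy] at h
  exact Encodable.encode_injective (by omega)

/-- reading the common tail from the words -/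
theorem tail_from {x y : ℕ → Bool} (hx : ¬ EP x) (hy : ¬ EP y) {k : ℕ}
    (h : ∀ j, k ≤ j → ft x (j + 1) = ft y (j + 1)) :
    ∀ i, x (mk x k + i) = y (mk y k + i) := by
  have key : ∀ j, k ≤ j → mk x j - mk x k = mk y j - mk y k ∧
      ∀ i < mk x j - mk x k, x (mk x k + i) = y (mk y k + i) := by
    intro j hj
    induction j, hj using Nat.le_induction with
    | base => exact ⟨by omega, fun i hi => by omega⟩
    | succ j hj ih =>
      obtain ⟨h1, h2⟩ := word_eq (word_of_ft hx hy (h j hj))
      have a1 := mk_mono' hx hj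
      have a2 := mk_mono' hy hj
      have a3 := mk_mono hx j
      have a4 := mk_mono hy j
      refine ⟨by omega, fun i hi => ?_⟩
      by_cases hi' : i < mk x j - mk x k
      · exact ih.2 i hi'
      · have := h2 (i - (mk x j - mk x k)) (by omega)
        have e1 : mk x j + (i - (mk x j - mk x k)) = mk x k + i := by omega
        have e2 : mk y j + (i - (mk x j - mk x k)) = mk y k + i := by omega
        rwa [e1, e2] at this
  intro i
  obtain ⟨K, hK⟩ := mk_unbounded hx (mk x k + i + 1)
  have h1 := hK (max K k) (le_max_left _ _)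
  exact (key (max K k) (le_max_right _ _)).2 i (by omega)

theorem ft_iff (x y : ℕ → Bool) : Tail x y ↔ Ev (ft x) (ft y) := by
  by_cases hx : EP x <;> by_cases hy : EP y
  · constructor
    · intro h
      refine ⟨1, fun m hm => ?_⟩
      rw [ft_ep hx, ft_ep hy, if_neg (by omega), if_neg (by omega), epRep_eq h]
    · rintro ⟨n, hn⟩
      have := hn (n + 1) (by omega)
      rw [ft_ep hx, ft_ep hy, if_neg (by omega), if_neg (by omega)] at this
      exact tail_of_epRep hx hy (by omega)
  · constructor
    · intro h; exact (hy (hx.tail h)).elim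
    · rintro ⟨n, hn⟩
      have := hn (n + 1) (by omega)
      rw [ft_ep hx, if_neg (by omega), ft_succ hy] at this
      omega
  · constructor
    · intro h; exact (hx (hy.tail (Tail.equivalence.symm h))).elim
    · rintro ⟨n, hn⟩
      have := hn (n + 1) (by omega)
      rw [ft_ep hy, if_neg (by omega), ft_succ hx] at this
      omega
  · constructor
    · rintro ⟨a, b, h⟩
      obtain ⟨K, hK⟩ := mk_unbounded hx a
      obtain ⟨K', hK'⟩ := mk_unbounded hy b
      refine ⟨max K K' + 1, fun m hm => ?_⟩
      obtain ⟨k, rfl⟩ : ∃ k, m = k + 1 := ⟨m - 1, by omega⟩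
      have hk : K ≤ k := by have := le_max_left K K'; omega
      have hk' : K' ≤ k := by have := le_max_right K K'; omega
      have e1 := mk_tail hx hy h (hK k hk) (hK' k hk')
      have e2 := mk_tail hx hy h (hK (k + 1) (by omega)) (hK' (k + 1) (by omega))
      have a1 := hK k hk
      have a2 := hK' k hk'
      have a3 := mk_mono hx k
      have a4 := mk_mono hy k
      rw [ft_succ hx, ft_succ hy]
      congr 2
      refine word_congr (by omega) fun i _ => ?_
      have := h (mk x k - a + i)
      rw [show mk x k + i = a + (mk x k - a + i) by omega,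
        show mk y k + i = b + (mk x k - a + i) by omega, this]
    · rintro ⟨n, hn⟩
      exact ⟨mk x n, mk y n, tail_from hx hy fun j hj => hn (j + 1) (by omega)⟩

theorem ft_injective : Function.Injective ft := by
  intro x y h
  by_cases hx : EP x <;> by_cases hy : EP y
  · have := congrFun h 0
    rw [ft_ep hx, ft_ep hy, if_pos rfl, if_pos rfl] at this
    exact epIdx_inj hx hy (by omega)
  · have := congrFun h 0
    rw [ft_ep hx, ft_zero hy, if_pos rfl] at this
    omega
  · have := congrFun h 0
    rw [ft_ep hy, ft_zero hx, if_pos rfl] at this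
    omega
  · have h0 := congrFun h 0
    rw [ft_zero hx, ft_zero hy] at h0
    have h1 : word x 0 (mk x 0) = word y 0 (mk y 0) :=
      Encodable.encode_injective (by omega)
    obtain ⟨h2, h3⟩ := word_eq h1
    have h4 := tail_from hx hy (k := 0) (fun j _ => congrFun h (j + 1))
    funext i
    by_cases hi : i < mk x 0
    · have := h3 i (by omega)
      simpa using this
    · have := h4 (i - mk x 0)
      rwa [show mk x 0 + (i - mk x 0) = i by omega,
        show mk y 0 + (i - mk x 0) = i by omega] at this

/-! measurability -/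

theorem measurable_wval (k n : ℕ) : Measurable (fun x : ℕ → Bool => wval x k n) := by
  induction k with
  | zero => exact measurable_const
  | succ k ih =>
    simp only [wval]
    exact (ih.const_mul 2).add ((measurable_of_countable Bool.toNat).comp
      (measurable_pi_apply _))

theorem measurable_rv (k : ℕ) : Measurable (fun x : ℕ → Bool => rv x k) := by
  classical
  induction k with
  | zero => exact measurable_const
  | succ k ih =>
    simp only [rv]
    refine Measurable.ite ?_ (ih.const_mul 2) ((ih.const_mul 2).add_const 1)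
    have : {x : ℕ → Bool | ∀ N, ∃ n, N ≤ n ∧ wval x (k + 1) n = 2 * rv x k} =
        ⋂ N : ℕ, ⋃ n : ℕ, {x | N ≤ n ∧ wval x (k + 1) n = 2 * rv x k} := by
      ext x; simp
    rw [this]
    refine MeasurableSet.iInter fun N => MeasurableSet.iUnion fun n => ?_
    by_cases hNn : N ≤ n
    · simp only [hNn, true_and]
      exact measurableSet_eq_fun (measurable_wval _ _) (ih.const_mul 2)
    · simp only [hNn, false_and]
      simp

theorem measurableSet_Mk (k n : ℕ) : MeasurableSet {x : ℕ → Bool | Mk x k n} := by
  have : {x : ℕ → Bool | Mk x k n} = {x | wval x k n = rv x k} ∩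
      ⋃ j, {x | wval x j n = rv x j}ᶜ := by
    ext x; simp [Mk]
  rw [this]
  exact (measurableSet_eq_fun (measurable_wval _ _) (measurable_rv _)).inter
    (MeasurableSet.iUnion fun j =>
      (measurableSet_eq_fun (measurable_wval _ _) (measurable_rv _)).compl)

theorem measurable_mk (k : ℕ) : Measurable (fun x : ℕ → Bool => mk x k) := by
  classical
  refine measurable_to_countable' fun n => ?_
  have : (fun x : ℕ → Bool => mk x k) ⁻¹' {n} =
      (({x | Mk x k n} ∩ ⋂ m : {m // m < n}, {x | Mk x k m}ᶜ) ∪
        (if n = 0 then (⋃ m, {x | Mk x k m})ᶜ else ∅)) := by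
    ext x
    simp only [mem_preimage, mem_singleton_iff, mk]
    by_cases h : ∃ n, Mk x k n
    · rw [dif_pos h, Nat.find_eq_iff]
      constructor
      · rintro ⟨h1, h2⟩
        exact Or.inl ⟨h1, mem_iInter.2 fun m => h2 m m.2⟩
      · rintro (⟨h1, h2⟩ | h2)
        · exact ⟨h1, fun m hm => mem_iInter.1 h2 ⟨m, hm⟩⟩
        · exfalso
          split_ifs at h2
          · obtain ⟨m, hm⟩ := h
            exact h2 (mem_iUnion.2 ⟨m, hm⟩)
          · exact h2
    · rw [dif_neg h]
      constructor
      · rintro rfl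
        right
        rw [if_pos rfl]
        intro hx
        obtain ⟨m, hm⟩ := mem_iUnion.1 hx
        exact h ⟨m, hm⟩
      · rintro (⟨h1, -⟩ | h2)
        · exact (h ⟨n, h1⟩).elim
        · split_ifs at h2 with hk
          · exact hk.symm
          · exact h2.elim
  rw [this]
  refine MeasurableSet.union ((measurableSet_Mk _ _).inter
    (MeasurableSet.iInter fun m => (measurableSet_Mk _ _).compl)) ?_
  split_ifs
  · exact (MeasurableSet.iUnion fun m => measurableSet_Mk _ _).compl
  · exact MeasurableSet.empty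

theorem measurable_word (m n : ℕ) : Measurable (fun x : ℕ → Bool =>
    Encodable.encode (word x m n)) := by
  refine measurable_of_first (max m n) _ fun α β h => ?_
  congr 1
  refine word_congr rfl fun i hi => h _ ?_
  have := le_max_right m n
  omega

theorem measurable_ft : Measurable ft := by
  classical
  refine measurable_pi_lambda _ fun k => ?_
  have hEP : MeasurableSet {x : ℕ → Bool | EP x} := countable_EP.measurableSet
  have hcount : ∀ f : (ℕ → Bool) → ℕ, ∀ g : (ℕ → Bool) → ℕ, Measurable g →
      Measurable (fun x => if EP x then f x else g x) := by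
    intro f g hg
    refine measurable_to_countable' fun n => ?_
    have : (fun x => if EP x then f x else g x) ⁻¹' {n} =
        ({x | EP x} ∩ f ⁻¹' {n}) ∪ ({x | EP x}ᶜ ∩ g ⁻¹' {n}) := by
      ext x
      by_cases hx : EP x <;> simp [hx]
    rw [this]
    exact (countable_EP.mono inter_subset_left).measurableSet.union
      (hEP.compl.inter (hg (measurableSet_singleton n)))
  have h2 : Measurable (fun p : (ℕ × ℕ) × (ℕ → Bool) =>
      Encodable.encode (word p.2 p.1.1 p.1.2)) :=
    measurable_from_prod_countable_right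
      (f := fun p : (ℕ × ℕ) × (ℕ → Bool) => Encodable.encode (word p.2 p.1.1 p.1.2))
      (fun q => measurable_word q.1 q.2)
  simp only [ft]
  refine hcount _ _ ?_
  rcases Nat.eq_zero_or_pos k with rfl | hk
  · simp only [if_true]
    exact (h2.comp ((measurable_const.prodMk (measurable_mk 0)).prodMk measurable_id)).const_mul 2
  · simp only [Nat.pos_iff_ne_zero.1 hk, if_false]
    exact (h2.comp (((measurable_mk _).prodMk (measurable_mk _)).prodMk
      measurable_id)).const_mul 2

end Pool.Agent.Work.MP_97bde0_lc
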