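import Pool.Agent.Work.MP_97bde0_lc.Pre
import Pool.Agent.Work.MP_97bde0_lc.Tail

/-!
# Extension of partial homeomorphisms of Cantor space inside tail equivalence
-/

set_option autoImplicit false

open Set Topology

namespace Pool.Agent.Work.MP_97bde0_lc

/-- first `n` coordinates -/
def takeN (n : ℕ) (x : ℕ → Bool) : Fin n → Bool := fun i => x i
/-- remaining coordinates -/
def dropN (n : ℕ) (x : ℕ → Bool) : ℕ → Bool := fun i => x (n + i)
/-- prepend a word -/
def joinN (n : ℕ) (w : Fin n → Bool) (z : ℕ → Bool) : ℕ → Bool :=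
  fun i => if h : i < n then w ⟨i, h⟩ else z (i - n)

theorem takeN_joinN (n : ℕ) (w : Fin n → Bool) (z : ℕ → Bool) :
    takeN n (joinN n w z) = w := by
  funext i
  simp [takeN, joinN]

theorem dropN_joinN (n : ℕ) (w : Fin n → Bool) (z : ℕ → Bool) :
    dropN n (joinN n w z) = z := by
  funext i
  simp [dropN, joinN]

theorem joinN_take_drop (n : ℕ) (x : ℕ → Bool) : joinN n (takeN n x) (dropN n x) = x := by
  funext i
  by_cases h : i < n
  · simp [joinN, takeN, h]
  · simp only [joinN, h, dif_neg, not_false_eq_true, dropN]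
    congr 1
    omega

theorem continuous_takeN (n : ℕ) : Continuous (takeN n) :=
  continuous_pi fun i => continuous_apply _

theorem continuous_dropN (n : ℕ) : Continuous (dropN n) :=
  continuous_pi fun i => continuous_apply _

theorem continuous_joinN (n : ℕ) :
    Continuous (fun p : (Fin n → Bool) × (ℕ → Bool) => joinN n p.1 p.2) := by
  refine continuous_pi fun i => ?_
  by_cases h : i < n
  · simp only [joinN, h, dif_pos]
    exact (continuous_apply _).comp continuous_fst
  · simp only [joinN, h, dif_neg, not_false_eq_true]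
    exact (continuous_apply _).comp continuous_snd

/-- splitting homeomorphism -/
def splitHomeo (n : ℕ) : (ℕ → Bool) ≃ₜ (Fin n → Bool) × (ℕ → Bool) where
  toFun x := (takeN n x, dropN n x)
  invFun p := joinN n p.1 p.2
  left_inv x := joinN_take_drop n x
  right_inv p := by
    show (takeN n (joinN n p.1 p.2), dropN n (joinN n p.1 p.2)) = p
    rw [takeN_joinN, dropN_joinN]
  continuous_toFun := (continuous_takeN n).prodMk (continuous_dropN n)
  continuous_invFun := continuous_joinN n

/-- homeomorphism permuting the words of length `n` -/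
def permHomeo (n : ℕ) (π : Equiv.Perm (Fin n → Bool)) : (ℕ → Bool) ≃ₜ (ℕ → Bool) where
  toFun x := joinN n (π (takeN n x)) (dropN n x)
  invFun x := joinN n (π.symm (takeN n x)) (dropN n x)
  left_inv x := by
    simp only [takeN_joinN, dropN_joinN, Equiv.symm_apply_apply, joinN_take_drop]
  right_inv x := by
    simp only [takeN_joinN, dropN_joinN, Equiv.apply_symm_apply, joinN_take_drop]
  continuous_toFun := (continuous_joinN n).comp
    ((continuous_of_discreteTopology.comp (continuous_takeN n)).prodMk (continuous_dropN n))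
  continuous_invFun := (continuous_joinN n).comp
    ((continuous_of_discreteTopology.comp (continuous_takeN n)).prodMk (continuous_dropN n))

theorem permHomeo_apply (n : ℕ) (π : Equiv.Perm (Fin n → Bool)) (x : ℕ → Bool) :
    permHomeo n π x = joinN n (π (takeN n x)) (dropN n x) := rfl

theorem tail_joinN (n m : ℕ) (w : Fin n → Bool) (w' : Fin m → Bool) (z : ℕ → Bool) :
    Tail (joinN n w z) (joinN m w' z) := by
  refine ⟨n, m, fun i => ?_⟩
  simp [joinN]

theorem tail_dropN (n : ℕ) (z : ℕ → Bool) : Tail z (dropN n z) := by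
  refine ⟨n, 0, fun i => ?_⟩
  simp [dropN]

theorem permHomeo_tail (n : ℕ) (π : Equiv.Perm (Fin n → Bool)) (x : ℕ → Bool) :
    Tail x (permHomeo n π x) := by
  rw [permHomeo_apply]
  conv_lhs => rw [← joinN_take_drop n x]
  exact tail_joinN _ _ _ _ _

/-- prepend one bit -/
def consB (b : Bool) (z : ℕ → Bool) : ℕ → Bool := fun i => if i = 0 then b else z (i - 1)

theorem consB_zero (b : Bool) (z : ℕ → Bool) : consB b z 0 = b := rfl

theorem dropN_consB (b : Bool) (z : ℕ → Bool) : dropN 1 (consB b z) = z := by
  funext i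
  simp [dropN, consB]

theorem consB_dropN (z : ℕ → Bool) : consB (z 0) (dropN 1 z) = z := by
  funext i
  by_cases h : i = 0
  · subst h; rfl
  · simp only [consB, h, if_false, dropN]
    congr 1
    omega

theorem continuous_consB (b : Bool) : Continuous (consB b) := by
  refine continuous_pi fun i => ?_
  by_cases h : i = 0
  · simp only [consB, h, if_true]; exact continuous_const
  · simp only [consB, h, if_false]; exact continuous_apply _

theorem tail_consB (b : Bool) (z : ℕ → Bool) : Tail z (consB b z) := by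
  refine ⟨0, 1, fun i => ?_⟩
  simp [consB]

section tau

variable {n : ℕ} (s s' s'' : Fin n → Bool)

/-- the elementary prefix replacement -/
def tauFun (p : (Fin n → Bool) × (ℕ → Bool)) : (Fin n → Bool) × (ℕ → Bool) :=
  if p.1 = s then (if p.2 0 = true then (s', dropN 1 p.2) else (s, dropN 1 p.2))
  else if p.1 = s' then (s'', consB false p.2)
  else if p.1 = s'' then (s'', consB true p.2) else p

/-- its inverse -/
def tauInv (p : (Fin n → Bool) × (ℕ → Bool)) : (Fin n → Bool) × (ℕ → Bool) :=
  if p.1 = s then (s, consB false p.2)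
  else if p.1 = s' then (s, consB true p.2)
  else if p.1 = s'' then (if p.2 0 = true then (s'', dropN 1 p.2) else (s', dropN 1 p.2))
  else p

theorem tau_left (h1 : s ≠ s') (h2 : s ≠ s'') (h3 : s' ≠ s'')
    (p : (Fin n → Bool) × (ℕ → Bool)) : tauInv s s' s'' (tauFun s s' s'' p) = p := by
  obtain ⟨w, z⟩ := p
  by_cases a1 : w = s
  · subst a1
    by_cases b : z 0 = true
    · simp only [tauFun, if_true, b, tauInv, h1.symm, if_false]
      rw [← b, consB_dropN]
    · have b' : z 0 = false := by simpa using b
      simp only [tauFun, if_true, b', tauInv, Bool.false_eq_true, if_false]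
      rw [← b', consB_dropN]
  by_cases a2 : w = s'
  · subst a2
    simp only [tauFun, a1, if_false, if_true, tauInv, h2.symm, h3.symm, consB_zero,
      Bool.false_eq_true, dropN_consB]
  by_cases a3 : w = s''
  · subst a3
    simp only [tauFun, a1, a2, if_false, if_true, tauInv, consB_zero, dropN_consB]
  · simp only [tauFun, a1, a2, a3, if_false, tauInv]

theorem tau_right (h1 : s ≠ s') (h2 : s ≠ s'') (h3 : s' ≠ s'')
    (p : (Fin n → Bool) × (ℕ → Bool)) : tauFun s s' s'' (tauInv s s' s'' p) = p := by
  obtain ⟨w, z⟩ := p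
  by_cases a1 : w = s
  · subst a1
    simp only [tauInv, if_true, tauFun, consB_zero, Bool.false_eq_true, if_false, dropN_consB]
  by_cases a2 : w = s'
  · subst a2
    simp only [tauInv, a1, if_false, if_true, tauFun, consB_zero, dropN_consB]
  by_cases a3 : w = s''
  · subst a3
    by_cases b : z 0 = true
    · simp only [tauInv, a1, a2, if_false, if_true, b, tauFun]
      rw [← b, consB_dropN]
    · have b' : z 0 = false := by simpa using b
      simp only [tauInv, a1, a2, if_false, if_true, b', tauFun, Bool.false_eq_true, h1.symm]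
      rw [← b', consB_dropN]
  · simp only [tauInv, a1, a2, a3, if_false, tauFun]

theorem continuous_ite_zero {Y : Type*} [TopologicalSpace Y] {f g : (ℕ → Bool) → Y}
    (hf : Continuous f) (hg : Continuous g) :
    Continuous (fun z : ℕ → Bool => if z 0 = true then f z else g z) := by
  have hcl : IsClopen {z : ℕ → Bool | z 0 = true} :=
    (isClopen_discrete ({true} : Set Bool)).preimage (continuous_apply 0)
  refine Continuous.if ?_ hf hg
  intro a ha
  rw [hcl.frontier_eq] at ha
  exact ha.elim

theorem continuous_tauFun : Continuous (tauFun s s' s'') := by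
  rw [continuous_prod_of_discrete_left]
  intro w
  by_cases a1 : w = s
  · subst a1
    simp only [tauFun, if_true]
    exact continuous_ite_zero (continuous_const.prodMk (continuous_dropN 1))
      (continuous_const.prodMk (continuous_dropN 1))
  by_cases a2 : w = s'
  · simp only [tauFun, a1, a2, if_false, if_true]
    subst a2
    simp only [a1, if_false]
    exact continuous_const.prodMk (continuous_consB _)
  by_cases a3 : w = s''
  · subst a3
    simp only [tauFun, a1, a2, if_false, if_true]
    exact continuous_const.prodMk (continuous_consB _)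
  · simp only [tauFun, a1, a2, a3, if_false]
    exact continuous_const.prodMk continuous_id

theorem continuous_tauInv : Continuous (tauInv s s' s'') := by
  rw [continuous_prod_of_discrete_left]
  intro w
  by_cases a1 : w = s
  · subst a1
    simp only [tauInv, if_true]
    exact continuous_const.prodMk (continuous_consB _)
  by_cases a2 : w = s'
  · subst a2
    simp only [tauInv, a1, if_false, if_true]
    exact continuous_const.prodMk (continuous_consB _)
  by_cases a3 : w = s''
  · subst a3
    simp only [tauInv, a1, a2, if_false, if_true]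
    exact continuous_ite_zero (continuous_const.prodMk (continuous_dropN 1))
      (continuous_const.prodMk (continuous_dropN 1))
  · simp only [tauInv, a1, a2, a3, if_false]
    exact continuous_const.prodMk continuous_id

/-- the elementary prefix replacement homeomorphism -/
def tauHomeo (h1 : s ≠ s') (h2 : s ≠ s'') (h3 : s' ≠ s'') : (ℕ → Bool) ≃ₜ (ℕ → Bool) :=
  (splitHomeo n).trans (Homeomorph.trans
    { toFun := tauFun s s' s''
      invFun := tauInv s s' s''
      left_inv := tau_left s s' s'' h1 h2 h3
      right_inv := tau_right s s' s'' h1 h2 h3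
      continuous_toFun := continuous_tauFun s s' s''
      continuous_invFun := continuous_tauInv s s' s'' } (splitHomeo n).symm)

theorem tauHomeo_apply (h1 : s ≠ s') (h2 : s ≠ s'') (h3 : s' ≠ s'') (x : ℕ → Bool) :
    tauHomeo s s' s'' h1 h2 h3 x = joinN n (tauFun s s' s'' (takeN n x, dropN n x)).1
      (tauFun s s' s'' (takeN n x, dropN n x)).2 := rfl

theorem tauFun_tail (p : (Fin n → Bool) × (ℕ → Bool)) :
    Tail p.2 (tauFun s s' s'' p).2 := by
  unfold tauFun
  split_ifs
  · exact tail_dropN 1 _
  · exact tail_dropN 1 _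
  · exact tail_consB _ _
  · exact tail_consB _ _
  · exact Tail.equivalence.refl _

theorem tauHomeo_tail (h1 : s ≠ s') (h2 : s ≠ s'') (h3 : s' ≠ s'') (x : ℕ → Bool) :
    Tail x (tauHomeo s s' s'' h1 h2 h3 x) := by
  rw [tauHomeo_apply]
  have e1 := tail_dropN n x
  have e2 := tauFun_tail s s' s'' (takeN n x, dropN n x)
  have e3 := tail_joinN 0 n (fun i => i.elim0) (tauFun s s' s'' (takeN n x, dropN n x)).1
    (tauFun s s' s'' (takeN n x, dropN n x)).2
  have e4 : joinN 0 (fun i => i.elim0) (tauFun s s' s'' (takeN n x, dropN n x)).2 =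
      (tauFun s s' s'' (takeN n x, dropN n x)).2 := by
    funext i; simp [joinN]
  rw [e4] at e3
  exact Tail.equivalence.trans e1 (Tail.equivalence.trans e2 e3)

end tau

/-- Any two labelings of the words of length `n` with the same labels are matched by a
homeomorphism inside tail equivalence. -/
theorem exists_match (n : ℕ) (k : ℕ) : ∀ (c d : (Fin n → Bool) → ℕ)
    (_ : ∀ l, (∃ w, c w = l) ↔ ∃ w, d w = l)
    (_ : ∑ l ∈ Finset.univ.image d, ((Finset.univ.filter (fun w => d w = l)).card -
      (Finset.univ.filter (fun w => c w = l)).card) = k),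
    ∃ h : (ℕ → Bool) ≃ₜ (ℕ → Bool), (∀ x, Tail x (h x)) ∧
      ∀ x, d (takeN n (h x)) = c (takeN n x) := by
  classical
  induction k using Nat.strong_induction_on with
  | _ k ih =>
  intro c d hcd hk
  set p : ℕ → ℕ := fun l => (Finset.univ.filter (fun w => c w = l)).card with hp
  set q : ℕ → ℕ := fun l => (Finset.univ.filter (fun w => d w = l)).card with hq
  have hSc : Finset.univ.image c = Finset.univ.image d := by
    ext l
    simp only [Finset.mem_image, Finset.mem_univ, true_and]
    exact hcd l
  have hsump : ∑ l ∈ Finset.univ.image d, p l = (Finset.univ : Finset (Fin n → Bool)).card := by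
    rw [← hSc]
    exact (Finset.card_eq_sum_card_image c Finset.univ).symm
  have hsumq : ∑ l ∈ Finset.univ.image d, q l = (Finset.univ : Finset (Fin n → Bool)).card :=
    (Finset.card_eq_sum_card_image d Finset.univ).symm
  by_cases hle : ∀ l ∈ Finset.univ.image d, q l ≤ p l
  · -- all fibres have equal size
    have heq : ∀ l ∈ Finset.univ.image d, q l = p l := by
      have := (Finset.sum_eq_sum_iff_of_le hle).1 (hsumq.trans hsump.symm)
      exact this
    have hall : ∀ l, (Finset.univ.filter (fun w => c w = l)).card =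
        (Finset.univ.filter (fun w => d w = l)).card := by
      intro l
      by_cases hl : l ∈ Finset.univ.image d
      · exact (heq l hl).symm
      · have h1 : Finset.univ.filter (fun w => d w = l) = ∅ := by
          ext w
          simp only [Finset.mem_filter, Finset.mem_univ, true_and, Finset.notMem_empty,
            iff_false]
          intro h
          exact hl (Finset.mem_image.2 ⟨w, Finset.mem_univ _, h⟩)
        have h2 : Finset.univ.filter (fun w => c w = l) = ∅ := by
          ext w
          simp only [Finset.mem_filter, Finset.mem_univ, true_and, Finset.notMem_empty,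
            iff_false]
          intro h
          obtain ⟨w', hw'⟩ := (hcd l).1 ⟨w, h⟩
          exact hl (Finset.mem_image.2 ⟨w', Finset.mem_univ _, hw'⟩)
        rw [h1, h2]
    obtain ⟨π, hπ⟩ := exists_perm_of_card hall
    refine ⟨permHomeo n π, permHomeo_tail n π, fun x => ?_⟩
    rw [permHomeo_apply, takeN_joinN]
    exact hπ _
  · push Not at hle
    obtain ⟨l, hlS, hl⟩ := hle
    obtain ⟨l', hl'S, hl'⟩ : ∃ l' ∈ Finset.univ.image d, q l' < p l' := by
      by_contra hcon
      push Not at hcon
      have := Finset.sum_lt_sum hcon ⟨l, hlS, hl⟩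
      omega
    have hll' : l ≠ l' := by rintro rfl; omega
    have hq' : 0 < q l' := by
      obtain ⟨w, -, hw⟩ := Finset.mem_image.1 hl'S
      exact Finset.card_pos.2 ⟨w, by simp [hw]⟩
    obtain ⟨s, hs⟩ : ∃ s, c s = l := by
      obtain ⟨w, -, hw⟩ := Finset.mem_image.1 hlS
      exact (hcd l).2 ⟨w, hw⟩
    obtain ⟨s', hs', s'', hs'', hne⟩ := Finset.one_lt_card.1 (show 1 < (Finset.univ.filter
      (fun w => c w = l')).card by show 1 < p l'; omega)
    simp only [Finset.mem_filter, Finset.mem_univ, true_and] at hs' hs''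
    have h1 : s ≠ s' := by rintro rfl; exact hll' (hs.symm.trans hs')
    have h2 : s ≠ s'' := by rintro rfl; exact hll' (hs.symm.trans hs'')
    let c' : (Fin n → Bool) → ℕ := Function.update c s' l
    have c's' : c' s' = l := Function.update_self _ _ _
    have c'ne : ∀ w, w ≠ s' → c' w = c w := fun w hw => Function.update_of_ne hw _ _
    have hrange : ∀ m, (∃ w, c' w = m) ↔ ∃ w, d w = m := by
      intro m
      rw [← hcd]
      constructor
      · rintro ⟨w, rfl⟩
        by_cases hw : w = s'
        · subst hw; exact ⟨s, by rw [hs, c's']⟩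
        · exact ⟨w, (c'ne w hw).symm⟩
      · rintro ⟨w, rfl⟩
        by_cases hw : w = s'
        · subst hw; exact ⟨s'', by rw [c'ne _ hne.symm, hs'', hs']⟩
        · exact ⟨w, c'ne w hw⟩
    have hp'l : (Finset.univ.filter (fun w => c' w = l)).card = p l + 1 := by
      have : Finset.univ.filter (fun w => c' w = l) =
          insert s' (Finset.univ.filter (fun w => c w = l)) := by
        ext w
        simp only [Finset.mem_filter, Finset.mem_univ, true_and, Finset.mem_insert]
        by_cases hw : w = s'
        · subst hw; simp [c's']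
        · rw [c'ne w hw]; simp [hw]
      rw [this, Finset.card_insert_of_notMem]
      simp only [Finset.mem_filter, Finset.mem_univ, true_and]
      rw [hs']; exact hll'.symm
    have hp'l' : (Finset.univ.filter (fun w => c' w = l')).card = p l' - 1 := by
      have : Finset.univ.filter (fun w => c' w = l') =
          (Finset.univ.filter (fun w => c w = l')).erase s' := by
        ext w
        simp only [Finset.mem_filter, Finset.mem_univ, true_and, Finset.mem_erase]
        by_cases hw : w = s'
        · subst hw; simp [c's', hll']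
        · rw [c'ne w hw]; simp [hw]
      rw [this, Finset.card_erase_of_mem]
      simp [hs']
    have hp'o : ∀ m, m ≠ l → m ≠ l' → (Finset.univ.filter (fun w => c' w = m)).card = p m := by
      intro m hm hm'
      have : Finset.univ.filter (fun w => c' w = m) = Finset.univ.filter (fun w => c w = m) := by
        ext w
        simp only [Finset.mem_filter, Finset.mem_univ, true_and]
        by_cases hw : w = s'
        · subst hw
          rw [c's', hs']
          exact ⟨fun h => (hm h.symm).elim, fun h => (hm' h.symm).elim⟩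
        · rw [c'ne w hw]
      rw [this]
    have hlt : ∑ m ∈ Finset.univ.image d, ((Finset.univ.filter (fun w => d w = m)).card -
        (Finset.univ.filter (fun w => c' w = m)).card) < k := by
      rw [← hk]
      refine Finset.sum_lt_sum ?_ ⟨l, hlS, ?_⟩
      · intro m _
        by_cases hm : m = l
        · subst hm; rw [hp'l]; show q m - (p m + 1) ≤ q m - p m; omega
        by_cases hm' : m = l'
        · subst hm'; rw [hp'l']; show q m - (p m - 1) ≤ q m - p m; omega
        · rw [hp'o m hm hm']
      · rw [hp'l]; show q l - (p l + 1) < q l - p l; omega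
    obtain ⟨h', hh'1, hh'2⟩ := ih _ hlt c' d hrange rfl
    refine ⟨(tauHomeo s s' s'' h1 h2 hne).trans h', fun x => ?_, fun x => ?_⟩
    · exact Tail.equivalence.trans (tauHomeo_tail s s' s'' h1 h2 hne x) (hh'1 _)
    · show d (takeN n (h' (tauHomeo s s' s'' h1 h2 hne x))) = _
      rw [hh'2, tauHomeo_apply, takeN_joinN]
      by_cases a1 : takeN n x = s
      · by_cases b : dropN n x 0 = true
        · simp only [tauFun, a1, if_true, b]
          rw [c's', hs]
        · simp only [tauFun, a1, if_true, b, Bool.false_eq_true, if_false]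
          rw [c'ne s h1]
      by_cases a2 : takeN n x = s'
      · simp only [tauFun, a2, h1.symm, if_false, if_true]
        rw [c'ne _ hne.symm, hs'', hs']
      by_cases a3 : takeN n x = s''
      · simp only [tauFun, a3, h2.symm, hne.symm, if_false, if_true]
        rw [c'ne _ hne.symm]
      · simp only [tauFun, a1, a2, a3, if_false]
        rw [c'ne _ a2]

/-- a continuous labeling of a product with Cantor space depends on finitely many coordinates
of the first factor -/
theorem exists_level {P : Type*} [TopologicalSpace P] [CompactSpace P]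
    {c : (ℕ → Bool) × P → ℕ} (hc : Continuous c) :
    ∃ n, ∀ z z' p, (∀ i < n, z i = z' i) → c (z, p) = c (z', p) := by
  have h1 : ∀ q : (ℕ → Bool) × P, ∃ (n : ℕ) (O : Set P), IsOpen O ∧ q.2 ∈ O ∧
      ∀ z p, (∀ i < n, z i = q.1 i) → p ∈ O → c (z, p) = c q := by
    rintro ⟨z, p⟩
    have hopen : IsOpen {r : (ℕ → Bool) × P | c r = c (z, p)} :=
      (isOpen_discrete ({c (z, p)} : Set ℕ)).preimage hc
    obtain ⟨S, O, hS, hO, hzS, hpO, hSO⟩ := isOpen_prod_iff.1 hopen z p rfl
    obtain ⟨I, t, ht1, ht2⟩ := isOpen_pi_iff.1 hS z hzS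
    refine ⟨I.sup id + 1, O, hO, hpO, fun z' p' hz' hp' => ?_⟩
    refine hSO (mk_mem_prod (ht2 ?_) hp')
    intro i hi
    have : i ≤ I.sup id := Finset.le_sup (f := id) hi
    rw [hz' i (by omega)]
    exact (ht1 i hi).2
  choose n O hO hqO hcO using h1
  have hcyl : ∀ q : (ℕ → Bool) × P, IsOpen ({z : ℕ → Bool | ∀ i < n q, z i = q.1 i} ×ˢ O q) := by
    intro q
    refine IsOpen.prod ?_ (hO q)
    have : {z : ℕ → Bool | ∀ i < n q, z i = q.1 i} =
        ⋂ i ∈ {i | i < n q}, {z : ℕ → Bool | z i = q.1 i} := by
      ext z; simp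
    rw [this]
    exact (Set.finite_lt_nat _).isOpen_biInter fun i _ =>
      (isOpen_discrete ({q.1 i} : Set Bool)).preimage (f := fun z : ℕ → Bool => z i)
        (continuous_apply i)
  obtain ⟨t, ht⟩ := isCompact_univ.elim_finite_subcover _ hcyl
    (fun q _ => mem_iUnion.2 ⟨q, ⟨fun i _ => rfl, hqO q⟩⟩)
  refine ⟨t.sup n, fun z z' p hzz' => ?_⟩
  obtain ⟨q, hq, hz, hp⟩ := mem_iUnion₂.1 (ht (mem_univ (z, p)))
  have hle : n q ≤ t.sup n := Finset.le_sup hq
  rw [hcO q z p hz hp, hcO q z' p (fun i hi => ?_) hp]
  rw [← hzz' i (by omega)]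
  exact hz i hi

theorem exists_level' {c : (ℕ → Bool) → ℕ} (hc : Continuous c) :
    ∃ n, ∀ z z', (∀ i < n, z i = z' i) → c z = c z' := by
  obtain ⟨n, hn⟩ := exists_level (P := Unit) (c := fun q => c q.1) (hc.comp continuous_fst)
  exact ⟨n, fun z z' h => hn z z' () h⟩

/-- continuous labelings of Cantor space with the same labels are matched -/
theorem exists_match_cont {c d : (ℕ → Bool) → ℕ} (hc : Continuous c) (hd : Continuous d)
    (hcd : ∀ l, (∃ x, c x = l) ↔ ∃ x, d x = l) :
    ∃ h : (ℕ → Bool) ≃ₜ (ℕ → Bool), (∀ x, Tail x (h x)) ∧ ∀ x, d (h x) = c x := by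
  obtain ⟨n1, hn1⟩ := exists_level' hc
  obtain ⟨n2, hn2⟩ := exists_level' hd
  let n := max n1 n2
  let c' : (Fin n → Bool) → ℕ := fun w => c (joinN n w (fun _ => false))
  let d' : (Fin n → Bool) → ℕ := fun w => d (joinN n w (fun _ => false))
  have hjoin : ∀ (x : ℕ → Bool) (i : ℕ), i < n → joinN n (takeN n x) (fun _ => false) i = x i := by
    intro x i hi
    simp [joinN, takeN, hi]
  have hcc : ∀ x, c' (takeN n x) = c x := fun x =>
    hn1 _ _ fun i hi => hjoin x i (lt_of_lt_of_le hi (le_max_left _ _))
  have hdd : ∀ x, d' (takeN n x) = d x := fun x =>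
    hn2 _ _ fun i hi => hjoin x i (lt_of_lt_of_le hi (le_max_right _ _))
  obtain ⟨h, h1, h2⟩ := exists_match n _ c' d' (by
    intro l
    constructor
    · rintro ⟨w, rfl⟩
      obtain ⟨x, hx⟩ := (hcd _).1 ⟨joinN n w (fun _ => false), rfl⟩
      exact ⟨takeN n x, by rw [hdd, hx]⟩
    · rintro ⟨w, rfl⟩
      obtain ⟨x, hx⟩ := (hcd _).2 ⟨joinN n w (fun _ => false), rfl⟩
      exact ⟨takeN n x, by rw [hcc, hx]⟩) rfl
  exact ⟨h, h1, fun x => by rw [← hdd, h2, hcc]⟩

/-- **Extension theorem in tail equivalence.** -/
theorem exists_extension_tail {A : Set (ℕ → Bool)} (hA : IsClosed A)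
    {γ : (ℕ → Bool) → (ℕ → Bool)} (hγ : ContinuousOn γ A) (hinj : InjOn γ A)
    (hAi : interior A = ∅) (hBi : interior (γ '' A) = ∅) :
    ∃ g : (ℕ → Bool) ≃ₜ (ℕ → Bool), (∀ a ∈ A, g a = γ a) ∧ ∀ x, x ∉ A → Tail x (g x) := by
  letI : MetricSpace (ℕ → Bool) := TopologicalSpace.metrizableSpaceMetric _
  refine exists_extension (F := Tail) Tail.equivalence.refl hA hγ hinj
    (fun u v => (Continuous u ∧ Continuous v ∧ ∀ a ∈ A, u a = v (γ a) ∧ u a ≠ 0) ∧
      ∀ l, (∃ x, u x = l) ↔ ∃ x, v x = l) (fun u v h => h.1) ?_ ?_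
  · exact ⟨⟨continuous_const, continuous_const, fun a _ => ⟨rfl, one_ne_zero⟩⟩,
      fun l => Iff.rfl⟩
  rintro u v ⟨⟨hu, hv, huv⟩, hrange⟩ ε hε
  have hufin : (range u).Finite := (isCompact_range hu).finite_of_discrete
  have hvfin : (range v).Finite := (isCompact_range hv).finite_of_discrete
  have hX : ∀ l ∈ range u, ∃ x, u x = l ∧ x ∉ A := by
    rintro l ⟨x, rfl⟩
    by_contra hcon
    push Not at hcon
    have hopen : IsOpen {y | u y = u x} := (isOpen_discrete ({u x} : Set ℕ)).preimage hu
    have : {y | u y = u x} ⊆ interior A := hopen.subset_interior_iff.2 hcon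
    rw [hAi] at this
    exact this (show u x = u x from rfl)
  have hY : ∀ l ∈ range v, ∃ x, v x = l ∧ x ∉ γ '' A := by
    rintro l ⟨x, rfl⟩
    by_contra hcon
    push Not at hcon
    have hopen : IsOpen {y | v y = v x} := (isOpen_discrete ({v x} : Set ℕ)).preimage hv
    have : {y | v y = v x} ⊆ interior (γ '' A) := hopen.subset_interior_iff.2 hcon
    rw [hBi] at this
    exact this (show v x = v x from rfl)
  choose! X hX1 hX2 using hX
  choose! Y hY1 hY2 using hY
  obtain ⟨U, V, hU, hV, p1, p2, p3, p4, p5, p6, p7, p8⟩ := exists_pre hA hγ hinj hu hv huv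
    (X0 := X '' range u) (Y0 := Y '' range v) (hufin.image _) (hvfin.image _)
    (by
      rw [Set.disjoint_left]
      rintro _ ⟨l, hl, rfl⟩ h
      exact hX2 l hl h)
    (by
      rw [Set.disjoint_left]
      rintro _ ⟨l, hl, rfl⟩ h
      exact hY2 l hl h) hε
  have hpair : ∀ l, (∃ x, Nat.pair (u x) (U x) = l) ↔ ∃ x, Nat.pair (v x) (V x) = l := by
    intro l
    constructor
    · rintro ⟨x, rfl⟩
      by_cases hx : U x = 0
      · obtain ⟨y, hy⟩ := (hrange (u x)).1 ⟨x, rfl⟩
        refine ⟨Y (u x), ?_⟩
        rw [hY1 (u x) ⟨y, hy⟩, p6 _ ⟨u x, ⟨y, hy⟩, rfl⟩, hx]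
      · obtain ⟨a, ha, ha'⟩ := p7 x hx
        have h1 : U x = V (γ a) := by rw [← ha', (p1 a ha).1]
        refine ⟨γ a, ?_⟩
        rw [← h1, (p4 x (γ a) h1 hx).1]
    · rintro ⟨y, rfl⟩
      by_cases hy : V y = 0
      · obtain ⟨x, hx⟩ := (hrange (v y)).2 ⟨y, rfl⟩
        refine ⟨X (v y), ?_⟩
        rw [hX1 (v y) ⟨x, hx⟩, p5 _ ⟨v y, ⟨x, hx⟩, rfl⟩, hy]
      · obtain ⟨a, ha, ha'⟩ := p8 y hy
        refine ⟨a, ?_⟩
        rw [ha', (p4 a y ha' (by rw [ha']; exact hy)).1]
  have hpc : Continuous (fun x => Nat.pair (u x) (U x)) :=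
    (continuous_of_discreteTopology (f := fun q : ℕ × ℕ => Nat.pair q.1 q.2)).comp
      (hu.prodMk hU)
  have hpd : Continuous (fun x => Nat.pair (v x) (V x)) :=
    (continuous_of_discreteTopology (f := fun q : ℕ × ℕ => Nat.pair q.1 q.2)).comp
      (hv.prodMk hV)
  obtain ⟨h, h1, h2⟩ := exists_match_cont hpc hpd hpair
  refine ⟨U, V, h, ⟨⟨hU, hV, p1⟩, ?_⟩, h1, fun x => (Nat.pair_eq_pair.1 (h2 x)).1,
    fun x => (Nat.pair_eq_pair.1 (h2 x)).2, ?_, ?_, fun x y e hx => (p4 x y e hx).1, p2, p3, p7⟩
  · intro l
    constructor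
    · rintro ⟨x, rfl⟩
      exact ⟨h x, (Nat.pair_eq_pair.1 (h2 x)).2⟩
    · rintro ⟨y, rfl⟩
      refine ⟨h.symm y, ?_⟩
      rw [← (Nat.pair_eq_pair.1 (h2 (h.symm y))).2, h.apply_symm_apply]
  · intro x hx
    by_contra hx'
    obtain ⟨a, ha, ha'⟩ := p7 x hx'
    exact (p4 x (γ a) (by rw [← ha', (p1 a ha).1]) hx').2 hx
  · intro y hy
    by_contra hy'
    obtain ⟨a, ha, ha'⟩ := p8 y hy'
    have := p4 a y ha' (by rw [ha']; exact hy')
    rw [this.1] at this
    exact this.2 hy

end Pool.Agent.Work.MP_97bde0_lc
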