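import Pool.Agent.Work.MP_97bde0_lc.CSB

/-!
# Compressible part, smooth part, compact exhaustions
-/

set_option autoImplicit false

open Set MeasureTheory Topology

namespace Pool.Agent.Work.MP_97bde0_lc

/-- partial transversal -/
def PT {X : Type*} (E : X → X → Prop) (T : Set X) : Prop := ∀ x ∈ T, ∀ y ∈ T, E x y → x = y

section

variable {X : Type*} [MeasurableSpace X] [StandardBorelSpace X] {E : X → X → Prop}

/-- In an aperiodic relation there is a measurable sequence of distinct points in the class. -/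
theorem exists_distinct [Nonempty X] (F : FM E)
    (hap : ∀ x, {y | E x y}.Infinite) :
    ∃ p : ℕ → X → X, (∀ n, Measurable (p n)) ∧ (∀ n x, E x (p n x)) ∧
      ∀ m n x, p m x = p n x → m = n := by
  obtain ⟨p, hp1, hp2⟩ := exists_seq_of_forall_finset_exists
    (fun f : X → X => Measurable f ∧ ∀ x, E x (f x)) (fun f g => ∀ x, f x ≠ g x) (by
      intro s hs
      classical
      have hD : ∀ k, MeasurableSet (F.D k ∩ ⋂ f ∈ s, {x | F.ρ k x = f x}ᶜ) := by
        intro k
        refine (F.mD k).inter (Finset.measurableSet_biInter s fun f hf => ?_)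
        exact (measurableSet_eq_fun (F.mρ k) (hs f hf).1).compl
      obtain ⟨g, i, hg, hi, hgi⟩ := exists_glue _ hD F.ρ F.mρ
      have hall : ∀ x, x ∈ ⋃ k, (F.D k ∩ ⋂ f ∈ s, {x | F.ρ k x = f x}ᶜ) := by
        intro x
        have hfin : (s.image (fun f => f x) : Set X).Finite := Finset.finite_toSet _
        obtain ⟨y, hy, hys⟩ := (hap x).exists_notMem_finite hfin
        obtain ⟨k, hk, rfl⟩ := F.cov x y hy
        refine mem_iUnion.2 ⟨k, hk, ?_⟩
        simp only [mem_iInter]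
        intro f hf hfx
        apply hys
        simp only [Finset.coe_image, mem_image]
        exact ⟨f, hf, (hfx : F.ρ k x = f x).symm⟩
      refine ⟨g, ⟨hg, fun x => ?_⟩, ?_⟩
      · obtain ⟨h1, h2, -⟩ := hgi x (hall x)
        rw [h2]; exact F.rel _ _ h1.1
      · intro f hf x hfx
        obtain ⟨h1, h2, -⟩ := hgi x (hall x)
        have := mem_iInter₂.1 h1.2 f hf
        apply this
        show F.ρ (i x) x = f x
        rw [← h2, hfx])
  refine ⟨p, fun n => (hp1 n).1, fun n => (hp1 n).2, ?_⟩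
  intro m n x h
  rcases lt_trichotomy m n with hmn | hmn | hmn
  · exact (hp2 m n hmn x h).elim
  · exact hmn
  · exact (hp2 n m hmn x h.symm).elim

theorem PT.copies [Nonempty X] (hE : Equivalence E) (F : FM E)
    (hap : ∀ x, {y | E x y}.Infinite) {T : Set X} (hT : PT E T) : Copies E T := by
  obtain ⟨p, h1, h2, h3⟩ := exists_distinct F hap
  refine ⟨p, h1, fun n x _ => h2 n x, ?_⟩
  intro m n x hx y hy hxy
  have : E x y := hE.trans (h2 m x) (by rw [hxy]; exact hE.symm (h2 n y))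
  have := hT x hx y hy this
  subst this
  exact ⟨h3 m n x hxy, rfl⟩

omit [StandardBorelSpace X] in
/-- maximal compressible invariant set -/
theorem exists_compressible_part [Nonempty X] (hE : Equivalence E) (F : FM E) (μ : Measure X)
    [IsFiniteMeasure μ] :
    ∃ A, MeasurableSet A ∧ Inv E A ∧ Copies E A ∧
      ∀ B, MeasurableSet B → Copies E B → μ (sat E B \ A) = 0 := by
  obtain ⟨A, ⟨hA1, hA2, hA3⟩, hA4⟩ := exists_maximal_set μ
    (fun A => MeasurableSet A ∧ Inv E A ∧ Copies E A) (fun A h => h.1)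
    ⟨MeasurableSet.empty, inv_empty, fun _ => id, fun _ => measurable_id, by simp, by simp⟩
    (fun f hf => ⟨MeasurableSet.iUnion fun n => (hf n).1, Inv.iUnion fun n => (hf n).2.1,
      Copies.iUnion_inv hE (fun n => (hf n).1) (fun n => (hf n).2.1) (fun n => (hf n).2.2)⟩)
  refine ⟨A, hA1, hA2, hA3, fun B hB hBc => ?_⟩
  exact hA4 _ ⟨F.measurableSet_sat hB, inv_sat hE B, hBc.sat hE F hB⟩

omit [MeasurableSpace X] [StandardBorelSpace X] in
theorem PT.iUnion (hE : Equivalence E) {T : ℕ → Set X} (hT : ∀ n, PT E (T n)) :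
    PT E (⋃ n, (T n \ ⋃ m : {m // m < n}, sat E (T m))) ∧
      sat E (⋃ n, (T n \ ⋃ m : {m // m < n}, sat E (T m))) = ⋃ n, sat E (T n) := by
  constructor
  · intro x hx y hy hxy
    obtain ⟨n, hxn, hxn'⟩ := mem_iUnion.1 hx
    obtain ⟨m, hym, hym'⟩ := mem_iUnion.1 hy
    have h1 : x ∈ sat E (T m) := ⟨y, hym, hxy⟩
    have h2 : y ∈ sat E (T n) := ⟨x, hxn, hE.symm hxy⟩
    have h3 : ¬ m < n := fun h => hxn' (mem_iUnion.2 ⟨⟨m, h⟩, h1⟩)
    have h4 : ¬ n < m := fun h => hym' (mem_iUnion.2 ⟨⟨n, h⟩, h2⟩)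
    have h5 : m = n := by omega
    subst h5
    exact hT m x hxn y hym hxy
  · apply Subset.antisymm
    · rintro x ⟨y, hy, hxy⟩
      obtain ⟨n, hn, -⟩ := mem_iUnion.1 hy
      exact mem_iUnion.2 ⟨n, y, hn, hxy⟩
    · intro x hx
      have hx' : ∃ n, x ∈ sat E (T n) := mem_iUnion.1 hx
      classical
      obtain ⟨y, hy, hxy⟩ := Nat.find_spec hx'
      refine ⟨y, mem_iUnion.2 ⟨Nat.find hx', hy, ?_⟩, hxy⟩
      intro hy'
      obtain ⟨⟨m, hm⟩, z, hz, hyz⟩ := mem_iUnion.1 hy'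
      exact Nat.find_min hx' hm ⟨z, hz, hE.trans hxy hyz⟩

omit [StandardBorelSpace X] in
/-- maximal smooth invariant set -/
theorem exists_smooth_part (hE : Equivalence E) (F : FM E) (μ : Measure X)
    [IsFiniteMeasure μ] :
    ∃ T, MeasurableSet T ∧ PT E T ∧
      ∀ B, MeasurableSet B → PT E B → μ (sat E B \ sat E T) = 0 := by
  obtain ⟨A, ⟨T, hT1, hT2, hT3⟩, hA4⟩ := exists_maximal_set μ
    (fun A => ∃ T, MeasurableSet T ∧ PT E T ∧ A = sat E T)
    (by rintro A ⟨T, h1, -, rfl⟩; exact F.measurableSet_sat h1)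
    ⟨∅, MeasurableSet.empty, by intro x hx; exact hx.elim, by ext x; simp [sat]⟩
    (by
      intro f hf
      choose T h1 h2 h3 using hf
      refine ⟨_, ?_, (PT.iUnion hE h2).1, ?_⟩
      · refine MeasurableSet.iUnion fun n => (h1 n).diff (MeasurableSet.iUnion fun m => ?_)
        exact F.measurableSet_sat (h1 _)
      · rw [(PT.iUnion hE h2).2]
        exact iUnion_congr h3)
  subst hT3
  exact ⟨T, hT1, hT2, fun B h1 h2 => hA4 _ ⟨B, h1, h2, rfl⟩⟩

/-- a relation with a transversal is smooth in the sense of the problem -/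
theorem PT.smooth [Nonempty X] (hE : Equivalence E) (F : FM E) {T : Set X}
    (hTm : MeasurableSet T) (hT : PT E T) :
    ∃ f : X → ℝ, Measurable f ∧ ∀ x ∈ sat E T, ∀ y ∈ sat E T, (E x y ↔ f x = f y) := by
  obtain ⟨g, i, hg, hi, hgi⟩ := exists_glue (fun k => F.D k ∩ F.ρ k ⁻¹' T)
    (fun k => (F.mD k).inter (F.mρ k hTm)) F.ρ F.mρ
  rw [← F.sat_eq] at hgi
  have h1 : ∀ x ∈ sat E T, g x ∈ T ∧ E x (g x) := by
    intro x hx
    obtain ⟨h1, h2, -⟩ := hgi x hx
    rw [h2]
    exact ⟨h1.2, F.rel _ _ h1.1⟩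
  refine ⟨fun x => embeddingReal X (g x), (measurable_embeddingReal X).comp hg, ?_⟩
  intro x hx y hy
  obtain ⟨hx1, hx2⟩ := h1 x hx
  obtain ⟨hy1, hy2⟩ := h1 y hy
  constructor
  · intro hxy
    have : g x = g y := hT _ hx1 _ hy1 (hE.trans (hE.symm hx2) (hE.trans hxy hy2))
    simp only [this]
  · intro h
    have : g x = g y := (measurableEmbedding_embeddingReal X).injective h
    exact hE.trans hx2 (by rw [this]; exact hE.symm hy2)

/-- minimal points of a measurable set in each class form a transversal -/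
theorem PT.minimal (hE : Equivalence E) (F : FM E) {C : Set X} (hC : MeasurableSet C) :
    ∃ T ⊆ C, MeasurableSet T ∧ PT E T ∧
      ∀ x ∈ C, {y | y ∈ C ∧ E x y}.Finite → x ∈ sat E T := by
  let c := embeddingReal X
  have hc : Measurable c := measurable_embeddingReal X
  have hci : Function.Injective c := (measurableEmbedding_embeddingReal X).injective
  let T : Set X := C ∩ ⋂ k, ((F.D k)ᶜ ∪ (F.ρ k ⁻¹' C)ᶜ ∪ {x | c x ≤ c (F.ρ k x)})
  have hT : ∀ x, x ∈ T ↔ x ∈ C ∧ ∀ y ∈ C, E x y → c x ≤ c y := by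
    intro x
    constructor
    · rintro ⟨h1, h2⟩
      refine ⟨h1, fun y hy hxy => ?_⟩
      obtain ⟨k, hk, rfl⟩ := F.cov x y hxy
      rcases mem_iInter.1 h2 k with (h | h) | h
      · exact (h hk).elim
      · exact (h hy).elim
      · exact h
    · rintro ⟨h1, h2⟩
      refine ⟨h1, mem_iInter.2 fun k => ?_⟩
      by_cases hk : x ∈ F.D k
      · by_cases hk' : F.ρ k x ∈ C
        · exact Or.inr (h2 _ hk' (F.rel k x hk))
        · exact Or.inl (Or.inr hk')
      · exact Or.inl (Or.inl hk)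
  refine ⟨T, inter_subset_left, ?_, ?_, ?_⟩
  · refine hC.inter (MeasurableSet.iInter fun k => ?_)
    exact ((F.mD k).compl.union (F.mρ k hC).compl).union
      (measurableSet_le hc (hc.comp (F.mρ k)))
  · intro x hx y hy hxy
    obtain ⟨h1, h2⟩ := (hT x).1 hx
    obtain ⟨h3, h4⟩ := (hT y).1 hy
    exact hci (le_antisymm (h2 y h3 hxy) (h4 x h1 (hE.symm hxy)))
  · intro x hx hfin
    obtain ⟨y, hy, hmin⟩ := Set.exists_min_image _ c hfin ⟨x, hx, hE.refl x⟩
    refine ⟨y, (hT y).2 ⟨hy.1, fun z hz hyz => ?_⟩, hy.2⟩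
    exact hmin z ⟨hz, hE.trans hy.2 hyz⟩

end

section Coord

variable {X P : Type*} [MeasurableSpace X] [StandardBorelSpace X]
    [TopologicalSpace P] [PolishSpace P] [MeasurableSpace P] [BorelSpace P]

/-- Inner approximation by sets which are compact in given coordinates. -/
theorem exists_compact_coord 
    (μ : Measure X) [IsFiniteMeasure μ] {κ : X → P} (hκ : Measurable κ) {A : Set X}
    (hA : MeasurableSet A) (hinj : InjOn κ A) {ε : ENNReal} (hε : ε ≠ 0) :
    ∃ C, C ⊆ A ∧ MeasurableSet C ∧ IsCompact (κ '' C) ∧ μ (A \ C) < ε := by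
  have hm : MeasurableSet (κ '' A) := hA.image_of_measurable_injOn hκ hinj
  have hfin : IsFiniteMeasure ((μ.restrict A).map κ) := inferInstance
  obtain ⟨K, hK1, hK2, hK3⟩ := hm.exists_isCompact_sdiff_lt
    (μ := (μ.restrict A).map κ) (measure_ne_top _ _) hε
  refine ⟨A ∩ κ ⁻¹' K, inter_subset_left, hA.inter (hκ hK2.measurableSet), ?_, ?_⟩
  · have : κ '' (A ∩ κ ⁻¹' K) = K := by
      ext y
      constructor
      · rintro ⟨x, ⟨-, hx⟩, rfl⟩; exact hx
      · intro hy
        obtain ⟨x, hx, rfl⟩ := hK1 hy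
        exact ⟨x, ⟨hx, hy⟩, rfl⟩
    rw [this]; exact hK2
  · refine lt_of_le_of_lt ?_ hK3
    rw [Measure.map_apply hκ (hm.diff hK2.measurableSet),
      Measure.restrict_apply (hκ (hm.diff hK2.measurableSet))]
    refine measure_mono ?_
    rintro x ⟨hxA, hx⟩
    exact ⟨⟨⟨x, hxA, rfl⟩, fun h => hx ⟨hxA, h⟩⟩, hxA⟩

theorem exists_compact_coord_family
    (μ : Measure X) [IsFiniteMeasure μ] {κ : X → P} (hκ : Measurable κ) {A : Set X}
    (hA : MeasurableSet A) (hinj : InjOn κ A) {B : ℕ → Set X} (hB : ∀ i, MeasurableSet (B i))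
    {ε : ENNReal} (hε : ε ≠ 0) :
    ∃ C, C ⊆ A ∧ MeasurableSet C ∧ IsCompact (κ '' C) ∧
      (∀ i, IsCompact (κ '' (C ∩ B i))) ∧ (∀ i, IsCompact (κ '' (C \ B i))) ∧
      μ (A \ C) < ε := by
  obtain ⟨δ, hδ, hδs⟩ := ENNReal.exists_pos_sum_of_countable hε ℕ
  have hδ2 : ∀ i, (δ i : ENNReal) / 2 ≠ 0 := by
    intro i h
    have := hδ i
    simp only [ENNReal.div_eq_zero_iff, ENNReal.coe_eq_zero] at h
    rcases h with h | h
    · exact this.ne' h
    · exact absurd h (by norm_num)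
  have h1 : ∀ i, ∃ C, C ⊆ A ∩ B i ∧ MeasurableSet C ∧ IsCompact (κ '' C) ∧
      μ ((A ∩ B i) \ C) < (δ i : ENNReal) / 2 := fun i =>
    exists_compact_coord μ hκ (hA.inter (hB i)) (hinj.mono inter_subset_left) (hδ2 i)
  have h2 : ∀ i, ∃ C, C ⊆ A \ B i ∧ MeasurableSet C ∧ IsCompact (κ '' C) ∧
      μ ((A \ B i) \ C) < (δ i : ENNReal) / 2 := fun i =>
    exists_compact_coord μ hκ (hA.diff (hB i)) (hinj.mono sdiff_subset) (hδ2 i)
  choose C hC1 hC2 hC3 hC4 using h1
  choose C' hC1' hC2' hC3' hC4' using h2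
  have hsubA : ∀ i, C i ∪ C' i ⊆ A := fun i =>
    union_subset ((hC1 i).trans inter_subset_left) ((hC1' i).trans sdiff_subset)
  have hcomp : ∀ i, IsCompact (κ '' (C i ∪ C' i)) := fun i => by
    rw [image_union]; exact (hC3 i).union (hC3' i)
  let K : Set X := ⋂ i, (C i ∪ C' i)
  have hK0 : K ⊆ A := (iInter_subset _ 0).trans (hsubA 0)
  have hKκ : κ '' K = ⋂ i, κ '' (C i ∪ C' i) := by
    refine (InjOn.image_iInter_eq ?_)
    exact hinj.mono (iUnion_subset hsubA)
  have hKc : IsCompact (κ '' K) := by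
    rw [hKκ]
    exact (hcomp 0).of_isClosed_subset (isClosed_iInter fun i => (hcomp i).isClosed)
      (iInter_subset _ 0)
  have e1 : ∀ i, K ∩ B i = K ∩ C i := by
    intro i
    ext x
    constructor
    · rintro ⟨hx, hxB⟩
      refine ⟨hx, ?_⟩
      rcases mem_iInter.1 hx i with h | h
      · exact h
      · exact ((hC1' i h).2 hxB).elim
    · rintro ⟨hx, hxC⟩
      exact ⟨hx, (hC1 i hxC).2⟩
  have e2 : ∀ i, K \ B i = K ∩ C' i := by
    intro i
    ext x
    constructor
    · rintro ⟨hx, hxB⟩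
      refine ⟨hx, ?_⟩
      rcases mem_iInter.1 hx i with h | h
      · exact (hxB (hC1 i h).2).elim
      · exact h
    · rintro ⟨hx, hxC⟩
      exact ⟨hx, (hC1' i hxC).2⟩
  refine ⟨K, hK0, MeasurableSet.iInter fun i => (hC2 i).union (hC2' i), hKc, ?_, ?_, ?_⟩
  · intro i
    rw [e1, hinj.image_inter hK0 ((hC1 i).trans inter_subset_left)]
    exact hKc.inter_right (hC3 i).isClosed
  · intro i
    rw [e2, hinj.image_inter hK0 ((hC1' i).trans sdiff_subset)]
    exact hKc.inter_right (hC3' i).isClosed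
  · have hsub : A \ K ⊆ ⋃ i, (((A ∩ B i) \ C i) ∪ ((A \ B i) \ C' i)) := by
      rintro x ⟨hxA, hxK⟩
      rw [mem_iInter] at hxK
      push Not at hxK
      obtain ⟨i, hi⟩ := hxK
      refine mem_iUnion.2 ⟨i, ?_⟩
      by_cases hxB : x ∈ B i
      · exact Or.inl ⟨⟨hxA, hxB⟩, fun h => hi (Or.inl h)⟩
      · exact Or.inr ⟨⟨hxA, hxB⟩, fun h => hi (Or.inr h)⟩
    refine lt_of_le_of_lt (measure_mono hsub) (lt_of_le_of_lt (measure_iUnion_le _) ?_)
    refine lt_of_le_of_lt (ENNReal.tsum_le_tsum fun i => ?_) hδs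
    refine (measure_union_le _ _).trans ?_
    calc μ ((A ∩ B i) \ C i) + μ ((A \ B i) \ C' i)
        ≤ (δ i : ENNReal) / 2 + (δ i : ENNReal) / 2 := add_le_add (hC4 i).le (hC4' i).le
      _ = δ i := ENNReal.add_halves _

/-- Lusin type theorem in coordinates. -/
theorem exists_compact_coord_cont {Q : Type*} [TopologicalSpace Q]
    [SecondCountableTopology Q] [MeasurableSpace Q] [OpensMeasurableSpace Q]
    (μ : Measure X) [IsFiniteMeasure μ] {κ : X → P} (hκ : Measurable κ) {A : Set X}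
    (hA : MeasurableSet A) {κ' : P → X} (hinv : ∀ x ∈ A, κ' (κ x) = x)
    {B : ℕ → Set X} (hB : ∀ i, MeasurableSet (B i))
    {f : ℕ → X → Q} (hf : ∀ i, Measurable (f i))
    {ε : ENNReal} (hε : ε ≠ 0) :
    ∃ C, C ⊆ A ∧ MeasurableSet C ∧ IsCompact (κ '' C) ∧
      (∀ i, IsCompact (κ '' (C ∩ B i))) ∧ (∀ i, ContinuousOn (f i ∘ κ') (κ '' C)) ∧
      μ (A \ C) < ε := by
  have hinj : InjOn κ A := fun x hx y hy h => by rw [← hinv x hx, h, hinv y hy]
  let 𝓑 := TopologicalSpace.countableBasis Q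
  have h𝓑 : (TopologicalSpace.countableBasis Q).Countable :=
    TopologicalSpace.countable_countableBasis Q
  have hb := TopologicalSpace.isBasis_countableBasis Q
  have hne : (TopologicalSpace.countableBasis Q ∪ {∅}).Nonempty := ⟨∅, Or.inr rfl⟩
  obtain ⟨O, hO⟩ := (h𝓑.union (countable_singleton ∅)).exists_eq_range hne
  have hOm : ∀ n, IsOpen (O n) := by
    intro n
    have : O n ∈ TopologicalSpace.countableBasis Q ∪ {∅} := by rw [hO]; exact ⟨n, rfl⟩
    rcases this with h | h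
    · exact hb.isOpen h
    · rw [mem_singleton_iff.1 h]; exact isOpen_empty
  obtain ⟨C, h1, h2, h3, h4, h5, h6⟩ := exists_compact_coord_family μ hκ hA hinj
    (B := fun n => if n % 2 = 0 then B (n / 2) else
      f (Nat.unpair (n / 2)).1 ⁻¹' (O (Nat.unpair (n / 2)).2))
    (by
      intro n
      by_cases hn : n % 2 = 0
      · simp only [hn, if_true]; exact hB _
      · simp only [hn, if_false]; exact hf _ (hOm _).measurableSet) hε
  refine ⟨C, h1, h2, h3, ?_, ?_, h6⟩
  · intro i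
    have := h4 (2 * i)
    simpa using this
  · intro i
    rw [continuousOn_iff_isClosed] 
    intro t ht
    -- write the complement of `t` as a union of basic sets
    refine ⟨⋂ n : {n // O n ⊆ tᶜ}, κ '' (C \ (f i ⁻¹' O n)), ?_, ?_⟩
    · refine isClosed_iInter fun n => ?_
      have := h5 (2 * (Nat.pair i n) + 1)
      have e : (2 * Nat.pair i n + 1) / 2 = Nat.pair i n := by omega
      simp only [Nat.mul_add_mod_self_left, Nat.one_mod, one_ne_zero, if_false, e,
        Nat.unpair_pair] at this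
      exact this.isClosed
    · ext y
      constructor
      · rintro ⟨hyt, x, hx, rfl⟩
        refine ⟨mem_iInter.2 fun n => ⟨x, ⟨hx, fun hxO => ?_⟩, rfl⟩, x, hx, rfl⟩
        have hyt' : f i (κ' (κ x)) ∈ t := hyt
        rw [hinv x (h1 hx)] at hyt'
        exact n.2 hxO hyt'
      · rintro ⟨hy, x, hx, rfl⟩
        refine ⟨?_, x, hx, rfl⟩
        show f i (κ' (κ x)) ∈ t
        rw [hinv x (h1 hx)]
        by_contra hxt
        obtain ⟨V, hV, hxV, hVt⟩ := hb.exists_subset_of_mem_open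
          (show f i x ∈ tᶜ from hxt) ht.isOpen_compl
        have : V ∈ range O := by rw [← hO]; exact Or.inl hV
        obtain ⟨n, rfl⟩ := this
        obtain ⟨x', ⟨hx', hx'O⟩, he⟩ := mem_iInter.1 hy ⟨n, hVt⟩
        have : x' = x := hinj (h1 hx') (h1 hx) he
        subst this
        exact hx'O hxV

/-- exhaustion version -/
theorem exists_compact_coord_seq {Q : Type*} [TopologicalSpace Q]
    [SecondCountableTopology Q] [MeasurableSpace Q] [OpensMeasurableSpace Q]
    (μ : Measure X) [IsFiniteMeasure μ] {κ : X → P} (hκ : Measurable κ) {A : Set X}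
    (hA : MeasurableSet A) {κ' : P → X} (hinv : ∀ x ∈ A, κ' (κ x) = x)
    {B : ℕ → Set X} (hB : ∀ i, MeasurableSet (B i))
    {f : ℕ → X → Q} (hf : ∀ i, Measurable (f i)) :
    ∃ C : ℕ → Set X, (∀ n, C n ⊆ A) ∧ (∀ n, MeasurableSet (C n)) ∧
      (∀ n, IsCompact (κ '' C n)) ∧
      (∀ n i, IsCompact (κ '' (C n ∩ B i))) ∧ (∀ n i, ContinuousOn (f i ∘ κ') (κ '' C n)) ∧
      μ (A \ ⋃ n, C n) = 0 := by
  have : ∀ n : ℕ, ∃ C, C ⊆ A ∧ MeasurableSet C ∧ IsCompact (κ '' C) ∧
      (∀ i, IsCompact (κ '' (C ∩ B i))) ∧ (∀ i, ContinuousOn (f i ∘ κ') (κ '' C)) ∧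
      μ (A \ C) < ((n : ENNReal) + 1)⁻¹ := fun n =>
    exists_compact_coord_cont μ hκ hA hinv hB hf (by simp)
  choose C h1 h2 h3 h4 h5 h6 using this
  refine ⟨C, h1, h2, h3, h4, h5, ?_⟩
  refine le_antisymm (ge_of_tendsto (ENNReal.tendsto_inv_nat_nhds_zero.comp
    (Filter.tendsto_add_atTop_nat 1)) (Filter.Eventually.of_forall fun n => ?_)) zero_le
  refine (measure_mono (sdiff_subset_sdiff_right (subset_iUnion C n))).trans ?_
  refine (h6 n).le.trans ?_
  simp [Function.comp]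

end Coord

end Pool.Agent.Work.MP_97bde0_lc
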