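import Pool.Agent.Work.MP_97bde0_lc.Asm
import Pool.Agent.Work.MP_97bde0_lc.Mu
import Pool.Agent.Work.MP_97bde0_lc.ELC

/-!
# Realization of the compressible part
-/

set_option autoImplicit false

open Set MeasureTheory Topology

namespace Pool.Agent.Work.MP_97bde0_lc

section pre

/-- `1^k 0 z` -/
def preN (k : ℕ) (z : ℕ → Bool) : ℕ → Bool := fun i =>
  if i < k then true else if i = k then false else z (i - (k + 1))

theorem preN_inj {k l : ℕ} {z z' : ℕ → Bool} (h : preN k z = preN l z') : k = l ∧ z = z' := by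
  have hkl : k = l := by
    rcases lt_trichotomy k l with h1 | h1 | h1
    · have := congrFun h k
      simp [preN, h1] at this
    · exact h1
    · have := congrFun h l
      simp [preN, h1] at this
  subst hkl
  refine ⟨rfl, ?_⟩
  funext i
  have := congrFun h (i + (k + 1))
  have h1 : ¬ (i + (k + 1) < k) := by omega
  have h2 : ¬ (i + (k + 1) = k) := by omega
  simpa only [preN, h1, h2, if_false, Nat.add_sub_cancel] using this

theorem tail_preN (k : ℕ) (z : ℕ → Bool) : Tail z (preN k z) := by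
  refine ⟨0, k + 1, fun i => ?_⟩
  have h1 : ¬ (k + 1 + i < k) := by omega
  have h2 : ¬ (k + 1 + i = k) := by omega
  have h3 : k + 1 + i - (k + 1) = 0 + i := by omega
  simp only [preN, h1, h2, if_false, h3]

theorem continuous_preN (k : ℕ) : Continuous (preN k) := by
  refine continuous_pi fun i => ?_
  by_cases h1 : i < k
  · simp only [preN, h1, if_true]; exact continuous_const
  by_cases h2 : i = k
  · simp only [preN, h1, h2, if_false, if_true]; exact continuous_const
  · simp only [preN, h1, h2, if_false]; exact continuous_apply _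

end pre

section sparse

/-- a continuous injection of Cantor space with pairwise tail inequivalent values -/
def jS (y : ℕ → Bool) : ℕ → Bool := fun p =>
  decide (p = 3 ^ (Nat.log 3 p) ∧
    (Nat.unpair (Nat.log 3 p)).2 = codeFirst y (Nat.unpair (Nat.log 3 p)).1)

theorem jS_pow (y : ℕ → Bool) (k : ℕ) :
    jS y (3 ^ k) = decide ((Nat.unpair k).2 = codeFirst y (Nat.unpair k).1) := by
  unfold jS
  rw [Nat.log_pow (by norm_num)]
  simp

theorem jS_true {y : ℕ → Bool} {p : ℕ} (h : jS y p = true) : ∃ k, p = 3 ^ k := by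
  unfold jS at h
  exact ⟨_, (of_decide_eq_true h).1⟩

theorem jS_even (y : ℕ → Bool) (p : ℕ) : jS y (2 * p) = false := by
  by_contra h
  have h' : jS y (2 * p) = true := by simpa using h
  obtain ⟨k, hk⟩ := jS_true h'
  have h1 : Odd (3 ^ k) := Odd.pow (by decide)
  rw [← hk] at h1
  exact (Nat.not_odd_iff_even.2 (even_two_mul p)) h1

theorem continuous_jS : Continuous jS := by
  refine continuous_pi fun p => ?_
  have h1 : Continuous (fun y : ℕ → Bool => codeFirst y (Nat.unpair (Nat.log 3 p)).1) := by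
    unfold codeFirst
    have : Continuous (fun y : ℕ → Bool =>
        (fun i : Fin (Nat.unpair (Nat.log 3 p)).1 => y i)) :=
      continuous_pi fun i => continuous_apply _
    exact (continuous_of_discreteTopology
      (f := fun g : Fin (Nat.unpair (Nat.log 3 p)).1 → Bool =>
        Encodable.encode (List.ofFn g))).comp this
  exact (continuous_of_discreteTopology (f := fun c : ℕ =>
    decide (p = 3 ^ (Nat.log 3 p) ∧ (Nat.unpair (Nat.log 3 p)).2 = c))).comp h1

theorem jS_tail {y y' : ℕ → Bool} (h : Tail (jS y) (jS y')) : y = y' := by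
  obtain ⟨m, n, h⟩ := h
  have key : ∀ N, m + n + 1 ≤ N → m = n ∧ codeFirst y N = codeFirst y' N := by
    intro N hN
    let k := Nat.pair N (codeFirst y N)
    have hkN : N ≤ k := Nat.left_le_pair _ _
    have hk3 : k < 3 ^ k := Nat.lt_pow_self (by norm_num)
    have h1 : jS y (3 ^ k) = true := by
      rw [jS_pow]; simp [k]
    have h2 := h (3 ^ k - m)
    rw [show m + (3 ^ k - m) = 3 ^ k by omega, h1] at h2
    obtain ⟨l, hl⟩ := jS_true h2.symm
    have hlk : l = k := by
      rcases lt_trichotomy l k with h3 | h3 | h3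
      · exfalso
        obtain ⟨k', hk'⟩ : ∃ k', k = k' + 1 := ⟨k - 1, by omega⟩
        have h4 : 3 ^ l ≤ 3 ^ k' := Nat.pow_le_pow_right (by norm_num) (by omega)
        have h5 : k' < 3 ^ k' := Nat.lt_pow_self (by norm_num)
        have h6 : 3 ^ k = 3 * 3 ^ k' := by rw [hk', pow_succ]; ring
        omega
      · exact h3
      · exfalso
        have h4 : 3 ^ (k + 1) ≤ 3 ^ l := Nat.pow_le_pow_right (by norm_num) (by omega)
        have h6 : 3 ^ (k + 1) = 3 * 3 ^ k := by rw [pow_succ]; ring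
        omega
    rw [hlk] at hl
    have hmn : m = n := by omega
    refine ⟨hmn, ?_⟩
    rw [hl, jS_pow] at h2
    have h7 := of_decide_eq_true h2.symm
    simpa [k] using h7
  have key' : ∀ N, m + n + 1 ≤ N → ∀ i < N, y i = y' i := fun N hN =>
    codeFirst_eq (key N hN).2
  funext i
  exact key' (m + n + 1 + i) (by omega) i (by omega)

theorem jS_injective : Function.Injective jS := fun y y' h => jS_tail (by
  rw [h]; exact Tail.equivalence.refl _)

theorem interior_range_jS {S : Set (ℕ → Bool)} (hS : S ⊆ range jS) : interior S = ∅ := by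
  rw [eq_empty_iff_forall_notMem]
  intro z hz
  obtain ⟨I, t, ht1, ht2⟩ := isOpen_pi_iff.1 isOpen_interior z hz
  let N := I.sup id + 1
  let z' : ℕ → Bool := fun i => if i = 2 * N then true else z i
  have hz' : z' ∈ interior S := by
    refine ht2 ?_
    intro i hi
    have hi' : i ≤ I.sup id := Finset.le_sup (f := id) hi
    have : i ≠ 2 * N := by simp only [N]; omega
    show (if i = 2 * N then true else z i) ∈ t i
    rw [if_neg this]
    exact (ht1 i hi).2
  obtain ⟨y, hy⟩ := hS (interior_subset hz')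
  have h1 := jS_even y N
  rw [hy] at h1
  simp [z'] at h1

end sparse

section gens

/-- the generators of tail equivalence -/
def TailGen : Type := (Σ n : ℕ, Equiv.Perm (Fin n → Bool)) ⊕
  {q : (Σ n : ℕ, (Fin n → Bool) × (Fin n → Bool) × (Fin n → Bool)) //
    q.2.1 ≠ q.2.2.1 ∧ q.2.1 ≠ q.2.2.2 ∧ q.2.2.1 ≠ q.2.2.2}

instance : Countable TailGen := by
  unfold TailGen
  infer_instance

/-- the generators -/
def tailGen : TailGen → ((ℕ → Bool) ≃ₜ (ℕ → Bool))
  | Sum.inl q => permHomeo q.1 q.2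
  | Sum.inr q => tauHomeo q.1.2.1 q.1.2.2.1 q.1.2.2.2 q.2.1 q.2.2.1 q.2.2.2

theorem tailGen_tail (q : TailGen) (x : ℕ → Bool) : Tail x (tailGen q x) := by
  rcases q with q | q
  · exact permHomeo_tail _ _ _
  · exact tauHomeo_tail _ _ _ q.2.1 q.2.2.1 q.2.2.2 _

theorem tail_sub_orb {ι : Type*} (H : ι → (ℕ → Bool) ≃ₜ (ℕ → Bool))
    (hH : ∀ q, ∃ i, H i = tailGen q) {x y : ℕ → Bool} (h : Tail x y) : Orb H x y := by
  have hgen : ∀ q x, Orb H x (tailGen q x) := by
    intro q x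
    obtain ⟨i, hi⟩ := hH q
    rw [← hi]
    exact Orb.gen H i x
  -- same lengths
  have ha : ∀ m x x', dropN m x = dropN m x' → Orb H x x' := by
    intro m x x' h
    have := hgen (Sum.inl ⟨m, Equiv.swap (takeN m x) (takeN m x')⟩) x
    have h2 : tailGen (Sum.inl ⟨m, Equiv.swap (takeN m x) (takeN m x')⟩) x = x' := by
      show permHomeo m (Equiv.swap (takeN m x) (takeN m x')) x = x'
      rw [permHomeo_apply, Equiv.swap_apply_left, h, joinN_take_drop]
    rwa [h2] at this
  have hb : ∀ m, 2 ≤ m → ∀ x x', dropN m x = dropN (m + 1) x' → Orb H x x' := by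
    intro m hm x x' h
    let s : Fin m → Bool := fun _ => false
    let s' : Fin m → Bool := fun i => decide (i.1 = 0)
    let s'' : Fin m → Bool := fun i => decide (i.1 = 1)
    have h1 : s ≠ s' := fun e => by
      have := congrFun e ⟨0, by omega⟩
      simp [s, s'] at this
    have h2 : s ≠ s'' := fun e => by
      have := congrFun e ⟨1, by omega⟩
      simp [s, s''] at this
    have h3 : s' ≠ s'' := fun e => by
      have := congrFun e ⟨0, by omega⟩
      simp [s', s''] at this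
    have h4 := hgen (Sum.inr ⟨⟨m, s, s', s''⟩, h1, h2, h3⟩) (joinN m s' (dropN m x))
    have h5 : tailGen (Sum.inr ⟨⟨m, s, s', s''⟩, h1, h2, h3⟩) (joinN m s' (dropN m x)) =
        joinN m s'' (consB false (dropN m x)) := by
      show tauHomeo s s' s'' h1 h2 h3 _ = _
      rw [tauHomeo_apply, takeN_joinN, dropN_joinN]
      simp only [tauFun, h1.symm, if_false, if_true]
    rw [h5] at h4
    refine (Orb.equivalence H).trans (ha m x _ (by rw [dropN_joinN]))
      ((Orb.equivalence H).trans h4 (ha (m + 1) _ _ ?_))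
    rw [← h]
    have h6 : ∀ z : ℕ → Bool, dropN (m + 1) z = dropN 1 (dropN m z) := by
      intro z; funext i; simp only [dropN]; congr 1; omega
    rw [h6, dropN_joinN, dropN_consB]
  have hc : ∀ d m, 2 ≤ m → ∀ x x', dropN m x = dropN (m + d) x' → Orb H x x' := by
    intro d
    induction d with
    | zero => intro m _ x x' h; exact ha m x x' h
    | succ d ih =>
      intro m hm x x' h
      let w : ℕ → Bool := joinN (m + 1) (fun _ => false) (dropN m x)
      have h1 : Orb H x w := hb m hm x w (by simp only [w]; rw [dropN_joinN])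
      refine (Orb.equivalence H).trans h1 (ih (m + 1) (by omega) _ _ ?_)
      simp only [w]
      rw [dropN_joinN, h]
      congr 1
      omega
  have hd : ∀ m n, m ≤ n → ∀ x x', dropN m x = dropN n x' → Orb H x x' := by
    intro m n hmn x x' h
    refine hc (n - m) (m + 2) (by omega) x x' ?_
    funext i
    have := congrFun h (2 + i)
    simp only [dropN] at this ⊢
    rw [show m + 2 + i = m + (2 + i) by omega, this]
    congr 1
    omega
  obtain ⟨m, n, h⟩ := h
  rcases le_total m n with hmn | hmn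
  · exact hd m n hmn x y (funext h)
  · exact (Orb.equivalence H).symm (hd n m hmn y x (funext fun i => (h i).symm))

end gens

theorem real_compressible {X : Type} [MeasurableSpace X] [StandardBorelSpace X] [Nonempty X]
    {E : X → X → Prop} (hE : Equivalence E) (F : FM E) (μ : Measure X) [IsFiniteMeasure μ]
    {A : Set X} (hA : MeasurableSet A) (hAE : Inv E A) (hc : Copies E A)
    {θ : (ℕ → ℕ) → X} (hθ : Measurable θ) (hθi : Function.Injective θ)
    (hθE : ∀ a b, Ev a b ↔ E (θ a) (θ b)) (hAθ : Disjoint A (sat E (range θ))) :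
    ∃ (K : Type) (_ : TopologicalSpace K) (_ : CompactSpace K)
      (_ : TopologicalSpace.MetrizableSpace K) (_ : MeasurableSpace K) (_ : BorelSpace K)
      (ι : Type) (_ : Countable ι) (H : ι → K ≃ₜ K) (ψ : K → X), Measurable ψ ∧
      Function.Injective ψ ∧ Inv E (range ψ) ∧ range ψ ⊆ A ∪ sat E (range θ) ∧
      μ (A \ range ψ) = 0 ∧ ∀ x y, Orb H x y ↔ E (ψ x) (ψ y) := by
  classical
  obtain ⟨κ, hκ, hκi⟩ : ∃ κ : X → ℕ → Bool, Measurable κ ∧ Function.Injective κ :=
    ⟨_, MeasurableSpace.measurable_mapNatBool X, MeasurableSpace.injective_mapNatBool X⟩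
  obtain ⟨κ', hκ', hκκ⟩ := exists_leftInv hκ MeasurableSet.univ hκi.injOn
  have hκκ' : ∀ x, κ' (κ x) = x := fun x => hκκ x (mem_univ _)
  obtain ⟨C, hCA, hCm, hCc, hCD, hCf, hCμ⟩ := exists_compact_coord_seq μ hκ hA
    (κ' := κ') (fun x _ => hκκ' x) (B := F.D) F.mD (f := fun k => κ ∘ F.ρ k)
    (fun k => hκ.comp (F.mρ k))
  -- left inverse of `jS`
  have hjemb : IsClosedEmbedding jS :=
    continuous_jS.isClosedEmbedding jS_injective
  let jinv : (ℕ → Bool) → (ℕ → Bool) := Function.invFun jS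
  have hjinv : ∀ y, jinv (jS y) = y := Function.leftInverse_invFun jS_injective
  have hjcont : ContinuousOn jinv (range jS) := by
    rw [continuousOn_iff_continuous_domRestrict]
    have h1 : (range jS).domRestrict jinv = (hjemb.isEmbedding.toHomeomorph).symm := by
      funext z
      obtain ⟨_, y, rfl⟩ := z
      show jinv (jS y) = _
      rw [hjinv]
      symm
      rw [Homeomorph.symm_apply_eq]
      rfl
    rw [h1]
    exact (hjemb.isEmbedding.toHomeomorph).symm.continuous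
  let J : X → (ℕ → Bool) := fun x => jS (κ x)
  have hJ : Measurable J := continuous_jS.measurable.comp hκ
  have hJT : ∀ x y, Tail (J x) (J y) → x = y := fun x y h => hκi (jS_tail h)
  let γ : ℕ → (ℕ → Bool) → (ℕ → Bool) := fun k z => jS (κ (F.ρ k (κ' (jinv z))))
  have hγJ : ∀ k x, γ k (J x) = J (F.ρ k x) := by
    intro k x
    show jS (κ (F.ρ k (κ' (jinv (jS (κ x)))))) = _
    rw [hjinv, hκκ']
  let S : ℕ → ℕ → ℕ → Set X := fun n m k => C n ∩ F.D k ∩ F.ρ k ⁻¹' (C m)
  have hext : ∀ n m k, ∃ g : (ℕ → Bool) ≃ₜ (ℕ → Bool), (∀ a ∈ J '' S n m k, g a = γ k a) ∧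
      ∀ x, x ∉ J '' S n m k → Tail x (g x) := by
    intro n m k
    have h1 : ContinuousOn (fun z => κ (F.ρ k (κ' z))) (κ '' C n) := hCf n k
    have hS1 : κ '' S n m k = κ '' (C n ∩ F.D k) ∩
        (fun z => κ (F.ρ k (κ' z))) ⁻¹' (κ '' C m) := by
      ext z
      constructor
      · rintro ⟨x, ⟨⟨hx1, hx2⟩, hx3⟩, rfl⟩
        refine ⟨⟨x, ⟨hx1, hx2⟩, rfl⟩, ?_⟩
        rw [mem_preimage, hκκ']
        exact ⟨_, hx3, rfl⟩
      · rintro ⟨⟨x, hx, rfl⟩, hx'⟩
        have hx'' : κ (F.ρ k (κ' (κ x))) ∈ κ '' C m := hx'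
        rw [hκκ'] at hx''
        obtain ⟨x', hx1', hx2'⟩ := hx''
        refine ⟨x, ⟨hx, ?_⟩, rfl⟩
        show F.ρ k x ∈ C m
        rw [← hκi hx2']; exact hx1'
    have hS2 : IsClosed (κ '' S n m k) := by
      rw [hS1]
      exact (h1.mono (image_mono inter_subset_left)).preimage_isClosed_of_isClosed
        (hCD n k).isClosed (hCc m).isClosed
    have hS3 : J '' S n m k = jS '' (κ '' S n m k) := by
      rw [image_image]
    have hS4 : IsClosed (J '' S n m k) := by
      rw [hS3]; exact hjemb.isClosedMap _ hS2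
    have hS5 : J '' S n m k ⊆ range jS := by
      rintro _ ⟨x, -, rfl⟩; exact ⟨_, rfl⟩
    refine exists_extension_tail hS4 ?_ ?_ (interior_range_jS hS5) (interior_range_jS ?_)
    · refine continuous_jS.comp_continuousOn ?_
      refine ContinuousOn.comp (g := fun z => κ (F.ρ k (κ' z))) (t := κ '' C n) h1
        (hjcont.mono hS5) ?_
      rintro _ ⟨x, hx, rfl⟩
      show jinv (jS (κ x)) ∈ _
      rw [hjinv]
      exact ⟨x, hx.1.1, rfl⟩
    · rintro _ ⟨x, hx, rfl⟩ _ ⟨x', hx', rfl⟩ h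
      rw [hγJ, hγJ] at h
      have h2 := hκi (jS_injective h)
      rw [F.inj k hx.1.2 hx'.1.2 h2]
    · rintro _ ⟨_, ⟨x, -, rfl⟩, rfl⟩
      rw [hγJ]; exact ⟨_, rfl⟩
  choose g hg1 hg2 using hext
  let ι : Type := TailGen ⊕ (ℕ × ℕ × ℕ)
  let H : ι → (ℕ → Bool) ≃ₜ (ℕ → Bool) := fun i => Sum.elim tailGen (fun q => g q.1 q.2.1 q.2.2) i
  have hTail : ∀ {x y}, Tail x y → Orb H x y := fun h =>
    tail_sub_orb H (fun q => ⟨Sum.inl q, rfl⟩) h
  have hR := Orb.equivalence H
  let X2 : Set X := ⋃ n, C n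
  have hX2m : MeasurableSet X2 := MeasurableSet.iUnion hCm
  have hX2A : X2 ⊆ A := iUnion_subset hCA
  have hR2 : ∀ x ∈ X2, ∀ y ∈ X2, E x y → Orb H (J x) (J y) := by
    intro x hx y hy hxy
    obtain ⟨k, hk, rfl⟩ := F.cov x y hxy
    obtain ⟨n, hn⟩ := mem_iUnion.1 hx
    obtain ⟨m, hm⟩ := mem_iUnion.1 hy
    have h1 : Orb H (J x) (H (Sum.inr (n, m, k)) (J x)) := Orb.gen H _ _
    have h2 : H (Sum.inr (n, m, k)) (J x) = J (F.ρ k x) := by
      show g n m k (J x) = _
      rw [hg1 n m k _ ⟨x, ⟨⟨hn, hk⟩, hm⟩, rfl⟩, hγJ]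
    rwa [h2] at h1
  let EC : (ℕ → Bool) → (ℕ → Bool) → Prop := fun z z' =>
    Tail z z' ∨ ∃ x ∈ X2, ∃ y ∈ X2, Tail z (J x) ∧ E x y ∧ Tail (J y) z'
  have hT := Tail.equivalence
  have hEC : Equivalence EC := by
    refine ⟨fun z => Or.inl (hT.refl z), ?_, ?_⟩
    · rintro z z' (h | ⟨x, hx, y, hy, h1, h2, h3⟩)
      · exact Or.inl (hT.symm h)
      · exact Or.inr ⟨y, hy, x, hx, hT.symm h3, hE.symm h2, hT.symm h1⟩
    · rintro z z' z'' (h | ⟨x, hx, y, hy, h1, h2, h3⟩) (h' | ⟨x', hx', y', hy', h1', h2', h3'⟩)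
      · exact Or.inl (hT.trans h h')
      · exact Or.inr ⟨x', hx', y', hy', hT.trans h h1', h2', h3'⟩
      · exact Or.inr ⟨x, hx, y, hy, h1, h2, hT.trans h3 h'⟩
      · have : y = x' := hJT _ _ (hT.trans h3 h1')
        subst this
        exact Or.inr ⟨x, hx, y', hy', h1, hE.trans h2 h2', h3'⟩
  have hR3 : ∀ {z z'}, Orb H z z' → EC z z' := by
    intro z z' h
    refine Orb.sub hEC ?_ h
    rintro (q | ⟨n, m, k⟩) z
    · exact Or.inl (tailGen_tail q z)
    · show EC z (g n m k z)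
      by_cases hz : z ∈ J '' S n m k
      · rw [hg1 n m k z hz]
        obtain ⟨x, ⟨⟨hx1, hx2⟩, hx3⟩, rfl⟩ := hz
        rw [hγJ]
        exact Or.inr ⟨x, mem_iUnion.2 ⟨n, hx1⟩, F.ρ k x, mem_iUnion.2 ⟨m, hx3⟩, hT.refl _,
          F.rel k x hx2, hT.refl _⟩
      · exact Or.inl (hg2 n m k z hz)
  have hR4 : ∀ x ∈ X2, ∀ y ∈ X2, Orb H (J x) (J y) → E x y := by
    intro x hx y hy h
    rcases hR3 h with h1 | ⟨x', hx', y', hy', h1, h2, h3⟩
    · rw [hJT _ _ h1]; exact hE.refl _
    · rw [hJT _ _ h1, ← hJT _ _ h3]; exact h2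
  -- the set `Y`
  let Y : Set X := sat E X2
  have hYm : MeasurableSet Y := F.measurableSet_sat hX2m
  have hYE : Inv E Y := inv_sat hE _
  have hYA : Y ⊆ A := hAE.sat_subset hE hX2A
  obtain ⟨FR⟩ := exists_FM_orb H
  obtain ⟨β, i, hβ, hi, hβi⟩ := exists_glue (fun k => F.D k ∩ F.ρ k ⁻¹' X2)
    (fun k => (F.mD k).inter (F.mρ k hX2m)) (fun k x => preN k (J (F.ρ k x)))
    (fun k => (continuous_preN k).measurable.comp (hJ.comp (F.mρ k)))
  rw [← F.sat_eq] at hβi
  have hβ1 : ∀ y ∈ Y, ∃ x ∈ X2, E y x ∧ Tail (J x) (β y) := by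
    intro y hy
    obtain ⟨⟨h1, h2⟩, h3, -⟩ := hβi y hy
    exact ⟨_, h2, F.rel _ _ h1, by rw [h3]; exact tail_preN _ _⟩
  have hβinj : InjOn β Y := by
    intro y hy y' hy' h
    obtain ⟨⟨h1, h2⟩, h3, -⟩ := hβi y hy
    obtain ⟨⟨h1', h2'⟩, h3', -⟩ := hβi y' hy'
    rw [h3, h3'] at h
    obtain ⟨h4, h5⟩ := preN_inj h
    have h6 := hκi (jS_injective h5)
    rw [h4] at h1 h6
    exact F.inj _ h1 h1' h6
  have hβE : ∀ y ∈ Y, ∀ y' ∈ Y, (E y y' ↔ Orb H (β y) (β y')) := by
    intro y hy y' hy'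
    obtain ⟨x, hx, hyx, hxb⟩ := hβ1 y hy
    obtain ⟨x', hx', hyx', hxb'⟩ := hβ1 y' hy'
    constructor
    · intro h
      have h1 := hR2 x hx x' hx' (hE.trans (hE.symm hyx) (hE.trans h hyx'))
      exact hR.trans (hTail (hT.symm hxb)) (hR.trans h1 (hTail hxb'))
    · intro h
      have h1 := hR4 x hx x' hx' (hR.trans (hTail hxb) (hR.trans h (hTail (hT.symm hxb'))))
      exact hE.trans hyx (hE.trans h1 (hE.symm hyx'))
  have hYsb : StandardBorelSpace Y := hYm.standardBorel
  have hcY : Copies (fun y y' : Y => E (y : X) (y' : X)) univ := by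
    obtain ⟨p, hp1, hp2, hp3⟩ := hc
    rcases isEmpty_or_nonempty Y with hQ | ⟨⟨q0⟩⟩
    · exact ⟨fun _ q => q, fun _ => measurable_id, fun _ q => (hQ.false q).elim,
        fun _ _ q => (hQ.false q).elim⟩
    have hpQ : ∀ n, ∀ x ∈ Y, p n x ∈ Y := fun n x hx => hYE _ _ (hp2 n x (hYA hx)) hx
    let p' : ℕ → Y → Y := fun n q => ⟨p n q, hpQ n q q.2⟩
    exact ⟨p', fun n => ((hp1 n).comp measurable_subtype_coe).subtype_mk,
      fun n q _ => hp2 n q (hYA q.2), fun m n q _ q' _ h => by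
        obtain ⟨h1, h2⟩ := hp3 m n q (hYA q.2) q' (hYA q'.2) (congrArg Subtype.val h)
        exact ⟨h1, Subtype.ext h2⟩⟩
  obtain ⟨ψ0, h01, h02, h03, h04⟩ := exists_invariant_embedding hR FR
    (j := fun y : Y => β y) (hβ.comp measurable_subtype_coe)
    (fun y y' h => Subtype.ext (hβinj y.2 y'.2 h)) (fun y y' => hβE y y.2 y' y'.2) hcY
  let ψ1 : X → (ℕ → Bool) := fun x => if h : x ∈ Y then ψ0 ⟨x, h⟩ else fun _ => false
  have hψ1Y : ∀ x (h : x ∈ Y), ψ1 x = ψ0 ⟨x, h⟩ := fun x h => dif_pos h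
  have hψ1m : Measurable ψ1 := Measurable.dite h01 measurable_const hYm
  have him : ψ1 '' Y = sat (Orb H) (range fun y : Y => β y) := by
    rw [← h03]
    ext z
    constructor
    · rintro ⟨x, hx, rfl⟩; exact ⟨⟨x, hx⟩, (hψ1Y x hx).symm⟩
    · rintro ⟨y, rfl⟩; exact ⟨y, y.2, hψ1Y y y.2⟩
  have hout : ∀ z ∉ ψ1 '' Y, ∀ x ∈ X2, ¬ Tail z (J x) := by
    intro z hz x hx h
    apply hz
    rw [him]
    have hxY : x ∈ Y := subset_sat hE _ hx
    obtain ⟨x', hx', hxx', hxb⟩ := hβ1 x hxY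
    refine ⟨β x, ⟨⟨x, hxY⟩, rfl⟩, ?_⟩
    exact hR.trans (hTail h) (hR.trans (hR2 x hx x' hx' hxx') (hTail hxb))
  have hψ1i : InjOn ψ1 Y := by
    intro x hx y hy h
    rw [hψ1Y x hx, hψ1Y y hy] at h
    exact congrArg Subtype.val (h02 h)
  have hψ1E : ∀ x ∈ Y, ∀ y ∈ Y, (E x y ↔ Orb H (ψ1 x) (ψ1 y)) := by
    intro x hx y hy
    rw [hψ1Y x hx, hψ1Y y hy, hβE x hx y hy]
    have h1 := h04 ⟨x, hx⟩
    have h2 := h04 ⟨y, hy⟩
    exact ⟨fun h => hR.trans (hR.symm h1) (hR.trans h h2),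
      fun h => hR.trans h1 (hR.trans h (hR.symm h2))⟩
  have hψ1r : Inv (Orb H) (ψ1 '' Y) := by
    rw [him]; exact inv_sat hR _
  have hft : ∀ x ∉ ψ1 '' Y, ∀ y ∉ ψ1 '' Y, (Orb H x y ↔ Ev (ft x) (ft y)) := by
    intro x hx y hy
    rw [← ft_iff]
    constructor
    · intro h
      rcases hR3 h with h1 | ⟨x', hx', y', hy', h1, h2, h3⟩
      · exact h1
      · exact (hout x hx x' hx' h1).elim
    · exact hTail
  have hcop : Copies (Orb H) (ψ1 '' Y)ᶜ :=
    ⟨preN, fun n => (continuous_preN n).measurable, fun n x _ => hTail (tail_preN n x),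
      fun m n x _ y _ h => preN_inj h⟩
  obtain ⟨ψ, k1, k2, k3, k4, k5, k6⟩ := assemble hE F hR hYm hYE
    hψ1m hψ1i hψ1E hψ1r measurable_ft (ft_injective.injOn) hft hcop hθ hθi hθE
    (hAθ.mono_left hYA)
  refine ⟨ℕ → Bool, inferInstance, inferInstance, inferInstance, inferInstance, inferInstance,
    ι, inferInstance, H, ψ, k1, k2, k3, k5.trans (union_subset_union_left _ hYA), ?_, k6⟩
  refine measure_mono_null ?_ hCμ
  rintro x ⟨hx1, hx2⟩
  exact ⟨hx1, fun h => hx2 (k4 (subset_sat hE _ h))⟩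

end Pool.Agent.Work.MP_97bde0_lc
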