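import Pool.Agent.Work.MP_97bde0_lc.Coin

/-!
# Extension theorem in the fibred space `2^ℕ × W`
-/

set_option autoImplicit false

open Set MeasureTheory Topology
open scoped ENNReal

namespace Pool.Agent.Work.MP_97bde0_lc

/-- locally constant selection -/
theorem exists_locallyConstant_sel {W D : Type*} [TopologicalSpace W] [CompactSpace W] [T2Space W]
    [TotallyDisconnectedSpace W] [Nonempty D] (Rel : W → D → Prop)
    (h : ∀ w, ∃ d, ∃ O : Set W, IsOpen O ∧ w ∈ O ∧ ∀ w' ∈ O, Rel w' d) :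
    ∃ f : W → D, IsLocallyConstant f ∧ ∀ w, Rel w (f w) := by
  classical
  choose d O hO hwO hR using h
  have hC : ∀ w, ∃ C : Set W, IsClopen C ∧ w ∈ C ∧ C ⊆ O w := fun w =>
    compact_exists_isClopen_in_isOpen (hO w) (hwO w)
  choose C hCc hwC hCO using hC
  obtain ⟨t, ht⟩ := isCompact_univ.elim_finite_subcover C (fun w => (hCc w).2)
    (fun w _ => mem_iUnion.2 ⟨w, hwC w⟩)
  have key : ∀ t : Finset W, ∃ f : W → D, IsLocallyConstant f ∧
      ∀ w ∈ ⋃ i ∈ t, C i, Rel w (f w) := by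
    intro t
    induction t using Finset.induction_on with
    | empty =>
      refine ⟨fun _ => Classical.arbitrary D, IsLocallyConstant.const _, ?_⟩
      intro w hw
      simp at hw
    | insert i t _ ih =>
      obtain ⟨f, hf, hfR⟩ := ih
      refine ⟨fun w => if w ∈ C i then d i else f w, ?_, ?_⟩
      · rw [IsLocallyConstant.iff_exists_open]
        intro w
        by_cases hw : w ∈ C i
        · refine ⟨C i, (hCc i).2, hw, fun w' hw' => ?_⟩
          rw [if_pos hw, if_pos hw']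
        · obtain ⟨V, hV, hwV, hVf⟩ := (IsLocallyConstant.iff_exists_open f).1 hf w
          refine ⟨V ∩ (C i)ᶜ, hV.inter (hCc i).1.isOpen_compl, ⟨hwV, hw⟩, fun w' hw' => ?_⟩
          rw [if_neg hw, if_neg hw'.2]
          exact hVf w' hw'.1
      · intro w hw
        show Rel w (if w ∈ C i then d i else f w)
        by_cases hwi : w ∈ C i
        · rw [if_pos hwi]; exact hR i w (hCO i hwi)
        · rw [if_neg hwi]
          refine hfR w ?_
          simp only [mem_iUnion, Finset.mem_insert] at hw ⊢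
          obtain ⟨j, hj, hwj⟩ := hw
          rcases hj with rfl | hj
          · exact (hwi hwj).elim
          · exact ⟨j, hj, hwj⟩
  obtain ⟨f, hf, hfR⟩ := key t
  exact ⟨f, hf, fun w => hfR w (ht (mem_univ w))⟩

theorem coin_pos_of_isOpen {O : Set (ℕ → Bool)} (hO : IsOpen O) (hne : O.Nonempty) :
    0 < coin O := by
  obtain ⟨z, hz⟩ := hne
  obtain ⟨N, hN⟩ := exists_cyl_subset hO hz
  refine lt_of_lt_of_le ?_ (measure_mono (hN N le_rfl))
  rw [coin_cyl]
  exact ENNReal.pow_pos (by simp) _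

theorem clopen_level {C : Set (ℕ → Bool)} (hC : IsClopen C) :
    ∃ N, ∀ n, N ≤ n → ∃ S : Finset (Fin n → Bool), C = {z | takeN n z ∈ S} := by
  classical
  let c : (ℕ → Bool) → ℕ := fun z => if z ∈ C then 1 else 0
  have hc : Continuous c := by
    refine Continuous.if ?_ continuous_const continuous_const
    intro a ha
    have : frontier {a | a ∈ C} = ∅ := hC.frontier_eq
    rw [this] at ha
    exact ha.elim
  obtain ⟨N, hN⟩ := exists_level' hc
  refine ⟨N, fun n hn => ⟨Finset.univ.filter (fun u => joinN n u (fun _ => false) ∈ C), ?_⟩⟩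
  ext z
  have h1 : c z = c (joinN n (takeN n z) (fun _ => false)) := by
    refine hN _ _ fun i hi => ?_
    have : i < n := by omega
    simp [joinN, takeN, this]
  have h2 : z ∈ C ↔ joinN n (takeN n z) (fun _ => false) ∈ C := by
    by_cases h3 : z ∈ C <;> by_cases h4 : joinN n (takeN n z) (fun _ => false) ∈ C
    · exact ⟨fun _ => h4, fun _ => h3⟩
    · simp [c, h3, h4] at h1
    · simp [c, h3, h4] at h1
    · exact ⟨fun h => (h3 h).elim, fun h => (h4 h).elim⟩
  rw [h2]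
  simp

theorem local_shrink {A B P Q : Set (ℕ → Bool)} (hA : IsClosed A) (hB : IsClosed B)
    (hP : IsClopen P) (hQ : IsClopen Q) (hAP : A ⊆ P) (hBQ : B ⊆ Q) (hAi : interior A = ∅)
    (hBi : interior B = ∅) (hm : coin A = coin B) (hne : A.Nonempty ↔ B.Nonempty) :
    ∃ (n : ℕ) (S S' : Finset (Fin n → Bool)), S.card = S'.card ∧ A ⊆ {z | takeN n z ∈ S} ∧
      {z | takeN n z ∈ S} ⊆ P ∧ B ⊆ {z | takeN n z ∈ S'} ∧ {z | takeN n z ∈ S'} ⊆ Q := by
  classical
  rcases A.eq_empty_or_nonempty with hA0 | hA0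
  · have hB0 : B = ∅ := by
      rw [← not_nonempty_iff_eq_empty, ← hne, not_nonempty_iff_eq_empty]; exact hA0
    refine ⟨0, ∅, ∅, rfl, ?_, ?_, ?_, ?_⟩
    · rw [hA0]; exact empty_subset _
    · intro z hz; simp at hz
    · rw [hB0]; exact empty_subset _
    · intro z hz; simp at hz
  have hB0 := hne.1 hA0
  have lt : ∀ {A P : Set (ℕ → Bool)}, IsClosed A → IsClopen P → A ⊆ P → interior A = ∅ →
      A.Nonempty → coin A < coin P := by
    intro A P hA hP hAP hAi hA0
    have h1 : (P \ A).Nonempty := by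
      by_contra h
      rw [not_nonempty_iff_eq_empty, sdiff_eq_empty] at h
      have h2 : P ⊆ interior A := hP.2.subset_interior_iff.2 h
      rw [hAi] at h2
      obtain ⟨a, ha⟩ := hA0
      exact h2 (hAP ha)
    have h2 : 0 < coin (P \ A) := coin_pos_of_isOpen (hP.2.sdiff hA) h1
    have h3 : coin A + coin (P \ A) = coin P := by
      rw [← measure_union disjoint_sdiff_right (hP.1.measurableSet.diff hA.measurableSet),
        union_sdiff_cancel hAP]
    rw [← h3]
    exact ENNReal.lt_add_right (measure_ne_top _ _) h2.ne'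
  have hAP' := lt hA hP hAP hAi hA0
  have hBQ' := lt hB hQ hBQ hBi hB0
  have hAQ' : coin A < coin Q := by rw [hm]; exact hBQ'
  have hBP' : coin B < coin P := by rw [← hm]; exact hAP'
  have ap : ∀ {A P : Set (ℕ → Bool)} {r : ℝ≥0∞}, IsClosed A → IsClopen P → A ⊆ P →
      coin A < r → ∃ C, IsClopen C ∧ A ⊆ C ∧ C ⊆ P ∧ coin C < r := by
    intro A P r hA hP hAP hr
    obtain ⟨O, h1, h2, h3⟩ := Set.exists_isOpen_lt_of_lt A (μ := coin) r hr
    obtain ⟨C, h4, h5, h6⟩ := exists_clopen_between hA (h2.inter hP.2) (subset_inter h1 hAP)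
    exact ⟨C, h4, h5, h6.trans inter_subset_right,
      (measure_mono (h6.trans inter_subset_left)).trans_lt h3⟩
  obtain ⟨C, hC, hAC, hCP, hCm⟩ := ap hA hP hAP (lt_min hAP' hAQ')
  obtain ⟨C', hC', hBC', hCQ', hCm'⟩ := ap hB hQ hBQ (lt_min hBP' hBQ')
  obtain ⟨n1, h1⟩ := clopen_level hC
  obtain ⟨n2, h2⟩ := clopen_level hC'
  obtain ⟨n3, h3⟩ := clopen_level hP
  obtain ⟨n4, h4⟩ := clopen_level hQ
  let n := max (max n1 n2) (max n3 n4)
  obtain ⟨S1, hS1⟩ := h1 n (by omega)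
  obtain ⟨S2, hS2⟩ := h2 n (by omega)
  obtain ⟨S3, hS3⟩ := h3 n (by omega)
  obtain ⟨S4, hS4⟩ := h4 n (by omega)
  have sub : ∀ {S T : Finset (Fin n → Bool)}, {z | takeN n z ∈ S} ⊆ {z | takeN n z ∈ T} →
      S ⊆ T := by
    intro S T h u hu
    have h5 : joinN n u (fun _ => false) ∈ {z | takeN n z ∈ T} := h (by
      show takeN n _ ∈ S
      rw [takeN_joinN]; exact hu)
    have h6 : takeN n (joinN n u (fun _ => false)) ∈ T := h5
    rwa [takeN_joinN] at h6
  have card : ∀ {S T : Finset (Fin n → Bool)},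
      coin {z | takeN n z ∈ S} ≤ coin {z | takeN n z ∈ T} → S.card ≤ T.card := by
    intro S T h
    rw [coin_takeN, coin_takeN] at h
    have hpos : (2⁻¹ : ℝ≥0∞) ^ n ≠ 0 := (ENNReal.pow_pos (by simp) _).ne'
    have htop : (2⁻¹ : ℝ≥0∞) ^ n ≠ ∞ := ENNReal.pow_ne_top (by simp)
    have h5 : (S.card : ℝ≥0∞) ≤ T.card := (ENNReal.mul_le_mul_iff_left hpos htop).1 h
    exact_mod_cast h5
  have s13 : S1 ⊆ S3 := sub (by rw [← hS1, ← hS3]; exact hCP)
  have s24 : S2 ⊆ S4 := sub (by rw [← hS2, ← hS4]; exact hCQ')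
  have c14 : S1.card ≤ S4.card := card (by
    rw [← hS1, ← hS4]; exact (hCm.trans_le (min_le_right _ _)).le)
  have c23 : S2.card ≤ S3.card := card (by
    rw [← hS2, ← hS3]; exact (hCm'.trans_le (min_le_left _ _)).le)
  have c13 := Finset.card_le_card s13
  have c24 := Finset.card_le_card s24
  obtain ⟨S, hS5, hS6, hS7⟩ := Finset.exists_subsuperset_card_eq s13
    (n := max S1.card S2.card) (le_max_left _ _) (max_le c13 c23)
  obtain ⟨S', hS5', hS6', hS7'⟩ := Finset.exists_subsuperset_card_eq s24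
    (n := max S1.card S2.card) (le_max_right _ _) (max_le c14 c24)
  refine ⟨n, S, S', hS7.trans hS7'.symm, ?_, ?_, ?_, ?_⟩
  · refine hAC.trans ?_
    rw [hS1]
    exact fun z hz => hS5 hz
  · rw [hS3]
    exact fun z hz => hS6 hz
  · refine hBC'.trans ?_
    rw [hS2]
    exact fun z hz => hS5' hz
  · rw [hS4]
    exact fun z hz => hS6' hz

section fib

variable {W : Type*} [TopologicalSpace W]

theorem isOpen_forall_imp {n : ℕ} {S : Set (Fin n → Bool)} {G : Set ((ℕ → Bool) × W)}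
    (hG : IsOpen G) : IsOpen {w | ∀ z, takeN n z ∈ S → (z, w) ∈ G} := by
  have : {w | ∀ z, takeN n z ∈ S → (z, w) ∈ G} =
      (Prod.snd '' (Gᶜ ∩ {p : (ℕ → Bool) × W | takeN n p.1 ∈ S}))ᶜ := by
    ext w
    simp only [mem_compl_iff, mem_image, not_exists]
    constructor
    · rintro h ⟨z, w'⟩ ⟨⟨h1, h2⟩, rfl⟩
      exact h1 (h z h2)
    · intro h z hz
      by_contra h1
      exact h (z, w) ⟨⟨h1, hz⟩, rfl⟩
  rw [this, isOpen_compl_iff]
  refine isClosedMap_snd_of_compactSpace _ (hG.isClosed_compl.inter ?_)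
  exact ((isClopen_discrete S).preimage ((continuous_takeN n).comp continuous_fst)).1

variable [CompactSpace W] [T2Space W] [TotallyDisconnectedSpace W]

theorem fib_shrink {A B P Q : Set ((ℕ → Bool) × W)} (hA : IsClosed A) (hB : IsClosed B)
    (hP : IsClopen P) (hQ : IsClopen Q) (hAP : A ⊆ P) (hBQ : B ⊆ Q)
    (hAi : ∀ w, interior {z | (z, w) ∈ A} = ∅) (hBi : ∀ w, interior {z | (z, w) ∈ B} = ∅)
    (hm : ∀ w, coin {z | (z, w) ∈ A} = coin {z | (z, w) ∈ B})
    (hne : ∀ w, (∃ z, (z, w) ∈ A) ↔ ∃ z, (z, w) ∈ B) :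
    ∃ P1 Q1 : Set ((ℕ → Bool) × W), IsClopen P1 ∧ IsClopen Q1 ∧ A ⊆ P1 ∧ P1 ⊆ P ∧ B ⊆ Q1 ∧
      Q1 ⊆ Q ∧ ∀ w, coin {z | (z, w) ∈ P1} = coin {z | (z, w) ∈ Q1} := by
  classical
  let D := Σ n : ℕ, Finset (Fin n → Bool) × Finset (Fin n → Bool)
  have hDne : Nonempty D := ⟨⟨0, ∅, ∅⟩⟩
  let Rel : W → D → Prop := fun w d => d.2.1.card = d.2.2.card ∧
    (∀ z, (z, w) ∈ A → takeN d.1 z ∈ d.2.1) ∧ (∀ z, takeN d.1 z ∈ d.2.1 → (z, w) ∈ P) ∧
    (∀ z, (z, w) ∈ B → takeN d.1 z ∈ d.2.2) ∧ (∀ z, takeN d.1 z ∈ d.2.2 → (z, w) ∈ Q)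
  obtain ⟨f, hf, hfR⟩ := exists_locallyConstant_sel Rel (by
    intro w
    have hc : Continuous (fun z : ℕ → Bool => (z, w)) := continuous_id.prodMk continuous_const
    obtain ⟨n, S, S', h1, h2, h3, h4, h5⟩ := local_shrink (A := {z | (z, w) ∈ A})
      (B := {z | (z, w) ∈ B}) (P := {z | (z, w) ∈ P}) (Q := {z | (z, w) ∈ Q})
      (hA.preimage hc) (hB.preimage hc) (hP.preimage hc) (hQ.preimage hc)
      (fun z hz => hAP hz) (fun z hz => hBQ hz) (hAi w) (hBi w) (hm w) (hne w)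
    have o1 : IsOpen {w | ∀ z, takeN n z ∈ ((S : Set (Fin n → Bool))ᶜ) → (z, w) ∈ Aᶜ} :=
      isOpen_forall_imp hA.isOpen_compl
    have o2 : IsOpen {w | ∀ z, takeN n z ∈ (S : Set (Fin n → Bool)) → (z, w) ∈ P} :=
      isOpen_forall_imp hP.2
    have o3 : IsOpen {w | ∀ z, takeN n z ∈ ((S' : Set (Fin n → Bool))ᶜ) → (z, w) ∈ Bᶜ} :=
      isOpen_forall_imp hB.isOpen_compl
    have o4 : IsOpen {w | ∀ z, takeN n z ∈ (S' : Set (Fin n → Bool)) → (z, w) ∈ Q} :=
      isOpen_forall_imp hQ.2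
    refine ⟨⟨n, S, S'⟩, _, (o1.inter o2).inter (o3.inter o4), ⟨⟨?_, ?_⟩, ⟨?_, ?_⟩⟩, ?_⟩
    · exact fun z hz hzA => hz (h2 hzA)
    · exact fun z hz => h3 hz
    · exact fun z hz hzB => hz (h4 hzB)
    · exact fun z hz => h5 hz
    · rintro w' ⟨⟨k1, k2⟩, ⟨k3, k4⟩⟩
      refine ⟨h1, fun z hz => ?_, fun z hz => k2 z hz, fun z hz => ?_, fun z hz => k4 z hz⟩
      · by_contra h
        exact k1 z h hz
      · by_contra h
        exact k3 z h hz)
  have hcl : ∀ g : D → Σ n : ℕ, Finset (Fin n → Bool),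
      IsClopen {p : (ℕ → Bool) × W | takeN (g (f p.2)).1 p.1 ∈ (g (f p.2)).2} := by
    intro g
    have hlc : IsLocallyConstant
        (fun p : (ℕ → Bool) × W => decide (takeN (g (f p.2)).1 p.1 ∈ (g (f p.2)).2)) := by
      rw [IsLocallyConstant.iff_exists_open]
      rintro ⟨z, w⟩
      obtain ⟨O, hO, hwO, hOf⟩ := (IsLocallyConstant.iff_exists_open f).1 hf w
      refine ⟨cyl (g (f w)).1 z ×ˢ O, (isClopen_cyl _ z).2.prod hO, ⟨mem_cyl_self _ z, hwO⟩, ?_⟩
      rintro ⟨z', w'⟩ ⟨hz', hw'⟩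
      have h1 : f w' = f w := hOf w' hw'
      have h2 : takeN (g (f w)).1 z' = takeN (g (f w)).1 z := mem_cyl_iff.1 hz'
      show decide (takeN (g (f w')).1 z' ∈ (g (f w')).2) =
        decide (takeN (g (f w)).1 z ∈ (g (f w)).2)
      rw [h1, h2]
    have h2 := hlc.isClopen_fiber true
    convert h2 using 1
    ext p
    simp
  refine ⟨{p | takeN (f p.2).1 p.1 ∈ (f p.2).2.1}, {p | takeN (f p.2).1 p.1 ∈ (f p.2).2.2},
    hcl (fun d => ⟨d.1, d.2.1⟩), hcl (fun d => ⟨d.1, d.2.2⟩), ?_, ?_, ?_, ?_, ?_⟩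
  · rintro ⟨z, w⟩ hz; exact (hfR w).2.1 z hz
  · rintro ⟨z, w⟩ hz; exact (hfR w).2.2.1 z hz
  · rintro ⟨z, w⟩ hz; exact (hfR w).2.2.2.1 z hz
  · rintro ⟨z, w⟩ hz; exact (hfR w).2.2.2.2 z hz
  · intro w
    show coin {z | takeN (f w).1 z ∈ (f w).2.1} = coin {z | takeN (f w).1 z ∈ (f w).2.2}
    rw [coin_takeN, coin_takeN, (hfR w).1]

/-- matching of equidistributed labelings -/
theorem fib_match {c d : (ℕ → Bool) × W → ℕ} (hc : Continuous c) (hd : Continuous d)
    (hcd : ∀ w l, coin {z | c (z, w) = l} = coin {z | d (z, w) = l}) :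
    ∃ h : ((ℕ → Bool) × W) ≃ₜ ((ℕ → Bool) × W), (∀ x, Ev x.1 (h x).1 ∧ (h x).2 = x.2) ∧
      ∀ x, d (h x) = c x := by
  classical
  obtain ⟨n1, hn1⟩ := exists_level hc
  obtain ⟨n2, hn2⟩ := exists_level hd
  let n := max n1 n2
  let zf : ℕ → Bool := fun _ => false
  have hjoin : ∀ (x : ℕ → Bool) (i : ℕ), i < n → joinN n (takeN n x) zf i = x i := by
    intro x i hi
    simp [joinN, takeN, hi]
  have hcc : ∀ x w, c (joinN n (takeN n x) zf, w) = c (x, w) := fun x w =>
    hn1 _ _ w fun i hi => hjoin x i (lt_of_lt_of_le hi (le_max_left _ _))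
  have hdd : ∀ x w, d (joinN n (takeN n x) zf, w) = d (x, w) := fun x w =>
    hn2 _ _ w fun i hi => hjoin x i (lt_of_lt_of_le hi (le_max_right _ _))
  have hcard : ∀ (c : (ℕ → Bool) × W → ℕ), (∀ x w, c (joinN n (takeN n x) zf, w) = c (x, w)) →
      ∀ w l, coin {z | c (z, w) = l} =
      ((Finset.univ.filter (fun u => c (joinN n u zf, w) = l)).card : ℝ≥0∞) *
        (2⁻¹ : ℝ≥0∞) ^ n := by
    intro c hc w l
    rw [← coin_takeN]
    congr 1
    ext z
    simp only [Finset.mem_filter, Finset.mem_univ, true_and]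
    show c (z, w) = l ↔ c (joinN n (takeN n z) zf, w) = l
    rw [hc]
  let Rel : W → Equiv.Perm (Fin n → Bool) → Prop := fun w π =>
    ∀ u, d (joinN n (π u) zf, w) = c (joinN n u zf, w)
  obtain ⟨f, hf, hfR⟩ := exists_locallyConstant_sel Rel (by
    intro w
    have h1 : ∀ l, (Finset.univ.filter (fun u => c (joinN n u zf, w) = l)).card =
        (Finset.univ.filter (fun u => d (joinN n u zf, w) = l)).card := by
      intro l
      have h2 := hcd w l
      rw [hcard c hcc w l, hcard d hdd w l] at h2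
      have hpos : (2⁻¹ : ℝ≥0∞) ^ n ≠ 0 := (ENNReal.pow_pos (by simp) _).ne'
      have htop : (2⁻¹ : ℝ≥0∞) ^ n ≠ ∞ := ENNReal.pow_ne_top (by simp)
      have h3 := (ENNReal.mul_left_inj hpos htop).1 h2
      exact_mod_cast h3
    obtain ⟨π, hπ⟩ := exists_perm_of_card h1
    refine ⟨π, {w' | ∀ u, d (joinN n (π u) zf, w') = c (joinN n u zf, w')}, ?_, hπ,
      fun w' hw' => hw'⟩
    have : {w' | ∀ u, d (joinN n (π u) zf, w') = c (joinN n u zf, w')} =
        ⋂ u, {w' | d (joinN n (π u) zf, w') = c (joinN n u zf, w')} := by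
      ext w'; simp
    rw [this]
    refine isOpen_iInter_of_finite fun u => ?_
    have hcont : Continuous (fun w' : W => (d (joinN n (π u) zf, w'), c (joinN n u zf, w'))) :=
      (hd.comp (continuous_const.prodMk continuous_id)).prodMk
        (hc.comp (continuous_const.prodMk continuous_id))
    exact (isOpen_discrete {q : ℕ × ℕ | q.1 = q.2}).preimage hcont)
  have hcont : ∀ g : W → Equiv.Perm (Fin n → Bool), IsLocallyConstant g →
      Continuous (fun p : (ℕ → Bool) × W => (permHomeo n (g p.2) p.1, p.2)) := by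
    intro g hg
    refine Continuous.prodMk ?_ continuous_snd
    have h1 : IsLocallyConstant (fun p : (ℕ → Bool) × W => g p.2) :=
      hg.comp_continuous continuous_snd
    have h2 : IsLocallyConstant (fun p : (ℕ → Bool) × W => takeN n p.1) :=
      (IsLocallyConstant.iff_continuous _).2 ((continuous_takeN n).comp continuous_fst)
    have h3 : IsLocallyConstant (fun p : (ℕ → Bool) × W => (g p.2) (takeN n p.1)) :=
      (h1.prodMk h2).comp (fun q : Equiv.Perm (Fin n → Bool) × (Fin n → Bool) => q.1 q.2)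
    have h4 : Continuous (fun p : (ℕ → Bool) × W =>
        joinN n ((g p.2) (takeN n p.1)) (dropN n p.1)) :=
      (continuous_joinN n).comp (h3.continuous.prodMk ((continuous_dropN n).comp continuous_fst))
    exact h4
  have hfs : IsLocallyConstant (fun w => (f w).symm) := hf.comp (fun π => π.symm)
  have hinv : ∀ (π : Equiv.Perm (Fin n → Bool)) x, permHomeo n π.symm (permHomeo n π x) = x := by
    intro π x
    rw [permHomeo_apply, permHomeo_apply, takeN_joinN, dropN_joinN, Equiv.symm_apply_apply,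
      joinN_take_drop]
  let h : ((ℕ → Bool) × W) ≃ₜ ((ℕ → Bool) × W) :=
    { toFun := fun p => (permHomeo n (f p.2) p.1, p.2)
      invFun := fun p => (permHomeo n (f p.2).symm p.1, p.2)
      left_inv := fun p => by
        show (permHomeo n (f p.2).symm (permHomeo n (f p.2) p.1), p.2) = p
        rw [hinv]
      right_inv := fun p => by
        show (permHomeo n (f p.2) (permHomeo n (f p.2).symm p.1), p.2) = p
        have := hinv (f p.2).symm p.1
        rw [Equiv.symm_symm] at this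
        rw [this]
      continuous_toFun := hcont f hf
      continuous_invFun := hcont _ hfs }
  have hh : ∀ p, h p = (permHomeo n (f p.2) p.1, p.2) := fun p => rfl
  refine ⟨h, fun x => ⟨by rw [hh]; exact permHomeo_ev _ _ _, rfl⟩, fun x => ?_⟩
  rw [hh, ← hdd, ← hcc]
  rw [permHomeo_apply, takeN_joinN]
  exact hfR x.2 (takeN n x.1)

end fib

theorem exists_extension_fib {W : Type*} [MetricSpace W] [CompactSpace W]
    [TotallyDisconnectedSpace W] {A : Set ((ℕ → Bool) × W)} (hA : IsClosed A)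
    {γ : (ℕ → Bool) × W → (ℕ → Bool) × W} (hγ : ContinuousOn γ A) (hinj : InjOn γ A)
    (hγ2 : ∀ a ∈ A, (γ a).2 = a.2)
    (hAi : ∀ w, interior {z | (z, w) ∈ A} = ∅) (hBi : ∀ w, interior {z | (z, w) ∈ γ '' A} = ∅)
    (hm : ∀ w, ∀ Z : Set (ℕ → Bool), IsClopen Z → coin {z | (z, w) ∈ A ∧ z ∈ Z} =
      coin {z' | ∃ z ∈ Z, (z, w) ∈ A ∧ γ (z, w) = (z', w)}) :
    ∃ g : ((ℕ → Bool) × W) ≃ₜ ((ℕ → Bool) × W), (∀ a ∈ A, g a = γ a) ∧
      ∀ x, x ∉ A → Ev x.1 (g x).1 ∧ (g x).2 = x.2 := by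
  classical
  letI : MetricSpace (ℕ → Bool) := TopologicalSpace.metrizableSpaceMetric _
  refine exists_extension (F := fun x y => Ev x.1 y.1 ∧ y.2 = x.2)
    (fun x => ⟨Ev.equivalence.refl _, rfl⟩) hA hγ hinj
    (fun u v => (Continuous u ∧ Continuous v ∧ ∀ a ∈ A, u a = v (γ a) ∧ u a ≠ 0) ∧
      ∀ w l, coin {z | u (z, w) = l} = coin {z | v (z, w) = l}) (fun u v h => h.1) ?_ ?_
  · exact ⟨⟨continuous_const, continuous_const, fun a _ => ⟨rfl, one_ne_zero⟩⟩,
      fun w l => rfl⟩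
  rintro u v ⟨⟨hu, hv, huv⟩, heq⟩ ε hε
  obtain ⟨U0, V0, hU0, hV0, p1, p2, p3, p4, -, -, p7, p8⟩ := exists_pre hA hγ hinj hu hv huv
    (X0 := ∅) (Y0 := ∅) finite_empty finite_empty (empty_disjoint _) (empty_disjoint _) hε
  have hBc : IsClosed (γ '' A) := (hA.isCompact.image_of_continuousOn hγ).isClosed
  -- shrink every label
  have hshr : ∀ l : ℕ, ∃ P1 Q1 : Set ((ℕ → Bool) × W), IsClopen P1 ∧ IsClopen Q1 ∧
      A ∩ {x | U0 x = l} ⊆ P1 ∧ P1 ⊆ {x | U0 x = l} ∧ γ '' A ∩ {x | V0 x = l} ⊆ Q1 ∧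
      Q1 ⊆ {x | V0 x = l} ∧ ∀ w, coin {z | (z, w) ∈ P1} = coin {z | (z, w) ∈ Q1} := by
    intro l
    have hP : IsClopen {x | U0 x = l} := (isClopen_discrete ({l} : Set ℕ)).preimage hU0
    have hQ : IsClopen {x | V0 x = l} := (isClopen_discrete ({l} : Set ℕ)).preimage hV0
    refine fib_shrink (hA.inter hP.1) (hBc.inter hQ.1) hP hQ inter_subset_right
      inter_subset_right ?_ ?_ ?_ ?_
    · intro w
      have : interior {z | (z, w) ∈ A ∩ {x | U0 x = l}} ⊆ interior {z | (z, w) ∈ A} :=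
        interior_mono fun z hz => hz.1
      rw [hAi w] at this
      exact subset_empty_iff.1 this
    · intro w
      have : interior {z | (z, w) ∈ γ '' A ∩ {x | V0 x = l}} ⊆ interior {z | (z, w) ∈ γ '' A} :=
        interior_mono fun z hz => hz.1
      rw [hBi w] at this
      exact subset_empty_iff.1 this
    · intro w
      have hZ : IsClopen {z | U0 (z, w) = l} :=
        hP.preimage (continuous_id.prodMk continuous_const)
      have := hm w _ hZ
      have e1 : {z | (z, w) ∈ A ∩ {x | U0 x = l}} =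
        {z | (z, w) ∈ A ∧ z ∈ {z | U0 (z, w) = l}} := rfl
      rw [e1, this]
      congr 1
      symm
      ext z'
      constructor
      · rintro ⟨⟨⟨z, w'⟩, ha, he⟩, hV⟩
        have h1 : w = w' := by
          have := hγ2 _ ha
          rw [he] at this
          exact this
        subst h1
        refine ⟨z, ?_, ha, he⟩
        show U0 (z, w) = l
        rw [(p1 _ ha).1, he]; exact hV
      · rintro ⟨z, hz, ha, he⟩
        refine ⟨⟨(z, w), ha, he⟩, ?_⟩
        show V0 (z', w) = l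
        rw [← he, ← (p1 _ ha).1]; exact hz
    · intro w
      constructor
      · rintro ⟨z, ha, hU⟩
        have h2 := hγ2 _ ha
        refine ⟨(γ (z, w)).1, ?_, ?_⟩
        · refine ⟨(z, w), ha, ?_⟩
          exact Prod.ext rfl h2
        · have h3 : ((γ (z, w)).1, w) = γ (z, w) := Prod.ext rfl h2.symm
          rw [h3]
          show V0 (γ (z, w)) = l
          rw [← (p1 _ ha).1]; exact hU
      · rintro ⟨z', ⟨⟨z, w'⟩, ha, he⟩, hV⟩
        have h1 : w = w' := by
          have := hγ2 _ ha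
          rw [he] at this
          exact this
        subst h1
        refine ⟨z, ha, ?_⟩
        show U0 (z, w) = l
        rw [(p1 _ ha).1, he]; exact hV
  choose P1 Q1 hP1 hQ1 hAP1 hP1U hBQ1 hQ1V hPQ using hshr
  -- new labels
  let U : (ℕ → Bool) × W → ℕ := fun x => if x ∈ P1 (U0 x) then U0 x else 0
  let V : (ℕ → Bool) × W → ℕ := fun x => if x ∈ Q1 (V0 x) then V0 x else 0
  have hcont : ∀ (U0 : (ℕ → Bool) × W → ℕ) (P1 : ℕ → Set ((ℕ → Bool) × W)), Continuous U0 →
      (∀ l, IsClopen (P1 l)) → Continuous (fun x => if x ∈ P1 (U0 x) then U0 x else 0) := by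
    intro U0 P1 hU0 hP1
    refine IsLocallyConstant.continuous ?_
    rw [IsLocallyConstant.iff_exists_open]
    intro x
    have hO : IsOpen {y | U0 y = U0 x} := (isOpen_discrete ({U0 x} : Set ℕ)).preimage hU0
    by_cases hx : x ∈ P1 (U0 x)
    · refine ⟨_, hO.inter (hP1 (U0 x)).2, ⟨rfl, hx⟩, ?_⟩
      rintro y ⟨hy1, hy2⟩
      have hy1 : U0 y = U0 x := hy1
      simp only [hy1, hy2, hx, if_true]
    · refine ⟨_, hO.inter (hP1 (U0 x)).1.isOpen_compl, ⟨rfl, hx⟩, ?_⟩
      rintro y ⟨hy1, hy2⟩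
      have hy1 : U0 y = U0 x := hy1
      have hy2 : y ∉ P1 (U0 x) := hy2
      simp only [hy1, hy2, hx, if_false]
  have hU : Continuous U := hcont U0 P1 hU0 hP1
  have hV : Continuous V := hcont V0 Q1 hV0 hQ1
  have hUl : ∀ x l, l ≠ 0 → (U x = l ↔ x ∈ P1 l) := by
    intro x l hl
    constructor
    · intro h
      by_cases hx : x ∈ P1 (U0 x)
      · have : U x = U0 x := if_pos hx
        rw [this] at h
        rw [← h]; exact hx
      · have : U x = 0 := if_neg hx
        rw [this] at h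
        exact (hl h.symm).elim
    · intro h
      have h1 : U0 x = l := hP1U l h
      have hx : x ∈ P1 (U0 x) := by rw [h1]; exact h
      have : U x = U0 x := if_pos hx
      rw [this, h1]
  have hVl : ∀ x l, l ≠ 0 → (V x = l ↔ x ∈ Q1 l) := by
    intro x l hl
    constructor
    · intro h
      by_cases hx : x ∈ Q1 (V0 x)
      · have : V x = V0 x := if_pos hx
        rw [this] at h
        rw [← h]; exact hx
      · have : V x = 0 := if_neg hx
        rw [this] at h
        exact (hl h.symm).elim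
    · intro h
      have h1 : V0 x = l := hQ1V l h
      have hx : x ∈ Q1 (V0 x) := by rw [h1]; exact h
      have : V x = V0 x := if_pos hx
      rw [this, h1]
  have hUU0 : ∀ x, U x ≠ 0 → U0 x = U x := by
    intro x hx
    exact hP1U _ ((hUl x _ hx).1 rfl)
  have hVV0 : ∀ x, V x ≠ 0 → V0 x = V x := by
    intro x hx
    exact hQ1V _ ((hVl x _ hx).1 rfl)
  have hUA : ∀ a ∈ A, U a = U0 a := by
    intro a ha
    exact if_pos (hAP1 _ ⟨ha, rfl⟩)
  have hVA : ∀ a ∈ A, V (γ a) = V0 (γ a) := by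
    intro a ha
    exact if_pos (hBQ1 _ ⟨⟨a, ha, rfl⟩, rfl⟩)
  have q1 : ∀ a ∈ A, U a = V (γ a) ∧ U a ≠ 0 := by
    intro a ha
    rw [hUA a ha, hVA a ha]; exact p1 a ha
  have q4 : ∀ x y, U x = V y → U x ≠ 0 → u x = v y ∧ u x ≠ 0 := by
    intro x y h hx
    refine p4 x y ?_ ?_
    · rw [hUU0 x hx, hVV0 y (by rw [← h]; exact hx), h]
    · rw [hUU0 x hx]; exact hx
  have q7 : ∀ x, U x ≠ 0 → ∃ a ∈ A, U a = U x := by
    intro x hx
    obtain ⟨a, ha, h⟩ := p7 x (by rw [hUU0 x hx]; exact hx)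
    exact ⟨a, ha, by rw [hUA a ha, h, hUU0 x hx]⟩
  have q8 : ∀ y, V y ≠ 0 → ∃ a ∈ A, U a = V y := by
    intro y hy
    obtain ⟨a, ha, h⟩ := p8 y (by rw [hVV0 y hy]; exact hy)
    exact ⟨a, ha, by rw [hUA a ha, h, hVV0 y hy]⟩
  have hmU : ∀ w l, l ≠ 0 → coin {z | U (z, w) = l} = coin {z | V (z, w) = l} := by
    intro w l hl
    have h1 : {z | U (z, w) = l} = {z | (z, w) ∈ P1 l} := by
      ext z; exact hUl _ l hl
    have h2 : {z | V (z, w) = l} = {z | (z, w) ∈ Q1 l} := by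
      ext z; exact hVl _ l hl
    rw [h1, h2]; exact hPQ l w
  -- joint labels
  have hmeas : ∀ (f : (ℕ → Bool) × W → ℕ), Continuous f → ∀ w l,
      MeasurableSet {z | f (z, w) = l} := by
    intro f hf w l
    exact ((isOpen_discrete ({l} : Set ℕ)).preimage
      (hf.comp (continuous_id.prodMk continuous_const))).measurableSet
  have hjoint : ∀ w l' l, l ≠ 0 → coin {z | u (z, w) = l' ∧ U (z, w) = l} =
      coin {z | v (z, w) = l' ∧ V (z, w) = l} := by
    intro w l' l hl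
    by_cases hex : ∃ a ∈ A, U a = l
    · obtain ⟨a, ha, hal⟩ := hex
      have hUu : ∀ x, U x = l → u x = u a := by
        intro x hx
        have h1 := (q4 x (γ a) (by rw [hx, ← (q1 a ha).1, hal]) (by rw [hx]; exact hl)).1
        have h2 := (q4 a (γ a) (q1 a ha).1 (q1 a ha).2).1
        rw [h1, h2]
      have hVv : ∀ y, V y = l → v y = u a := by
        intro y hy
        exact (q4 a y (by rw [hal, hy]) (by rw [hal]; exact hl)).1.symm
      by_cases hl' : u a = l'
      · have h1 : {z | u (z, w) = l' ∧ U (z, w) = l} = {z | U (z, w) = l} := by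
          ext z
          exact ⟨fun h => h.2, fun h => ⟨(hUu _ h).trans hl', h⟩⟩
        have h2 : {z | v (z, w) = l' ∧ V (z, w) = l} = {z | V (z, w) = l} := by
          ext z
          exact ⟨fun h => h.2, fun h => ⟨(hVv _ h).trans hl', h⟩⟩
        rw [h1, h2]; exact hmU w l hl
      · have h1 : {z | u (z, w) = l' ∧ U (z, w) = l} = ∅ := by
          ext z
          exact ⟨fun h => hl' ((hUu _ h.2).symm.trans h.1), fun h => h.elim⟩
        have h2 : {z | v (z, w) = l' ∧ V (z, w) = l} = ∅ := by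
          ext z
          exact ⟨fun h => hl' ((hVv _ h.2).symm.trans h.1), fun h => h.elim⟩
        rw [h1, h2]
    · have h1 : {z | u (z, w) = l' ∧ U (z, w) = l} = ∅ := by
        ext z
        refine ⟨fun h => ?_, fun h => h.elim⟩
        obtain ⟨a, ha, h'⟩ := q7 (z, w) (by rw [h.2]; exact hl)
        exact hex ⟨a, ha, h'.trans h.2⟩
      have h2 : {z | v (z, w) = l' ∧ V (z, w) = l} = ∅ := by
        ext z
        refine ⟨fun h => ?_, fun h => h.elim⟩
        obtain ⟨a, ha, h'⟩ := q8 (z, w) (by rw [h.2]; exact hl)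
        exact hex ⟨a, ha, h'.trans h.2⟩
      rw [h1, h2]
  have hsum : ∀ (f g : (ℕ → Bool) × W → ℕ), Continuous f → Continuous g → ∀ w l',
      coin {z | f (z, w) = l'} = ∑' l, coin {z | f (z, w) = l' ∧ g (z, w) = l} := by
    intro f g hf hg w l'
    have h1 : {z | f (z, w) = l'} = ⋃ l, {z | f (z, w) = l' ∧ g (z, w) = l} := by
      ext z
      simp only [mem_iUnion]
      exact ⟨fun h => ⟨_, h, rfl⟩, fun ⟨_, h, _⟩ => h⟩
    conv_lhs => rw [h1]
    rw [measure_iUnion]
    · intro i j hij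
      exact disjoint_left.2 fun z hz hz' => hij (hz.2.symm.trans hz'.2)
    · intro l
      exact (hmeas f hf w l').inter (hmeas g hg w l)
  have hjoint0 : ∀ w l', coin {z | u (z, w) = l' ∧ U (z, w) = 0} =
      coin {z | v (z, w) = l' ∧ V (z, w) = 0} := by
    intro w l'
    have h1 := hsum u U hu hU w l'
    have h2 := hsum v V hv hV w l'
    rw [tsum_eq_zero_add' ENNReal.summable] at h1 h2
    have h3 : (∑' x, coin {z | u (z, w) = l' ∧ U (z, w) = x + 1}) =
        ∑' x, coin {z | v (z, w) = l' ∧ V (z, w) = x + 1} :=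
      tsum_congr fun x => hjoint w l' (x + 1) (Nat.succ_ne_zero x)
    rw [← h3, ← heq w l', h1] at h2
    have h4 : (∑' x, coin {z | u (z, w) = l' ∧ U (z, w) = x + 1}) ≠ ∞ := by
      intro h5
      rw [h5, add_top] at h1
      exact measure_ne_top _ _ h1
    exact (ENNReal.add_left_inj h4).1 h2
  have hjoint' : ∀ w l' l, coin {z | u (z, w) = l' ∧ U (z, w) = l} =
      coin {z | v (z, w) = l' ∧ V (z, w) = l} := by
    intro w l' l
    by_cases hl : l = 0
    · subst hl; exact hjoint0 w l'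
    · exact hjoint w l' l hl
  have hpc : Continuous (fun x => Nat.pair (u x) (U x)) :=
    (continuous_of_discreteTopology (f := fun q : ℕ × ℕ => Nat.pair q.1 q.2)).comp
      (hu.prodMk hU)
  have hpd : Continuous (fun x => Nat.pair (v x) (V x)) :=
    (continuous_of_discreteTopology (f := fun q : ℕ × ℕ => Nat.pair q.1 q.2)).comp
      (hv.prodMk hV)
  obtain ⟨h, h1, h2⟩ := fib_match hpc hpd (by
    intro w l
    have e : ∀ (f g : (ℕ → Bool) × W → ℕ), {z | Nat.pair (f (z, w)) (g (z, w)) = l} =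
        {z | f (z, w) = (Nat.unpair l).1 ∧ g (z, w) = (Nat.unpair l).2} := by
      intro f g
      ext z
      show Nat.pair _ _ = l ↔ _ = _ ∧ _ = _
      rw [← Nat.pair_eq_pair, Nat.pair_unpair]
    rw [e, e]
    exact hjoint' w _ _)
  refine ⟨U, V, h, ⟨⟨hU, hV, q1⟩, ?_⟩, h1, fun x => (Nat.pair_eq_pair.1 (h2 x)).1,
    fun x => (Nat.pair_eq_pair.1 (h2 x)).2, ?_, ?_, fun x y e hx => (q4 x y e hx).1, ?_, ?_, q7⟩
  · intro w l
    have h3 := hsum U u hU hu w l
    have h4 := hsum V v hV hv w l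
    rw [h3, h4]
    refine tsum_congr fun l' => ?_
    have e1 : {z | U (z, w) = l ∧ u (z, w) = l'} = {z | u (z, w) = l' ∧ U (z, w) = l} := by
      ext z; exact and_comm
    have e2 : {z | V (z, w) = l ∧ v (z, w) = l'} = {z | v (z, w) = l' ∧ V (z, w) = l} := by
      ext z; exact and_comm
    rw [e1, e2]; exact hjoint' w l' l
  · intro x hx
    by_contra hx'
    obtain ⟨a, ha, ha'⟩ := q7 x hx'
    exact (q4 x (γ a) (by rw [← ha', (q1 a ha).1]) hx').2 hx
  · intro y hy
    by_contra hy'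
    obtain ⟨a, ha, ha'⟩ := q8 y hy'
    have := q4 a y ha' (by rw [ha']; exact hy')
    rw [this.1] at this
    exact this.2 hy
  · intro x y hxy hx
    have hy : U y ≠ 0 := by rw [← hxy]; exact hx
    exact p2 x y (by rw [hUU0 x hx, hUU0 y hy, hxy]) (by rw [hUU0 x hx]; exact hx)
  · intro x y hxy hx
    have hy : V y ≠ 0 := by rw [← hxy]; exact hx
    exact p3 x y (by rw [hVV0 x hx, hVV0 y hy, hxy]) (by rw [hVV0 x hx]; exact hx)

end Pool.Agent.Work.MP_97bde0_lc
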