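import Pool.Agent.Work.MP_97bde0_lc.Fib

/-!
# Invariance of the fibre measures under the relation
-/

set_option autoImplicit false

open Set MeasureTheory Topology
open scoped ENNReal

namespace Pool.Agent.Work.MP_97bde0_lc

variable {X : Type*} [MeasurableSpace X] [StandardBorelSpace X] {E : X → X → Prop}
  {Y : Set X} {s w : X → ℕ → Bool} {φ' : (ℕ → Bool) × (ℕ → Bool) → X}

/-- the move given by a permutation of words -/
def mvp (φ' : (ℕ → Bool) × (ℕ → Bool) → X) (s w : X → ℕ → Bool)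
    (π : Σ n : ℕ, Equiv.Perm (Fin n → Bool)) (x : X) : X :=
  φ' (permHomeo π.1 π.2 (s x), w x)

omit [StandardBorelSpace X] in
theorem measurable_mvp (C : Cod E Y s w) (hφ' : Measurable φ')
    (π : Σ n : ℕ, Equiv.Perm (Fin n → Bool)) : Measurable (mvp φ' s w π) :=
  hφ'.comp (((permHomeo π.1 π.2).continuous.measurable.comp C.ms).prodMk C.mw)

omit [StandardBorelSpace X] in
theorem mvp_spec (C : Cod E Y s w) (hφ : ∀ x ∈ Y, φ' (s x, w x) = x)
    (π : Σ n : ℕ, Equiv.Perm (Fin n → Bool)) {x : X} (hx : x ∈ Y) :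
    mvp φ' s w π x ∈ Y ∧ E x (mvp φ' s w π x) ∧ s (mvp φ' s w π x) = permHomeo π.1 π.2 (s x) ∧
      w (mvp φ' s w π x) = w x := by
  obtain ⟨y, hy, hxy, hsy⟩ := C.mv x hx _ (permHomeo_ev π.1 π.2 (s x))
  have hwy : w x = w y := C.wE x y hxy
  have h1 : mvp φ' s w π x = y := by
    rw [mvp, ← hsy, hwy]; exact hφ y hy
  rw [h1]
  exact ⟨hy, hxy, hsy, hwy.symm⟩

omit [StandardBorelSpace X] in
theorem mvp_inj (C : Cod E Y s w) (hφ : ∀ x ∈ Y, φ' (s x, w x) = x)
    (π : Σ n : ℕ, Equiv.Perm (Fin n → Bool)) : InjOn (mvp φ' s w π) Y := by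
  intro x hx y hy h
  obtain ⟨-, -, h1, h2⟩ := mvp_spec C hφ π hx
  obtain ⟨-, -, h3, h4⟩ := mvp_spec C hφ π hy
  rw [h] at h1 h2
  exact C.inj x hx y hy ((permHomeo π.1 π.2).injective (h1.symm.trans h3)) (h2.symm.trans h4)

theorem fm_mvp (C : Cod E Y s w) (hφ' : Measurable φ') (hφ : ∀ x ∈ Y, φ' (s x, w x) = x)
    (π : Σ n : ℕ, Equiv.Perm (Fin n → Bool)) {A : Set X} (hA : MeasurableSet A) (hAY : A ⊆ Y)
    (v : ℕ → Bool) : fm φ' (im s w Y) v (mvp φ' s w π '' A) = fm φ' (im s w Y) v A := by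
  have h1 : MeasurableSet (mvp φ' s w π '' A) :=
    hA.image_of_measurable_injOn (measurable_mvp C hφ' π) ((mvp_inj C hφ π).mono hAY)
  have h2 : mvp φ' s w π '' A ⊆ Y := by
    rintro _ ⟨x, hx, rfl⟩; exact (mvp_spec C hφ π (hAY hx)).1
  rw [fm_apply C hφ' hφ h1 h2, fm_apply C hφ' hφ hA hAY,
    ← coin_perm_image π.1 π.2 (C.measurable_fb hA hAY v)]
  congr 1
  ext z
  constructor
  · rintro ⟨_, ⟨x, hx, rfl⟩, hxz⟩
    obtain ⟨-, -, h3, h4⟩ := mvp_spec C hφ π (hAY hx)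
    refine ⟨s x, ⟨x, hx, ?_⟩, ?_⟩
    · have := congrArg Prod.snd hxz
      simp only at this
      rw [← this, h4]
    · rw [← h3]; exact congrArg Prod.fst hxz
  · rintro ⟨_, ⟨x, hx, hxz⟩, rfl⟩
    obtain ⟨-, -, h3, h4⟩ := mvp_spec C hφ π (hAY hx)
    refine ⟨_, ⟨x, hx, rfl⟩, ?_⟩
    have h5 : s x = _ := congrArg Prod.fst hxz
    have h6 : w x = v := congrArg Prod.snd hxz
    show (s _, w _) = (_, v)
    rw [h3, h4, h5, h6]

/-- greedy matching of `P` into `Q` by moves -/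
theorem exists_bip [Nonempty X] (C : Cod E Y s w) (hφ' : Measurable φ')
    (hφ : ∀ x ∈ Y, φ' (s x, w x) = x) {P Q : Set X} (hP : MeasurableSet P) (hPY : P ⊆ Y)
    (hQ : MeasurableSet Q) (hQY : Q ⊆ Y) :
    ∃ (P' : Set X) (θ : X → X), MeasurableSet P' ∧ P' ⊆ P ∧ Measurable θ ∧ InjOn θ P' ∧
      (∀ x ∈ P', θ x ∈ Q ∧ E x (θ x)) ∧ MeasurableSet (θ '' P') ∧
      (∀ v, fm φ' (im s w Y) v (θ '' P') = fm φ' (im s w Y) v P') ∧
      (∀ x ∈ P, x ∉ P' → ∀ y ∈ Q, y ∉ θ '' P' → Ev (s x) (s y) → w x ≠ w y) := by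
  obtain ⟨e, he⟩ := exists_surjective_nat (Σ n : ℕ, Equiv.Perm (Fin n → Bool))
  let r : ℕ → X → X := fun i => mvp φ' s w (e i)
  have hrm : ∀ i, Measurable (r i) := fun i => measurable_mvp C hφ' _
  have hri : ∀ i, InjOn (r i) Y := fun i => mvp_inj C hφ _
  let A : ℕ → Set X × Set X → Set X := fun i p => p.1 ∩ r i ⁻¹' p.2
  let S : ℕ → Set X × Set X := fun n => Nat.rec (P, Q)
    (fun i p => (p.1 \ A i p, p.2 \ r i '' A i p)) n
  have hS0 : S 0 = (P, Q) := rfl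
  have hSs : ∀ i, S (i + 1) = ((S i).1 \ A i (S i), (S i).2 \ r i '' A i (S i)) := fun i => rfl
  have hSanti : ∀ i j, i ≤ j → (S j).1 ⊆ (S i).1 ∧ (S j).2 ⊆ (S i).2 := by
    intro i j hij
    induction j, hij using Nat.le_induction with
    | base => exact ⟨subset_rfl, subset_rfl⟩
    | succ j _ ih =>
      rw [hSs]
      exact ⟨sdiff_subset.trans ih.1, sdiff_subset.trans ih.2⟩
  have hSP : ∀ i, (S i).1 ⊆ P := fun i => (hSanti 0 i (Nat.zero_le _)).1
  have hSQ : ∀ i, (S i).2 ⊆ Q := fun i => (hSanti 0 i (Nat.zero_le _)).2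
  have hAY : ∀ i, A i (S i) ⊆ Y := fun i => (inter_subset_left.trans (hSP i)).trans hPY
  have hm : ∀ i, MeasurableSet (S i).1 ∧ MeasurableSet (S i).2 := by
    intro i
    induction i with
    | zero => exact ⟨hP, hQ⟩
    | succ i ih =>
      have hA : MeasurableSet (A i (S i)) := ih.1.inter (hrm i ih.2)
      rw [hSs]
      exact ⟨ih.1.diff hA, ih.2.diff
        (hA.image_of_measurable_injOn (hrm i) ((hri i).mono (hAY i)))⟩
  have hAm : ∀ i, MeasurableSet (A i (S i)) := fun i => (hm i).1.inter (hrm i (hm i).2)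
  have hrAm : ∀ i, MeasurableSet (r i '' A i (S i)) := fun i =>
    (hAm i).image_of_measurable_injOn (hrm i) ((hri i).mono (hAY i))
  obtain ⟨θ, ix, hθ, -, hix⟩ := exists_glue (fun i => A i (S i)) hAm r hrm
  have hdisj : ∀ i j, i < j → ∀ x ∈ A j (S j), x ∉ A i (S i) := by
    intro i j hij x hx hx'
    have h1 : x ∈ (S (i + 1)).1 := (hSanti (i + 1) j hij).1 hx.1
    rw [hSs] at h1
    exact h1.2 hx'
  have hdisj' : ∀ i j, i < j → ∀ y ∈ r j '' A j (S j), y ∉ r i '' A i (S i) := by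
    rintro i j hij _ ⟨x, hx, rfl⟩ hx'
    have h1 : r j x ∈ (S (i + 1)).2 := (hSanti (i + 1) j hij).2 hx.2
    rw [hSs] at h1
    exact h1.2 hx'
  have hθA : ∀ i, ∀ x ∈ A i (S i), θ x = r i x := by
    intro i x hx
    obtain ⟨h1, h2, h3⟩ := hix x (mem_iUnion.2 ⟨i, hx⟩)
    have : ix x = i := by
      rcases lt_trichotomy (ix x) i with h4 | h4 | h4
      · exact (hdisj _ _ h4 x hx h1).elim
      · exact h4
      · exact (hdisj _ _ h4 x h1 hx).elim
    rw [h2, this]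
  let P' : Set X := ⋃ i, A i (S i)
  have hθP : θ '' P' = ⋃ i, r i '' A i (S i) := by
    show θ '' (⋃ i, A i (S i)) = _
    rw [image_iUnion]
    exact iUnion_congr fun i => image_congr (hθA i)
  have hspec := fun i x (hx : x ∈ A i (S i)) => mvp_spec C hφ (e i) (hAY i hx)
  refine ⟨P', θ, MeasurableSet.iUnion hAm, iUnion_subset fun i =>
    inter_subset_left.trans (hSP i), hθ, ?_, ?_, ?_, ?_, ?_⟩
  · intro x hx y hy hxy
    obtain ⟨i, hi⟩ := mem_iUnion.1 hx
    obtain ⟨j, hj⟩ := mem_iUnion.1 hy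
    rw [hθA i x hi, hθA j y hj] at hxy
    rcases lt_trichotomy i j with h4 | h4 | h4
    · exact (hdisj' i j h4 (r j y) ⟨y, hj, rfl⟩ ⟨x, hi, hxy⟩).elim
    · subst h4
      exact hri i (hAY i hi) (hAY i hj) hxy
    · exact (hdisj' j i h4 (r i x) ⟨x, hi, rfl⟩ ⟨y, hj, hxy.symm⟩).elim
  · intro x hx
    obtain ⟨i, hi⟩ := mem_iUnion.1 hx
    rw [hθA i x hi]
    exact ⟨hSQ i hi.2, (hspec i x hi).2.1⟩
  · rw [hθP]; exact MeasurableSet.iUnion hrAm
  · intro v
    rw [hθP, measure_iUnion _ hrAm, measure_iUnion _ hAm]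
    · exact tsum_congr fun i => fm_mvp C hφ' hφ (e i) (hAm i) (hAY i) v
    · intro i j hij
      rcases lt_or_gt_of_ne hij with h4 | h4
      · exact disjoint_left.2 fun x hx hx' => hdisj i j h4 x hx' hx
      · exact disjoint_left.2 fun x hx hx' => hdisj j i h4 x hx hx'
    · intro i j hij
      rcases lt_or_gt_of_ne hij with h4 | h4
      · exact disjoint_left.2 fun x hx hx' => hdisj' i j h4 x hx' hx
      · exact disjoint_left.2 fun x hx hx' => hdisj' j i h4 x hx hx'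
  · intro x hx hxP y hy hyP hev hw
    have h1 : ∀ i, x ∈ (S i).1 := by
      intro i
      induction i with
      | zero => exact hx
      | succ i ih =>
        rw [hSs]
        exact ⟨ih, fun h => hxP (mem_iUnion.2 ⟨i, h⟩)⟩
    have h2 : ∀ i, y ∈ (S i).2 := by
      intro i
      induction i with
      | zero => exact hy
      | succ i ih =>
        rw [hSs]
        refine ⟨ih, fun h => hyP ?_⟩
        rw [hθP]
        exact mem_iUnion.2 ⟨i, h⟩
    obtain ⟨n, π, hπ⟩ := exists_perm_of_ev hev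
    obtain ⟨i, hi⟩ := he ⟨n, π⟩
    obtain ⟨h3, h4, h5, h6⟩ := mvp_spec C hφ (e i) (hPY hx)
    have h7 : r i x = y := by
      refine C.inj _ h3 y (hQY hy) ?_ (h6.trans hw)
      rw [h5, hi]; exact hπ
    apply hxP
    refine mem_iUnion.2 ⟨i, h1 i, ?_⟩
    show r i x ∈ (S i).2
    rw [h7]; exact h2 i

/-- unmatched parts: one of them is null in each fibre -/
theorem fm_unmatched (C : Cod E Y s w) (hφ' : Measurable φ')
    (hφ : ∀ x ∈ Y, φ' (s x, w x) = x) {P Q : Set X} (hP : MeasurableSet P) (hPY : P ⊆ Y)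
    (hQ : MeasurableSet Q) (hQY : Q ⊆ Y)
    (hPQ : ∀ x ∈ P, ∀ y ∈ Q, Ev (s x) (s y) → w x ≠ w y) (v : ℕ → Bool) :
    fm φ' (im s w Y) v P = 0 ∨ fm φ' (im s w Y) v Q = 0 := by
  rw [fm_apply C hφ' hφ hP hPY, fm_apply C hφ' hφ hQ hQY]
  -- saturations
  let sa : Set (ℕ → Bool) → Set (ℕ → Bool) := fun A =>
    ⋃ π : Σ n : ℕ, Equiv.Perm (Fin n → Bool), permHomeo π.1 π.2 ⁻¹' A
  have hsa : ∀ A, MeasurableSet A → MeasurableSet (sa A) := fun A hA =>
    MeasurableSet.iUnion fun π => (permHomeo π.1 π.2).continuous.measurable hA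
  have hmem : ∀ A z, z ∈ sa A ↔ ∃ z' ∈ A, Ev z z' := by
    intro A z
    constructor
    · intro hz
      obtain ⟨π, hπ⟩ := mem_iUnion.1 hz
      exact ⟨_, hπ, permHomeo_ev _ _ _⟩
    · rintro ⟨z', hz', hev⟩
      obtain ⟨n, π, hπ⟩ := exists_perm_of_ev hev
      refine mem_iUnion.2 ⟨⟨n, π⟩, ?_⟩
      show permHomeo n π z ∈ A
      rw [hπ]; exact hz'
  have hsub : ∀ A, A ⊆ sa A := fun A z hz => (hmem A z).2 ⟨z, hz, Ev.equivalence.refl z⟩
  have h01 : ∀ A, MeasurableSet A → coin A = 0 ∨ coin (sa A) = 1 := by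
    intro A hA
    rcases coin_zero_one (hsa A hA) (by
      intro x y hxy hx
      obtain ⟨z, hz, hxz⟩ := (hmem A x).1 hx
      exact (hmem A y).2 ⟨z, hz, Ev.equivalence.trans (Ev.equivalence.symm hxy) hxz⟩) with h | h
    · left; exact measure_mono_null (hsub A) h
    · right; exact h
  have hPm := C.measurable_fb hP hPY v
  have hQm := C.measurable_fb hQ hQY v
  rcases h01 _ hPm with h1 | h1
  · left; exact h1
  rcases h01 _ hQm with h2 | h2
  · right; exact h2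
  exfalso
  have hd : Disjoint (sa (fb s w P v)) (sa (fb s w Q v)) := by
    rw [Set.disjoint_left]
    intro z hz hz'
    obtain ⟨z1, ⟨x, hx, hxz⟩, h3⟩ := (hmem _ _).1 hz
    obtain ⟨z2, ⟨y, hy, hyz⟩, h4⟩ := (hmem _ _).1 hz'
    have e1 : s x = z1 := congrArg Prod.fst hxz
    have e2 : w x = v := congrArg Prod.snd hxz
    have e3 : s y = z2 := congrArg Prod.fst hyz
    have e4 : w y = v := congrArg Prod.snd hyz
    refine hPQ x hx y hy ?_ (e2.trans e4.symm)
    rw [e1, e3]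
    exact Ev.equivalence.trans (Ev.equivalence.symm h3) h4
  have h5 : coin (sa (fb s w P v) ∪ sa (fb s w Q v)) = 2 := by
    rw [measure_union hd (hsa _ hQm), h1, h2]; norm_num
  have h6 : coin (sa (fb s w P v) ∪ sa (fb s w Q v)) ≤ 1 := prob_le_one
  rw [h5] at h6
  exact absurd h6 (by norm_num)

variable {μ : Measure X} [IsFiniteMeasure μ]

/-- comparison lemma -/
theorem fm_comparison [Nonempty X] (C : Cod E Y s w) (hE : Equivalence E) (F : FM E)
    (hφ' : Measurable φ')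
    (hφ : ∀ x ∈ Y, φ' (s x, w x) = x)
    (hfin : ∀ B, MeasurableSet B → B ⊆ Y → Copies E B → μ (sat E B) = 0)
    {P Q : Set X} (hP : MeasurableSet P) (hPY : P ⊆ Y) (hQ : MeasurableSet Q) (hQY : Q ⊆ Y)
    {τ : X → X} (hτ : Measurable τ) (hτi : InjOn τ Q) (hτP : ∀ x ∈ Q, τ x ∈ P ∧ E x (τ x)) :
    ∀ᵐ v ∂((μ.restrict Y).map w), fm φ' (im s w Y) v Q ≤ fm φ' (im s w Y) v P := by
  let m := fm φ' (im s w Y)
  let V : Set (ℕ → Bool) := {v | m v P < m v Q}
  have hV : MeasurableSet V :=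
    measurableSet_lt (measurable_fm C hφ' hφ hP hPY) (measurable_fm C hφ' hφ hQ hQY)
  let P1 : Set X := P ∩ w ⁻¹' V
  let Q1 : Set X := Q ∩ w ⁻¹' V
  have hP1 : MeasurableSet P1 := hP.inter (C.mw hV)
  have hQ1 : MeasurableSet Q1 := hQ.inter (C.mw hV)
  have hP1Y : P1 ⊆ Y := inter_subset_left.trans hPY
  have hQ1Y : Q1 ⊆ Y := inter_subset_left.trans hQY
  obtain ⟨P', θ, k1, k2, k3, k4, k5, k6, k7, k8⟩ := exists_bip C hφ' hφ hP1 hP1Y hQ1 hQ1Y
  let Pu : Set X := P1 \ P'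
  let Qu : Set X := Q1 \ θ '' P'
  have hPu : MeasurableSet Pu := hP1.diff k1
  have hQu : MeasurableSet Qu := hQ1.diff k6
  have hPuY : Pu ⊆ Y := sdiff_subset.trans hP1Y
  have hQuY : Qu ⊆ Y := sdiff_subset.trans hQ1Y
  have hor := fm_unmatched C hφ' hφ hPu hPuY hQu hQuY
    (fun x hx y hy h => k8 x hx.1 hx.2 y hy.1 hy.2 h)
  -- fibres over `V`
  have hover : ∀ {B : Set X}, MeasurableSet B → B ⊆ Y → ∀ v ∈ V, m v (B ∩ w ⁻¹' V) = m v B := by
    intro B hB hBY v hv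
    show fm φ' (im s w Y) v _ = fm φ' (im s w Y) v _
    rw [fm_apply C hφ' hφ (hB.inter (C.mw hV)) (inter_subset_left.trans hBY),
      fm_apply C hφ' hφ hB hBY]
    congr 1
    ext z
    constructor
    · rintro ⟨x, hx, hxz⟩; exact ⟨x, hx.1, hxz⟩
    · rintro ⟨x, hx, hxz⟩
      refine ⟨x, ⟨hx, ?_⟩, hxz⟩
      have h4 : w x = v := congrArg Prod.snd hxz
      show w x ∈ V
      rw [h4]; exact hv
  have hsubP : θ '' P' ⊆ Q1 := by rintro _ ⟨x, hx, rfl⟩; exact (k5 x hx).1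
  have hPu0 : ∀ v ∈ V, m v Pu = 0 ∧ m v Qu ≠ 0 := by
    intro v hv
    have h1 : m v Qu ≠ 0 := by
      intro h0
      have h2 : m v Q = m v (θ '' P') := by
        rw [← hover hQ hQY v hv]
        have h3 : Q1 = θ '' P' ∪ Qu := by
          rw [union_sdiff_cancel hsubP]
        show m v Q1 = _
        refine le_antisymm ?_ (measure_mono hsubP)
        calc m v Q1 = m v (θ '' P' ∪ Qu) := by rw [← h3]
          _ ≤ m v (θ '' P') + m v Qu := measure_union_le _ _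
          _ = m v (θ '' P') := by rw [h0, add_zero]
      have h4 : m v Q ≤ m v P := by
        rw [h2]
        show fm φ' (im s w Y) v (θ '' P') ≤ _
        rw [k7]
        exact measure_mono (k2.trans inter_subset_left)
      exact absurd h4 (not_le.2 hv)
    exact ⟨(hor v).resolve_right h1, h1⟩
  have hPu0' : ∀ v, m v Pu = 0 := by
    intro v
    by_cases hv : v ∈ V
    · exact (hPu0 v hv).1
    · show fm φ' (im s w Y) v Pu = 0
      rw [fm_apply C hφ' hφ hPu hPuY]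
      convert measure_empty (μ := coin)
      ext z
      simp only [mem_empty_iff_false, iff_false]
      rintro ⟨x, hx, hxz⟩
      have h4 : w x = v := congrArg Prod.snd hxz
      apply hv
      rw [← h4]; exact hx.1.2
  have hn1 : μ (sat E Pu) = 0 :=
    null_of_fm C hE hφ' hφ hfin hPu hPuY (Filter.Eventually.of_forall hPu0')
  let Y1 : Set X := Y \ sat E Pu
  have hY1m : MeasurableSet Y1 := C.mY.diff (F.measurableSet_sat hPu)
  have hY1i : Inv E Y1 := C.iY.diff hE (inv_sat hE _)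
  let R : Set X := Q1 ∩ Y1
  let g : X → X := θ ∘ τ
  have hgm : Measurable g := k3.comp hτ
  have hτ' : ∀ x ∈ R, τ x ∈ P' ∧ E x (τ x) := by
    intro x hx
    obtain ⟨h1, h2⟩ := hτP x hx.1.1
    have h3 : τ x ∈ P1 := by
      refine ⟨h1, ?_⟩
      show w (τ x) ∈ V
      rw [← C.wE x _ h2]; exact hx.1.2
    refine ⟨?_, h2⟩
    by_contra h4
    exact (hY1i _ _ h2 hx.2).2 (subset_sat hE _ ⟨h3, h4⟩)
  have hgR : ∀ x ∈ R, g x ∈ R ∧ E x (g x) ∧ g x ∉ Qu := by
    intro x hx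
    obtain ⟨h1, h2⟩ := hτ' x hx
    obtain ⟨h3, h4⟩ := k5 _ h1
    have h5 : E x (g x) := hE.trans h2 h4
    exact ⟨⟨h3, hY1i _ _ h5 hx.2⟩, h5, fun h => h.2 ⟨_, h1, rfl⟩⟩
  have hgi : InjOn g R := by
    intro x hx y hy hxy
    have h1 := k4 (hτ' x hx).1 (hτ' y hy).1 hxy
    exact hτi hx.1.1 hy.1.1 h1
  have hit : ∀ n, ∀ x ∈ R, g^[n] x ∈ R ∧ E x (g^[n] x) := by
    intro n
    induction n with
    | zero => intro x hx; exact ⟨hx, hE.refl x⟩
    | succ n ih =>
      intro x hx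
      rw [Function.iterate_succ_apply']
      obtain ⟨h1, h2⟩ := ih x hx
      obtain ⟨h3, h4, -⟩ := hgR _ h1
      exact ⟨h3, hE.trans h2 h4⟩
  have hinj : ∀ m n, ∀ x ∈ R, ∀ y ∈ R, g^[m] x = g^[n] y → m ≤ n → x = g^[n - m] y := by
    intro m
    induction m with
    | zero => intro n x hx y hy h _; exact h
    | succ m ih =>
      intro n x hx y hy h hmn
      obtain ⟨n', rfl⟩ : ∃ n', n = n' + 1 := ⟨n - 1, by omega⟩
      rw [Function.iterate_succ_apply', Function.iterate_succ_apply'] at h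
      have h1 := hgi (hit m x hx).1 (hit n' y hy).1 h
      rw [Nat.succ_sub_succ]
      exact ih n' x hx y hy h1 (by omega)
  let Z : Set X := Qu ∩ Y1
  have hZR : Z ⊆ R := fun x hx => ⟨hx.1.1, hx.2⟩
  have hZm : MeasurableSet Z := hQu.inter hY1m
  have hcopZ : Copies E Z := by
    refine ⟨fun n => g^[n], fun n => hgm.iterate n, fun n x hx => (hit n x (hZR hx)).2, ?_⟩
    have key : ∀ m n, m ≤ n → ∀ x ∈ Z, ∀ y ∈ Z, g^[m] x = g^[n] y → m = n ∧ x = y := by
      intro m n hmn x hx y hy h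
      have h1 := hinj m n x (hZR hx) y (hZR hy) h hmn
      rcases Nat.eq_zero_or_pos (n - m) with h2 | h2
      · rw [h2] at h1
        exact ⟨by omega, h1⟩
      · exfalso
        obtain ⟨d, hd⟩ : ∃ d, n - m = d + 1 := ⟨n - m - 1, by omega⟩
        rw [hd, Function.iterate_succ_apply'] at h1
        have h3 := (hgR _ (hit d y (hZR hy)).1).2.2
        rw [← h1] at h3
        exact h3 hx.1
    intro m n x hx y hy h
    rcases le_total m n with hmn | hmn
    · exact key m n hmn x hx y hy h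
    · obtain ⟨h1, h2⟩ := key n m hmn y hy x hx h.symm
      exact ⟨h1.symm, h2.symm⟩
  have hn2 : μ (sat E Z) = 0 := hfin Z hZm (hZR.trans (inter_subset_left.trans hQ1Y)) hcopZ
  let B : Set X := Y \ (sat E Pu ∪ sat E Z)
  have hBm : MeasurableSet B :=
    C.mY.diff ((F.measurableSet_sat hPu).union (F.measurableSet_sat hZm))
  have hBi : Inv E B := C.iY.diff hE ((inv_sat hE _).union (inv_sat hE _))
  have hBμ : μ (Y \ B) = 0 := by
    refine measure_mono_null ?_ (measure_union_null hn1 hn2)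
    intro x hx
    by_contra h1
    exact hx.2 ⟨hx.1, h1⟩
  have hBfull := fm_conull C hE hφ' hφ hfin hBm sdiff_subset hBi hBμ
  filter_upwards [hBfull] with v hv
  by_contra hlt
  push Not at hlt
  have h1 := (hPu0 v hlt).2
  apply h1
  have h2 : Qu ⊆ Bᶜ := by
    intro x hx hxB
    have h3 : x ∈ Y1 := ⟨hxB.1, fun h => hxB.2 (Or.inl h)⟩
    exact hxB.2 (Or.inr (subset_sat hE _ ⟨hx, h3⟩))
  refine measure_mono_null h2 ?_
  have h4 : m v Bᶜ = m v univ - m v B :=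
    measure_compl hBm (fm_ne_top hφ' v B)
  rw [h4]
  have h5 : m v univ ≤ 1 := fm_univ_le hφ' v
  have h6 : m v B = 1 := hv
  rw [h6]
  exact tsub_eq_zero_of_le h5

theorem fm_invariant [Nonempty X] (C : Cod E Y s w) (hE : Equivalence E) (F : FM E)
    (hφ' : Measurable φ')
    (hφ : ∀ x ∈ Y, φ' (s x, w x) = x)
    (hfin : ∀ B, MeasurableSet B → B ⊆ Y → Copies E B → μ (sat E B) = 0)
    {A : Set X} (hA : MeasurableSet A) (hAY : A ⊆ Y) {f : X → X} (hf : Measurable f)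
    (hfi : InjOn f A) (hfE : ∀ x ∈ A, E x (f x)) :
    ∀ᵐ v ∂((μ.restrict Y).map w), fm φ' (im s w Y) v (f '' A) = fm φ' (im s w Y) v A := by
  have hfA : MeasurableSet (f '' A) := hA.image_of_measurable_injOn hf hfi
  have hfY : f '' A ⊆ Y := by
    rintro _ ⟨x, hx, rfl⟩; exact C.iY _ _ (hfE x hx) (hAY hx)
  obtain ⟨g, hg, hgf⟩ := exists_leftInv hf hA hfi
  have h1 := fm_comparison (μ := μ) C hE F hφ' hφ hfin hfA hfY hA hAY hf hfi
    (fun x hx => ⟨⟨x, hx, rfl⟩, hfE x hx⟩)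
  have h2 := fm_comparison (μ := μ) C hE F hφ' hφ hfin hA hAY hfA hfY hg
    (by
      rintro _ ⟨x, hx, rfl⟩ _ ⟨y, hy, rfl⟩ h
      rw [hgf x hx, hgf y hy] at h
      rw [h])
    (by
      rintro _ ⟨x, hx, rfl⟩
      rw [hgf x hx]
      exact ⟨hx, hE.symm (hfE x hx)⟩)
  filter_upwards [h1, h2] with v hv1 hv2
  exact le_antisymm hv2 hv1

end Pool.Agent.Work.MP_97bde0_lc
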