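import Pool.Agent.Work.MP_97bde0_lc.CompC
import Pool.Agent.Work.MP_97bde0_lc.Fib2
import Pool.Agent.Work.MP_97bde0_lc.ELI

/-!
# Realization of the finite part
-/

set_option autoImplicit false

open Set MeasureTheory Topology
open scoped ENNReal

namespace Pool.Agent.Work.MP_97bde0_lc

theorem exists_disjoint_compacts (ν : Measure (ℕ → Bool)) [IsFiniteMeasure ν]
    {G : Set (ℕ → Bool)} (hG : MeasurableSet G) :
    ∃ W : ℕ → Set (ℕ → Bool), (∀ n, IsCompact (W n)) ∧ (∀ n, W n ⊆ G) ∧
      (∀ m n, m ≠ n → Disjoint (W m) (W n)) ∧ ν (G \ ⋃ n, W n) = 0 := by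
  have hex : ∀ (n : ℕ) (L : Set (ℕ → Bool)), ∃ K : Set (ℕ → Bool), IsCompact L →
      (IsCompact K ∧ K ⊆ G \ L ∧ ν ((G \ L) \ K) < (2⁻¹ : ℝ≥0∞) ^ n) := by
    intro n L
    by_cases hL : IsCompact L
    · have hpos : (2⁻¹ : ℝ≥0∞) ^ n ≠ 0 := (ENNReal.pow_pos (by simp) _).ne'
      obtain ⟨K, h1, h2, h3⟩ := (hG.diff hL.measurableSet).exists_isCompact_diff_lt
        (μ := ν) (measure_ne_top _ _) hpos
      exact ⟨K, fun _ => ⟨h2, h1, h3⟩⟩
    · exact ⟨∅, fun h => (hL h).elim⟩
  choose K hK using hex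
  let L : ℕ → Set (ℕ → Bool) := fun n => Nat.rec ∅ (fun n L => L ∪ K n L) n
  have hLs : ∀ n, L (n + 1) = L n ∪ K n (L n) := fun n => rfl
  have hLc : ∀ n, IsCompact (L n) := by
    intro n
    induction n with
    | zero => exact isCompact_empty
    | succ n ih => rw [hLs]; exact ih.union (hK n _ ih).1
  have hLmono : ∀ m n, m ≤ n → L m ⊆ L n := by
    intro m n hmn
    induction n, hmn using Nat.le_induction with
    | base => exact subset_rfl
    | succ n _ ih => rw [hLs]; exact ih.trans subset_union_left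
  have hdis : ∀ m n, m < n → Disjoint (K m (L m)) (K n (L n)) := by
    intro m n hmn
    rw [Set.disjoint_left]
    intro x hx hx'
    have h1 : x ∈ L n := hLmono (m + 1) n hmn (by rw [hLs]; exact Or.inr hx)
    exact ((hK n _ (hLc n)).2.1 hx').2 h1
  refine ⟨fun n => K n (L n), fun n => (hK n _ (hLc n)).1,
    fun n => (hK n _ (hLc n)).2.1.trans sdiff_subset, ?_, ?_⟩
  · intro m n hmn
    rcases lt_or_gt_of_ne hmn with h | h
    · exact hdis m n h
    · exact (hdis n m h).symm
  · have hLU : ∀ n, L n ⊆ ⋃ n, K n (L n) := by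
      intro n
      induction n with
      | zero => exact empty_subset _
      | succ n ih =>
        rw [hLs]
        exact union_subset ih (subset_iUnion (fun n => K n (L n)) n)
    have h1 : ∀ n, ν (G \ ⋃ n, K n (L n)) ≤ (2⁻¹ : ℝ≥0∞) ^ n := by
      intro n
      refine (measure_mono ?_).trans (hK n _ (hLc n)).2.2.le
      rintro x ⟨hx1, hx2⟩
      exact ⟨⟨hx1, fun h => hx2 (hLU n h)⟩, fun h => hx2 (mem_iUnion.2 ⟨n, h⟩)⟩
    have h2 : Filter.Tendsto (fun n : ℕ => (2⁻¹ : ℝ≥0∞) ^ n) Filter.atTop (𝓝 0) :=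
      ENNReal.tendsto_pow_atTop_nhds_zero_of_lt_one (by
        rw [ENNReal.inv_lt_one]; norm_num)
    exact le_antisymm (ge_of_tendsto' h2 h1) (by simp)

/-- the limit point of the sets `preN n '' W` -/
def ones : ℕ → Bool := fun _ => true

theorem preN_ne_ones (n : ℕ) (z : ℕ → Bool) : preN n z ≠ ones := by
  intro h
  have := congrFun h n
  simp [preN, ones] at this

theorem isClosed_bouquet {W : ℕ → Set (ℕ → Bool)} (hW : ∀ n, IsCompact (W n)) :
    IsClosed ({ones} ∪ ⋃ n, preN n '' W n) := by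
  rw [← isOpen_compl_iff, isOpen_iff_forall_mem_open]
  intro z hz
  have h1 : z ≠ ones := fun h => hz (Or.inl h)
  have h2 : ∃ n, z n = false := by
    by_contra hcon
    push Not at hcon
    apply h1
    funext n
    have := hcon n
    show z n = true
    simpa using this
  classical
  let n := Nat.find h2
  have hn : z n = false := Nat.find_spec h2
  have hn' : ∀ i < n, z i = true := fun i hi => by
    have := Nat.find_min h2 hi
    simpa using this
  have hcl : IsClosed (preN n '' W n) := ((hW n).image (continuous_preN n)).isClosed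
  refine ⟨cyl (n + 1) z ∩ (preN n '' W n)ᶜ, ?_, (isClopen_cyl _ _).2.inter hcl.isOpen_compl,
    mem_cyl_self _ _, fun h => hz (Or.inr (mem_iUnion.2 ⟨n, h⟩))⟩
  rintro x ⟨hx1, hx2⟩ (hx3 | hx3)
  · have h3 := hx1 n (by omega)
    rw [hn, hx3] at h3
    exact absurd h3 (by simp [ones])
  · obtain ⟨m, u, hu, rfl⟩ := mem_iUnion.1 hx3
    rcases lt_trichotomy m n with h | h | h
    · have h3 := hx1 m (by omega)
      rw [hn' m h] at h3
      simp [preN] at h3
    · subst h
      exact hx2 ⟨u, hu, rfl⟩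
    · have h3 := hx1 n (by omega)
      rw [hn] at h3
      simp [preN, h] at h3

theorem continuousOn_of_comp {P K L : Type*} [TopologicalSpace P] [TopologicalSpace K]
    [T2Space K] [TopologicalSpace L] {C : Set P} (hC : IsCompact C) {a : P → K}
    (ha : ContinuousOn a C) {b : P → L} (hb : ContinuousOn b C) {γ : K → L}
    (hγ : ∀ p ∈ C, γ (a p) = b p) : ContinuousOn γ (a '' C) := by
  rw [continuousOn_iff_isClosed]
  intro T hT
  obtain ⟨U, hU, hUC⟩ := (continuousOn_iff_isClosed.1 hb) T hT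
  have h1 : IsCompact (C ∩ U) := hC.inter_right hU
  have h2 : IsCompact (a '' (C ∩ U)) := h1.image_of_continuousOn (ha.mono inter_subset_left)
  refine ⟨_, h2.isClosed, ?_⟩
  ext k
  constructor
  · rintro ⟨hk1, p, hp, rfl⟩
    have h3 : b p ∈ T := by rw [← hγ p hp]; exact hk1
    have h4 : p ∈ U ∩ C := by rw [← hUC]; exact ⟨h3, hp⟩
    exact ⟨⟨p, ⟨hp, h4.1⟩, rfl⟩, ⟨p, hp, rfl⟩⟩
  · rintro ⟨⟨p, ⟨hp, hpU⟩, rfl⟩, hk⟩
    refine ⟨?_, hk⟩
    have h4 : p ∈ b ⁻¹' T ∩ C := by rw [hUC]; exact ⟨hpU, hp⟩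
    show γ (a p) ∈ T
    rw [hγ p hp]; exact h4.1

/-- closed pieces of the base -/
def piece (w0 : ℕ → Bool) (W : ℕ → Set (ℕ → Bool)) : Option ℕ → Set (ℕ → Bool)
  | none => {w0}
  | some n => W n

/-- the maps on the pieces -/
def pmap : Option ℕ → (ℕ → Bool) → (ℕ → Bool)
  | none => fun _ => ones
  | some n => preN n

theorem isCompact_piece {w0 : ℕ → Bool} {W : ℕ → Set (ℕ → Bool)} (hW : ∀ n, IsCompact (W n))
    (p : Option ℕ) : IsCompact (piece w0 W p) := by
  cases p with
  | none => exact isCompact_singleton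
  | some n => exact hW n

theorem continuous_pmap (p : Option ℕ) : Continuous (pmap p) := by
  cases p with
  | none => exact continuous_const
  | some n => exact continuous_preN n

theorem pmap_inj {w0 : ℕ → Bool} {W : ℕ → Set (ℕ → Bool)} {p q : Option ℕ} {v v' : ℕ → Bool}
    (hv : v ∈ piece w0 W p) (hv' : v' ∈ piece w0 W q) (h : pmap p v = pmap q v') :
    p = q ∧ v = v' := by
  cases p with
  | none =>
    cases q with
    | none =>
      have h1 : v = w0 := hv
      have h2 : v' = w0 := hv'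
      exact ⟨rfl, by rw [h1, h2]⟩
    | some n => exact (preN_ne_ones n v' h.symm).elim
  | some m =>
    cases q with
    | none => exact (preN_ne_ones m v h).elim
    | some n =>
      obtain ⟨h1, h2⟩ := preN_inj h
      exact ⟨by rw [h1], h2⟩

theorem exists_ev_zero {O : Set (ℕ → Bool)} (hO : IsOpen O) (hne : O.Nonempty) :
    ∃ z ∈ O, Ev z (fun _ => false) := by
  obtain ⟨z, hz⟩ := hne
  obtain ⟨N, hN⟩ := exists_cyl_subset hO hz
  refine ⟨joinN N (takeN N z) (fun _ => false), hN N le_rfl ?_, N, fun m hm => ?_⟩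
  · rw [mem_cyl_iff, takeN_joinN]
  · have : ¬ m < N := by omega
    simp [joinN, this]

end Pool.Agent.Work.MP_97bde0_lc
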