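import Pool.Agent.Work.MP_97bde0_lc.CompI

/-!
# Realization of the finite part: the construction
-/

set_option autoImplicit false

open Set MeasureTheory Topology
open scoped ENNReal

namespace Pool.Agent.Work.MP_97bde0_lc

section

variable {X : Type} [MeasurableSpace X] [StandardBorelSpace X] {E : X → X → Prop}
  {Y : Set X} {s w : X → ℕ → Bool} {φ' : (ℕ → Bool) × (ℕ → Bool) → X}
  {μ : Measure X} [IsFiniteMeasure μ]

/-- the pieces used in the construction -/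
def Bz (F : FM E) (Cn : ℕ → Set X) (s : X → ℕ → Bool) (n k l : ℕ) (Z : Set (ℕ → Bool)) : Set X :=
  (Cn n ∩ (F.D k ∩ F.D l)) ∩ {x | s (F.ρ k x) ∈ Z}

theorem exists_good [Nonempty X] (C : Cod E Y s w) (hE : Equivalence E) (F : FM E)
    (hφ' : Measurable φ') (hφ : ∀ x ∈ Y, φ' (s x, w x) = x)
    (hfin : ∀ B, MeasurableSet B → B ⊆ Y → Copies E B → μ (sat E B) = 0)
    {Cn : ℕ → Set X} (hCY : ∀ n, Cn n ⊆ Y) (hCm : ∀ n, MeasurableSet (Cn n))
    (hCμ : μ (Y \ ⋃ n, Cn n) = 0) :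
    ∃ G : Set (ℕ → Bool), MeasurableSet G ∧ ((μ.restrict Y).map w) Gᶜ = 0 ∧
      (∀ v ∈ G, coin (fb s w (sat E (⋃ n, Cn n)) v) = 1) ∧
      ∀ v ∈ G, ∀ n k l Z, IsClopen Z → coin (fb s w (F.ρ k '' Bz F Cn s n k l Z) v) =
        coin (fb s w (F.ρ l '' Bz F Cn s n k l Z) v) := by
  let ν : Measure (ℕ → Bool) := (μ.restrict Y).map w
  let m := fm φ' (im s w Y)
  let YI : Set X := sat E (⋃ n, Cn n)
  have hYIm : MeasurableSet YI := F.measurableSet_sat (MeasurableSet.iUnion hCm)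
  have hYIY : YI ⊆ Y := C.iY.sat_subset hE (iUnion_subset hCY)
  have hYIμ : μ (Y \ YI) = 0 := measure_mono_null
    (sdiff_subset_sdiff_right (subset_sat hE _)) hCμ
  have h1 : ∀ᵐ v ∂ν, m v YI = 1 :=
    fm_conull C hE hφ' hφ hfin hYIm hYIY (inv_sat hE _) hYIμ
  let ι := ℕ × ℕ × ℕ × (Σ n : ℕ, Finset (Fin n → Bool))
  let Zc : (Σ n : ℕ, Finset (Fin n → Bool)) → Set (ℕ → Bool) := fun q => {z | takeN q.1 z ∈ q.2}
  have hZc : ∀ q, IsClopen (Zc q) := fun q => isClopen_takeN q.1 (q.2 : Set (Fin q.1 → Bool))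
  have hBm : ∀ n k l Z, IsClopen Z → MeasurableSet (Bz F Cn s n k l Z) := fun n k l Z hZ =>
    ((hCm n).inter ((F.mD k).inter (F.mD l))).inter
      ((C.ms.comp (F.mρ k)) hZ.1.measurableSet)
  have hBY : ∀ n k l Z, Bz F Cn s n k l Z ⊆ Y := fun n k l Z x hx => hCY n hx.1.1
  have himk : ∀ n k l Z, IsClopen Z → MeasurableSet (F.ρ k '' Bz F Cn s n k l Z) ∧
      F.ρ k '' Bz F Cn s n k l Z ⊆ Y := fun n k l Z hZ =>
    ⟨(hBm n k l Z hZ).image_of_measurable_injOn (F.mρ k)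
      ((F.inj k).mono fun x hx => hx.1.2.1), by
        rintro _ ⟨x, hx, rfl⟩
        exact C.iY _ _ (F.rel k x hx.1.2.1) (hCY n hx.1.1)⟩
  have himl : ∀ n k l Z, IsClopen Z → MeasurableSet (F.ρ l '' Bz F Cn s n k l Z) ∧
      F.ρ l '' Bz F Cn s n k l Z ⊆ Y := fun n k l Z hZ =>
    ⟨(hBm n k l Z hZ).image_of_measurable_injOn (F.mρ l)
      ((F.inj l).mono fun x hx => hx.1.2.2), by
        rintro _ ⟨x, hx, rfl⟩
        exact C.iY _ _ (F.rel l x hx.1.2.2) (hCY n hx.1.1)⟩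
  have h2 : ∀ᵐ v ∂ν, ∀ q : ι, m v (F.ρ q.2.1 '' Bz F Cn s q.1 q.2.1 q.2.2.1 (Zc q.2.2.2)) =
      m v (F.ρ q.2.2.1 '' Bz F Cn s q.1 q.2.1 q.2.2.1 (Zc q.2.2.2)) := by
    rw [ae_all_iff]
    rintro ⟨n, k, l, z⟩
    have hB := hBm n k l (Zc z) (hZc z)
    have e1 := fm_invariant (μ := μ) C hE F hφ' hφ hfin hB (hBY _ _ _ _) (F.mρ k)
      ((F.inj k).mono fun x hx => hx.1.2.1) (fun x hx => F.rel k x hx.1.2.1)
    have e2 := fm_invariant (μ := μ) C hE F hφ' hφ hfin hB (hBY _ _ _ _) (F.mρ l)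
      ((F.inj l).mono fun x hx => hx.1.2.2) (fun x hx => F.rel l x hx.1.2.2)
    filter_upwards [e1, e2] with v hv1 hv2
    exact hv1.trans hv2.symm
  let G : Set (ℕ → Bool) := {v | m v YI = 1} ∩
    ⋂ q : ι, {v | m v (F.ρ q.2.1 '' Bz F Cn s q.1 q.2.1 q.2.2.1 (Zc q.2.2.2)) =
      m v (F.ρ q.2.2.1 '' Bz F Cn s q.1 q.2.1 q.2.2.1 (Zc q.2.2.2))}
  have hG : MeasurableSet G := by
    refine (measurable_fm C hφ' hφ hYIm hYIY (measurableSet_singleton 1)).inter
      (MeasurableSet.iInter fun q => ?_)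
    exact measurableSet_eq_fun
      (measurable_fm C hφ' hφ (himk _ _ _ _ (hZc _)).1 (himk _ _ _ _ (hZc _)).2)
      (measurable_fm C hφ' hφ (himl _ _ _ _ (hZc _)).1 (himl _ _ _ _ (hZc _)).2)
  refine ⟨G, hG, ?_, ?_, ?_⟩
  · have : ∀ᵐ v ∂ν, v ∈ G := by
      filter_upwards [h1, h2] with v hv1 hv2
      exact ⟨hv1, mem_iInter.2 hv2⟩
    exact this
  · intro v hv
    have := hv.1
    rw [← fm_apply C hφ' hφ hYIm hYIY]; exact this
  · intro v hv n k l Z hZ
    obtain ⟨N, hN⟩ := clopen_level hZ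
    obtain ⟨S, hS⟩ := hN N le_rfl
    have h3 := mem_iInter.1 hv.2 (n, k, l, ⟨N, S⟩)
    have h4 : Zc ⟨N, S⟩ = Z := hS.symm
    simp only [h4] at h3
    have h5 : m v (F.ρ k '' Bz F Cn s n k l Z) = m v (F.ρ l '' Bz F Cn s n k l Z) := h3
    have e1 := fm_apply C hφ' hφ (himk n k l Z hZ).1 (himk n k l Z hZ).2 v
    have e2 := fm_apply C hφ' hφ (himl n k l Z hZ).1 (himl n k l Z hZ).2 v
    rw [← e1, ← e2]
    exact h5

end

theorem real_finite {X : Type} [MeasurableSpace X] [StandardBorelSpace X] [Nonempty X]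
    {E : X → X → Prop} (hE : Equivalence E) (F : FM E) (hap : ∀ x, {y | E x y}.Infinite)
    (μ : Measure X) [IsFiniteMeasure μ]
    {A : Set X} (hA : MeasurableSet A) (hAE : Inv E A)
    (hfinA : ∀ B, MeasurableSet B → B ⊆ A → Copies E B → μ (sat E B) = 0)
    {θ : (ℕ → ℕ) → X} (hθ : Measurable θ) (hθi : Function.Injective θ)
    (hθE : ∀ a b, Ev a b ↔ E (θ a) (θ b)) (hAθ : Disjoint A (sat E (range θ))) :
    ∃ (K : Type) (_ : TopologicalSpace K) (_ : CompactSpace K)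
      (_ : TopologicalSpace.MetrizableSpace K) (_ : MeasurableSpace K) (_ : BorelSpace K)
      (ι : Type) (_ : Countable ι) (H : ι → K ≃ₜ K) (ψ : K → X), Measurable ψ ∧
      Function.Injective ψ ∧ Inv E (range ψ) ∧ range ψ ⊆ A ∪ sat E (range θ) ∧
      μ (A \ range ψ) = 0 ∧ ∀ x y, Orb H x y ↔ E (ψ x) (ψ y) := by
  classical
  obtain ⟨Y, s, w, hYA, hYμ, hYm, hYi, hs, hw, hwE, hinj, hmv, hnz⟩ :=
    exists_coding hE F hap μ hA hAE hfinA
  have C : Cod E Y s w := ⟨hYm, hYi, hs, hw, hwE, hinj, hmv, hnz⟩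
  have hfin : ∀ B, MeasurableSet B → B ⊆ Y → Copies E B → μ (sat E B) = 0 :=
    fun B h1 h2 h3 => hfinA B h1 (h2.trans hYA) h3
  obtain ⟨φ', hφ', hφ⟩ := C.exists_inv
  let κ : X → (ℕ → Bool) × (ℕ → Bool) := fun x => (s x, w x)
  have hκ : Measurable κ := hs.prodMk hw
  obtain ⟨Cn, hCY, hCm, hCc, hCB, hCf, hCμ⟩ := exists_compact_coord_seq μ hκ hYm (κ' := φ') hφ
    (B := fun i => F.D (Nat.unpair i).1 ∩ F.D (Nat.unpair i).2)
    (fun i => (F.mD _).inter (F.mD _)) (f := fun k x => (s (F.ρ k x), w (F.ρ k x)))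
    (fun k => (hs.comp (F.mρ k)).prodMk (hw.comp (F.mρ k)))
  have hCB' : ∀ n k l, IsCompact (κ '' (Cn n ∩ (F.D k ∩ F.D l))) := by
    intro n k l
    have := hCB n (Nat.pair k l)
    simpa only [Nat.unpair_pair] using this
  obtain ⟨G, hGm, hGν, hG1, hG2⟩ := exists_good C hE F hφ' hφ hfin hCY hCm hCμ
  let ν : Measure (ℕ → Bool) := (μ.restrict Y).map w
  have hνf : IsFiniteMeasure ν := Measure.isFiniteMeasure_map _ _
  have hνapp : ∀ V, MeasurableSet V → ν V = μ (w ⁻¹' V ∩ Y) := fun V hV => by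
    show ((μ.restrict Y).map w) V = _
    rw [Measure.map_apply hw hV, Measure.restrict_apply (hw hV)]
  rcases G.eq_empty_or_nonempty with hG0 | ⟨w0, hw0⟩
  · -- the trivial case
    have h1 : μ Y = 0 := by
      have h2 := hνapp univ MeasurableSet.univ
      rw [preimage_univ, univ_inter] at h2
      rw [← h2]
      rw [hG0, compl_empty] at hGν
      exact hGν
    refine ⟨Empty, inferInstance, inferInstance, inferInstance, inferInstance, inferInstance,
      Empty, inferInstance, fun i => i.elim, fun k => k.elim, measurable_of_empty _,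
      fun k => k.elim, ?_, ?_, ?_, fun k => k.elim⟩
    · rintro x y _ ⟨k, -⟩; exact k.elim
    · rintro x ⟨k, -⟩; exact k.elim
    · refine measure_mono_null ?_ (measure_union_null hYμ h1)
      intro x hx
      by_cases hxY : x ∈ Y
      · exact Or.inr hxY
      · exact Or.inl ⟨hx.1, hxY⟩
  -- the base
  have hGm' : MeasurableSet (G \ {w0}) := hGm.diff (measurableSet_singleton w0)
  obtain ⟨Wn, hWc, hWG, hWd, hWν⟩ := exists_disjoint_compacts ν hGm'
  let pc := piece w0 Wn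
  have hpcG : ∀ p, pc p ⊆ G := by
    rintro (_ | n)
    · rintro v hv
      have : v = w0 := hv
      rw [this]; exact hw0
    · exact (hWG n).trans sdiff_subset
  have hpu : ∀ p q v, v ∈ pc p → v ∈ pc q → p = q := by
    rintro (_ | m) (_ | n) v hv hv'
    · rfl
    · exact ((hWG n hv').2 hv).elim
    · exact ((hWG m hv).2 hv').elim
    · by_cases hmn : m = n
      · rw [hmn]
      · exact (disjoint_left.1 (hWd m n hmn) hv hv').elim
  have hpcc : ∀ p, IsCompact (pc p) := isCompact_piece hWc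
  let Wst : Set (ℕ → Bool) := ⋃ p, pc p
  have hWstm : MeasurableSet Wst := MeasurableSet.iUnion fun p => (hpcc p).measurableSet
  have hWstν : ν Wstᶜ = 0 := by
    refine measure_mono_null ?_ (measure_union_null hGν hWν)
    intro v hv
    by_cases hvG : v ∈ G
    · right
      refine ⟨⟨hvG, fun h => hv (mem_iUnion.2 ⟨none, h⟩)⟩, fun h => ?_⟩
      obtain ⟨n, hn⟩ := mem_iUnion.1 h
      exact hv (mem_iUnion.2 ⟨some n, hn⟩)
    · left; exact hvG
  let Wc : Set (ℕ → Bool) := {ones} ∪ ⋃ n, preN n '' Wn n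
  have hWcc : IsClosed Wc := isClosed_bouquet hWc
  have hWcp : ∀ v, v ∈ Wc ↔ ∃ p, ∃ v' ∈ pc p, pmap p v' = v := by
    intro v
    constructor
    · rintro (hv | hv)
      · exact ⟨none, w0, rfl, (show v = ones from hv).symm⟩
      · obtain ⟨n, v', hv', h⟩ := mem_iUnion.1 hv
        exact ⟨some n, v', hv', h⟩
    · rintro ⟨_ | n, v', hv', rfl⟩
      · exact Or.inl rfl
      · exact Or.inr (mem_iUnion.2 ⟨n, v', hv', rfl⟩)
  obtain ⟨g0, i0, hg0, hi0, hgi0⟩ := exists_glue Wn (fun n => (hWc n).measurableSet) preN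
    (fun n => (continuous_preN n).measurable)
  let χ0 : (ℕ → Bool) → (ℕ → Bool) := fun v => if v ∈ ⋃ n, Wn n then g0 v else ones
  have hχ0m : Measurable χ0 :=
    Measurable.ite (MeasurableSet.iUnion fun n => (hWc n).measurableSet) hg0 measurable_const
  have hχ0p : ∀ p, ∀ v ∈ pc p, χ0 v = pmap p v := by
    rintro (_ | n) v hv
    · have h1 : v ∉ ⋃ n, Wn n := by
        intro h
        obtain ⟨n, hn⟩ := mem_iUnion.1 h
        exact (hWG n hn).2 hv
      exact if_neg h1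
    · have h1 : v ∈ ⋃ n, Wn n := mem_iUnion.2 ⟨n, hv⟩
      obtain ⟨h2, h3, -⟩ := hgi0 v h1
      have h4 : i0 v = n := Option.some.inj (hpu (some (i0 v)) (some n) v h2 hv)
      show (if v ∈ ⋃ n, Wn n then g0 v else ones) = _
      rw [if_pos h1, h3, h4]; rfl
  have hχ0W : ∀ v, χ0 v ∈ Wc := by
    intro v
    by_cases h1 : v ∈ ⋃ n, Wn n
    · obtain ⟨n, hn⟩ := mem_iUnion.1 h1
      rw [hχ0p (some n) v hn]
      exact Or.inr (mem_iUnion.2 ⟨n, v, hn, rfl⟩)
    · have : χ0 v = ones := if_neg h1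
      rw [this]; exact Or.inl rfl
  -- the space
  have hWcCompact : CompactSpace Wc := isCompact_iff_compactSpace.1 hWcc.isCompact
  have hWsb : StandardBorelSpace Wc := hWcc.measurableSet.standardBorel
  letI : MetricSpace Wc := TopologicalSpace.metrizableSpaceMetric Wc
  let χ : X → Wc := fun x => ⟨χ0 (w x), hχ0W _⟩
  have hχm : Measurable χ := (hχ0m.comp hw).subtype_mk
  let ψ1 : X → (ℕ → Bool) × Wc := fun x => (s x, χ x)
  have hψ1m : Measurable ψ1 := hs.prodMk hχm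
  let YI : Set X := sat E (⋃ n, Cn n)
  have hYIm : MeasurableSet YI := F.measurableSet_sat (MeasurableSet.iUnion hCm)
  have hYIY : YI ⊆ Y := C.iY.sat_subset hE (iUnion_subset hCY)
  let Y1 : Set X := YI ∩ w ⁻¹' Wst
  have hY1m : MeasurableSet Y1 := hYIm.inter (hw hWstm)
  have hY1Y : Y1 ⊆ Y := inter_subset_left.trans hYIY
  have hY1i : Inv E Y1 := by
    rintro x y hxy ⟨h1, h2⟩
    refine ⟨inv_sat hE _ _ _ hxy h1, ?_⟩
    show w y ∈ Wst
    rw [← hwE x y hxy]; exact h2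
  have hχinj : ∀ x ∈ Y1, ∀ y ∈ Y1, χ x = χ y → w x = w y := by
    intro x hx y hy h
    obtain ⟨p, hp⟩ := mem_iUnion.1 hx.2
    obtain ⟨q, hq⟩ := mem_iUnion.1 hy.2
    have h1 : χ0 (w x) = χ0 (w y) := congrArg Subtype.val h
    rw [hχ0p p _ hp, hχ0p q _ hq] at h1
    exact (pmap_inj hp hq h1).2
  have hψ1i : InjOn ψ1 Y1 := by
    intro x hx y hy h
    exact hinj x (hY1Y hx) y (hY1Y hy) (congrArg Prod.fst h)
      (hχinj x hx y hy (congrArg Prod.snd h))
  have hY1ρ : ∀ n k x, x ∈ Cn n → x ∈ F.D k → w x ∈ Wst → F.ρ k x ∈ Y1 := by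
    intro n k x hx hk hwx
    have h1 := F.rel k x hk
    refine ⟨⟨x, mem_iUnion.2 ⟨n, hx⟩, hE.symm h1⟩, ?_⟩
    show w (F.ρ k x) ∈ Wst
    rw [← hwE _ _ h1]; exact hwx
  -- compact pieces
  let D : ℕ → ℕ → ℕ → Option ℕ → Set X := fun n k l p =>
    (Cn n ∩ (F.D k ∩ F.D l)) ∩ w ⁻¹' pc p
  have hDc : ∀ n k l p, IsCompact (κ '' D n k l p) := by
    intro n k l p
    have : κ '' D n k l p = κ '' (Cn n ∩ (F.D k ∩ F.D l)) ∩ {q | q.2 ∈ pc p} := by
      ext q
      constructor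
      · rintro ⟨x, hx, rfl⟩; exact ⟨⟨x, hx.1, rfl⟩, hx.2⟩
      · rintro ⟨⟨x, hx, rfl⟩, hx'⟩; exact ⟨x, ⟨hx, hx'⟩, rfl⟩
    rw [this]
    exact (hCB' n k l).inter_right ((hpcc p).isClosed.preimage continuous_snd)
  have hDY : ∀ n k l p, D n k l p ⊆ Y := fun n k l p x hx => hCY n hx.1.1
  have hφD : ∀ n k l p, ∀ x ∈ D n k l p, φ' (κ x) = x := fun n k l p x hx =>
    hφ x (hDY n k l p hx)
  have hcont : ∀ n k l p j, (∀ x ∈ D n k l p, x ∈ F.D j) →
      ContinuousOn (fun q => ψ1 (F.ρ j (φ' q))) (κ '' D n k l p) := by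
    intro n k l p j hj
    have h1 : ContinuousOn (fun q => (s (F.ρ j (φ' q)), w (F.ρ j (φ' q)))) (κ '' D n k l p) :=
      (hCf n j).mono (image_mono fun x hx => hx.1.1)
    refine ContinuousOn.prodMk ?_ ?_
    · exact continuous_fst.comp_continuousOn h1
    · rw [IsInducing.subtypeVal.continuousOn_iff]
      have h2 : ContinuousOn (fun q => pmap p (w (F.ρ j (φ' q)))) (κ '' D n k l p) :=
        ((continuous_pmap p).comp continuous_snd).comp_continuousOn h1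
      refine h2.congr ?_
      rintro _ ⟨x, hx, rfl⟩
      show χ0 (w (F.ρ j (φ' (κ x)))) = pmap p (w (F.ρ j (φ' (κ x))))
      rw [hφD n k l p x hx]
      refine hχ0p p _ ?_
      rw [← hwE _ _ (F.rel j x (hj x hx))]; exact hx.2
  let As : ℕ → ℕ → ℕ → Option ℕ → Set ((ℕ → Bool) × Wc) := fun n k l p =>
    (fun x => ψ1 (F.ρ k x)) '' D n k l p
  have hAs : ∀ n k l p, As n k l p = (fun q => ψ1 (F.ρ k (φ' q))) '' (κ '' D n k l p) := by
    intro n k l p
    show (fun x => ψ1 (F.ρ k x)) '' D n k l p = _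
    rw [image_image]
    refine image_congr fun x hx => ?_
    rw [hφD n k l p x hx]
  have hAsc : ∀ n k l p, IsCompact (As n k l p) := by
    intro n k l p
    rw [hAs]
    exact (hDc n k l p).image_of_continuousOn (hcont n k l p k fun x hx => hx.1.2.1)
  have hDW : ∀ n k l p, ∀ x ∈ D n k l p, w x ∈ Wst := fun n k l p x hx =>
    mem_iUnion.2 ⟨p, hx.2⟩
  have hDk : ∀ n k l p, ∀ x ∈ D n k l p, F.ρ k x ∈ Y1 ∧ F.ρ l x ∈ Y1 := fun n k l p x hx =>
    ⟨hY1ρ n k x hx.1.1 hx.1.2.1 (hDW n k l p x hx), hY1ρ n l x hx.1.1 hx.1.2.2 (hDW n k l p x hx)⟩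
  let ρ' : ℕ → X → X := fun k => Function.invFunOn (F.ρ k) (F.D k)
  have hρ' : ∀ k, ∀ x ∈ F.D k, ρ' k (F.ρ k x) = x := fun k => (F.inj k).leftInvOn_invFunOn
  let ψ1' : (ℕ → Bool) × Wc → X := Function.invFunOn ψ1 Y1
  have hψ1' : ∀ x ∈ Y1, ψ1' (ψ1 x) = x := hψ1i.leftInvOn_invFunOn
  let γ : ℕ → ℕ → (ℕ → Bool) × Wc → (ℕ → Bool) × Wc := fun k l q =>
    ψ1 (F.ρ l (ρ' k (ψ1' q)))
  have hγ : ∀ n k l p, ∀ x ∈ D n k l p, γ k l (ψ1 (F.ρ k x)) = ψ1 (F.ρ l x) := by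
    intro n k l p x hx
    show ψ1 (F.ρ l (ρ' k (ψ1' (ψ1 (F.ρ k x))))) = _
    rw [hψ1' _ (hDk n k l p x hx).1, hρ' k x hx.1.2.1]
  -- description of the fibres
  have hval : ∀ p y, w y ∈ pc p → ((χ y : Wc) : ℕ → Bool) = pmap p (w y) := fun p y hy =>
    hχ0p p _ hy
  have hwρ : ∀ k, ∀ x ∈ F.D k, w (F.ρ k x) = w x := fun k x hx => (hwE _ _ (F.rel k x hx)).symm
  have hint : ∀ (S : Set X) (v : Wc), S ⊆ Y → interior {z | (z, v) ∈ ψ1 '' S} = ∅ := by
    intro S v hS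
    by_contra hne
    obtain ⟨z, hz, hz0⟩ := exists_ev_zero isOpen_interior (nonempty_iff_ne_empty.2 hne)
    obtain ⟨y, hy, hyz⟩ := interior_subset hz
    have h1 : s y = z := congrArg Prod.fst hyz
    exact hnz y (hS hy) (by rw [h1]; exact hz0)
  have hext : ∀ n k l p, ∃ g : ((ℕ → Bool) × Wc) ≃ₜ ((ℕ → Bool) × Wc),
      (∀ a ∈ As n k l p, g a = γ k l a) ∧
      ∀ x, x ∉ As n k l p → Ev x.1 (g x).1 ∧ (g x).2 = x.2 := by
    intro n k l p
    refine exists_extension_fib (hAsc n k l p).isClosed ?_ ?_ ?_ ?_ ?_ ?_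
    · rw [hAs]
      refine continuousOn_of_comp (b := fun q => ψ1 (F.ρ l (φ' q))) (hDc n k l p)
        (hcont n k l p k fun x hx => hx.1.2.1) (hcont n k l p l fun x hx => hx.1.2.2) ?_
      rintro _ ⟨x, hx, rfl⟩
      rw [hφD n k l p x hx]
      exact hγ n k l p x hx
    · rintro _ ⟨x, hx, rfl⟩ _ ⟨y, hy, rfl⟩ h
      simp only at h
      rw [hγ n k l p x hx, hγ n k l p y hy] at h
      have h1 := hψ1i (hDk n k l p x hx).2 (hDk n k l p y hy).2 h
      have h2 := F.inj l hx.1.2.2 hy.1.2.2 h1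
      rw [h2]
    · rintro _ ⟨x, hx, rfl⟩
      simp only
      rw [hγ n k l p x hx]
      refine Subtype.ext ?_
      show χ0 (w (F.ρ l x)) = χ0 (w (F.ρ k x))
      rw [hwρ l x hx.1.2.2, hwρ k x hx.1.2.1]
    · intro v
      have h1 : As n k l p = ψ1 '' (F.ρ k '' D n k l p) := by
        rw [image_image]
      rw [h1]
      refine hint _ v ?_
      rintro _ ⟨x, hx, rfl⟩
      exact hY1Y (hDk n k l p x hx).1
    · intro v
      have h1 : γ k l '' As n k l p = ψ1 '' (F.ρ l '' D n k l p) := by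
        show γ k l '' ((fun x => ψ1 (F.ρ k x)) '' D n k l p) = _
        rw [image_image, image_image]
        exact image_congr fun x hx => hγ n k l p x hx
      rw [h1]
      refine hint _ v ?_
      rintro _ ⟨x, hx, rfl⟩
      exact hY1Y (hDk n k l p x hx).2
    · intro v Z hZ
      by_cases hv : ∃ v' ∈ pc p, pmap p v' = (v : ℕ → Bool)
      · obtain ⟨v', hv', hvv⟩ := hv
        have huniq : ∀ y, w y ∈ pc p → χ y = v → w y = v' := by
          intro y hy hyv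
          have h1 := hval p y hy
          rw [hyv, ← hvv] at h1
          exact (pmap_inj hy hv' h1.symm).2
        have hchi : ∀ y, w y = v' → χ y = v := by
          intro y hy
          refine Subtype.ext ?_
          rw [hval p y (by rw [hy]; exact hv'), hy, hvv]
        have c1 : {z | (z, v) ∈ As n k l p ∧ z ∈ Z} =
            fb s w (F.ρ k '' Bz F Cn s n k l Z) v' := by
          ext z
          constructor
          · rintro ⟨⟨x, hx, hxz⟩, hz⟩
            have h1 : s (F.ρ k x) = z := congrArg Prod.fst hxz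
            have h2 : χ (F.ρ k x) = v := congrArg Prod.snd hxz
            have h3 : w (F.ρ k x) = v' := huniq _ (by rw [hwρ k x hx.1.2.1]; exact hx.2) h2
            refine ⟨F.ρ k x, ⟨x, ⟨hx.1, ?_⟩, rfl⟩, ?_⟩
            · show s (F.ρ k x) ∈ Z
              rw [h1]; exact hz
            · show (s (F.ρ k x), w (F.ρ k x)) = (z, v')
              rw [h1, h3]
          · rintro ⟨_, ⟨x, hx, rfl⟩, hxz⟩
            have h1 : s (F.ρ k x) = z := congrArg Prod.fst hxz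
            have h2 : w (F.ρ k x) = v' := congrArg Prod.snd hxz
            have h3 : w x = v' := by rw [← hwρ k x hx.1.2.1]; exact h2
            refine ⟨⟨x, ⟨hx.1, ?_⟩, ?_⟩, ?_⟩
            · show w x ∈ pc p
              rw [h3]; exact hv'
            · show (s (F.ρ k x), χ (F.ρ k x)) = (z, v)
              rw [h1, hchi _ h2]
            · rw [← h1]; exact hx.2
        have c2 : {z' | ∃ z ∈ Z, (z, v) ∈ As n k l p ∧ γ k l (z, v) = (z', v)} =
            fb s w (F.ρ l '' Bz F Cn s n k l Z) v' := by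
          ext z'
          constructor
          · rintro ⟨z, hz, ⟨x, hx, hxz⟩, hg⟩
            have hxz : ψ1 (F.ρ k x) = (z, v) := hxz
            rw [← hxz, hγ n k l p x hx] at hg
            have h1 : s (F.ρ k x) = z := congrArg Prod.fst hxz
            have h2 : χ (F.ρ k x) = v := congrArg Prod.snd hxz
            have h3 : w (F.ρ k x) = v' := huniq _ (by rw [hwρ k x hx.1.2.1]; exact hx.2) h2
            have h4 : s (F.ρ l x) = z' := congrArg Prod.fst hg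
            refine ⟨F.ρ l x, ⟨x, ⟨hx.1, ?_⟩, rfl⟩, ?_⟩
            · show s (F.ρ k x) ∈ Z
              rw [h1]; exact hz
            · show (s (F.ρ l x), w (F.ρ l x)) = (z', v')
              rw [h4, hwρ l x hx.1.2.2, ← hwρ k x hx.1.2.1, h3]
          · rintro ⟨_, ⟨x, hx, rfl⟩, hxz⟩
            have h1 : s (F.ρ l x) = z' := congrArg Prod.fst hxz
            have h2 : w (F.ρ l x) = v' := congrArg Prod.snd hxz
            have h3 : w x = v' := by rw [← hwρ l x hx.1.2.2]; exact h2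
            have h4 : w (F.ρ k x) = v' := by rw [hwρ k x hx.1.2.1]; exact h3
            have hxD : x ∈ D n k l p := by
              refine ⟨hx.1, ?_⟩
              show w x ∈ pc p
              rw [h3]; exact hv'
            have h5 : ψ1 (F.ρ k x) = (s (F.ρ k x), v) := by
              show (s (F.ρ k x), χ (F.ρ k x)) = _
              rw [hchi _ h4]
            refine ⟨s (F.ρ k x), hx.2, ⟨x, hxD, h5⟩, ?_⟩
            rw [← h5, hγ n k l p x hxD]
            show (s (F.ρ l x), χ (F.ρ l x)) = (z', v)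
            rw [h1, hchi _ h2]
        rw [c1, c2]
        exact hG2 v' (hpcG p hv') n k l Z hZ
      · have hno : ∀ z, (z, v) ∉ As n k l p := by
          rintro z ⟨x, hx, hxz⟩
          have h2 : χ (F.ρ k x) = v := congrArg Prod.snd hxz
          have h3 : w (F.ρ k x) ∈ pc p := by rw [hwρ k x hx.1.2.1]; exact hx.2
          apply hv
          refine ⟨w (F.ρ k x), h3, ?_⟩
          rw [← hval p _ h3, h2]
        have c1 : {z | (z, v) ∈ As n k l p ∧ z ∈ Z} = ∅ := by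
          ext z; exact ⟨fun h => hno z h.1, fun h => h.elim⟩
        have c2 : {z' | ∃ z ∈ Z, (z, v) ∈ As n k l p ∧ γ k l (z, v) = (z', v)} = ∅ := by
          ext z'; exact ⟨fun ⟨z, _, h, _⟩ => hno z h, fun h => h.elim⟩
        rw [c1, c2]
  choose g hg1 hg2 using hext
  -- the family of homeomorphisms
  let ι : Type := (Σ n : ℕ, Equiv.Perm (Fin n → Bool)) ⊕ (ℕ × ℕ × ℕ × Option ℕ)
  let H : ι → ((ℕ → Bool) × Wc) ≃ₜ ((ℕ → Bool) × Wc) := fun i =>
    Sum.elim (fun π => (permHomeo π.1 π.2).prodCongr (Homeomorph.refl _))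
      (fun q => g q.1 q.2.1 q.2.2.1 q.2.2.2) i
  have hHπ : ∀ π q, H (Sum.inl π) q = (permHomeo π.1 π.2 q.1, q.2) := fun π q => rfl
  have hHg : ∀ n k l p q, H (Sum.inr (n, k, l, p)) q = g n k l p q := fun n k l p q => rfl
  have hR := Orb.equivalence H
  have hREv : ∀ (z z' : ℕ → Bool) (v : Wc), Ev z z' → Orb H (z, v) (z', v) := by
    intro z z' v h
    obtain ⟨n, π, hπ⟩ := exists_perm_of_ev h
    have h1 := Orb.gen H (Sum.inl ⟨n, π⟩) (z, v)
    rw [hHπ] at h1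
    rw [← hπ]; exact h1
  have hcov : ∀ x y, x ∈ Y1 → E x y → ∃ n k l p, ∃ x0 ∈ D n k l p, F.ρ k x0 = x ∧
      F.ρ l x0 = y := by
    intro x y hx hxy
    obtain ⟨x0, hx0, hxx0⟩ := hx.1
    obtain ⟨n, hn⟩ := mem_iUnion.1 hx0
    obtain ⟨k, hk, hkx⟩ := F.cov x0 x (hE.symm hxx0)
    obtain ⟨l, hl, hly⟩ := F.cov x0 y (hE.trans (hE.symm hxx0) hxy)
    obtain ⟨p, hp⟩ := mem_iUnion.1 hx.2
    refine ⟨n, k, l, p, x0, ⟨⟨hn, hk, hl⟩, ?_⟩, hkx, hly⟩
    show w x0 ∈ pc p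
    rw [← hwE _ _ hxx0]; exact hp
  have hR2 : ∀ x ∈ Y1, ∀ y, E x y → Orb H (ψ1 x) (ψ1 y) := by
    intro x hx y hxy
    obtain ⟨n, k, l, p, x0, hx0, rfl, rfl⟩ := hcov x y hx hxy
    have h1 := Orb.gen H (Sum.inr (n, k, l, p)) (ψ1 (F.ρ k x0))
    rw [hHg, hg1 n k l p _ ⟨x0, hx0, rfl⟩, hγ n k l p x0 hx0] at h1
    exact h1
  have hEvψ : ∀ x ∈ Y1, ∀ q : (ℕ → Bool) × Wc, Ev (ψ1 x).1 q.1 → q.2 = (ψ1 x).2 →
      ∃ y ∈ Y1, E x y ∧ ψ1 y = q := by
    rintro x hx ⟨z, v⟩ hev hv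
    obtain ⟨y, hy, hxy, hsy⟩ := hmv x (hY1Y hx) z hev
    refine ⟨y, hY1i _ _ hxy hx, hxy, ?_⟩
    have hv : v = χ x := hv
    rw [hv]
    refine Prod.ext hsy (Subtype.ext ?_)
    show χ0 (w y) = χ0 (w x)
    rw [hwE x y hxy]
  let EC : (ℕ → Bool) × Wc → (ℕ → Bool) × Wc → Prop := fun q q' =>
    (∃ x ∈ Y1, ∃ y ∈ Y1, ψ1 x = q ∧ ψ1 y = q' ∧ E x y) ∨
    (q ∉ ψ1 '' Y1 ∧ q' ∉ ψ1 '' Y1 ∧ Ev q.1 q'.1 ∧ q'.2 = q.2)
  have hEC : Equivalence EC := by
    refine ⟨fun q => ?_, ?_, ?_⟩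
    · by_cases hq : q ∈ ψ1 '' Y1
      · obtain ⟨x, hx, rfl⟩ := hq
        exact Or.inl ⟨x, hx, x, hx, rfl, rfl, hE.refl _⟩
      · exact Or.inr ⟨hq, hq, Ev.equivalence.refl _, rfl⟩
    · rintro q q' (⟨x, hx, y, hy, h1, h2, h3⟩ | ⟨h1, h2, h3, h4⟩)
      · exact Or.inl ⟨y, hy, x, hx, h2, h1, hE.symm h3⟩
      · exact Or.inr ⟨h2, h1, Ev.equivalence.symm h3, h4.symm⟩
    · rintro q q' q'' (⟨x, hx, y, hy, h1, h2, h3⟩ | ⟨h1, h2, h3, h4⟩)
        (⟨x', hx', y', hy', h1', h2', h3'⟩ | ⟨h1', h2', h3', h4'⟩)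
      · have : y = x' := hψ1i hy hx' (h2.trans h1'.symm)
        subst this
        exact Or.inl ⟨x, hx, y', hy', h1, h2', hE.trans h3 h3'⟩
      · exact (h1' ⟨y, hy, h2⟩).elim
      · exact (h2 ⟨x', hx', h1'⟩).elim
      · exact Or.inr ⟨h1, h2', Ev.equivalence.trans h3 h3', h4'.trans h4⟩
  have hECev : ∀ q q' : (ℕ → Bool) × Wc, Ev q.1 q'.1 → q'.2 = q.2 → EC q q' := by
    intro q q' h1 h2
    by_cases hq : q ∈ ψ1 '' Y1
    · obtain ⟨x, hx, rfl⟩ := hq
      obtain ⟨y, hy, hxy, hyq⟩ := hEvψ x hx q' h1 h2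
      exact Or.inl ⟨x, hx, y, hy, rfl, hyq, hxy⟩
    · by_cases hq' : q' ∈ ψ1 '' Y1
      · exfalso
        obtain ⟨x, hx, rfl⟩ := hq'
        obtain ⟨y, hy, hxy, hyq⟩ := hEvψ x hx q (Ev.equivalence.symm h1) h2.symm
        exact hq ⟨y, hy, hyq⟩
      · exact Or.inr ⟨hq, hq', h1, h2⟩
  have hR3 : ∀ {q q'}, Orb H q q' → EC q q' := by
    intro q q' h
    refine Orb.sub hEC ?_ h
    rintro (π | ⟨n, k, l, p⟩) q
    · rw [hHπ]
      exact hECev _ _ (permHomeo_ev _ _ _) rfl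
    · rw [hHg]
      by_cases hq : q ∈ As n k l p
      · rw [hg1 n k l p q hq]
        obtain ⟨x, hx, rfl⟩ := hq
        simp only
        rw [hγ n k l p x hx]
        refine Or.inl ⟨_, (hDk n k l p x hx).1, _, (hDk n k l p x hx).2, rfl, rfl, ?_⟩
        exact hE.trans (hE.symm (F.rel k x hx.1.2.1)) (F.rel l x hx.1.2.2)
      · obtain ⟨h1, h2⟩ := hg2 n k l p q hq
        exact hECev _ _ h1 h2
  have hψE : ∀ x ∈ Y1, ∀ y ∈ Y1, (E x y ↔ Orb H (ψ1 x) (ψ1 y)) := by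
    intro x hx y hy
    refine ⟨fun h => hR2 x hx y h, fun h => ?_⟩
    rcases hR3 h with ⟨x', hx', y', hy', h1, h2, h3⟩ | ⟨h1, -⟩
    · rw [← hψ1i hx' hx h1, ← hψ1i hy' hy h2]; exact h3
    · exact (h1 ⟨x, hx, rfl⟩).elim
  have hψr : Inv (Orb H) (ψ1 '' Y1) := by
    rintro _ q h ⟨x, hx, rfl⟩
    rcases hR3 h with ⟨x', hx', y', hy', h1, h2, h3⟩ | ⟨h1, -⟩
    · exact ⟨y', hy', h2⟩
    · exact (h1 ⟨x, hx, rfl⟩).elim
  -- coding the remainder
  let tn : (ℕ → Bool) → (ℕ → ℕ) := fun z k => (z k).toNat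
  have htn : Function.Injective tn := by
    intro z z' h
    funext k
    have h1 : (z k).toNat = (z' k).toNat := congrFun h k
    revert h1
    cases z k <;> cases z' k <;> simp
  have htnm : Measurable tn := by
    refine measurable_pi_lambda _ fun k => ?_
    exact (measurable_of_countable (fun b : Bool => b.toNat)).comp (measurable_pi_apply k)
  have htnEv : ∀ z z', Ev (tn z) (tn z') ↔ Ev z z' := by
    intro z z'
    constructor
    · rintro ⟨n, hn⟩
      refine ⟨n, fun k hk => ?_⟩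
      have h1 : (z k).toNat = (z' k).toNat := hn k hk
      revert h1
      cases z k <;> cases z' k <;> simp
    · rintro ⟨n, hn⟩
      refine ⟨n, fun k hk => ?_⟩
      show (z k).toNat = (z' k).toNat
      rw [hn k hk]
  let a : (ℕ → Bool) × Wc → ℕ → ℕ := fun q => tag q.2 (tn q.1)
  have ham : Measurable a := by
    have h1 : Measurable (fun q : (ℕ → Bool) × Wc => ((q.2 : ℕ → Bool), tn q.1)) :=
      (measurable_subtype_coe.comp measurable_snd).prodMk (htnm.comp measurable_fst)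
    exact measurable_tag2.comp h1
  have haEv : ∀ q q', Ev (a q) (a q') ↔ Ev q.1 q'.1 ∧ q.2 = q'.2 := by
    intro q q'
    show Ev (tag q.2 (tn q.1)) (tag q'.2 (tn q'.1)) ↔ _
    rw [ev_tag, htnEv]
    exact and_congr_right fun _ => Subtype.ext_iff.symm
  have hai : Function.Injective a := by
    intro q q' h
    have h1 := (haEv q q').1 (by rw [h]; exact Ev.equivalence.refl _)
    have h2 : tag q.2 (tn q.1) = tag q.2 (tn q'.1) := by
      have h3 : tag q.2 (tn q.1) = tag q'.2 (tn q'.1) := h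
      rw [h3, h1.2]
    exact Prod.ext (htn (tag_injective _ h2)) h1.2
  have haR : ∀ x ∉ ψ1 '' Y1, ∀ y ∉ ψ1 '' Y1, (Orb H x y ↔ Ev (a x) (a y)) := by
    intro q hq q' hq'
    rw [haEv]
    constructor
    · intro h
      rcases hR3 h with ⟨x', hx', y', hy', h1, h2, h3⟩ | ⟨_, _, h1, h2⟩
      · exact (hq ⟨x', hx', h1⟩).elim
      · exact ⟨h1, h2.symm⟩
    · rintro ⟨h1, h2⟩
      have h3 : q = (q.1, q.2) := rfl
      have h4 : q' = (q'.1, q.2) := Prod.ext rfl h2.symm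
      rw [h3, h4]
      exact hREv _ _ _ h1
  -- copies of the remainder
  obtain ⟨e, he⟩ := exists_surjective_nat (ℕ × ℕ × Option ℕ)
  let Cp : ℕ → Set ((ℕ → Bool) × Wc) := fun j => As (e j).1 (e j).2.1 (e j).2.1 (e j).2.2
  have hCpY : ∀ q, q ∈ ψ1 '' Y1 ↔ ∃ j, q ∈ Cp j := by
    intro q
    constructor
    · rintro ⟨x, hx, rfl⟩
      obtain ⟨x0, hx0, hxx0⟩ := hx.1
      obtain ⟨n, hn⟩ := mem_iUnion.1 hx0
      obtain ⟨k, hk, hkx⟩ := F.cov x0 x (hE.symm hxx0)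
      obtain ⟨p, hp⟩ := mem_iUnion.1 hx.2
      obtain ⟨j, hj⟩ := he (n, k, p)
      refine ⟨j, ?_⟩
      show ψ1 x ∈ As (e j).1 (e j).2.1 (e j).2.1 (e j).2.2
      rw [hj]
      refine ⟨x0, ⟨⟨hn, hk, hk⟩, ?_⟩, by simp only; rw [hkx]⟩
      show w x0 ∈ pc p
      rw [← hwE _ _ hxx0]; exact hp
    · rintro ⟨j, x, hx, rfl⟩
      exact ⟨_, (hDk _ _ _ _ x hx).1, rfl⟩
  let Gs : ℕ → Set ((ℕ → Bool) × Wc) := fun i => (⋃ j : {j // j < i}, Cp j)ᶜ
  have hGso : ∀ i, IsOpen (Gs i) := by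
    intro i
    have : Finite {j // j < i} := (Set.finite_lt_nat i).to_subtype
    exact (isClosed_iUnion_of_finite fun j => (hAsc _ _ _ _).isClosed).isOpen_compl
  have hGsmem : ∀ q, q ∉ ψ1 '' Y1 → ∀ i, q ∈ Gs i := by
    intro q hq i hmem
    obtain ⟨j, hj⟩ := mem_iUnion.1 hmem
    exact hq ((hCpY q).2 ⟨j, hj⟩)
  have hfibre : ∀ v : Wc, coin {z | (z, v) ∉ ψ1 '' Y1} = 0 := by
    intro v
    obtain ⟨p, v', hv', hvv⟩ := (hWcp v).1 v.2
    have h1 : {z | (z, v) ∉ ψ1 '' Y1} = (fb s w YI v')ᶜ := by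
      ext z
      rw [mem_compl_iff]
      refine not_congr ?_
      constructor
      · rintro ⟨x, hx, hxz⟩
        have h2 : s x = z := congrArg Prod.fst hxz
        have h3 : χ x = v := congrArg Prod.snd hxz
        obtain ⟨q, hq⟩ := mem_iUnion.1 hx.2
        have h4 := hval q x hq
        rw [h3, ← hvv] at h4
        refine ⟨x, hx.1, ?_⟩
        show (s x, w x) = (z, v')
        rw [h2, (pmap_inj hq hv' h4.symm).2]
      · rintro ⟨x, hx, hxz⟩
        have h2 : s x = z := congrArg Prod.fst hxz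
        have h3 : w x = v' := congrArg Prod.snd hxz
        have h4 : w x ∈ pc p := by rw [h3]; exact hv'
        refine ⟨x, ⟨hx, mem_iUnion.2 ⟨p, h4⟩⟩, ?_⟩
        refine Prod.ext h2 (Subtype.ext ?_)
        show ((χ x : Wc) : ℕ → Bool) = v
        rw [hval p x h4, h3, hvv]
    rw [h1, prob_compl_eq_zero_iff (C.measurable_fb hYIm hYIY v')]
    exact hG1 v' (hpcG p hv')
  obtain ⟨q, hq1, hq2, hq3⟩ := kraft_copies hGso (V := univ) (by
    intro v _ ε hε
    have hm : ∀ i, MeasurableSet {z | (z, v) ∈ Gs i} := fun i =>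
      ((hGso i).preimage (continuous_id.prodMk continuous_const)).measurableSet
    have hanti : Antitone (fun i => {z | (z, v) ∈ Gs i}) := by
      intro i i' hii z hz hmem
      obtain ⟨⟨j, hj⟩, hj'⟩ := mem_iUnion.1 hmem
      exact hz (mem_iUnion.2 ⟨⟨j, lt_of_lt_of_le hj hii⟩, hj'⟩)
    have hlim := tendsto_measure_iInter_atTop (μ := coin)
      (fun i => (hm i).nullMeasurableSet) hanti ⟨0, measure_ne_top _ _⟩
    have hinter : ⋂ i, {z | (z, v) ∈ Gs i} = {z | (z, v) ∉ ψ1 '' Y1} := by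
      ext z
      rw [mem_iInter]
      constructor
      · intro h hmem
        obtain ⟨j, hj⟩ := (hCpY _).1 hmem
        exact h (j + 1) (mem_iUnion.2 ⟨⟨j, Nat.lt_succ_self j⟩, hj⟩)
      · intro h i
        exact hGsmem _ h i
    rw [hinter, hfibre v] at hlim
    obtain ⟨i, hi⟩ := (hlim.eventually (gt_mem_nhds hε)).exists
    exact ⟨i, hi⟩)
  have hcop : Copies (Orb H) (ψ1 '' Y1)ᶜ := by
    refine ⟨fun i p => (q i p, p.2), fun i => (hq1 i).prodMk measurable_snd, ?_, ?_⟩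
    · rintro i ⟨z, v⟩ hz
      exact hREv _ _ _ (hq2 i z v (mem_univ _) (hGsmem _ hz))
    · rintro i j ⟨z, v⟩ hz ⟨z', v'⟩ hz' h
      have h1 : v = v' := congrArg Prod.snd h
      subst h1
      have h2 : q i (z, v) = q j (z', v) := congrArg Prod.fst h
      obtain ⟨h3, h4⟩ := hq3 i j z z' v (mem_univ _) (hGsmem _ hz) (hGsmem _ hz') h2
      exact ⟨h3, by rw [h4]⟩
  obtain ⟨ψ, k1, k2, k3, k4, k5, k6⟩ := assemble hE F hR hY1m hY1i hψ1m hψ1i hψE hψr
    ham hai.injOn haR hcop hθ hθi hθE (hAθ.mono_left (hY1Y.trans hYA))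
  refine ⟨(ℕ → Bool) × Wc, inferInstance, inferInstance, inferInstance, inferInstance,
    inferInstance, ι, inferInstance, H, ψ, k1, k2, k3,
    k5.trans (union_subset_union_left _ (hY1Y.trans hYA)), ?_, k6⟩
  have hν2 : μ (w ⁻¹' Wstᶜ ∩ Y) = 0 := by
    rw [← hνapp _ hWstm.compl]; exact hWstν
  refine measure_mono_null ?_ (measure_union_null hYμ (measure_union_null hCμ hν2))
  rintro x ⟨hx1, hx2⟩
  by_cases hxY : x ∈ Y
  · right
    by_cases hxW : w x ∈ Wst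
    · left
      refine ⟨hxY, fun h => hx2 (k4 ⟨subset_sat hE _ h, hxW⟩)⟩
    · right; exact ⟨hxW, hxY⟩
  · left; exact ⟨hx1, hxY⟩

end Pool.Agent.Work.MP_97bde0_lc
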