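import Mathlib

/-!
# An abstract extension theorem for partial homeomorphisms
-/

set_option autoImplicit false

open Set Topology

namespace Pool.Agent.Work.MP_97bde0_lc

section glue

variable {K : Type*} [TopologicalSpace K]

theorem continuous_ite_label {u : K → ℕ} (hu : Continuous u) {f g : K → K}
    (hf : Continuous f) (hg : Continuous g) :
    Continuous (fun x => if u x = 0 then f x else g x) := by
  have hcl : IsClopen {x | u x = 0} := (isClopen_discrete ({0} : Set ℕ)).preimage hu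
  refine Continuous.if ?_ hf hg
  intro a ha
  rw [hcl.frontier_eq] at ha
  exact ha.elim

/-- gluing two homeomorphisms along labels -/
def glueHomeo {u v : K → ℕ} (hu : Continuous u) (hv : Continuous v) (g h : K ≃ₜ K)
    (hg : ∀ x, v (g x) = u x) (hh : ∀ x, v (h x) = u x) : K ≃ₜ K where
  toFun x := if u x = 0 then g x else h x
  invFun y := if v y = 0 then g.symm y else h.symm y
  left_inv x := by
    by_cases hx : u x = 0
    · simp only [hx, if_true]
      rw [hg, if_pos hx]; simp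
    · simp only [hx, if_false]
      rw [hh, if_neg hx]; simp
  right_inv y := by
    by_cases hy : v y = 0
    · simp only [hy, if_true]
      have : u (g.symm y) = v y := by rw [← hg, g.apply_symm_apply]
      rw [this, if_pos hy]; simp
    · simp only [hy, if_false]
      have : u (h.symm y) = v y := by rw [← hh, h.apply_symm_apply]
      rw [this, if_neg hy]; simp
  continuous_toFun := continuous_ite_label hu g.continuous h.continuous
  continuous_invFun := continuous_ite_label hv g.symm.continuous h.symm.continuous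

theorem glueHomeo_apply {u v : K → ℕ} (hu : Continuous u) (hv : Continuous v) (g h : K ≃ₜ K)
    (hg : ∀ x, v (g x) = u x) (hh : ∀ x, v (h x) = u x) (x : K) :
    glueHomeo hu hv g h hg hh x = if u x = 0 then g x else h x := rfl

end glue

theorem exists_extension {K : Type*} [MetricSpace K] [CompactSpace K] {F : K → K → Prop}
    (hF : ∀ x, F x x) {A : Set K} (hA : IsClosed A) {γ : K → K} (hγ : ContinuousOn γ A)
    (hinj : InjOn γ A) (Good : (K → ℕ) → (K → ℕ) → Prop)
    (hG : ∀ u v, Good u v → Continuous u ∧ Continuous v ∧ ∀ a ∈ A, u a = v (γ a) ∧ u a ≠ 0)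
    (h0 : Good (fun _ => 1) (fun _ => 1))
    (hstep : ∀ u v, Good u v → ∀ ε : ℝ, 0 < ε → ∃ (u' v' : K → ℕ) (h : K ≃ₜ K), Good u' v' ∧
      (∀ x, F x (h x)) ∧ (∀ x, v (h x) = u x) ∧ (∀ x, v' (h x) = u' x) ∧
      (∀ x, u x = 0 → u' x = 0) ∧ (∀ x, v x = 0 → v' x = 0) ∧
      (∀ x y, u' x = v' y → u' x ≠ 0 → u x = v y) ∧
      (∀ x y, u' x = u' y → u' x ≠ 0 → dist x y < ε) ∧
      (∀ x y, v' x = v' y → v' x ≠ 0 → dist x y < ε) ∧
      (∀ x, u' x ≠ 0 → ∃ a ∈ A, u' a = u' x)) :
    ∃ g : K ≃ₜ K, (∀ a ∈ A, g a = γ a) ∧ ∀ x, x ∉ A → F x (g x) := by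
  classical
  let S := {p : (K → ℕ) × (K → ℕ) // Good p.1 p.2}
  have hstep' : ∀ (n : ℕ) (p : S), ∃ (q : S) (h : K ≃ₜ K),
      (∀ x, F x (h x)) ∧ (∀ x, p.1.2 (h x) = p.1.1 x) ∧ (∀ x, q.1.2 (h x) = q.1.1 x) ∧
      (∀ x, p.1.1 x = 0 → q.1.1 x = 0) ∧ (∀ x, p.1.2 x = 0 → q.1.2 x = 0) ∧
      (∀ x y, q.1.1 x = q.1.2 y → q.1.1 x ≠ 0 → p.1.1 x = p.1.2 y) ∧
      (∀ x y, q.1.1 x = q.1.1 y → q.1.1 x ≠ 0 → dist x y < (1 / 2 : ℝ) ^ n) ∧
      (∀ x y, q.1.2 x = q.1.2 y → q.1.2 x ≠ 0 → dist x y < (1 / 2 : ℝ) ^ n) ∧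
      (∀ x, q.1.1 x ≠ 0 → ∃ a ∈ A, q.1.1 a = q.1.1 x) := by
    intro n p
    obtain ⟨u', v', h, h1, h2⟩ := hstep p.1.1 p.1.2 p.2 ((1 / 2 : ℝ) ^ n) (by positivity)
    exact ⟨⟨(u', v'), h1⟩, h, h2⟩
  choose nxt H s1 s2 s3 s4 s5 s6 s7 s8 s9 using hstep'
  let P : ℕ → S := fun n => Nat.rec ⟨(fun _ => 1, fun _ => 1), h0⟩ (fun n p => nxt n p) n
  let u : ℕ → K → ℕ := fun n => (P n).1.1
  let v : ℕ → K → ℕ := fun n => (P n).1.2
  let h : ℕ → (K ≃ₜ K) := fun n => H n (P n)
  have hu : ∀ n, Continuous (u n) := fun n => (hG _ _ (P n).2).1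
  have hv : ∀ n, Continuous (v n) := fun n => (hG _ _ (P n).2).2.1
  have hAu : ∀ n, ∀ a ∈ A, u n a = v n (γ a) ∧ u n a ≠ 0 := fun n => (hG _ _ (P n).2).2.2
  have t1 : ∀ n x, F x (h n x) := fun n => s1 n (P n)
  have t2 : ∀ n x, v n (h n x) = u n x := fun n => s2 n (P n)
  have t3 : ∀ n x, v (n + 1) (h n x) = u (n + 1) x := fun n => s3 n (P n)
  have t4 : ∀ n x, u n x = 0 → u (n + 1) x = 0 := fun n => s4 n (P n)
  have t5 : ∀ n x, v n x = 0 → v (n + 1) x = 0 := fun n => s5 n (P n)
  have t6 : ∀ n x y, u (n + 1) x = v (n + 1) y → u (n + 1) x ≠ 0 → u n x = v n y :=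
    fun n => s6 n (P n)
  have t7 : ∀ n x y, u (n + 1) x = u (n + 1) y → u (n + 1) x ≠ 0 →
      dist x y < (1 / 2 : ℝ) ^ n := fun n => s7 n (P n)
  have t8 : ∀ n x y, v (n + 1) x = v (n + 1) y → v (n + 1) x ≠ 0 →
      dist x y < (1 / 2 : ℝ) ^ n := fun n => s8 n (P n)
  have t9 : ∀ n x, u (n + 1) x ≠ 0 → ∃ a ∈ A, u (n + 1) a = u (n + 1) x :=
    fun n => s9 n (P n)
  -- the homeomorphisms `g n`
  let G : ∀ n, {g : K ≃ₜ K // ∀ x, v n (g x) = u n x} := fun n =>
    Nat.rec ⟨Homeomorph.refl K, fun _ => rfl⟩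
      (fun n g => ⟨glueHomeo (hu n) (hv n) g.1 (h n) g.2 (t2 n), by
        intro x
        rw [glueHomeo_apply]
        split_ifs with hx
        · rw [t4 n x hx]
          exact t5 n _ (by rw [g.2, hx])
        · exact t3 n x⟩) n
  let g : ℕ → (K ≃ₜ K) := fun n => (G n).1
  have hg : ∀ n x, v n (g n x) = u n x := fun n => (G n).2
  have hgs : ∀ n x, g (n + 1) x = if u n x = 0 then g n x else h n x := fun n x => rfl
  have hgF : ∀ n x, F x (g n x) := by
    intro n
    induction n with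
    | zero => exact fun x => hF x
    | succ n ih =>
      intro x
      rw [hgs]
      split_ifs
      · exact ih x
      · exact t1 n x
  have hu0 : ∀ m n, m ≤ n → ∀ x, u m x = 0 → u n x = 0 := by
    intro m n hmn x hx
    induction n, hmn using Nat.le_induction with
    | base => exact hx
    | succ n _ ih => exact t4 n x ih
  have hgst : ∀ m n, m ≤ n → ∀ x, u m x = 0 → g n x = g m x := by
    intro m n hmn x hx
    induction n, hmn using Nat.le_induction with
    | base => rfl
    | succ n hn ih =>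
      rw [hgs, if_pos (hu0 m n hn x hx), ih]
  have href : ∀ m n, m ≤ n → ∀ x y, u n x = v n y → u n x ≠ 0 → u m x = v m y := by
    intro m n hmn x y
    induction n, hmn using Nat.le_induction with
    | base => exact fun h _ => h
    | succ n _ ih =>
      intro h1 h2
      exact ih (t6 n x y h1 h2) (fun h3 => h2 (t4 n x h3))
  -- points outside `A` become inactive
  have hout : ∀ x, x ∉ A → ∃ n, u n x = 0 := by
    intro x hx
    by_contra hcon
    push Not at hcon
    apply hx
    rw [← hA.closure_eq, Metric.mem_closure_iff]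
    intro ε hε
    obtain ⟨n, hn⟩ := exists_pow_lt_of_lt_one hε (show (1 / 2 : ℝ) < 1 by norm_num)
    obtain ⟨a, ha, ha'⟩ := t9 n x (hcon (n + 1))
    exact ⟨a, ha, (t7 n x a ha'.symm (hcon (n + 1))).trans hn⟩
  let N : K → ℕ := fun x => if hx : ∃ n, u n x = 0 then Nat.find hx else 0
  have hN : ∀ x, x ∉ A → u (N x) x = 0 := by
    intro x hx
    have := hout x hx
    simp only [N, dif_pos this]
    exact Nat.find_spec this
  have hNmin : ∀ x n, n < N x → u n x ≠ 0 := by
    intro x n hn hx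
    have : ∃ n, u n x = 0 := ⟨n, hx⟩
    simp only [N, dif_pos this] at hn
    exact Nat.find_min this hn hx
  let Γ : K → K := fun x => if x ∈ A then γ x else g (N x) x
  have hΓA : ∀ x ∈ A, Γ x = γ x := fun x hx => if_pos hx
  have hΓ0 : ∀ x n, u n x = 0 → Γ x = g n x := by
    intro x n hx
    have hxA : x ∉ A := fun h => (hAu n x h).2 hx
    have h1 : Γ x = g (N x) x := if_neg hxA
    have h2 : N x ≤ n := by
      by_contra h
      push Not at h
      exact hNmin x n h hx
    rw [h1, hgst _ _ h2 x (hN x hxA)]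
  have hlab : ∀ x n, v n (Γ x) = u n x := by
    intro x n
    by_cases hxA : x ∈ A
    · rw [hΓA x hxA]; exact (hAu n x hxA).1.symm
    · by_cases hn : N x ≤ n
      · have h1 := hu0 _ _ hn x (hN x hxA)
        rw [hΓ0 x n h1]
        exact hg n x
      · push Not at hn
        obtain ⟨m, hm⟩ : ∃ m, N x = m + 1 := ⟨N x - 1, by omega⟩
        have h1 : u m x ≠ 0 := hNmin x m (by omega)
        have h2 : Γ x = h m x := by
          have : Γ x = g (N x) x := if_neg hxA
          rw [this, hm, hgs, if_neg h1]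
        have h3 : v m (Γ x) = u m x := by rw [h2]; exact t2 m x
        exact (href n m (by omega) x (Γ x) h3.symm h1).symm
  have hcont : Continuous Γ := by
    rw [continuous_iff_continuousAt]
    intro x
    by_cases hxA : x ∈ A
    · rw [Metric.continuousAt_iff']
      intro ε hε
      obtain ⟨n, hn⟩ := exists_pow_lt_of_lt_one hε (show (1 / 2 : ℝ) < 1 by norm_num)
      have hopen : IsOpen {y | u (n + 1) y = u (n + 1) x} :=
        (isOpen_discrete ({u (n + 1) x} : Set ℕ)).preimage (hu (n + 1))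
      filter_upwards [hopen.mem_nhds rfl] with y hy
      have hy' : u (n + 1) y = u (n + 1) x := hy
      have h1 : v (n + 1) (Γ y) = v (n + 1) (Γ x) :=
        (hlab y (n + 1)).trans (hy'.trans (hlab x (n + 1)).symm)
      refine (t8 n _ _ h1 ?_).trans hn
      rw [hlab y (n + 1), hy']
      exact (hAu (n + 1) x hxA).2
    · have hopen : IsOpen {y | u (N x) y = 0} :=
        (isOpen_discrete ({0} : Set ℕ)).preimage (hu (N x))
      refine (g (N x)).continuous.continuousAt.congr ?_
      filter_upwards [hopen.mem_nhds (hN x hxA)] with y hy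
      exact (hΓ0 y _ hy).symm
  have hΓinj : Function.Injective Γ := by
    intro x y hxy
    have hl : ∀ n, u n x = u n y := fun n => by rw [← hlab x n, ← hlab y n, hxy]
    by_cases hxA : x ∈ A
    · by_cases hyA : y ∈ A
      · rw [hΓA x hxA, hΓA y hyA] at hxy
        exact hinj hxA hyA hxy
      · exfalso
        have := hN y hyA
        rw [← hl (N y)] at this
        exact (hAu _ x hxA).2 this
    · have h1 := hN x hxA
      have h2 := h1
      rw [hl (N x)] at h2
      rw [hΓ0 x _ h1, hΓ0 y _ h2] at hxy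
      exact (g (N x)).injective hxy
  have hΓsurj : Function.Surjective Γ := by
    intro y
    by_cases hy : ∃ n, v n y = 0
    · obtain ⟨n, hn⟩ := hy
      refine ⟨(g n).symm y, ?_⟩
      have h1 : u n ((g n).symm y) = 0 := by
        rw [← hg n, (g n).apply_symm_apply, hn]
      rw [hΓ0 _ n h1, (g n).apply_symm_apply]
    · push Not at hy
      have hAc : IsCompact A := hA.isCompact
      have hγA : IsClosed (γ '' A) := (hAc.image_of_continuousOn hγ).isClosed
      have : y ∈ γ '' A := by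
        rw [← hγA.closure_eq, Metric.mem_closure_iff]
        intro ε hε
        obtain ⟨n, hn⟩ := exists_pow_lt_of_lt_one hε (show (1 / 2 : ℝ) < 1 by norm_num)
        have h1 : u (n + 1) ((g (n + 1)).symm y) = v (n + 1) y := by
          rw [← hg (n + 1), (g (n + 1)).apply_symm_apply]
        obtain ⟨a, ha, ha'⟩ := t9 n ((g (n + 1)).symm y) (by rw [h1]; exact hy (n + 1))
        refine ⟨γ a, ⟨a, ha, rfl⟩, (t8 n y (γ a) ?_ (hy (n + 1))).trans hn⟩
        rw [← (hAu (n + 1) a ha).1, ha', h1]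
      obtain ⟨a, ha, rfl⟩ := this
      exact ⟨a, hΓA a ha⟩
  let e : K ≃ K := Equiv.ofBijective Γ ⟨hΓinj, hΓsurj⟩
  refine ⟨Continuous.homeoOfEquivCompactToT2 (f := e) hcont, fun a ha => hΓA a ha, ?_⟩
  intro x hx
  show F x (Γ x)
  rw [hΓ0 x _ (hN x hx)]
  exact hgF _ _

end Pool.Agent.Work.MP_97bde0_lc
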