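import Pool.Agent.Work.MP_97bde0_lc.LN

/-!
# Feldman-Moore data for countable Borel equivalence relations
-/

set_option autoImplicit false

open Set MeasureTheory Topology

namespace Pool.Agent.Work.MP_97bde0_lc

/-- The relation `E` is covered by the graphs of countably many Borel partial injections. -/
structure FM {X : Type*} [MeasurableSpace X] (E : X → X → Prop) where
  D : ℕ → Set X
  ρ : ℕ → X → X
  mD : ∀ k, MeasurableSet (D k)
  mρ : ∀ k, Measurable (ρ k)
  inj : ∀ k, InjOn (ρ k) (D k)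
  rel : ∀ k, ∀ x ∈ D k, E x (ρ k x)
  cov : ∀ x y, E x y → ∃ k, x ∈ D k ∧ ρ k x = y

section

variable {X : Type*} [MeasurableSpace X] [StandardBorelSpace X]

/-- a measurable map injective on a measurable set has a measurable left inverse there -/
theorem exists_leftInv {Y : Type*} [MeasurableSpace Y] [StandardBorelSpace Y] [Nonempty X]
    {f : X → Y} (hf : Measurable f) {A : Set X}
    (hA : MeasurableSet A) (hinj : InjOn f A) :
    ∃ g : Y → X, Measurable g ∧ ∀ x ∈ A, g (f x) = x := by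
  have hsb : StandardBorelSpace A := hA.standardBorel
  have hemb : MeasurableEmbedding (fun x : A => f x) :=
    (hf.comp measurable_subtype_coe).measurableEmbedding
      (fun a b hab => Subtype.ext (hinj a.2 b.2 hab))
  obtain ⟨g, hg, hgf⟩ := hemb.exists_measurable_extend
    (g := fun x : A => (x : X)) measurable_subtype_coe (fun _ => inferInstance)
  exact ⟨g, hg, fun x hx => congrFun hgf ⟨x, hx⟩⟩

theorem exists_FM {E : X → X → Prop} (hE : Equivalence E)
    (hm : MeasurableSet {p : X × X | E p.1 p.2}) (hc : ∀ x, {y | E x y}.Countable) :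
    Nonempty (FM E) := by
  rcases isEmpty_or_nonempty X with hX | hX
  · exact ⟨⟨fun _ => ∅, fun _ => id, fun _ => MeasurableSet.empty, fun _ => measurable_id,
      fun _ => injOn_empty _, fun _ x => (hX.false x).elim, fun x => (hX.false x).elim⟩⟩
  let F : Set (X × X) := {p : X × X | E p.1 p.2}
  have hsb : StandardBorelSpace F := hm.standardBorel
  let π1 : F → X := fun p => p.1.1
  let π2 : F → X := fun p => p.1.2
  have hπ1 : Measurable π1 := measurable_fst.comp measurable_subtype_coe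
  have hπ2 : Measurable π2 := measurable_snd.comp measurable_subtype_coe
  have hc1 : ∀ x, (π1 ⁻¹' {x}).Countable := by
    intro x
    have : InjOn π2 (π1 ⁻¹' {x}) := by
      rintro ⟨⟨a, b⟩, h⟩ h1 ⟨⟨a', b'⟩, h'⟩ h1' h2
      have e1 : a = x := h1
      have e2 : a' = x := h1'
      have e3 : b = b' := h2
      subst e1 e3
      simp [e2]
    refine Set.countable_of_injective_of_countable_image this ((hc x).mono ?_)
    rintro _ ⟨⟨⟨a, b⟩, h⟩, h1, rfl⟩
    have e1 : a = x := h1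
    subst e1
    exact h
  have hc2 : ∀ x, (π2 ⁻¹' {x}).Countable := by
    intro x
    have : InjOn π1 (π2 ⁻¹' {x}) := by
      rintro ⟨⟨a, b⟩, h⟩ h1 ⟨⟨a', b'⟩, h'⟩ h1' h2
      have e1 : b = x := h1
      have e2 : b' = x := h1'
      have e3 : a = a' := h2
      subst e1 e3
      simp [e2]
    refine Set.countable_of_injective_of_countable_image this ((hc x).mono ?_)
    rintro _ ⟨⟨⟨a, b⟩, h⟩, h1, rfl⟩
    have e1 : b = x := h1
    subst e1
    exact hE.symm h
  obtain ⟨B, hB1, hB2, hB3⟩ := lusin_novikov hπ1 hc1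
  obtain ⟨B', hB1', hB2', hB3'⟩ := lusin_novikov hπ2 hc2
  let e := (Denumerable.eqv (ℕ × ℕ)).symm
  let P : ℕ → Set F := fun k => B (e k).1 ∩ B' (e k).2
  have hP : ∀ k, MeasurableSet (P k) := fun k => (hB1 _).inter (hB1' _)
  have hP1 : ∀ k, InjOn π1 (P k) := fun k => (hB2 _).mono inter_subset_left
  have hP2 : ∀ k, InjOn π2 (P k) := fun k => (hB2' _).mono inter_subset_right
  have hcov : ∀ p : F, ∃ k, p ∈ P k := by
    intro p
    obtain ⟨n, hn⟩ := mem_iUnion.1 (hB3.symm ▸ mem_univ p : p ∈ ⋃ n, B n)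
    obtain ⟨m, hm⟩ := mem_iUnion.1 (hB3'.symm ▸ mem_univ p : p ∈ ⋃ n, B' n)
    refine ⟨(Denumerable.eqv (ℕ × ℕ)) (n, m), ?_⟩
    show p ∈ B (e _).1 ∩ B' (e _).2
    simp only [e, Equiv.symm_apply_apply]
    exact ⟨hn, hm⟩
  have hg : ∀ k, ∃ g : X → X, Measurable g ∧ ∀ p ∈ P k, g (π1 p) = π2 p := by
    intro k
    rcases isEmpty_or_nonempty F with hF | hF
    · exact ⟨id, measurable_id, fun p => (hF.false p).elim⟩
    obtain ⟨g, hg, hg'⟩ := exists_leftInv hπ1 (hP k) (hP1 k)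
    exact ⟨π2 ∘ g, hπ2.comp hg, fun p hp => by rw [Function.comp_apply, hg' p hp]⟩
  choose ρ hρ1 hρ2 using hg
  refine ⟨⟨fun k => π1 '' P k, ρ, ?_, hρ1, ?_, ?_, ?_⟩⟩
  · intro k
    exact (hP k).image_of_measurable_injOn hπ1 (hP1 k)
  · rintro k _ ⟨p, hp, rfl⟩ _ ⟨q, hq, rfl⟩ h
    rw [hρ2 k p hp, hρ2 k q hq] at h
    rw [hP2 k hp hq h]
  · rintro k _ ⟨p, hp, rfl⟩
    rw [hρ2 k p hp]
    exact p.2
  · intro x y hxy
    obtain ⟨k, hk⟩ := hcov ⟨(x, y), hxy⟩
    exact ⟨k, ⟨⟨(x, y), hxy⟩, hk, rfl⟩, hρ2 k _ hk⟩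

end

section Basic0

variable {X : Type*} {E : X → X → Prop}

/-- saturation -/
def sat (E : X → X → Prop) (A : Set X) : Set X := {x | ∃ y ∈ A, E x y}

/-- invariant sets -/
def Inv (E : X → X → Prop) (A : Set X) : Prop := ∀ x y, E x y → x ∈ A → y ∈ A

theorem subset_sat (hE : Equivalence E) (A : Set X) : A ⊆ sat E A :=
  fun x hx => ⟨x, hx, hE.refl x⟩

theorem sat_mono {A B : Set X} (h : A ⊆ B) : sat E A ⊆ sat E B := by
  rintro x ⟨y, hy, hxy⟩
  exact ⟨y, h hy, hxy⟩

theorem inv_sat (hE : Equivalence E) (A : Set X) : Inv E (sat E A) := by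
  rintro x y hxy ⟨z, hz, hxz⟩
  exact ⟨z, hz, hE.trans (hE.symm hxy) hxz⟩

theorem Inv.sat_subset {A B : Set X} (hE : Equivalence E) (hB : Inv E B) (h : A ⊆ B) :
    sat E A ⊆ B := by
  rintro x ⟨y, hy, hxy⟩
  exact hB y x (hE.symm hxy) (h hy)

theorem Inv.sat_eq {A : Set X} (hE : Equivalence E) (hA : Inv E A) : sat E A = A :=
  Subset.antisymm (hA.sat_subset hE subset_rfl) (subset_sat hE A)

theorem Inv.compl {A : Set X} (hE : Equivalence E) (hA : Inv E A) : Inv E Aᶜ :=
  fun x y hxy hx hy => hx (hA y x (hE.symm hxy) hy)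

theorem Inv.inter {A B : Set X} (hA : Inv E A) (hB : Inv E B) : Inv E (A ∩ B) :=
  fun x y hxy hx => ⟨hA x y hxy hx.1, hB x y hxy hx.2⟩

theorem Inv.union {A B : Set X} (hA : Inv E A) (hB : Inv E B) : Inv E (A ∪ B) :=
  fun x y hxy hx => hx.imp (hA x y hxy) (hB x y hxy)

theorem Inv.iUnion {ι : Sort*} {A : ι → Set X} (hA : ∀ i, Inv E (A i)) :
    Inv E (⋃ i, A i) := by
  intro x y hxy hx
  obtain ⟨i, hi⟩ := mem_iUnion.1 hx
  exact mem_iUnion.2 ⟨i, hA i x y hxy hi⟩

theorem Inv.iInter {ι : Sort*} {A : ι → Set X} (hA : ∀ i, Inv E (A i)) :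
    Inv E (⋂ i, A i) := by
  intro x y hxy hx
  exact mem_iInter.2 fun i => hA i x y hxy (mem_iInter.1 hx i)

theorem Inv.diff {A B : Set X} (hE : Equivalence E) (hA : Inv E A) (hB : Inv E B) :
    Inv E (A \ B) := hA.inter (hB.compl hE)

theorem inv_empty : Inv E (∅ : Set X) := fun _ _ _ h => h

theorem inv_univ : Inv E (univ : Set X) := fun _ _ _ _ => mem_univ _

theorem sat_iUnion {ι : Sort*} (A : ι → Set X) : sat E (⋃ i, A i) = ⋃ i, sat E (A i) := by
  ext x
  simp only [sat, mem_iUnion, mem_ofPred_eq]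
  constructor
  · rintro ⟨y, ⟨i, hi⟩, h⟩; exact ⟨i, y, hi, h⟩
  · rintro ⟨i, y, hi, h⟩; exact ⟨y, ⟨i, hi⟩, h⟩

end Basic0

section Basic

variable {X : Type*} [MeasurableSpace X] {E : X → X → Prop}

theorem FM.sat_eq (h : FM E) (A : Set X) : sat E A = ⋃ k, (h.D k ∩ h.ρ k ⁻¹' A) := by
  ext x
  constructor
  · rintro ⟨y, hy, hxy⟩
    obtain ⟨k, hk, rfl⟩ := h.cov x y hxy
    exact mem_iUnion.2 ⟨k, hk, hy⟩
  · intro hx
    obtain ⟨k, hk, hy⟩ := mem_iUnion.1 hx
    exact ⟨_, hy, h.rel k x hk⟩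

theorem FM.measurableSet_sat (h : FM E) {A : Set X} (hA : MeasurableSet A) :
    MeasurableSet (sat E A) := by
  rw [h.sat_eq]
  exact MeasurableSet.iUnion fun k => (h.mD k).inter (h.mρ k hA)

/-- `A` has infinitely many pairwise disjoint `E`-copies in `X`. -/
def Copies (E : X → X → Prop) (A : Set X) : Prop :=
  ∃ p : ℕ → X → X, (∀ n, Measurable (p n)) ∧ (∀ n, ∀ x ∈ A, E x (p n x)) ∧
    ∀ m n, ∀ x ∈ A, ∀ y ∈ A, p m x = p n y → m = n ∧ x = y

theorem Copies.mono {A B : Set X} (h : Copies E B) (hAB : A ⊆ B) : Copies E A := by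
  obtain ⟨p, h1, h2, h3⟩ := h
  exact ⟨p, h1, fun n x hx => h2 n x (hAB hx),
    fun m n x hx y hy => h3 m n x (hAB hx) y (hAB hy)⟩

/-- Gluing measurable functions along a countable measurable cover, by least index. -/
theorem exists_glue {Y : Type*} [MeasurableSpace Y] [Nonempty Y] (D : ℕ → Set X)
    (hD : ∀ k, MeasurableSet (D k)) (f : ℕ → X → Y) (hf : ∀ k, Measurable (f k)) :
    ∃ g : X → Y, ∃ i : X → ℕ, Measurable g ∧ Measurable i ∧
      ∀ x ∈ ⋃ k, D k, x ∈ D (i x) ∧ g x = f (i x) x ∧ ∀ j < i x, x ∉ D j := by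
  classical
  let i : X → ℕ := fun x => if h : ∃ k, x ∈ D k then Nat.find h else 0
  have hi : Measurable i := by
    refine measurable_to_countable' fun k => ?_
    have hU : MeasurableSet (⋃ k, D k) := MeasurableSet.iUnion hD
    have : i ⁻¹' {k} = ((D k ∩ ⋂ j : {j // j < k}, (D j)ᶜ) ∪
        (if k = 0 then (⋃ k, D k)ᶜ else ∅)) := by
      ext x
      simp only [mem_preimage, mem_singleton_iff, i]
      by_cases h : ∃ k, x ∈ D k
      · rw [dif_pos h, Nat.find_eq_iff]
        constructor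
        · rintro ⟨h1, h2⟩
          exact Or.inl ⟨h1, mem_iInter.2 fun j => h2 j j.2⟩
        · rintro (⟨h1, h2⟩ | h2)
          · exact ⟨h1, fun j hj => mem_iInter.1 h2 ⟨j, hj⟩⟩
          · exfalso
            split_ifs at h2
            · exact h2 (mem_iUnion.2 h)
            · exact h2
      · rw [dif_neg h]
        constructor
        · rintro rfl
          right
          rw [if_pos rfl]
          exact fun hx => h (mem_iUnion.1 hx)
        · rintro (⟨h1, -⟩ | h2)
          · exact (h ⟨k, h1⟩).elim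
          · split_ifs at h2 with hk
            · exact hk.symm
            · exact h2.elim
    rw [this]
    refine MeasurableSet.union ((hD k).inter (MeasurableSet.iInter fun j => (hD j).compl)) ?_
    split_ifs
    · exact hU.compl
    · exact MeasurableSet.empty
  refine ⟨fun x => f (i x) x, i, ?_, hi, ?_⟩
  · have hF : Measurable (fun p : ℕ × X => f p.1 p.2) :=
      measurable_from_prod_countable_right (f := fun p : ℕ × X => f p.1 p.2) hf
    exact hF.comp (hi.prodMk measurable_id)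
  · intro x hx
    have h : ∃ k, x ∈ D k := mem_iUnion.1 hx
    refine ⟨?_, rfl, ?_⟩
    · simp only [i, dif_pos h]; exact Nat.find_spec h
    · intro j hj
      simp only [i, dif_pos h] at hj
      exact Nat.find_min h hj

theorem Copies.iUnion_inv [Nonempty X] (hE : Equivalence E) {A : ℕ → Set X} (hm : ∀ i, MeasurableSet (A i))
    (hI : ∀ i, Inv E (A i)) (h : ∀ i, Copies E (A i)) : Copies E (⋃ i, A i) := by
  choose p h1 h2 h3 using h
  have : ∀ n, ∃ g : X → X, ∃ i : X → ℕ, Measurable g ∧ Measurable i ∧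
      ∀ x ∈ ⋃ k, A k, x ∈ A (i x) ∧ g x = p (i x) n x ∧ ∀ j < i x, x ∉ A j :=
    fun n => exists_glue A hm (fun i => p i n) (fun i => h1 i n)
  choose g i hg hi hgi using this
  refine ⟨g, hg, ?_, ?_⟩
  · intro n x hx
    rw [(hgi n x hx).2.1]
    exact h2 _ n x (hgi n x hx).1
  · intro m n x hx y hy hxy
    obtain ⟨a1, a2, a3⟩ := hgi m x hx
    obtain ⟨b1, b2, b3⟩ := hgi n y hy
    -- both points are related to the common value
    have e1 : E x (g m x) := by rw [a2]; exact h2 _ m x a1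
    have e2 : E y (g n y) := by rw [b2]; exact h2 _ n y b1
    have e3 : E x y := hE.trans e1 (by rw [hxy]; exact hE.symm e2)
    have c1 : ∀ j, x ∈ A j → y ∈ A j := fun j => hI j x y e3
    have c2 : ∀ j, y ∈ A j → x ∈ A j := fun j => hI j y x (hE.symm e3)
    have hi' : i m x = i n y := by
      rcases lt_trichotomy (i m x) (i n y) with h | h | h
      · exact (b3 _ h (c1 _ a1)).elim
      · exact h
      · exact (a3 _ h (c2 _ b1)).elim
    rw [a2, b2, hi'] at hxy
    exact h3 (i n y) m n x (hi' ▸ a1) y b1 hxy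

theorem Copies.sat [Nonempty X] (hE : Equivalence E) (F : FM E) {A : Set X}
    (hA : MeasurableSet A) (h : Copies E A) : Copies E (sat E A) := by
  obtain ⟨p, h1, h2, h3⟩ := h
  have hD : ∀ k, MeasurableSet (F.D k ∩ F.ρ k ⁻¹' A) := fun k => (F.mD k).inter (F.mρ k hA)
  have : ∀ n, ∃ g : X → X, ∃ i : X → ℕ, Measurable g ∧ Measurable i ∧
      ∀ x ∈ ⋃ k, (F.D k ∩ F.ρ k ⁻¹' A), x ∈ F.D (i x) ∩ F.ρ (i x) ⁻¹' A ∧
        g x = p (Nat.pair n (i x)) (F.ρ (i x) x) ∧ ∀ j < i x, x ∉ F.D j ∩ F.ρ j ⁻¹' A :=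
    fun n => exists_glue _ hD (fun k x => p (Nat.pair n k) (F.ρ k x))
      (fun k => (h1 _).comp (F.mρ k))
  choose g i hg hi hgi using this
  rw [F.sat_eq]
  refine ⟨g, hg, ?_, ?_⟩
  · intro n x hx
    obtain ⟨a1, a2, -⟩ := hgi n x hx
    rw [a2]
    exact hE.trans (F.rel _ x a1.1) (h2 _ _ a1.2)
  · intro m n x hx y hy hxy
    obtain ⟨a1, a2, -⟩ := hgi m x hx
    obtain ⟨b1, b2, -⟩ := hgi n y hy
    rw [a2, b2] at hxy
    obtain ⟨h4, h5⟩ := h3 _ _ _ a1.2 _ b1.2 hxy
    obtain ⟨h6, h7⟩ := Nat.pair_eq_pair.1 h4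
    refine ⟨h6, ?_⟩
    rw [h7] at h5 a1
    exact F.inj _ a1.1 b1.1 h5

/-- a countably additive exhaustion principle -/
theorem exists_maximal_set (μ : Measure X) [IsFiniteMeasure μ] (P : Set X → Prop)
    (hPm : ∀ A, P A → MeasurableSet A) (h0 : P ∅)
    (hU : ∀ f : ℕ → Set X, (∀ n, P (f n)) → P (⋃ n, f n)) :
    ∃ A, P A ∧ ∀ B, P B → μ (B \ A) = 0 := by
  let S : Set ENNReal := {r | ∃ A, P A ∧ μ A = r}
  have hS : S.Nonempty := ⟨_, ∅, h0, rfl⟩
  obtain ⟨u, -, hu1, hu2⟩ := exists_seq_tendsto_sSup hS (OrderTop.bddAbove S)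
  choose A hA hAu using hu2
  have hle : ∀ B, P B → μ B ≤ μ (⋃ n, A n) := by
    intro B hB
    have h1 : μ B ≤ sSup S := le_sSup ⟨B, hB, rfl⟩
    refine h1.trans (le_of_tendsto hu1 (Filter.Eventually.of_forall fun n => ?_))
    rw [← hAu n]
    exact measure_mono (subset_iUnion A n)
  have hAP := hU A hA
  refine ⟨⋃ n, A n, hAP, fun B hB => ?_⟩
  have h2 : P (⋃ n : ℕ, if n = 0 then B else ⋃ n, A n) := by
    refine hU _ fun n => ?_
    split_ifs
    · exact hB
    · exact hAP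
  have h3 : (⋃ n : ℕ, if n = 0 then B else ⋃ n, A n) = (⋃ n, A n) ∪ (B \ ⋃ n, A n) := by
    rw [union_sdiff_self]
    ext x
    simp only [mem_iUnion, mem_union]
    constructor
    · rintro ⟨n, hn⟩
      split_ifs at hn
      · exact Or.inr hn
      · exact Or.inl (mem_iUnion.1 hn)
    · rintro (h | h)
      · exact ⟨1, by simpa using h⟩
      · exact ⟨0, by simpa using h⟩
  have h4 := hle _ h2
  rw [h3, measure_union disjoint_sdiff_right ((hPm B hB).diff (hPm _ hAP))] at h4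
  have hfin : μ (⋃ n, A n) ≠ ⊤ := measure_ne_top _ _
  by_contra hne
  exact absurd h4 (not_le.2 (ENNReal.lt_add_right hfin hne))

end Basic

end Pool.Agent.Work.MP_97bde0_lc
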