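import Pool.Agent.Work.MP_97bde0_lc.Kraft
import Pool.Agent.Work.MP_97bde0_lc.Code

/-!
# Fibre measures over the invariant code
-/

set_option autoImplicit false

open Set MeasureTheory Topology
open scoped ENNReal

namespace Pool.Agent.Work.MP_97bde0_lc

/-- the properties of the coding -/
structure Cod {X : Type*} [MeasurableSpace X] (E : X → X → Prop) (Y : Set X)
    (s w : X → ℕ → Bool) : Prop where
  mY : MeasurableSet Y
  iY : Inv E Y
  ms : Measurable s
  mw : Measurable w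
  wE : ∀ x y, E x y → w x = w y
  inj : ∀ x ∈ Y, ∀ y ∈ Y, s x = s y → w x = w y → x = y
  mv : ∀ x ∈ Y, ∀ z, Ev (s x) z → ∃ y ∈ Y, E x y ∧ s y = z
  nz : ∀ x ∈ Y, ¬ Ev (s x) (fun _ => false)

variable {X : Type*} [MeasurableSpace X] [StandardBorelSpace X] {E : X → X → Prop}
  {Y : Set X} {s w : X → ℕ → Bool}

/-- image of a subset of `Y` in coordinates -/
def im (s w : X → ℕ → Bool) (B : Set X) : Set ((ℕ → Bool) × (ℕ → Bool)) :=
  (fun x => (s x, w x)) '' B

/-- fibre of the image -/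
def fb (s w : X → ℕ → Bool) (B : Set X) (v : ℕ → Bool) : Set (ℕ → Bool) :=
  {z | (z, v) ∈ im s w B}

/-- fibre measure -/
noncomputable def fm (φ' : (ℕ → Bool) × (ℕ → Bool) → X) (T : Set ((ℕ → Bool) × (ℕ → Bool)))
    (v : ℕ → Bool) : Measure X :=
  (coin.restrict {z | (z, v) ∈ T}).map (fun z => φ' (z, v))

omit [StandardBorelSpace X] in
theorem Cod.injφ (C : Cod E Y s w) : InjOn (fun x => (s x, w x)) Y := fun x hx y hy h =>
  C.inj x hx y hy (congrArg Prod.fst h) (congrArg Prod.snd h)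

theorem Cod.exists_inv [Nonempty X] (C : Cod E Y s w) :
    ∃ φ' : (ℕ → Bool) × (ℕ → Bool) → X, Measurable φ' ∧ ∀ x ∈ Y, φ' (s x, w x) = x :=
  exists_leftInv (C.ms.prodMk C.mw) C.mY C.injφ

theorem Cod.measurable_im (C : Cod E Y s w) {B : Set X} (hB : MeasurableSet B) (hBY : B ⊆ Y) :
    MeasurableSet (im s w B) :=
  hB.image_of_measurable_injOn (C.ms.prodMk C.mw) (C.injφ.mono hBY)

theorem Cod.measurable_fb (C : Cod E Y s w) {B : Set X} (hB : MeasurableSet B) (hBY : B ⊆ Y)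
    (v : ℕ → Bool) : MeasurableSet (fb s w B v) :=
  (measurable_id.prodMk measurable_const) (C.measurable_im hB hBY)

section

variable {φ' : (ℕ → Bool) × (ℕ → Bool) → X}

theorem fm_apply (C : Cod E Y s w) (hφ' : Measurable φ') (hφ : ∀ x ∈ Y, φ' (s x, w x) = x)
    {B : Set X} (hB : MeasurableSet B) (hBY : B ⊆ Y) (v : ℕ → Bool) :
    fm φ' (im s w Y) v B = coin (fb s w B v) := by
  have h1 : Measurable (fun z : ℕ → Bool => φ' (z, v)) :=
    hφ'.comp (measurable_id.prodMk measurable_const)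
  rw [fm, Measure.map_apply h1 hB, Measure.restrict_apply (h1 hB)]
  congr 1
  ext z
  constructor
  · rintro ⟨h2, ⟨x, hx, hxz⟩⟩
    have h3 : (s x, w x) = (z, v) := hxz
    have h4 : φ' (z, v) ∈ B := h2
    rw [← h3, hφ x hx] at h4
    exact ⟨x, h4, hxz⟩
  · rintro ⟨x, hx, hxz⟩
    have h3 : (s x, w x) = (z, v) := hxz
    refine ⟨?_, ⟨x, hBY hx, hxz⟩⟩
    show φ' (z, v) ∈ B
    rw [← h3, hφ x (hBY hx)]; exact hx

theorem fm_compl (C : Cod E Y s w) (hφ' : Measurable φ') (hφ : ∀ x ∈ Y, φ' (s x, w x) = x)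
    (v : ℕ → Bool) : fm φ' (im s w Y) v Yᶜ = 0 := by
  have h1 : Measurable (fun z : ℕ → Bool => φ' (z, v)) :=
    hφ'.comp (measurable_id.prodMk measurable_const)
  rw [fm, Measure.map_apply h1 C.mY.compl, Measure.restrict_apply (h1 C.mY.compl)]
  convert measure_empty (μ := coin)
  ext z
  simp only [mem_inter_iff, mem_empty_iff_false, iff_false, not_and]
  rintro h2 ⟨x, hx, hxz⟩
  have h3 : (s x, w x) = (z, v) := hxz
  have h4 : φ' (z, v) ∉ Y := h2
  rw [← h3, hφ x hx] at h4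
  exact h4 hx

theorem fm_univ_le (hφ' : Measurable φ') (v : ℕ → Bool) :
    fm φ' (im s w Y) v univ ≤ 1 := by
  have h1 : Measurable (fun z : ℕ → Bool => φ' (z, v)) :=
    hφ'.comp (measurable_id.prodMk measurable_const)
  rw [fm, Measure.map_apply h1 MeasurableSet.univ, preimage_univ,
    Measure.restrict_apply MeasurableSet.univ]
  exact prob_le_one

theorem fm_ne_top (hφ' : Measurable φ') (v : ℕ → Bool) (B : Set X) :
    fm φ' (im s w Y) v B ≠ ∞ :=
  ((measure_mono (subset_univ B)).trans_lt ((fm_univ_le hφ' v).trans_lt ENNReal.one_lt_top)).ne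

theorem measurable_fm (C : Cod E Y s w) (hφ' : Measurable φ')
    (hφ : ∀ x ∈ Y, φ' (s x, w x) = x) {B : Set X} (hB : MeasurableSet B) (hBY : B ⊆ Y) :
    Measurable (fun v => fm φ' (im s w Y) v B) := by
  have : (fun v => fm φ' (im s w Y) v B) = fun v => coin ((fun z => (z, v)) ⁻¹' im s w B) := by
    funext v
    rw [fm_apply C hφ' hφ hB hBY]
    rfl
  rw [this]
  exact measurable_measure_prodMk_right (C.measurable_im hB hBY)

omit [StandardBorelSpace X] in
theorem fb_inv (C : Cod E Y s w) {B : Set X} (hBY : B ⊆ Y) (hBE : Inv E B) (v : ℕ → Bool) :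
    ∀ x y, Ev x y → x ∈ fb s w B v → y ∈ fb s w B v := by
  rintro z z' hzz ⟨x, hx, hxz⟩
  have h3 : s x = z := congrArg Prod.fst hxz
  have h4 : w x = v := congrArg Prod.snd hxz
  obtain ⟨y, hy, hxy, hsy⟩ := C.mv x (hBY hx) z' (by rw [h3]; exact hzz)
  refine ⟨y, hBE _ _ hxy hx, ?_⟩
  show (s y, w y) = (z', v)
  rw [hsy, ← C.wE x y hxy, h4]

theorem fm_zero_one (C : Cod E Y s w) (hφ' : Measurable φ') (hφ : ∀ x ∈ Y, φ' (s x, w x) = x)
    {B : Set X} (hB : MeasurableSet B) (hBY : B ⊆ Y) (hBE : Inv E B) (v : ℕ → Bool) :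
    fm φ' (im s w Y) v B = 0 ∨ fm φ' (im s w Y) v B = 1 := by
  rw [fm_apply C hφ' hφ hB hBY]
  exact coin_zero_one (C.measurable_fb hB hBY v) (fb_inv C hBY hBE v)

variable {μ : Measure X} [IsFiniteMeasure μ]

theorem null_of_fm (C : Cod E Y s w) (hE : Equivalence E) (hφ' : Measurable φ')
    (hφ : ∀ x ∈ Y, φ' (s x, w x) = x)
    (hfin : ∀ B, MeasurableSet B → B ⊆ Y → Copies E B → μ (sat E B) = 0)
    {B : Set X} (hB : MeasurableSet B) (hBY : B ⊆ Y)
    (h0 : ∀ᵐ v ∂((μ.restrict Y).map w), fm φ' (im s w Y) v B = 0) : μ (sat E B) = 0 := by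
  let ν := (μ.restrict Y).map w
  have hνf : IsFiniteMeasure ν := by
    have : IsFiniteMeasure (μ.restrict Y) := inferInstance
    exact Measure.isFiniteMeasure_map _ _
  have hIm := C.measurable_im hB hBY
  have hprod : (coin.prod ν) (im s w B) = 0 := by
    rw [Measure.prod_apply_symm hIm, lintegral_eq_zero_iff (measurable_measure_prodMk_right hIm)]
    filter_upwards [h0] with v hv
    rw [fm_apply C hφ' hφ hB hBY] at hv
    exact hv
  -- open supersets
  have hG : ∀ n : ℕ, ∃ G : Set ((ℕ → Bool) × (ℕ → Bool)), im s w B ⊆ G ∧ IsOpen G ∧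
      (coin.prod ν) G < (2⁻¹ : ℝ≥0∞) ^ n := by
    intro n
    have hpos : (0 : ℝ≥0∞) < (2⁻¹ : ℝ≥0∞) ^ n := ENNReal.pow_pos (by simp) _
    obtain ⟨G, h1, h2, h3⟩ := Set.exists_isOpen_lt_of_lt (im s w B) (μ := coin.prod ν)
      ((2⁻¹ : ℝ≥0∞) ^ n) (by rw [hprod]; exact hpos)
    exact ⟨G, h1, h2, h3⟩
  choose G hG1 hG2 hG3 using hG
  let f : ℕ → (ℕ → Bool) → ℝ≥0∞ := fun n v => coin ((fun z => (z, v)) ⁻¹' G n)
  have hf : ∀ n, Measurable (f n) := fun n => measurable_measure_prodMk_right (hG2 n).measurableSet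
  have hfi : Measurable (fun v => ⨅ n, f n v) := Measurable.iInf hf
  have hint : ∫⁻ v, ⨅ n, f n v ∂ν = 0 := by
    have h1 : ∀ n, ∫⁻ v, ⨅ n, f n v ∂ν ≤ (2⁻¹ : ℝ≥0∞) ^ n := by
      intro n
      refine (lintegral_mono (fun v => iInf_le _ n)).trans ?_
      rw [← Measure.prod_apply_symm (hG2 n).measurableSet]
      exact (hG3 n).le
    have h2 : Filter.Tendsto (fun n : ℕ => (2⁻¹ : ℝ≥0∞) ^ n) Filter.atTop (𝓝 0) :=
      ENNReal.tendsto_pow_atTop_nhds_zero_of_lt_one (by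
        rw [ENNReal.inv_lt_one]; norm_num)
    exact le_antisymm (ge_of_tendsto' h2 h1) (by simp)
  let V : Set (ℕ → Bool) := {v | ⨅ n, f n v = 0}
  have hV : MeasurableSet V := hfi (measurableSet_singleton 0)
  have hVν : ν Vᶜ = 0 := by
    have := (lintegral_eq_zero_iff hfi).1 hint
    exact this
  obtain ⟨q, hq1, hq2, hq3⟩ := kraft_copies hG2 (V := V) (by
    intro v hv ε hε
    have : ⨅ n, f n v < ε := by
      rw [show ⨅ n, f n v = 0 from hv]; exact hε
    obtain ⟨n, hn⟩ := iInf_lt_iff.1 this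
    exact ⟨n, hn⟩)
  -- part over `V`
  let B1 : Set X := B ∩ w ⁻¹' V
  have hB1 : MeasurableSet B1 := hB.inter (C.mw hV)
  have hmem : ∀ x ∈ B1, ∀ n, (s x, w x) ∈ G n := fun x hx n => hG1 n ⟨x, hx.1, rfl⟩
  have hp : ∀ k, ∀ x ∈ B1, ∃ y ∈ Y, E x y ∧ s y = q k (s x, w x) ∧ w y = w x ∧
      φ' (q k (s x, w x), w x) = y := by
    intro k x hx
    obtain ⟨y, hy, hxy, hsy⟩ := C.mv x (hBY hx.1) _ (hq2 k (s x) (w x) hx.2 (hmem x hx))
    have hwy : w y = w x := (C.wE x y hxy).symm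
    refine ⟨y, hy, hxy, hsy, hwy, ?_⟩
    rw [← hsy, ← hwy]; exact hφ y hy
  have hcop : Copies E B1 := by
    refine ⟨fun k x => φ' (q k (s x, w x), w x), fun k => ?_, fun k x hx => ?_,
      fun k l x hx y hy hxy => ?_⟩
    · exact hφ'.comp (((hq1 k).comp (C.ms.prodMk C.mw)).prodMk C.mw)
    · obtain ⟨y, -, hxy, -, -, he⟩ := hp k x hx
      show E x (φ' (q k (s x, w x), w x))
      rw [he]; exact hxy
    · obtain ⟨x', hx', hxx', hsx', hwx', hex'⟩ := hp k x hx
      obtain ⟨y', hy', hyy', hsy', hwy', hey'⟩ := hp l y hy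
      have hxy : φ' (q k (s x, w x), w x) = φ' (q l (s y, w y), w y) := hxy
      rw [hex', hey'] at hxy
      subst hxy
      have hw : w y = w x := hwy'.symm.trans hwx'
      have hsq : q k (s x, w x) = q l (s y, w x) := by
        rw [← hsx', hsy', hw]
      have hmy : ∀ n, (s y, w x) ∈ G n := by
        intro n; rw [← hw]; exact hmem y hy n
      obtain ⟨h1, h2⟩ := hq3 k l (s x) (s y) (w x) hx.2 (hmem x hx) hmy hsq
      exact ⟨h1, C.inj x (hBY hx.1) y (hBY hy.1) h2 hw.symm⟩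
  have hn1 := hfin B1 hB1 (fun x hx => hBY hx.1) hcop
  -- the rest
  let Z : Set X := Y ∩ w ⁻¹' Vᶜ
  have hZi : Inv E Z := by
    rintro x y hxy ⟨hx, hx'⟩
    refine ⟨C.iY _ _ hxy hx, ?_⟩
    show w y ∈ Vᶜ
    rw [← C.wE x y hxy]; exact hx'
  have hZμ : μ Z = 0 := by
    have h1 : ν Vᶜ = μ (w ⁻¹' Vᶜ ∩ Y) := by
      show ((μ.restrict Y).map w) Vᶜ = _
      rw [Measure.map_apply C.mw hV.compl, Measure.restrict_apply (C.mw hV.compl)]
    show μ (Y ∩ w ⁻¹' Vᶜ) = 0
    rw [inter_comm, ← h1]; exact hVν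
  refine measure_mono_null ?_ (measure_union_null hn1 hZμ)
  rintro x ⟨y, hy, hxy⟩
  by_cases hyV : w y ∈ V
  · left; exact ⟨y, ⟨hy, hyV⟩, hxy⟩
  · right; exact hZi _ _ (hE.symm hxy) ⟨hBY hy, hyV⟩

/-- invariant conull sets have fibres of full measure -/
theorem fm_conull (C : Cod E Y s w) (hE : Equivalence E) (hφ' : Measurable φ')
    (hφ : ∀ x ∈ Y, φ' (s x, w x) = x)
    (hfin : ∀ B, MeasurableSet B → B ⊆ Y → Copies E B → μ (sat E B) = 0)
    {B : Set X} (hB : MeasurableSet B) (hBY : B ⊆ Y) (hBE : Inv E B) (hBμ : μ (Y \ B) = 0) :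
    ∀ᵐ v ∂((μ.restrict Y).map w), fm φ' (im s w Y) v B = 1 := by
  let V : Set (ℕ → Bool) := {v | fm φ' (im s w Y) v B = 0}
  have hV : MeasurableSet V := measurable_fm C hφ' hφ hB hBY (measurableSet_singleton 0)
  let B0 : Set X := B ∩ w ⁻¹' V
  have hB0 : MeasurableSet B0 := hB.inter (C.mw hV)
  have hB0Y : B0 ⊆ Y := inter_subset_left.trans hBY
  have h0 : ∀ v, fm φ' (im s w Y) v B0 = 0 := by
    intro v
    by_cases hv : v ∈ V
    · exact measure_mono_null inter_subset_left hv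
    · rw [fm_apply C hφ' hφ hB0 hB0Y]
      convert measure_empty (μ := coin)
      ext z
      simp only [mem_empty_iff_false, iff_false]
      rintro ⟨x, hx, hxz⟩
      have h4 : w x = v := congrArg Prod.snd hxz
      apply hv
      rw [← h4]; exact hx.2
  have h1 := null_of_fm C hE hφ' hφ hfin hB0 hB0Y (Filter.Eventually.of_forall h0)
  have h2 : μ B0 = 0 := measure_mono_null (subset_sat hE _) h1
  have h3 : ((μ.restrict Y).map w) V = 0 := by
    rw [Measure.map_apply C.mw hV, Measure.restrict_apply (C.mw hV)]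
    refine measure_mono_null ?_ (measure_union_null hBμ h2)
    rintro x ⟨hx1, hx2⟩
    by_cases hx : x ∈ B
    · right; exact ⟨hx, hx1⟩
    · left; exact ⟨hx2, hx⟩
  have h4 : ∀ᵐ v ∂((μ.restrict Y).map w), v ∉ V := measure_eq_zero_iff_ae_notMem.1 h3
  filter_upwards [h4] with v hv
  rcases fm_zero_one C hφ' hφ hB hBY hBE v with h5 | h5
  · exact (hv h5).elim
  · exact h5

end

end Pool.Agent.Work.MP_97bde0_lc
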