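import Pool.Agent.Work.MP_97bde0_lc.Mu

/-!
# Greedy matchings inside a countable Borel equivalence relation
-/

set_option autoImplicit false

open Set MeasureTheory Topology

namespace Pool.Agent.Work.MP_97bde0_lc

variable {X : Type*} [MeasurableSpace X] [StandardBorelSpace X] {E : X → X → Prop}

theorem exists_FM_ne (F : FM E) : ∃ (D : ℕ → Set X) (ρ : ℕ → X → X),
    (∀ k, MeasurableSet (D k)) ∧ (∀ k, Measurable (ρ k)) ∧ (∀ k, InjOn (ρ k) (D k)) ∧
    (∀ k, ∀ x ∈ D k, E x (ρ k x)) ∧ (∀ k, ∀ x ∈ D k, ∀ y ∈ D k, ρ k x ≠ y) ∧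
    ∀ x y, E x y → x ≠ y → ∃ k, x ∈ D k ∧ ρ k x = y := by
  obtain ⟨κ, hκ, hκi⟩ : ∃ κ : X → ℕ → Bool, Measurable κ ∧ Function.Injective κ :=
    ⟨_, MeasurableSpace.measurable_mapNatBool X, MeasurableSpace.injective_mapNatBool X⟩
  have hset : ∀ (f : X → X) (j : ℕ) (b : Bool), Measurable f →
      MeasurableSet {x | κ (f x) j = b} := by
    intro f j b hf
    exact ((measurable_pi_apply j).comp (hκ.comp hf)) (measurableSet_singleton b)
  let D : (ℕ × ℕ × Bool) → Set X := fun q =>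
    F.D q.1 ∩ ({x | κ x q.2.1 = q.2.2} ∩ {x | κ (F.ρ q.1 x) q.2.1 = !q.2.2})
  have hDm : ∀ q, MeasurableSet (D q) := fun q =>
    (F.mD _).inter ((hset id _ _ measurable_id).inter (hset _ _ _ (F.mρ _)))
  obtain ⟨e, he⟩ := exists_surjective_nat (ℕ × ℕ × Bool)
  refine ⟨fun k => D (e k), fun k => F.ρ (e k).1, fun k => hDm _, fun k => F.mρ _,
    fun k => (F.inj _).mono inter_subset_left, fun k x hx => F.rel _ x hx.1, ?_, ?_⟩
  · rintro k x hx y hy h
    have h1 : κ (F.ρ (e k).1 x) (e k).2.1 = !(e k).2.2 := hx.2.2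
    have h2 : κ y (e k).2.1 = (e k).2.2 := hy.2.1
    have h3 : F.ρ (e k).1 x = y := h
    rw [h3, h2] at h1
    simp at h1
  · intro x y hxy hne
    obtain ⟨k, hk, rfl⟩ := F.cov x y hxy
    have : ∃ j, κ x j ≠ κ (F.ρ k x) j := by
      by_contra hcon
      push Not at hcon
      exact hne (hκi (funext hcon))
    obtain ⟨j, hj⟩ := this
    obtain ⟨m, hm⟩ := he (k, j, κ x j)
    refine ⟨m, ?_, by show F.ρ (e m).1 x = _; rw [hm]⟩
    show x ∈ D (e m)
    rw [hm]
    refine ⟨hk, rfl, ?_⟩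
    show κ (F.ρ k x) j = !κ x j
    revert hj
    cases κ x j <;> cases κ (F.ρ k x) j <;> simp

/-- `h` on `A` is a measurable partial matching of points of `U` along `E`. -/
structure PM (E : X → X → Prop) (U : Set X) (A : Set X) (h : X → X) : Prop where
  mA : MeasurableSet A
  mh : Measurable h
  inj : InjOn h A
  sub : A ⊆ U
  img : ∀ x ∈ A, h x ∈ U
  dis : ∀ x ∈ A, ∀ y ∈ A, h x ≠ y
  rel : ∀ x ∈ A, E x (h x)

theorem PM.of_seq [Nonempty X] {U : Set X} {W M : ℕ → Set X} {m : ℕ → X → X} (h0 : W 0 ⊆ U)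
    (hM : ∀ n, MeasurableSet (M n)) (hMW : ∀ n, M n ⊆ W n) (hm : ∀ n, Measurable (m n))
    (hinj : ∀ n, InjOn (m n) (M n)) (hmap : ∀ n, ∀ x ∈ M n, m n x ∈ W n)
    (hdis : ∀ n, ∀ x ∈ M n, ∀ y ∈ M n, m n x ≠ y) (hrel : ∀ n, ∀ x ∈ M n, E x (m n x))
    (hW : ∀ n, W (n + 1) ⊆ W n \ (M n ∪ m n '' M n)) :
    ∃ h, PM E U (⋃ n, M n) h ∧ ∀ n, ∀ x ∈ M n, h x = m n x := by
  have hWanti : ∀ k n, k ≤ n → W n ⊆ W k := by
    intro k n hkn
    induction n, hkn using Nat.le_induction with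
    | base => exact subset_rfl
    | succ n _ ih => exact ((hW n).trans sdiff_subset).trans ih
  have hout : ∀ k n, k < n → ∀ x ∈ W n, x ∉ M k ∧ x ∉ m k '' M k := by
    intro k n hkn x hx
    have h1 := hW k (hWanti (k + 1) n hkn hx)
    exact ⟨fun h => h1.2 (Or.inl h), fun h => h1.2 (Or.inr h)⟩
  have hdisj : ∀ k n x, x ∈ M k → x ∈ M n → k = n := by
    intro k n x hk hn
    rcases lt_trichotomy k n with h | h | h
    · exact ((hout k n h x (hMW n hn)).1 hk).elim
    · exact h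
    · exact ((hout n k h x (hMW k hk)).1 hn).elim
  obtain ⟨g, i, hg, hi, hgi⟩ := exists_glue M hM m hm
  have hgm : ∀ n, ∀ x ∈ M n, g x = m n x := by
    intro n x hx
    obtain ⟨h1, h2, -⟩ := hgi x (mem_iUnion.2 ⟨n, hx⟩)
    rw [h2, hdisj _ _ x h1 hx]
  refine ⟨g, ⟨MeasurableSet.iUnion hM, hg, ?_, ?_, ?_, ?_, ?_⟩, hgm⟩
  · intro x hx y hy hxy
    obtain ⟨k, hk⟩ := mem_iUnion.1 hx
    obtain ⟨n, hn⟩ := mem_iUnion.1 hy
    rw [hgm k x hk, hgm n y hn] at hxy
    rcases lt_trichotomy k n with h | h | h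
    · exact ((hout k n h _ (hmap n y hn)).2 ⟨x, hk, hxy⟩).elim
    · subst h; exact hinj k hk hn hxy
    · exact ((hout n k h _ (hmap k x hk)).2 ⟨y, hn, hxy.symm⟩).elim
  · refine iUnion_subset fun n => (hMW n).trans ((hWanti 0 n (Nat.zero_le _)).trans h0)
  · intro x hx
    obtain ⟨k, hk⟩ := mem_iUnion.1 hx
    rw [hgm k x hk]
    exact h0 (hWanti 0 k (Nat.zero_le _) (hmap k x hk))
  · intro x hx y hy hxy
    obtain ⟨k, hk⟩ := mem_iUnion.1 hx
    obtain ⟨n, hn⟩ := mem_iUnion.1 hy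
    rw [hgm k x hk] at hxy
    rcases lt_trichotomy k n with h | h | h
    · exact (hout k n h _ (hMW n hn)).2 ⟨x, hk, hxy⟩
    · subst h; exact hdis k x hk y hn hxy
    · refine (hout n k h _ (hmap k x hk)).1 ?_
      rw [hxy]; exact hn
  · intro x hx
    obtain ⟨k, hk⟩ := mem_iUnion.1 hx
    rw [hgm k x hk]
    exact hrel k x hk

/-- the unmatched part -/
def PM.rest (U A : Set X) (h : X → X) : Set X := U \ (A ∪ h '' A)

theorem PM.measurableSet_rest {U A : Set X} {h : X → X} (hU : MeasurableSet U)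
    (H : PM E U A h) : MeasurableSet (PM.rest U A h) :=
  hU.diff (H.mA.union (H.mA.image_of_measurable_injOn H.mh H.inj))

/-- One run of the greedy matching, matching points whose types differ by `d`. -/
theorem PM.run [Nonempty X] (F : FM E) {U A : Set X} {h : X → X} (hU : MeasurableSet U)
    (H : PM E U A h) {T : X → ℕ} (hT : Measurable T) (d : ℕ) :
    ∃ (A' : Set X) (h' : X → X), PM E U A' h' ∧ A ⊆ A' ∧ (∀ x ∈ A, h' x = h x) ∧
      (∀ x ∈ A', x ∉ A → T (h' x) = T x + d) ∧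
      ∀ x ∈ PM.rest U A' h', ∀ y ∈ PM.rest U A' h', x ≠ y → E x y → T y ≠ T x + d := by
  obtain ⟨D, ρ, hD, hρ, hinj, hrel, hdis, hcov⟩ := exists_FM_ne F
  let B : ℕ → Set X → Set X := fun k V =>
    D k ∩ (V ∩ (ρ k ⁻¹' V ∩ {x | T (ρ k x) = T x + d}))
  let V : ℕ → Set X := fun n => Nat.rec (PM.rest U A h) (fun k V => V \ (B k V ∪ ρ k '' B k V)) n
  have hV0 : V 0 = PM.rest U A h := rfl
  have hVs : ∀ k, V (k + 1) = V k \ (B k (V k) ∪ ρ k '' B k (V k)) := fun k => rfl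
  have hBm : ∀ k W, MeasurableSet W → MeasurableSet (B k W) := by
    intro k W hW
    refine (hD k).inter (hW.inter ((hρ k hW).inter ?_))
    exact measurableSet_eq_fun (hT.comp (hρ k)) (hT.add_const d)
  have hBD : ∀ k W, B k W ⊆ D k := fun k W => inter_subset_left
  have hVm : ∀ k, MeasurableSet (V k) := by
    intro k
    induction k with
    | zero => exact PM.measurableSet_rest hU H
    | succ k ih =>
      rw [hVs]
      exact ih.diff ((hBm k _ ih).union
        ((hBm k _ ih).image_of_measurable_injOn (hρ k) ((hinj k).mono (hBD k _))))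
  let W : ℕ → Set X := fun n => Nat.casesOn n U V
  let M : ℕ → Set X := fun n => Nat.casesOn n A (fun k => B k (V k))
  let m : ℕ → X → X := fun n => Nat.casesOn n h ρ
  obtain ⟨h', H', hh'⟩ := PM.of_seq (E := E) (U := U) (W := W) (M := M) (m := m)
    subset_rfl
    (by rintro (_ | n); exacts [H.mA, hBm n _ (hVm n)])
    (by rintro (_ | n); exacts [H.sub, fun x hx => hx.2.1])
    (by rintro (_ | n); exacts [H.mh, hρ n])
    (by rintro (_ | n); exacts [H.inj, (hinj n).mono (hBD n _)])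
    (by rintro (_ | n); exacts [H.img, fun x hx => hx.2.2.1])
    (by rintro (_ | n); exacts [H.dis, fun x hx y hy => hdis n x hx.1 y hy.1])
    (by rintro (_ | n); exacts [H.rel, fun x hx => hrel n x hx.1])
    (by
      rintro (_ | n)
      · exact subset_rfl
      · exact subset_rfl)
  have hrestV : ∀ x ∈ PM.rest U (⋃ n, M n) h', ∀ k, x ∈ V k := by
    rintro x ⟨hxU, hx⟩ k
    have h1 : ∀ n, x ∉ M n := fun n hn => hx (Or.inl (mem_iUnion.2 ⟨n, hn⟩))
    have h2 : ∀ n, x ∉ m n '' M n := by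
      rintro n ⟨y, hy, rfl⟩
      exact hx (Or.inr ⟨y, mem_iUnion.2 ⟨n, hy⟩, hh' n y hy⟩)
    induction k with
    | zero => exact ⟨hxU, fun h => h.elim (h1 0) (h2 0)⟩
    | succ k ih =>
      rw [hVs]
      exact ⟨ih, fun h => h.elim (h1 (k + 1)) (h2 (k + 1))⟩
  refine ⟨⋃ n, M n, h', H', subset_iUnion M 0, fun x hx => hh' 0 x hx, ?_, ?_⟩
  · intro x hx hxA
    obtain ⟨n, hn⟩ := mem_iUnion.1 hx
    cases n with
    | zero => exact (hxA hn).elim
    | succ k =>
      rw [hh' (k + 1) x hn]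
      exact hn.2.2.2
  · intro x hx y hy hne hxy hTxy
    obtain ⟨k, hk, rfl⟩ := hcov x y hxy hne
    have hxB : x ∈ B k (V k) := ⟨hk, hrestV x hx k, hrestV _ hy k, hTxy⟩
    exact hx.2 (Or.inl (mem_iUnion.2 ⟨k + 1, hxB⟩))

/-- **Sorted greedy matching.** -/
theorem exists_sorted_matching [Nonempty X] (hE : Equivalence E) (F : FM E) {U : Set X}
    (hU : MeasurableSet U) {T : X → ℕ} (hT : Measurable T) {k : ℕ} (hTk : ∀ x, T x < k) :
    ∃ (A : Set X) (h : X → X), PM E U A h ∧ PT E (PM.rest U A h) ∧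
      (∀ x ∈ A, ∀ y ∈ A, E x y → T x ≤ T (h y)) ∧
      (∀ x ∈ A, ∀ y ∈ A, E x y → T x < T y → T (h y) ≤ T (h x)) := by
  have h0 : PM E U ∅ id := ⟨MeasurableSet.empty, measurable_id, injOn_empty _, empty_subset _,
    fun _ h => h.elim, fun _ h => h.elim, fun _ h => h.elim⟩
  let S : Type _ := {p : Set X × (X → X) // PM E U p.1 p.2}
  have hrun : ∀ (d : ℕ) (p : S), ∃ p' : S, p.1.1 ⊆ p'.1.1 ∧ (∀ x ∈ p.1.1, p'.1.2 x = p.1.2 x) ∧
      (∀ x ∈ p'.1.1, x ∉ p.1.1 → T (p'.1.2 x) = T x + d) ∧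
      ∀ x ∈ PM.rest U p'.1.1 p'.1.2, ∀ y ∈ PM.rest U p'.1.1 p'.1.2, x ≠ y → E x y →
        T y ≠ T x + d := by
    rintro d ⟨⟨A, h⟩, H⟩
    obtain ⟨A', h', H', h1, h2, h3, h4⟩ := H.run F hU hT d
    exact ⟨⟨⟨A', h'⟩, H'⟩, h1, h2, h3, h4⟩
  choose nxt n1 n2 n3 n4 using hrun
  let St : ℕ → S := fun n => Nat.rec ⟨(∅, id), h0⟩ (fun q p => nxt (k - q) p) n
  have hSt0 : (St 0).1.1 = ∅ := rfl
  let A : ℕ → Set X := fun q => (St q).1.1
  let h : ℕ → X → X := fun q => (St q).1.2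
  have H : ∀ q, PM E U (A q) (h q) := fun q => (St q).2
  have m1 : ∀ q, A q ⊆ A (q + 1) := fun q => n1 (k - q) (St q)
  have m2 : ∀ q, ∀ x ∈ A q, h (q + 1) x = h q x := fun q => n2 (k - q) (St q)
  have m3 : ∀ q, ∀ x ∈ A (q + 1), x ∉ A q → T (h (q + 1) x) = T x + (k - q) :=
    fun q => n3 (k - q) (St q)
  have m4 : ∀ q, ∀ x ∈ PM.rest U (A (q + 1)) (h (q + 1)),
      ∀ y ∈ PM.rest U (A (q + 1)) (h (q + 1)), x ≠ y → E x y → T y ≠ T x + (k - q) :=
    fun q => n4 (k - q) (St q)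
  have m1' : ∀ p q, p ≤ q → A p ⊆ A q := by
    intro p q hpq
    induction q, hpq using Nat.le_induction with
    | base => exact subset_rfl
    | succ q _ ih => exact ih.trans (m1 q)
  have m2' : ∀ p q, p ≤ q → ∀ x ∈ A p, h q x = h p x := by
    intro p q hpq x hx
    induction q, hpq using Nat.le_induction with
    | base => rfl
    | succ q hpq ih => rw [m2 q x (m1' p q hpq hx), ih]
  let Q := k + 1
  -- stage of a matched point
  have stage : ∀ x ∈ A Q, ∃ q, q ≤ k ∧ x ∉ A q ∧ x ∈ A (q + 1) ∧ T (h Q x) = T x + (k - q) := by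
    intro x hx
    classical
    have hex : ∃ q, x ∈ A q := ⟨Q, hx⟩
    have h1 := Nat.find_spec hex
    have h2 : ∀ p, p < Nat.find hex → x ∉ A p := fun p hp => Nat.find_min hex hp
    obtain ⟨q, hq⟩ : ∃ q, Nat.find hex = q + 1 := by
      refine ⟨Nat.find hex - 1, ?_⟩
      have : Nat.find hex ≠ 0 := by
        intro h0
        rw [h0] at h1
        exact h1
      omega
    rw [hq] at h1 h2
    have hqQ : q + 1 ≤ Q := by rw [← hq]; exact Nat.find_min' hex hx
    refine ⟨q, by omega, h2 q (Nat.lt_succ_self q), h1, ?_⟩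
    rw [m2' (q + 1) Q hqQ x h1]
    exact m3 q x h1 (h2 q (Nat.lt_succ_self q))
  -- points matched late are unmatched early
  have late : ∀ x ∈ A Q, ∀ p, p ≤ Q → x ∉ A p → x ∈ PM.rest U (A p) (h p) ∧
      h Q x ∈ PM.rest U (A p) (h p) := by
    intro x hx p hp hxp
    refine ⟨⟨(H Q).sub hx, ?_⟩, ⟨(H Q).img x hx, ?_⟩⟩
    · rintro (h1 | ⟨y, hy, h1⟩)
      · exact hxp h1
      · rw [← m2' p Q hp y hy] at h1
        exact (H Q).dis y (m1' p Q hp hy) x hx h1
    · rintro (h1 | ⟨y, hy, h1⟩)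
      · exact (H Q).dis x hx _ (m1' p Q hp h1) rfl
      · rw [← m2' p Q hp y hy] at h1
        have := (H Q).inj (m1' p Q hp hy) hx h1
        rw [this] at hy
        exact hxp hy
  refine ⟨A Q, h Q, H Q, ?_, ?_, ?_⟩
  · -- leftover is a partial transversal
    have hrest : ∀ q, q ≤ Q → PM.rest U (A Q) (h Q) ⊆ PM.rest U (A q) (h q) := by
      rintro q hq x ⟨hx1, hx2⟩
      refine ⟨hx1, ?_⟩
      rintro (h1 | ⟨y, hy, h1⟩)
      · exact hx2 (Or.inl (m1' q Q hq h1))
      · rw [← m2' q Q hq y hy] at h1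
        exact hx2 (Or.inr ⟨y, m1' q Q hq hy, h1⟩)
    have key : ∀ x ∈ PM.rest U (A Q) (h Q), ∀ y ∈ PM.rest U (A Q) (h Q), x ≠ y → E x y →
        T x ≤ T y → False := by
      intro x hx y hy hne hxy hle
      have hTy := hTk y
      let d := T y - T x
      have hd : d ≤ k := by simp only [d]; omega
      have hq : k - d + 1 ≤ Q := by omega
      have := m4 (k - d) x (hrest _ hq hx) y (hrest _ hq hy) hne hxy
      apply this
      have : k - (k - d) = d := by omega
      rw [this]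
      simp only [d]
      omega
    intro x hx y hy hxy
    by_contra hne
    rcases le_total (T x) (T y) with h1 | h1
    · exact key x hx y hy hne hxy h1
    · exact key y hy x hx (Ne.symm hne) (hE.symm hxy) h1
  · intro x hx y hy hxy
    by_contra hlt
    push Not at hlt
    obtain ⟨q, hq, hxq, hxq', hTx⟩ := stage x hx
    obtain ⟨q', hq', hyq, hyq', hTy⟩ := stage y hy
    have hTk1 := hTk (h Q x)
    have hTk2 := hTk (h Q y)
    -- stage for the difference `T (h x) - T y`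
    let d := T (h Q x) - T y
    have hd : d ≤ k := by simp only [d]; omega
    have hd1 : k - d + 1 ≤ q := by simp only [d]; omega
    have hd2 : k - d + 1 ≤ q' := by simp only [d]; omega
    have h1 := (late x hx (k - d + 1) (by omega) (fun h => hxq (m1' _ _ hd1 h))).2
    have h2 := (late y hy (k - d + 1) (by omega) (fun h => hyq (m1' _ _ hd2 h))).1
    have h3 := m4 (k - d) y h2 (h Q x) h1 (fun e => (H Q).dis x hx y hy e.symm)
      (hE.trans (hE.symm hxy) ((H Q).rel x hx))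
    apply h3
    have : k - (k - d) = d := by omega
    rw [this]
    simp only [d]
    omega
  · intro x hx y hy hxy hlt
    by_contra hlt'
    push Not at hlt'
    obtain ⟨q, hq, hxq, hxq', hTx⟩ := stage x hx
    obtain ⟨q', hq', hyq, hyq', hTy⟩ := stage y hy
    have hTk1 := hTk (h Q x)
    have hTk2 := hTk (h Q y)
    let d := T (h Q y) - T x
    have hd : d ≤ k := by simp only [d]; omega
    have hd1 : k - d + 1 ≤ q := by simp only [d]; omega
    have hd2 : k - d + 1 ≤ q' := by simp only [d]; omega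
    have h1 := (late x hx (k - d + 1) (by omega) (fun h => hxq (m1' _ _ hd1 h))).1
    have h2 := (late y hy (k - d + 1) (by omega) (fun h => hyq (m1' _ _ hd2 h))).2
    have h3 := m4 (k - d) x h1 (h Q y) h2 (fun e => (H Q).dis y hy x hx e.symm)
      (hE.trans hxy ((H Q).rel y hy))
    apply h3
    have : k - (k - d) = d := by omega
    rw [this]
    simp only [d]
    omega

end Pool.Agent.Work.MP_97bde0_lc
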