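import Pool.Agent.Work.MP_97bde0_lc.Coin
import Pool.Agent.Work.MP_97bde0_lc.FM

/-!
# Kraft type lemma: infinitely many disjoint copies of a set with null fibres
-/

set_option autoImplicit false

open Set MeasureTheory Topology
open scoped ENNReal

namespace Pool.Agent.Work.MP_97bde0_lc

theorem exists_inj_extend {α β : Type*} [Fintype β] [DecidableEq α] [DecidableEq β]
    (T S : Finset α) (hTS : T ⊆ S) (f : α → β) (hf : InjOn f T)
    (hc : S.card ≤ Fintype.card β) [Nonempty β] :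
    ∃ g : α → β, (∀ x ∈ T, g x = f x) ∧ InjOn g S := by
  classical
  have h1 : (S \ T).card ≤ (Finset.univ \ T.image f).card := by
    rw [Finset.card_sdiff_of_subset hTS, Finset.card_sdiff_of_subset (Finset.subset_univ _),
      Finset.card_univ, Finset.card_image_of_injOn hf]
    omega
  obtain ⟨e⟩ : Nonempty ({x // x ∈ S \ T} ↪ {y // y ∈ Finset.univ \ T.image f}) :=
    Function.Embedding.nonempty_of_card_le (by
      rw [Fintype.card_coe, Fintype.card_coe]; exact h1)
  let g : α → β := fun x => if hx : x ∈ S \ T then (e ⟨x, hx⟩ : β) else f x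
  have hg1 : ∀ x ∈ T, g x = f x := fun x hx => by
    have : x ∉ S \ T := fun h => (Finset.mem_sdiff.1 h).2 hx
    exact dif_neg this
  have hg2 : ∀ x (hx : x ∈ S \ T), g x = e ⟨x, hx⟩ := fun x hx => dif_pos hx
  have hg3 : ∀ x ∈ S \ T, g x ∉ T.image f := fun x hx => by
    rw [hg2 x hx]; exact (Finset.mem_sdiff.1 (e ⟨x, hx⟩).2).2
  refine ⟨g, hg1, ?_⟩
  intro x hx y hy hxy
  by_cases h3 : x ∈ T <;> by_cases h4 : y ∈ T
  · rw [hg1 x h3, hg1 y h4] at hxy
    exact hf h3 h4 hxy
  · have h5 : y ∈ S \ T := Finset.mem_sdiff.2 ⟨hy, h4⟩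
    exact (hg3 y h5 (by rw [← hxy, hg1 x h3]; exact Finset.mem_image_of_mem f h3)).elim
  · have h5 : x ∈ S \ T := Finset.mem_sdiff.2 ⟨hx, h3⟩
    exact (hg3 x h5 (by rw [hxy, hg1 y h4]; exact Finset.mem_image_of_mem f h4)).elim
  · have h5 : x ∈ S \ T := Finset.mem_sdiff.2 ⟨hx, h3⟩
    have h6 : y ∈ S \ T := Finset.mem_sdiff.2 ⟨hy, h4⟩
    rw [hg2 x h5, hg2 y h6] at hxy
    have := e.injective (Subtype.ext hxy)
    exact congrArg Subtype.val this

/-- requests at level `n` -/
abbrev KP (n : ℕ) : Type := Fin (n + 1) × (Fin n → Bool)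

/-- assignments at level `n` -/
abbrev KA (n : ℕ) : Type := KP n → (Fin n → Bool)

/-- truncation of a word -/
def tr {n : ℕ} (v : Fin (n + 1) → Bool) : Fin n → Bool := fun i => v i.castSucc

theorem exists_extend (n : ℕ) (S : KP n → Bool) (S' : KP (n + 1) → Bool) (a : KA n)
    (hinj : ∀ p q, S p = true → S q = true → a p = a q → p = q)
    (hsub : ∀ (k : Fin (n + 1)) (v : Fin (n + 1) → Bool), S (k, tr v) = true →
      S' (k.castSucc, v) = true)
    (hcard : (Finset.univ.filter (fun p => S' p = true)).card ≤ 2 ^ (n + 1)) :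
    ∃ a' : KA (n + 1), (∀ p q, S' p = true → S' q = true → a' p = a' q → p = q) ∧
      ∀ (k : Fin (n + 1)) (v : Fin (n + 1) → Bool), S (k, tr v) = true →
        a' (k.castSucc, v) = Fin.snoc (a (k, tr v)) (v (Fin.last n)) := by
  classical
  let T : Finset (KP (n + 1)) := Finset.univ.filter
    (fun p => ∃ h : p.1.1 < n + 1, S (⟨p.1.1, h⟩, tr p.2) = true)
  let f : KP (n + 1) → (Fin (n + 1) → Bool) := fun p =>
    if h : p.1.1 < n + 1 then Fin.snoc (a (⟨p.1.1, h⟩, tr p.2)) (p.2 (Fin.last n)) else p.2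
  have hf : ∀ p (h : p.1.1 < n + 1), f p = Fin.snoc (a (⟨p.1.1, h⟩, tr p.2)) (p.2 (Fin.last n)) :=
    fun p h => dif_pos h
  have hsn : ∀ (u u' : Fin n → Bool) (b b' : Bool),
      (Fin.snoc u b : Fin (n + 1) → Bool) = Fin.snoc u' b' → u = u' ∧ b = b' := by
    intro u u' b b' h
    constructor
    · funext i
      have := congrFun h i.castSucc
      simpa using this
    · have := congrFun h (Fin.last n)
      simpa using this
  obtain ⟨g, hg1, hg2⟩ := exists_inj_extend T (Finset.univ.filter (fun p => S' p = true))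
    (by
      rintro ⟨k, v⟩ hp
      obtain ⟨h, hS⟩ := (Finset.mem_filter.1 hp).2
      exact Finset.mem_filter.2 ⟨Finset.mem_univ _, hsub ⟨k.1, h⟩ v hS⟩) f
    (by
      rintro ⟨k, v⟩ hp ⟨k', v'⟩ hp' h
      obtain ⟨hk, hS⟩ := (Finset.mem_filter.1 hp).2
      obtain ⟨hk', hS'⟩ := (Finset.mem_filter.1 hp').2
      rw [hf _ hk, hf _ hk'] at h
      obtain ⟨h1, h2⟩ := hsn _ _ _ _ h
      have h3 := hinj _ _ hS hS' h1
      have h4 : k.1 = k'.1 := congrArg (fun q : KP n => q.1.1) h3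
      have h5 : tr v = tr v' := congrArg Prod.snd h3
      refine Prod.ext (Fin.ext h4) ?_
      funext i
      refine Fin.lastCases ?_ (fun i => ?_) i
      · exact h2
      · exact congrFun h5 i)
    (by simpa using hcard)
  refine ⟨g, ?_, ?_⟩
  · intro p q hp hq h
    exact hg2 (Finset.mem_coe.2 (Finset.mem_filter.2 ⟨Finset.mem_univ _, hp⟩))
      (Finset.mem_coe.2 (Finset.mem_filter.2 ⟨Finset.mem_univ _, hq⟩)) h
  · intro k v hS
    rw [hg1 (k.castSucc, v) (Finset.mem_filter.2 ⟨Finset.mem_univ _, k.2, hS⟩)]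
    rw [hf (k.castSucc, v) k.2]
    rfl

theorem kraft {W : Type*} [MeasurableSpace W] (s : ∀ n, W → (KP n → Bool))
    (hs : ∀ n, Measurable (s n)) {V : Set W}
    (hsub : ∀ n, ∀ w ∈ V, ∀ (k : Fin (n + 1)) (v : Fin (n + 1) → Bool),
      s n w (k, tr v) = true → s (n + 1) w (k.castSucc, v) = true)
    (hcard : ∀ n, ∀ w ∈ V, (Finset.univ.filter (fun p => s n w p = true)).card ≤ 2 ^ n) :
    ∃ a : ∀ n, W → KA n, (∀ n, Measurable (a n)) ∧
      (∀ n, ∀ w ∈ V, ∀ p q, s n w p = true → s n w q = true → a n w p = a n w q → p = q) ∧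
      ∀ n, ∀ w ∈ V, ∀ (k : Fin (n + 1)) (v : Fin (n + 1) → Bool), s n w (k, tr v) = true →
        a (n + 1) w (k.castSucc, v) = Fin.snoc (a n w (k, tr v)) (v (Fin.last n)) := by
  classical
  have hΦ : ∀ n, ∃ Φ : (KP n → Bool) × (KP (n + 1) → Bool) × KA n → KA (n + 1),
      ∀ S S' a, (∀ p q, S p = true → S q = true → a p = a q → p = q) →
      (∀ (k : Fin (n + 1)) (v : Fin (n + 1) → Bool), S (k, tr v) = true →
        S' (k.castSucc, v) = true) →
      ((Finset.univ.filter (fun p => S' p = true)).card ≤ 2 ^ (n + 1)) →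
      (∀ p q, S' p = true → S' q = true → Φ (S, S', a) p = Φ (S, S', a) q → p = q) ∧
      ∀ (k : Fin (n + 1)) (v : Fin (n + 1) → Bool), S (k, tr v) = true →
        Φ (S, S', a) (k.castSucc, v) = Fin.snoc (a (k, tr v)) (v (Fin.last n)) := by
    intro n
    have : ∀ t : (KP n → Bool) × (KP (n + 1) → Bool) × KA n, ∃ a' : KA (n + 1),
        (∀ p q, t.1 p = true → t.1 q = true → t.2.2 p = t.2.2 q → p = q) →
        (∀ (k : Fin (n + 1)) (v : Fin (n + 1) → Bool), t.1 (k, tr v) = true →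
          t.2.1 (k.castSucc, v) = true) →
        ((Finset.univ.filter (fun p => t.2.1 p = true)).card ≤ 2 ^ (n + 1)) →
        (∀ p q, t.2.1 p = true → t.2.1 q = true → a' p = a' q → p = q) ∧
        ∀ (k : Fin (n + 1)) (v : Fin (n + 1) → Bool), t.1 (k, tr v) = true →
          a' (k.castSucc, v) = Fin.snoc (t.2.2 (k, tr v)) (v (Fin.last n)) := by
      rintro ⟨S, S', a⟩
      by_cases h : (∀ p q, S p = true → S q = true → a p = a q → p = q) ∧
          (∀ (k : Fin (n + 1)) (v : Fin (n + 1) → Bool), S (k, tr v) = true →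
          S' (k.castSucc, v) = true) ∧
          ((Finset.univ.filter (fun p => S' p = true)).card ≤ 2 ^ (n + 1))
      · obtain ⟨a', ha'⟩ := exists_extend n S S' a h.1 h.2.1 h.2.2
        exact ⟨a', fun _ _ _ => ha'⟩
      · exact ⟨fun _ _ => false, fun h1 h2 h3 => (h ⟨h1, h2, h3⟩).elim⟩
    choose Φ hΦ using this
    exact ⟨Φ, fun S S' a h1 h2 h3 => hΦ (S, S', a) h1 h2 h3⟩
  choose Φ hΦ using hΦ
  let a : ∀ n, W → KA n := fun n => Nat.rec (fun _ _ => Fin.elim0)
    (fun n an w => Φ n (s n w, s (n + 1) w, an w)) n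
  have has : ∀ n w, a (n + 1) w = Φ n (s n w, s (n + 1) w, a n w) := fun n w => rfl
  have hinj : ∀ n, ∀ w ∈ V, ∀ p q, s n w p = true → s n w q = true →
      a n w p = a n w q → p = q := by
    intro n
    induction n with
    | zero =>
      intro w _ p q _ _ _
      exact Prod.ext (Fin.ext (by omega)) (funext fun i => i.elim0)
    | succ n ih =>
      intro w hw
      have := (hΦ n (s n w) (s (n + 1) w) (a n w) (ih w hw) (hsub n w hw) (hcard (n + 1) w hw)).1
      exact this
  refine ⟨a, ?_, hinj, ?_⟩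
  · intro n
    induction n with
    | zero => exact measurable_const
    | succ n ih =>
      exact (measurable_of_countable (Φ n)).comp ((hs n).prodMk ((hs (n + 1)).prodMk ih))
  · intro n w hw
    exact (hΦ n (s n w) (s (n + 1) w) (a n w) (hinj n w hw) (hsub n w hw)
      (hcard (n + 1) w hw)).2

theorem sum_half (m : ℕ) : ∑ k ∈ Finset.range m, (2⁻¹ : ℝ≥0∞) ^ (k + 2) ≤ 1 := by
  have h : ∑ k ∈ Finset.range m, (2⁻¹ : ℝ≥0∞) ^ (k + 2) + (2⁻¹ : ℝ≥0∞) ^ (m + 1) = 2⁻¹ := by
    induction m with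
    | zero => simp
    | succ m ih =>
      rw [Finset.sum_range_succ]
      have : (2⁻¹ : ℝ≥0∞) ^ (m + 2) + (2⁻¹ : ℝ≥0∞) ^ (m + 1 + 1) = (2⁻¹ : ℝ≥0∞) ^ (m + 1) := by
        rw [pow_succ, ← mul_add, ENNReal.inv_two_add_inv_two, mul_one]
      rw [add_assoc, this, ih]
  calc ∑ k ∈ Finset.range m, (2⁻¹ : ℝ≥0∞) ^ (k + 2)
      ≤ ∑ k ∈ Finset.range m, (2⁻¹ : ℝ≥0∞) ^ (k + 2) + (2⁻¹ : ℝ≥0∞) ^ (m + 1) := le_self_add
    _ = 2⁻¹ := h
    _ ≤ 1 := by
      rw [ENNReal.inv_le_one]; norm_num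

/-- action of an assignment -/
def al (n : ℕ) (a : KA n) (k : ℕ) (z : ℕ → Bool) : ℕ → Bool :=
  if h : k < n + 1 then joinN n (a (⟨k, h⟩, takeN n z)) (dropN n z) else z

theorem al_succ {n : ℕ} {a : KA n} {a' : KA (n + 1)} {k : ℕ} (hk : k < n + 1) {z : ℕ → Bool}
    (h : a' ((⟨k, hk⟩ : Fin (n + 1)).castSucc, takeN (n + 1) z) =
      Fin.snoc (a (⟨k, hk⟩, takeN n z)) (z n)) : al (n + 1) a' k z = al n a k z := by
  have hk' : k < n + 1 + 1 := by omega
  have e : (⟨k, hk'⟩ : Fin (n + 1 + 1)) = (⟨k, hk⟩ : Fin (n + 1)).castSucc := rfl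
  simp only [al, hk, hk', dif_pos]
  rw [e, h]
  funext i
  by_cases h1 : i < n
  · have h2 : i < n + 1 := by omega
    simp only [joinN, h1, h2, dif_pos]
    have : (⟨i, h2⟩ : Fin (n + 1)) = (⟨i, h1⟩ : Fin n).castSucc := rfl
    rw [this, Fin.snoc_castSucc]
  · by_cases h2 : i = n
    · subst h2
      have h3 : i < i + 1 := by omega
      simp only [joinN, h3, dif_pos, lt_irrefl, dif_neg, not_false_eq_true, dropN]
      have : (⟨i, h3⟩ : Fin (i + 1)) = Fin.last i := rfl
      rw [this, Fin.snoc_last]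
      congr 1
      omega
    · have h3 : ¬ i < n + 1 := by omega
      simp only [joinN, h1, h3, dif_neg, not_false_eq_true, dropN]
      congr 1
      omega

theorem kraft_copies {W : Type*} [TopologicalSpace W] [SecondCountableTopology W]
    [MeasurableSpace W] [BorelSpace W] {G : ℕ → Set ((ℕ → Bool) × W)}
    (hG : ∀ n, IsOpen (G n)) {V : Set W}
    (hGV : ∀ w ∈ V, ∀ ε : ℝ≥0∞, 0 < ε → ∃ n, coin {z | (z, w) ∈ G n} < ε) :
    ∃ q : ℕ → (ℕ → Bool) × W → (ℕ → Bool), (∀ k, Measurable (q k)) ∧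
      (∀ k z w, w ∈ V → (∀ n, (z, w) ∈ G n) → Ev z (q k (z, w))) ∧
      ∀ k l z z' w, w ∈ V → (∀ n, (z, w) ∈ G n) → (∀ n, (z', w) ∈ G n) →
        q k (z, w) = q l (z', w) → k = l ∧ z = z' := by
  classical
  have hGm : ∀ n, MeasurableSet (G n) := fun n => (hG n).measurableSet
  have hi : ∀ k : ℕ, ∃ i : W → ℕ, Measurable i ∧ ∀ w ∈ V,
      coin {z | (z, w) ∈ G (i w)} < (2⁻¹ : ℝ≥0∞) ^ (k + 2) := by
    intro k
    let D : ℕ → Set W := fun n => {w | coin {z | (z, w) ∈ G n} < (2⁻¹ : ℝ≥0∞) ^ (k + 2)}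
    have hD : ∀ n, MeasurableSet (D n) := by
      intro n
      exact measurableSet_lt (measurable_measure_prodMk_right (hGm n)) measurable_const
    obtain ⟨g, i, -, hi, h1⟩ := exists_glue D hD (fun n _ => n) (fun n => measurable_const)
    refine ⟨i, hi, fun w hw => ?_⟩
    have hpos : (0 : ℝ≥0∞) < (2⁻¹ : ℝ≥0∞) ^ (k + 2) := by
      exact ENNReal.pow_pos (by simp) _
    obtain ⟨n, hn⟩ := hGV w hw _ hpos
    exact (h1 w (mem_iUnion.2 ⟨n, hn⟩)).1
  choose i him hiV using hi
  -- the sets of words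
  let B : ∀ n, (Fin n → Bool) → ℕ → Set W := fun n u m => {w | ∀ z, takeN n z = u → (z, w) ∈ G m}
  have hB : ∀ n u m, MeasurableSet (B n u m) := by
    intro n u m
    have : B n u m = (Prod.snd '' ((G m)ᶜ ∩ {p : (ℕ → Bool) × W | takeN n p.1 = u}))ᶜ := by
      ext w
      simp only [mem_compl_iff, mem_image, not_exists]
      constructor
      · rintro h ⟨z, w'⟩ ⟨⟨h1, h2⟩, rfl⟩
        exact h1 (h z h2)
      · intro h z hz
        by_contra h1
        exact h (z, w) ⟨⟨h1, hz⟩, rfl⟩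
    rw [this]
    refine (IsClosed.measurableSet ?_).compl
    refine isClosedMap_snd_of_compactSpace _ ((hG m).isClosed_compl.inter ?_)
    exact ((isClopen_discrete ({u} : Set (Fin n → Bool))).preimage
      ((continuous_takeN n).comp continuous_fst)).1
  let s : ∀ n, W → (KP n → Bool) := fun n w p => decide (w ∈ B n p.2 (i p.1 w))
  have hsB : ∀ n w p, s n w p = true ↔ w ∈ B n p.2 (i p.1 w) := fun n w p => by
    simp only [s, decide_eq_true_eq]
  have hs : ∀ n, Measurable (s n) := by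
    intro n
    refine measurable_pi_lambda _ fun p => ?_
    have h1 : MeasurableSet {w | w ∈ B n p.2 (i p.1 w)} := by
      have : {w | w ∈ B n p.2 (i p.1 w)} = ⋃ m, ({w | i p.1 w = m} ∩ B n p.2 m) := by
        ext w
        simp only [mem_iUnion]
        constructor
        · intro h; exact ⟨i p.1 w, rfl, h⟩
        · rintro ⟨m, h1, h2⟩
          show w ∈ B n p.2 (i p.1 w)
          rw [show i p.1 w = m from h1]; exact h2
      rw [this]
      exact MeasurableSet.iUnion fun m => ((him p.1) (measurableSet_singleton m)).inter (hB _ _ _)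
    have : (fun w => s n w p) = fun w => if w ∈ {w | w ∈ B n p.2 (i p.1 w)} then true else false := by
      funext w
      by_cases h : w ∈ B n p.2 (i p.1 w)
      · simp [s, h]
      · simp [s, h]
    rw [this]
    exact Measurable.ite h1 measurable_const measurable_const
  have hsub : ∀ n, ∀ w ∈ V, ∀ (k : Fin (n + 1)) (v : Fin (n + 1) → Bool),
      s n w (k, tr v) = true → s (n + 1) w (k.castSucc, v) = true := by
    intro n w _ k v h
    rw [hsB] at h ⊢
    intro z hz
    have hz' : takeN (n + 1) z = v := hz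
    refine h z ?_
    show takeN n z = tr v
    rw [← hz']; rfl
  have hcard : ∀ n, ∀ w ∈ V, (Finset.univ.filter (fun p => s n w p = true)).card ≤ 2 ^ n := by
    intro n w hw
    have h1 : ∀ k : Fin (n + 1), (((Finset.univ.filter (fun u => s n w (k, u) = true)).card : ℕ) :
        ℝ≥0∞) * (2⁻¹ : ℝ≥0∞) ^ n ≤ (2⁻¹ : ℝ≥0∞) ^ (k.1 + 2) := by
      intro k
      rw [← coin_takeN]
      refine (measure_mono ?_).trans (hiV k.1 w hw).le
      intro z hz
      have h2 : takeN n z ∈ Finset.univ.filter (fun u => s n w (k, u) = true) := hz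
      have h3 := (hsB n w _).1 (Finset.mem_filter.1 h2).2
      exact h3 z rfl
    have h2 : (Finset.univ.filter (fun p => s n w p = true)).card =
        ∑ k : Fin (n + 1), (Finset.univ.filter (fun u => s n w (k, u) = true)).card := by
      rw [Finset.card_eq_sum_card_fiberwise (f := Prod.fst) (t := Finset.univ)
        (fun _ _ => Finset.mem_coe.2 (Finset.mem_univ _))]
      refine Finset.sum_congr rfl fun k _ => ?_
      refine Finset.card_bij (fun p _ => p.2) ?_ ?_ ?_
      · rintro ⟨k', u⟩ hp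
        simp only [Finset.mem_filter, Finset.mem_univ, true_and] at hp ⊢
        rw [← hp.2]; exact hp.1
      · rintro ⟨k', u⟩ hp ⟨k'', u'⟩ hp' h
        simp only [Finset.mem_filter, Finset.mem_univ, true_and] at hp hp'
        exact Prod.ext (hp.2.trans hp'.2.symm) h
      · intro u hu
        simp only [Finset.mem_filter, Finset.mem_univ, true_and] at hu
        exact ⟨(k, u), by simp [hu], rfl⟩
    have h3 : (((Finset.univ.filter (fun p => s n w p = true)).card : ℕ) : ℝ≥0∞) *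
        (2⁻¹ : ℝ≥0∞) ^ n ≤ 1 := by
      rw [h2]
      push_cast
      rw [Finset.sum_mul]
      refine (Finset.sum_le_sum fun k _ => h1 k).trans ?_
      rw [Fin.sum_univ_eq_sum_range (fun k => (2⁻¹ : ℝ≥0∞) ^ (k + 2))]
      exact sum_half _
    have h4 : (((Finset.univ.filter (fun p => s n w p = true)).card : ℕ) : ℝ≥0∞) ≤ 2 ^ n := by
      have h5 : (2 : ℝ≥0∞) ^ n * (2⁻¹ : ℝ≥0∞) ^ n = 1 := by
        rw [← mul_pow, ENNReal.mul_inv_cancel (by norm_num) (by norm_num), one_pow]
      calc (((Finset.univ.filter (fun p => s n w p = true)).card : ℕ) : ℝ≥0∞)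
          = (((Finset.univ.filter (fun p => s n w p = true)).card : ℕ) : ℝ≥0∞) *
            ((2 : ℝ≥0∞) ^ n * (2⁻¹ : ℝ≥0∞) ^ n) := by rw [h5, mul_one]
        _ = 2 ^ n * ((((Finset.univ.filter (fun p => s n w p = true)).card : ℕ) : ℝ≥0∞) *
            (2⁻¹ : ℝ≥0∞) ^ n) := by ring
        _ ≤ 2 ^ n * 1 := by gcongr
        _ = 2 ^ n := mul_one _
    exact_mod_cast h4
  obtain ⟨a, ham, hainj, hacoh⟩ := kraft s hs hsub hcard
  -- the maps
  let Dk : ℕ → ℕ → Set ((ℕ → Bool) × W) := fun k n =>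
    {p | ∃ h : k < n + 1, s n p.2 (⟨k, h⟩, takeN n p.1) = true}
  have hDk : ∀ k n, MeasurableSet (Dk k n) := by
    intro k n
    by_cases h : k < n + 1
    · have : Dk k n = {p | s n p.2 (⟨k, h⟩, takeN n p.1) = true} := by
        ext p
        exact ⟨fun ⟨_, h1⟩ => h1, fun h1 => ⟨h, h1⟩⟩
      rw [this]
      have h1 : Measurable (fun p : (ℕ → Bool) × W => (s n p.2, takeN n p.1)) :=
        ((hs n).comp measurable_snd).prodMk ((continuous_takeN n).measurable.comp measurable_fst)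
      exact ((measurable_of_countable (fun q : (KP n → Bool) × (Fin n → Bool) =>
        q.1 (⟨k, h⟩, q.2))).comp h1) (measurableSet_singleton true)
    · have : Dk k n = ∅ := by
        ext p
        exact ⟨fun ⟨h1, _⟩ => (h h1).elim, fun h1 => h1.elim⟩
      rw [this]; exact MeasurableSet.empty
  have hfm : ∀ k n, Measurable (fun p : (ℕ → Bool) × W => al n (a n p.2) k p.1) := by
    intro k n
    by_cases h : k < n + 1
    · have h1 : Measurable (fun p : (ℕ → Bool) × W => (a n p.2, takeN n p.1)) :=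
        ((ham n).comp measurable_snd).prodMk ((continuous_takeN n).measurable.comp measurable_fst)
      have h2 : Measurable (fun p : (ℕ → Bool) × W => a n p.2 (⟨k, h⟩, takeN n p.1)) :=
        (measurable_of_countable (fun q : KA n × (Fin n → Bool) => q.1 (⟨k, h⟩, q.2))).comp h1
      have h3 : (fun p : (ℕ → Bool) × W => al n (a n p.2) k p.1) = fun p =>
          joinN n (a n p.2 (⟨k, h⟩, takeN n p.1)) (dropN n p.1) := by
        funext p
        simp only [al, h, dif_pos]
      rw [h3]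
      exact (continuous_joinN n).measurable.comp
        (h2.prodMk ((continuous_dropN n).measurable.comp measurable_fst))
    · have h3 : (fun p : (ℕ → Bool) × W => al n (a n p.2) k p.1) = fun p => p.1 := by
        funext p
        simp only [al, h, dif_neg, not_false_eq_true]
      rw [h3]; exact measurable_fst
  have hglue := fun k => exists_glue (Dk k) (hDk k)
    (fun n (p : (ℕ → Bool) × W) => al n (a n p.2) k p.1) (hfm k)
  choose q idx hqm hidx hq using hglue
  -- coherence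
  have hcoh : ∀ k n z w, w ∈ V → (z, w) ∈ Dk k n → (z, w) ∈ Dk k (n + 1) ∧
      al (n + 1) (a (n + 1) w) k z = al n (a n w) k z := by
    rintro k n z w hw ⟨hk, hz⟩
    have htr : tr (takeN (n + 1) z) = takeN n z := rfl
    refine ⟨⟨by omega, ?_⟩, ?_⟩
    · exact hsub n w hw ⟨k, hk⟩ (takeN (n + 1) z) (by rw [htr]; exact hz)
    · refine al_succ hk ?_
      have := hacoh n w hw ⟨k, hk⟩ (takeN (n + 1) z) (by rw [htr]; exact hz)
      rw [this, htr]; rfl
  have hcoh' : ∀ k n z w, w ∈ V → (z, w) ∈ Dk k n → ∀ n', n ≤ n' → (z, w) ∈ Dk k n' ∧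
      al n' (a n' w) k z = al n (a n w) k z := by
    intro k n z w hw hz n' hn'
    induction n', hn' using Nat.le_induction with
    | base => exact ⟨hz, rfl⟩
    | succ m _ ih =>
      obtain ⟨h1, h2⟩ := hcoh k m z w hw ih.1
      exact ⟨h1, h2.trans ih.2⟩
  have hmem : ∀ k z w, w ∈ V → (∀ n, (z, w) ∈ G n) → ∃ n, (z, w) ∈ Dk k n := by
    intro k z w hw hz
    have hopen : IsOpen {z' : ℕ → Bool | (z', w) ∈ G (i k w)} :=
      (hG (i k w)).preimage (continuous_id.prodMk continuous_const)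
    obtain ⟨N, hN⟩ := exists_cyl_subset hopen (z := z) (hz _)
    refine ⟨max N k, by have := le_max_right N k; omega, ?_⟩
    rw [hsB]
    intro z' hz'
    exact hN (max N k) (le_max_left _ _) (mem_cyl_iff.2 hz')
  have hval : ∀ k z w, w ∈ V → (∀ n, (z, w) ∈ G n) → ∃ n0, ∀ n, n0 ≤ n →
      (z, w) ∈ Dk k n ∧ q k (z, w) = al n (a n w) k z := by
    intro k z w hw hz
    obtain ⟨n, hn⟩ := hmem k z w hw hz
    obtain ⟨h1, h2, -⟩ := hq k (z, w) (mem_iUnion.2 ⟨n, hn⟩)
    refine ⟨idx k (z, w), fun n' hn' => ?_⟩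
    obtain ⟨h3, h4⟩ := hcoh' k _ z w hw h1 n' hn'
    exact ⟨h3, by rw [h4, h2]⟩
  refine ⟨q, hqm, ?_, ?_⟩
  · intro k z w hw hz
    obtain ⟨n0, h0⟩ := hval k z w hw hz
    obtain ⟨⟨hk, -⟩, h2⟩ := h0 n0 le_rfl
    rw [h2]
    refine ⟨n0, fun m hm => ?_⟩
    have : ¬ m < n0 := by omega
    simp only [al, hk, dif_pos, joinN, this, dif_neg, not_false_eq_true, dropN]
    congr 1
    omega
  · intro k l z z' w hw hz hz' h
    obtain ⟨n0, h0⟩ := hval k z w hw hz
    obtain ⟨n1, h1⟩ := hval l z' w hw hz'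
    let n := max n0 n1
    obtain ⟨⟨hk, hk'⟩, h2⟩ := h0 n (le_max_left _ _)
    obtain ⟨⟨hl, hl'⟩, h3⟩ := h1 n (le_max_right _ _)
    rw [h2, h3] at h
    simp only [al, hk, hl, dif_pos] at h
    have h4 := congrArg (takeN n) h
    rw [takeN_joinN, takeN_joinN] at h4
    have h5 := hainj n w hw _ _ hk' hl' h4
    have h6 : k = l := congrArg (fun q : KP n => q.1.1) h5
    have h7 : takeN n z = takeN n z' := congrArg Prod.snd h5
    have h8 := congrArg (dropN n) h
    rw [dropN_joinN, dropN_joinN] at h8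
    refine ⟨h6, ?_⟩
    rw [← joinN_take_drop n z, ← joinN_take_drop n z', h7, h8]

end Pool.Agent.Work.MP_97bde0_lc
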