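import Mathlib

/-!
# Lusin-Novikov uniformization for countable-to-one Borel maps

A Borel map with countable fibers between standard Borel spaces is injective on each
piece of a countable Borel partition of its domain.
-/

set_option autoImplicit false

open Set MeasureTheory Topology

namespace Pool.Agent.Work.MP_97bde0_lc

section LN

variable {F X : Type*}

section Defs

variable [MeasurableSpace F]

/-- `A` is covered by countably many Borel sets on which `π` is injective. -/
def Sm (π : F → X) (A : Set F) : Prop :=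
  ∃ B : ℕ → Set F, (∀ n, MeasurableSet (B n)) ∧ (∀ n, InjOn π (B n)) ∧ A ⊆ ⋃ n, B n

theorem Sm.mono {π : F → X} {A A' : Set F} (h : Sm π A) (h' : A' ⊆ A) : Sm π A' := by
  obtain ⟨B, h1, h2, h3⟩ := h
  exact ⟨B, h1, h2, h'.trans h3⟩

theorem Sm.iUnion {π : F → X} {ι : Type*} [Countable ι] {A : ι → Set F}
    (h : ∀ i, Sm π (A i)) : Sm π (⋃ i, A i) := by
  rcases isEmpty_or_nonempty ι with hι | hι
  · refine ⟨fun _ => ∅, fun _ => MeasurableSet.empty, fun _ => injOn_empty _, ?_⟩
    simp
  choose B h1 h2 h3 using h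
  obtain ⟨e, he⟩ := exists_surjective_nat (ι × ℕ)
  refine ⟨fun n => B (e n).1 (e n).2, fun n => h1 _ _, fun n => h2 _ _, ?_⟩
  intro x hx
  obtain ⟨i, hi⟩ := mem_iUnion.1 hx
  obtain ⟨k, hk⟩ := mem_iUnion.1 (h3 i hi)
  obtain ⟨n, hn⟩ := he (i, k)
  refine mem_iUnion.2 ⟨n, ?_⟩
  rw [hn]; exact hk

theorem Sm.union {π : F → X} {A A' : Set F} (h : Sm π A) (h' : Sm π A') :
    Sm π (A ∪ A') := by
  have : A ∪ A' = ⋃ b : Bool, cond b A A' := by
    ext x; simp [or_comm]
  rw [this]
  exact Sm.iUnion (fun b => by cases b <;> simpa)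

theorem Sm.of_injOn {π : F → X} {A : Set F} (h : MeasurableSet A) (h' : InjOn π A) :
    Sm π A :=
  ⟨fun _ => A, fun _ => h, fun _ => h', fun _ hx => mem_iUnion.2 ⟨0, hx⟩⟩

/-- a Borel cover witnessing smallness -/
theorem Sm.cover {π : F → X} {A : Set F} (h : Sm π A) :
    ∃ B, MeasurableSet B ∧ A ⊆ B ∧ Sm π B := by
  obtain ⟨B, h1, h2, h3⟩ := h
  exact ⟨⋃ n, B n, MeasurableSet.iUnion h1, h3, ⟨B, h1, h2, subset_rfl⟩⟩

/-- The family `U` is bad. -/
def Bad [MeasurableSpace X] (π : F → X) {ι : Type*} (U : ι → Set F) : Prop :=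
  ∃ C : ι → Set X, (∀ i, MeasurableSet (C i)) ∧ (∀ i, Sm π (U i ∩ π ⁻¹' C i)) ∧
    (⋂ i, π '' U i) ⊆ ⋃ i, C i

theorem Bad.nonempty [MeasurableSpace X] {π : F → X} {ι : Type*} {U : ι → Set F}
    (h : ¬ Bad π U) : (⋂ i, π '' U i).Nonempty := by
  by_contra hne
  rw [not_nonempty_iff_eq_empty] at hne
  apply h
  refine ⟨fun _ => ∅, fun _ => MeasurableSet.empty, fun i => ?_, by simp [hne]⟩
  have : U i ∩ π ⁻¹' ∅ = ∅ := by simp
  rw [this]
  exact Sm.of_injOn MeasurableSet.empty (injOn_empty _)

end Defs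

variable [TopologicalSpace F] [PolishSpace F] [MeasurableSpace F] [BorelSpace F]
variable [TopologicalSpace X] [PolishSpace X] [MeasurableSpace X] [BorelSpace X]

theorem analytic_inter {α : Type*} [TopologicalSpace α] [T2Space α] {s t : Set α}
    (hs : AnalyticSet s) (ht : AnalyticSet t) : AnalyticSet (s ∩ t) := by
  have : s ∩ t = ⋂ b : Bool, cond b s t := by
    ext x; simp [and_comm]
  rw [this]
  exact AnalyticSet.iInter (fun b => by cases b <;> simpa)

/-- an analytic set on which `π` is injective is contained in a Borel one. -/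
theorem exists_borel_injOn {π : F → X} (hπ : Continuous π) {R : Set F} (hR : AnalyticSet R)
    (hinj : InjOn π R) : ∃ R', R ⊆ R' ∧ MeasurableSet R' ∧ InjOn π R' := by
  obtain ⟨𝓑, hc, -, hb⟩ := TopologicalSpace.exists_countable_basis F
  have key : ∀ p : {p : Set F × Set F // p.1 ∈ 𝓑 ∧ p.2 ∈ 𝓑 ∧ Disjoint p.1 p.2},
      ∃ C : Set X, π '' (R ∩ p.1.1) ⊆ C ∧ Disjoint (π '' (R ∩ p.1.2)) C ∧ MeasurableSet C := by
    rintro ⟨⟨V, W⟩, hV, hW, hVW⟩
    have h1 : AnalyticSet (π '' (R ∩ V)) :=
      (analytic_inter hR (hb.isOpen hV).measurableSet.analyticSet).image_of_continuous hπ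
    have h2 : AnalyticSet (π '' (R ∩ W)) :=
      (analytic_inter hR (hb.isOpen hW).measurableSet.analyticSet).image_of_continuous hπ
    have hd : Disjoint (π '' (R ∩ V)) (π '' (R ∩ W)) := by
      rw [Set.disjoint_left]
      rintro _ ⟨z, ⟨hzR, hzV⟩, rfl⟩ ⟨z', ⟨hz'R, hz'W⟩, he⟩
      have : z' = z := hinj hz'R hzR he
      subst this
      exact Set.disjoint_left.1 hVW hzV hz'W
    exact h1.measurablySeparable h2 hd
  choose C hC1 hC2 hC3 using key
  have hcount : Countable {p : Set F × Set F // p.1 ∈ 𝓑 ∧ p.2 ∈ 𝓑 ∧ Disjoint p.1 p.2} := by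
    have : (𝓑 ×ˢ 𝓑).Countable := hc.prod hc
    refine (this.mono ?_).to_subtype
    rintro ⟨V, W⟩ ⟨hV, hW, -⟩
    exact ⟨hV, hW⟩
  refine ⟨⋂ p, {z | (z ∈ p.1.1 → π z ∈ C p) ∧ (z ∈ p.1.2 → π z ∉ C p)}, ?_, ?_, ?_⟩
  · intro z hz
    refine mem_iInter.2 fun p => ⟨fun hzV => hC1 p ⟨z, ⟨hz, hzV⟩, rfl⟩, fun hzW hzC => ?_⟩
    exact Set.disjoint_left.1 (hC2 p) ⟨z, ⟨hz, hzW⟩, rfl⟩ hzC
  · refine MeasurableSet.iInter fun p => ?_
    have hV : MeasurableSet p.1.1 := (hb.isOpen p.2.1).measurableSet
    have hW : MeasurableSet p.1.2 := (hb.isOpen p.2.2.1).measurableSet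
    have hpre : MeasurableSet (π ⁻¹' C p) := hπ.measurable (hC3 p)
    have : {z | (z ∈ p.1.1 → π z ∈ C p) ∧ (z ∈ p.1.2 → π z ∉ C p)}
        = ((p.1.1)ᶜ ∪ π ⁻¹' C p) ∩ ((p.1.2)ᶜ ∪ (π ⁻¹' C p)ᶜ) := by
      ext z
      simp only [mem_setOf_eq, mem_inter_iff, mem_union, mem_compl_iff, mem_preimage]
      tauto
    rw [this]
    exact (hV.compl.union hpre).inter (hW.compl.union hpre.compl)
  · intro z hz z' hz' he
    by_contra hne
    obtain ⟨u, v, hu, hv, hzu, hzv, huv⟩ := t2_separation hne
    obtain ⟨V, hVb, hzV, hVu⟩ := hb.exists_subset_of_mem_open hzu hu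
    obtain ⟨W, hWb, hzW, hWv⟩ := hb.exists_subset_of_mem_open hzv hv
    have hd : Disjoint V W := huv.mono hVu hWv
    have h1 := (mem_iInter.1 hz ⟨(V, W), hVb, hWb, hd⟩).1 hzV
    have h2 := (mem_iInter.1 hz' ⟨(V, W), hVb, hWb, hd⟩).2 hzW
    rw [he] at h1
    exact h2 h1

open Classical in
/-- The splitting lemma. -/
theorem exists_split {F : Type*} [MetricSpace F] [CompleteSpace F] [SecondCountableTopology F]
    [MeasurableSpace F] [BorelSpace F]
    {π : F → X} (hπ : Continuous π) {ι : Type*} [Finite ι] {U : ι → Set F}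
    (hU : ∀ i, IsOpen (U i)) (hbad : ¬ Bad π U) {i j : ι} (hij : i ≠ j) (hUij : U i = U j)
    {ε : ℝ} (hε : 0 < ε) :
    ∃ V W : Set F, IsOpen V ∧ IsOpen W ∧ closure V ⊆ U i ∧ closure W ⊆ U i ∧
      Disjoint (closure V) (closure W) ∧ (∀ x ∈ V, ∀ y ∈ V, dist x y ≤ ε) ∧
      (∀ x ∈ W, ∀ y ∈ W, dist x y ≤ ε) ∧
      ¬ Bad π (Function.update (Function.update U i V) j W) := by
  by_contra hcon
  push Not at hcon
  obtain ⟨𝓑, hc, -, hb⟩ := TopologicalSpace.exists_countable_basis F
  let P : Set (Set F × Set F) := {p | p.1 ∈ 𝓑 ∧ p.2 ∈ 𝓑 ∧ closure p.1 ⊆ U i ∧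
    closure p.2 ⊆ U i ∧ Disjoint (closure p.1) (closure p.2) ∧
    (∀ x ∈ p.1, ∀ y ∈ p.1, dist x y ≤ ε) ∧ (∀ x ∈ p.2, ∀ y ∈ p.2, dist x y ≤ ε)}
  have hPc : Countable P := by
    have : (𝓑 ×ˢ 𝓑).Countable := hc.prod hc
    refine (this.mono ?_).to_subtype
    rintro ⟨V, W⟩ ⟨hV, hW, -⟩
    exact ⟨hV, hW⟩
  have hB : ∀ p : P, Bad π (Function.update (Function.update U i p.1.1) j p.1.2) := by
    rintro ⟨⟨V, W⟩, h1, h2, h3, h4, h5, h6, h7⟩
    exact hcon V W (hb.isOpen h1) (hb.isOpen h2) h3 h4 h5 h6 h7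
  choose C hC1 hC2 hC3 using hB
  -- the union of bad witnesses
  have hCi : ∀ p : P, Sm π (p.1.1 ∩ π ⁻¹' C p i) := by
    intro p
    have := hC2 p i
    rwa [Function.update_of_ne hij, Function.update_self] at this
  have hCj : ∀ p : P, Sm π (p.1.2 ∩ π ⁻¹' C p j) := by
    intro p
    have := hC2 p j
    rwa [Function.update_self] at this
  have hCk : ∀ p : P, ∀ k, k ≠ i → k ≠ j → Sm π (U k ∩ π ⁻¹' C p k) := by
    intro p k hki hkj
    have := hC2 p k
    rwa [Function.update_of_ne hkj, Function.update_of_ne hki] at this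
  obtain ⟨N, hNm, hN, hNs⟩ := Sm.cover ((Sm.iUnion hCi).union (Sm.iUnion hCj))
  let D : Set X := ⋃ k : {k : ι // k ≠ i ∧ k ≠ j}, ⋃ p : P, C p k
  have hDm : MeasurableSet D :=
    MeasurableSet.iUnion fun k => MeasurableSet.iUnion fun p => hC1 p _
  let A : Set X := ⋂ k, π '' U k
  have hne : Nonempty ι := ⟨i⟩
  have hA : AnalyticSet A := AnalyticSet.iInter fun k => (hU k).analyticSet_image hπ
  have hA' : AnalyticSet (A ∩ Dᶜ) := analytic_inter hA hDm.compl.analyticSet
  let R : Set F := (U i ∩ π ⁻¹' (A ∩ Dᶜ)) ∩ Nᶜ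
  have hR : AnalyticSet R :=
    analytic_inter (analytic_inter (hU i).measurableSet.analyticSet (hA'.preimage hπ))
      hNm.compl.analyticSet
  have hRinj : InjOn π R := by
    rintro z ⟨⟨hzU, hzA, hzD⟩, hzN⟩ z' ⟨⟨hz'U, hz'A, hz'D⟩, hz'N⟩ he
    by_contra hzz
    -- choose small basic neighbourhoods
    have hdist : 0 < dist z z' := dist_pos.2 hzz
    obtain ⟨r, hr, hrU⟩ := Metric.isOpen_iff.1 (hU i) z hzU
    obtain ⟨r', hr', hr'U⟩ := Metric.isOpen_iff.1 (hU i) z' hz'U
    let δ : ℝ := min (min (r/2) (r'/2)) (min (dist z z' / 4) (ε / 2))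
    have hδ : 0 < δ := by positivity
    have hδr : δ ≤ r / 2 := (min_le_left _ _).trans (min_le_left _ _)
    have hδr' : δ ≤ r' / 2 := (min_le_left _ _).trans (min_le_right _ _)
    have hδd : δ ≤ dist z z' / 4 := (min_le_right _ _).trans (min_le_left _ _)
    have hδε : δ ≤ ε / 2 := (min_le_right _ _).trans (min_le_right _ _)
    obtain ⟨V, hVb, hzV, hVu⟩ := hb.exists_subset_of_mem_open
      (Metric.mem_ball_self hδ) (Metric.isOpen_ball (x := z) (ε := δ))
    obtain ⟨W, hWb, hzW, hWv⟩ := hb.exists_subset_of_mem_open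
      (Metric.mem_ball_self hδ) (Metric.isOpen_ball (x := z') (ε := δ))
    have hVc : closure V ⊆ Metric.closedBall z δ :=
      (closure_mono hVu).trans Metric.closure_ball_subset_closedBall
    have hWc : closure W ⊆ Metric.closedBall z' δ :=
      (closure_mono hWv).trans Metric.closure_ball_subset_closedBall
    have hp : (V, W) ∈ P := by
      refine ⟨hVb, hWb, ?_, ?_, ?_, ?_, ?_⟩
      · refine hVc.trans (fun y hy => hrU ?_)
        rw [Metric.mem_closedBall] at hy
        rw [Metric.mem_ball]; linarith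
      · refine hWc.trans (fun y hy => hr'U ?_)
        rw [Metric.mem_closedBall] at hy
        rw [Metric.mem_ball]; linarith
      · rw [Set.disjoint_left]
        intro y hy hy'
        have h1 := Metric.mem_closedBall.1 (hVc hy)
        have h2 := Metric.mem_closedBall.1 (hWc hy')
        have h3 := dist_triangle_left z z' y
        linarith
      · intro x hx y hy
        have h1 := Metric.mem_ball.1 (hVu hx)
        have h2 := Metric.mem_ball.1 (hVu hy)
        have h3 := dist_triangle_right x y z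
        linarith
      · intro x hx y hy
        have h1 := Metric.mem_ball.1 (hWv hx)
        have h2 := Metric.mem_ball.1 (hWv hy)
        have h3 := dist_triangle_right x y z'
        linarith
    have hx : π z ∈ ⋂ k, π '' (Function.update (Function.update U i V) j W) k := by
      refine mem_iInter.2 fun k => ?_
      by_cases hkj : k = j
      · subst hkj
        rw [Function.update_self]
        exact ⟨z', hzW, he.symm⟩
      by_cases hki : k = i
      · subst hki
        rw [Function.update_of_ne hkj, Function.update_self]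
        exact ⟨z, hzV, rfl⟩
      rw [Function.update_of_ne hkj, Function.update_of_ne hki]
      exact mem_iInter.1 hzA k
    obtain ⟨k, hk⟩ := mem_iUnion.1 (hC3 ⟨(V, W), hp⟩ hx)
    by_cases hkj : k = j
    · subst hkj
      apply hz'N
      refine hN (Or.inr (mem_iUnion.2 ⟨⟨(V, W), hp⟩, hzW, ?_⟩))
      rw [mem_preimage, ← he]; exact hk
    by_cases hki : k = i
    · subst hki
      apply hzN
      exact hN (Or.inl (mem_iUnion.2 ⟨⟨(V, W), hp⟩, hzV, hk⟩))
    apply hzD
    exact mem_iUnion.2 ⟨⟨k, hki, hkj⟩, mem_iUnion.2 ⟨⟨(V, W), hp⟩, hk⟩⟩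
  obtain ⟨R', hRR', hR'm, hR'inj⟩ := exists_borel_injOn hπ hR hRinj
  let M : Set F := R' ∪ N
  have hMm : MeasurableSet M := hR'm.union hNm
  have hMs : Sm π M := (Sm.of_injOn hR'm hR'inj).union hNs
  have hsub : U i ∩ π ⁻¹' (A ∩ Dᶜ) ⊆ M := by
    intro z hz
    by_cases hzN : z ∈ N
    · exact Or.inr hzN
    · exact Or.inl (hRR' ⟨hz, hzN⟩)
  have hsep : MeasurablySeparable (A ∩ Dᶜ) (π '' (U i ∩ Mᶜ)) := by
    refine hA'.measurablySeparable ?_ ?_
    · exact (analytic_inter (hU i).measurableSet.analyticSet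
        hMm.compl.analyticSet).image_of_continuous hπ
    · rw [Set.disjoint_left]
      rintro _ hx ⟨z, ⟨hzU, hzM⟩, rfl⟩
      exact hzM (hsub ⟨hzU, hx⟩)
  obtain ⟨C0, hC01, hC02, hC03⟩ := hsep
  have hC0s : Sm π (U i ∩ π ⁻¹' C0) := by
    refine hMs.mono ?_
    rintro z ⟨hzU, hzC⟩
    by_contra hzM
    exact Set.disjoint_left.1 hC02 ⟨z, ⟨hzU, hzM⟩, rfl⟩ hzC
  apply hbad
  refine ⟨fun k => if k = i then C0 else if k = j then ∅ else ⋃ p : P, C p k, ?_, ?_, ?_⟩
  · intro k
    by_cases hki : k = i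
    · simp only [hki, if_true]; exact hC03
    by_cases hkj : k = j
    · show MeasurableSet (if k = i then C0 else if k = j then ∅ else ⋃ p : P, C p k)
      rw [if_neg hki, if_pos hkj]
      exact MeasurableSet.empty
    simp only [hki, hkj, if_false]
    exact MeasurableSet.iUnion fun p => hC1 p k
  · intro k
    by_cases hki : k = i
    · subst hki
      simp only [if_true]; exact hC0s
    by_cases hkj : k = j
    · have : U k ∩ π ⁻¹' (if k = i then C0 else if k = j then ∅ else ⋃ p : P, C p k) = ∅ := by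
        rw [if_neg hki, if_pos hkj]; simp
      rw [this]
      exact Sm.of_injOn MeasurableSet.empty (injOn_empty _)
    simp only [hki, hkj, if_false]
    have : U k ∩ π ⁻¹' (⋃ p : P, C p k) = ⋃ p : P, (U k ∩ π ⁻¹' C p k) := by
      rw [preimage_iUnion, inter_iUnion]
    rw [this]
    exact Sm.iUnion fun p => hCk p k hki hkj
  · intro x hx
    by_cases hxD : x ∈ D
    · obtain ⟨⟨k, hki, hkj⟩, hk⟩ := mem_iUnion.1 hxD
      refine mem_iUnion.2 ⟨k, ?_⟩
      simp only [hki, hkj, if_false]
      exact hk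
    · refine mem_iUnion.2 ⟨i, ?_⟩
      simp only [if_true]
      exact hC01 ⟨hx, hxD⟩

/-- index types of the Cantor scheme -/
def Idx : ℕ → Type
  | 0 => Unit
  | n + 1 => Idx n × Bool

instance instFiniteIdx : ∀ n, Finite (Idx n)
  | 0 => inferInstanceAs (Finite Unit)
  | n + 1 => by
      have := instFiniteIdx n
      exact inferInstanceAs (Finite (Idx n × Bool))

/-- path of a branch -/
def ipath (α : ℕ → Bool) : ∀ n, Idx n
  | 0 => ()
  | n + 1 => (ipath α n, α n)

open Classical in
/-- split all members of a finite family. -/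
theorem exists_split_all {F : Type*} [MetricSpace F] [CompleteSpace F]
    [SecondCountableTopology F] [MeasurableSpace F] [BorelSpace F]
    {π : F → X} (hπ : Continuous π) {ι : Type*} [Finite ι] {U : ι → Set F}
    (hU : ∀ i, IsOpen (U i)) (hbad : ¬ Bad π U) {ε : ℝ} (hε : 0 < ε) :
    ∃ U' : ι × Bool → Set F, (∀ i, IsOpen (U' i)) ∧ ¬ Bad π U' ∧
      (∀ i b, closure (U' (i, b)) ⊆ U i) ∧
      (∀ i, Disjoint (closure (U' (i, false))) (closure (U' (i, true)))) ∧
      (∀ i, ∀ x ∈ U' i, ∀ y ∈ U' i, dist x y ≤ ε) := by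
  have := Fintype.ofFinite ι
  have main : ∀ s : Finset ι, ∃ U' : ι × Bool → Set F, (∀ i, IsOpen (U' i)) ∧ ¬ Bad π U' ∧
      (∀ i ∈ s, ∀ b, closure (U' (i, b)) ⊆ U i) ∧
      (∀ i ∈ s, Disjoint (closure (U' (i, false))) (closure (U' (i, true)))) ∧
      (∀ i ∈ s, ∀ b, ∀ x ∈ U' (i, b), ∀ y ∈ U' (i, b), dist x y ≤ ε) ∧
      (∀ i ∉ s, ∀ b, U' (i, b) = U i) := by
    intro s
    induction s using Finset.induction_on with
    | empty =>
      refine ⟨fun p => U p.1, fun p => hU _, ?_, by simp, by simp, by simp, by simp⟩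
      rintro ⟨C, h1, h2, h3⟩
      apply hbad
      refine ⟨fun i => C (i, false) ∪ C (i, true), fun i => (h1 _).union (h1 _), ?_, ?_⟩
      · intro i
        rw [preimage_union, inter_union_distrib_left]
        exact (h2 (i, false)).union (h2 (i, true))
      · intro x hx
        have : x ∈ ⋂ p : ι × Bool, π '' U p.1 :=
          mem_iInter.2 fun p => mem_iInter.1 hx p.1
        obtain ⟨⟨i, b⟩, hib⟩ := mem_iUnion.1 (h3 this)
        refine mem_iUnion.2 ⟨i, ?_⟩
        cases b
        · exact Or.inl hib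
        · exact Or.inr hib
    | insert a s has ih =>
      obtain ⟨U', h1, h2, h3, h4, h5, h6⟩ := ih
      have hne : ((a, false) : ι × Bool) ≠ (a, true) := by simp
      have hUa : ∀ b, U' (a, b) = U a := h6 a has
      obtain ⟨V, W, hV, hW, hVc, hWc, hVW, hVd, hWd, hnb⟩ :=
        exists_split hπ h1 h2 hne (by rw [hUa, hUa]) hε
      rw [hUa] at hVc hWc
      set U'' := Function.update (Function.update U' (a, false) V) (a, true) W with hU''
      have e1 : U'' (a, true) = W := by rw [hU'', Function.update_self]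
      have e2 : U'' (a, false) = V := by
        rw [hU'', Function.update_of_ne hne, Function.update_self]
      have e3 : ∀ i, i ≠ a → ∀ b, U'' (i, b) = U' (i, b) := by
        intro i hi b
        rw [hU'', Function.update_of_ne (by simp [hi]), Function.update_of_ne (by simp [hi])]
      have hEq : ∀ d1 d2 : DecidableEq (ι × Bool),
          @Function.update (ι × Bool) (fun _ => Set F) d1
            (@Function.update (ι × Bool) (fun _ => Set F) d1 U' (a, false) V) (a, true) W =
          @Function.update (ι × Bool) (fun _ => Set F) d2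
            (@Function.update (ι × Bool) (fun _ => Set F) d2 U' (a, false) V) (a, true) W := by
        intro d1 d2
        rw [Subsingleton.elim d1 d2]
      have hbad'' : ¬ Bad π U'' := by
        rw [hU'', hEq _ (fun a b => Classical.propDecidable (a = b))]
        exact hnb
      refine ⟨U'', ?_, hbad'', ?_, ?_, ?_, ?_⟩
      · rintro ⟨i, b⟩
        by_cases hi : i = a
        · subst hi
          cases b
          · rw [e2]; exact hV
          · rw [e1]; exact hW
        · rw [e3 i hi]; exact h1 _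
      · intro i hi b
        by_cases hia : i = a
        · subst hia
          cases b
          · rw [e2]; exact hVc
          · rw [e1]; exact hWc
        · rw [e3 i hia]
          exact h3 i (Finset.mem_of_mem_insert_of_ne hi hia) b
      · intro i hi
        by_cases hia : i = a
        · subst hia
          rw [e1, e2]; exact hVW
        · rw [e3 i hia, e3 i hia]
          exact h4 i (Finset.mem_of_mem_insert_of_ne hi hia)
      · intro i hi b
        by_cases hia : i = a
        · subst hia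
          cases b
          · rw [e2]; exact hVd
          · rw [e1]; exact hWd
        · rw [e3 i hia]
          exact h5 i (Finset.mem_of_mem_insert_of_ne hi hia) b
      · intro i hi b
        have hia : i ≠ a := fun h => hi (by rw [h]; exact Finset.mem_insert_self _ _)
        rw [e3 i hia]
        exact h6 i (fun h => hi (Finset.mem_insert_of_mem h)) b
  obtain ⟨U', h1, h2, h3, h4, h5, -⟩ := main Finset.univ
  exact ⟨U', h1, h2, fun i b => h3 i (Finset.mem_univ _) b,
    fun i => h4 i (Finset.mem_univ _), fun i => h5 i.1 (Finset.mem_univ _) i.2⟩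

theorem sm_univ {F : Type*} [MetricSpace F] [CompleteSpace F]
    [SecondCountableTopology F] [MeasurableSpace F] [BorelSpace F]
    {π : F → X} (hπ : Continuous π) (hcount : ∀ x, (π ⁻¹' {x}).Countable) :
    Sm π univ := by
  by_contra hns
  have hbad0 : ¬ Bad π (fun _ : Idx 0 => (univ : Set F)) := by
    rintro ⟨C, h1, h2, h3⟩
    apply hns
    refine (h2 ()).mono ?_
    intro z _
    refine ⟨mem_univ _, ?_⟩
    have : π z ∈ ⋂ i : Idx 0, π '' univ := mem_iInter.2 fun _ => ⟨z, mem_univ _, rfl⟩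
    obtain ⟨i, hi⟩ := mem_iUnion.1 (h3 this)
    exact hi
  -- the scheme
  let S : ℕ → Type _ := fun n => {U : Idx n → Set F // (∀ i, IsOpen (U i)) ∧ ¬ Bad π U}
  have step : ∀ n (U : S n), ∃ U' : S (n + 1),
      (∀ (i : Idx n) (b : Bool), closure (U'.1 (i, b)) ⊆ U.1 i) ∧
      (∀ i : Idx n, Disjoint (closure (U'.1 (i, false))) (closure (U'.1 (i, true)))) ∧
      (∀ i : Idx (n + 1), ∀ x ∈ U'.1 i, ∀ y ∈ U'.1 i, dist x y ≤ (1 / 2 : ℝ) ^ n) := by
    intro n U
    obtain ⟨U', h1, h2, h3, h4, h5⟩ := exists_split_all hπ U.2.1 U.2.2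
      (ε := (1 / 2 : ℝ) ^ n) (by positivity)
    exact ⟨⟨U', h1, h2⟩, h3, h4, h5⟩
  choose nxt hn1 hn2 hn3 using step
  let U : ∀ n, S n := fun n => Nat.rec ⟨fun _ => univ, fun _ => isOpen_univ, hbad0⟩
    (fun n U => nxt n U) n
  have hUs : ∀ n, U (n + 1) = nxt n (U n) := fun n => rfl
  have hsub : ∀ n (i : Idx n) (b : Bool), closure ((U (n + 1)).1 (i, b)) ⊆ (U n).1 i := by
    intro n i b; rw [hUs]; exact hn1 n (U n) i b
  have hdisj : ∀ n (i : Idx n), Disjoint (closure ((U (n + 1)).1 (i, false)))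
      (closure ((U (n + 1)).1 (i, true))) := by
    intro n i; rw [hUs]; exact hn2 n (U n) i
  have hdiam : ∀ n (i : Idx (n + 1)), ∀ x ∈ (U (n + 1)).1 i, ∀ y ∈ (U (n + 1)).1 i,
      dist x y ≤ (1 / 2 : ℝ) ^ n := by
    intro n i; rw [hUs]; exact hn3 n (U n) i
  -- points of the base
  have hx : ∀ n, ∃ x, x ∈ ⋂ i, π '' (U n).1 i := fun n => Bad.nonempty (U n).2.2
  choose x hx using hx
  have hy : ∀ (n : ℕ) (i : Idx n), ∃ y ∈ (U n).1 i, π y = x n := by
    intro n i
    exact mem_iInter.1 (hx n) i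
  choose y hyU hyx using hy
  have hnest : ∀ (α : ℕ → Bool) (m n : ℕ), m ≤ n →
      (U n).1 (ipath α n) ⊆ (U m).1 (ipath α m) := by
    intro α m n hmn
    induction n, hmn using Nat.le_induction with
    | base => exact subset_rfl
    | succ n _ ih =>
      exact (subset_closure.trans (hsub n (ipath α n) (α n))).trans ih
  have hcau : ∀ α : ℕ → Bool, CauchySeq (fun n => y (n + 1) (ipath α (n + 1))) := by
    intro α
    refine cauchySeq_of_le_geometric (1/2 : ℝ) 1 (by norm_num) ?_
    intro n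
    rw [one_mul]
    exact hdiam n (ipath α (n + 1)) _ (hyU (n + 1) (ipath α (n + 1))) _
      (hnest α (n + 1) (n + 1 + 1) (Nat.le_succ _) (hyU (n + 1 + 1) (ipath α (n + 1 + 1))))
  have hlim : ∀ α : ℕ → Bool, ∃ z, Filter.Tendsto (fun n => y (n + 1) (ipath α (n + 1)))
      Filter.atTop (nhds z) := fun α => cauchySeq_tendsto_of_complete (hcau α)
  choose z hz using hlim
  have hzmem : ∀ (α : ℕ → Bool) (n : ℕ), z α ∈ closure ((U n).1 (ipath α n)) := by
    intro α n
    refine mem_closure_of_tendsto (hz α) ?_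
    filter_upwards [Filter.eventually_ge_atTop n] with m hm
    exact hnest α n (m + 1) (by omega) (hyU (m + 1) (ipath α (m + 1)))
  have hzx : ∀ α : ℕ → Bool, Filter.Tendsto (fun n => x (n + 1)) Filter.atTop
      (nhds (π (z α))) := by
    intro α
    have := (hπ.tendsto (z α)).comp (hz α)
    refine this.congr fun n => ?_
    exact hyx _ _
  have hzeq : ∀ α, π (z α) = π (z (fun _ => false)) := fun α =>
    tendsto_nhds_unique (hzx α) (hzx _)
  have hzinj : Function.Injective z := by
    intro α β hαβ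
    by_contra hne
    have : ∃ n, α n ≠ β n := by
      by_contra hall
      push Not at hall
      exact hne (funext hall)
    classical
    let n := Nat.find this
    have hn : α n ≠ β n := Nat.find_spec this
    have hlt : ∀ m < n, α m = β m := by
      intro m hm
      by_contra h
      exact Nat.find_min this hm h
    have hpath : ∀ m ≤ n, ipath α m = ipath β m := by
      intro m hm
      induction m with
      | zero => rfl
      | succ m ih =>
        show (ipath α m, α m) = (ipath β m, β m)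
        rw [ih (by omega), hlt m (by omega)]
    have h1 := hzmem α (n + 1)
    have h2 := hzmem β (n + 1)
    have e1 : ipath α (n + 1) = (ipath β n, α n) := by
      show (ipath α n, α n) = _
      rw [hpath n le_rfl]
    have e2 : ipath β (n + 1) = (ipath β n, β n) := rfl
    rw [e1] at h1
    rw [e2, ← hαβ] at h2
    have hd := hdisj n (ipath β n)
    cases ha : α n <;> cases hb : β n
    · rw [ha, hb] at hn; exact hn rfl
    · rw [ha] at h1; rw [hb] at h2
      exact Set.disjoint_left.1 hd h1 h2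
    · rw [ha] at h1; rw [hb] at h2
      exact Set.disjoint_left.1 hd h2 h1
    · rw [ha, hb] at hn; exact hn rfl
  have hcnt : (range z).Countable := by
    refine (hcount (π (z (fun _ => false)))).mono ?_
    rintro _ ⟨α, rfl⟩
    exact hzeq α
  have huncount : ¬ (range z).Countable := by
    intro h
    have h0 := h.to_subtype
    have h1 : Countable (ℕ → Bool) :=
      Function.Injective.countable (f := Set.rangeFactorization z)
        (fun a b hab => hzinj (congrArg Subtype.val hab))
    obtain ⟨f, hf⟩ := exists_surjective_nat (ℕ → Bool)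
    obtain ⟨n, hn⟩ := hf (fun n => !(f n n))
    have := congrFun hn n
    simp at this
  exact huncount hcnt

end LN

theorem sm_univ' {F X : Type*} [TopologicalSpace F] [PolishSpace F] [MeasurableSpace F]
    [BorelSpace F] [TopologicalSpace X] [PolishSpace X] [MeasurableSpace X] [BorelSpace X]
    {π : F → X} (hπ : Continuous π) (hcount : ∀ x, (π ⁻¹' {x}).Countable) :
    Sm π univ := by
  let _ := TopologicalSpace.upgradeIsCompletelyMetrizable F
  exact sm_univ hπ hcount

/-- **Lusin-Novikov**: a Borel map with countable fibers between standard Borel spaces is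
injective on each set of some countable Borel cover. -/
theorem lusin_novikov {F X : Type*} [MeasurableSpace F] [StandardBorelSpace F]
    [MeasurableSpace X] [StandardBorelSpace X] {π : F → X} (hπ : Measurable π)
    (hcount : ∀ x, (π ⁻¹' {x}).Countable) :
    ∃ B : ℕ → Set F, (∀ n, MeasurableSet (B n)) ∧ (∀ n, InjOn π (B n)) ∧
      (⋃ n, B n) = univ := by
  let uF := upgradeStandardBorel F
  let uX := upgradeStandardBorel X
  let tF : TopologicalSpace F := inferInstance
  have hpF : @PolishSpace F tF := inferInstance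
  have hbF : @BorelSpace F tF _ := inferInstance
  obtain ⟨t', ht', hcont, hpol⟩ := hπ.exists_continuous
  have hborel : @borel F t' = @borel F tF :=
    (MeasureTheory.borel_eq_borel_of_le hpol hpF ht')
  have hb : @BorelSpace F t' _ := by
    refine @BorelSpace.mk F t' _ ?_
    rw [hborel]
    exact hbF.measurable_eq
  obtain ⟨B, h1, h2, h3⟩ := @sm_univ' F X t' hpol _ hb _ _ _ _ π hcont hcount
  exact ⟨B, h1, h2, univ_subset_iff.1 h3⟩

end Pool.Agent.Work.MP_97bde0_lc
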