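import Pool.Agent.Work.MP_97bde0_lc.EL

/-!
# Clopen labelings
-/

set_option autoImplicit false

open Set Topology

namespace Pool.Agent.Work.MP_97bde0_lc

/-- a permutation matching two labelings of a finite set with equal fibre sizes -/
theorem exists_perm_of_card {W : Type*} [Fintype W] [DecidableEq W] {c d : W → ℕ}
    (h : ∀ l, (Finset.univ.filter (fun w => c w = l)).card =
      (Finset.univ.filter (fun w => d w = l)).card) :
    ∃ π : Equiv.Perm W, ∀ w, d (π w) = c w := by
  classical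
  have e : ∀ l, Nonempty ({w // c w = l} ≃ {w // d w = l}) := by
    intro l
    refine ⟨Fintype.equivOfCardEq ?_⟩
    rw [Fintype.card_subtype, Fintype.card_subtype]
    exact h l
  let π : W ≃ W := (Equiv.sigmaFiberEquiv c).symm.trans
    ((Equiv.sigmaCongrRight (fun l => (e l).some)).trans (Equiv.sigmaFiberEquiv d))
  refine ⟨π, fun w => ?_⟩
  show d ((e (c w)).some ⟨w, rfl⟩ : {w' // d w' = c w}).1 = c w
  exact ((e (c w)).some ⟨w, rfl⟩).2

section

variable {K : Type*} [TopologicalSpace K] [CompactSpace K] [T2Space K]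
  [TotallyDisconnectedSpace K]

theorem exists_clopen_between {A O : Set K} (hA : IsClosed A) (hO : IsOpen O) (h : A ⊆ O) :
    ∃ C, IsClopen C ∧ A ⊆ C ∧ C ⊆ O := by
  have hc : IsCompact A := hA.isCompact
  have : ∀ a : A, ∃ C, IsClopen C ∧ (a : K) ∈ C ∧ C ⊆ O := fun a =>
    compact_exists_isClopen_in_isOpen hO (h a.2)
  choose C hC1 hC2 hC3 using this
  obtain ⟨t, ht⟩ := hc.elim_finite_subcover C (fun a => (hC1 a).isOpen)
    (fun a ha => mem_iUnion.2 ⟨⟨a, ha⟩, hC2 ⟨a, ha⟩⟩)
  refine ⟨⋃ a ∈ t, C a, ?_, ht, iUnion₂_subset fun a _ => hC3 a⟩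
  exact Set.Finite.isClopen_biUnion t.finite_toSet fun a _ => hC1 a

/-- labeling by a finite family of pairwise disjoint closed sets with prescribed
neighbourhoods -/
theorem exists_label (n : ℕ) (A O : ℕ → Set K) (hA : ∀ i, IsClosed (A i))
    (hd : ∀ i < n, ∀ j < n, i ≠ j → Disjoint (A i) (A j)) (hO : ∀ i, IsOpen (O i))
    (hAO : ∀ i, A i ⊆ O i) :
    ∃ U : K → ℕ, Continuous U ∧ (∀ i < n, ∀ x ∈ A i, U x = i + 1) ∧
      (∀ x i, U x = i + 1 → i < n ∧ x ∈ O i) := by
  classical
  have h1 : ∀ i : ℕ, ∃ C, IsClopen C ∧ (i < n → A i ⊆ C) ∧ C ⊆ O i ∧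
      ∀ j < n, j ≠ i → i < n → Disjoint C (A j) := by
    intro i
    by_cases hi : i < n
    · have hcl : IsClosed (⋃ j ∈ {j | j < n ∧ j ≠ i}, A j) :=
        Set.Finite.isClosed_biUnion ((Set.finite_lt_nat n).subset fun j hj => hj.1)
          fun j _ => hA j
      obtain ⟨C, hC1, hC2, hC3⟩ := exists_clopen_between (hA i)
        ((hO i).inter hcl.isOpen_compl) (by
          intro x hx
          refine ⟨hAO i hx, fun hx' => ?_⟩
          obtain ⟨j, ⟨hj, hji⟩, hxj⟩ := mem_iUnion₂.1 hx'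
          exact Set.disjoint_left.1 (hd i hi j hj hji.symm) hx hxj)
      refine ⟨C, hC1, fun _ => hC2, fun x hx => (hC3 hx).1, ?_⟩
      intro j hj hji _
      rw [Set.disjoint_left]
      intro x hx hxj
      exact (hC3 hx).2 (mem_iUnion₂.2 ⟨j, ⟨hj, hji⟩, hxj⟩)
    · exact ⟨∅, isClopen_empty, fun h => (hi h).elim, empty_subset _, fun _ _ _ h => (hi h).elim⟩
  choose C hC1 hC2 hC3 hC4 using h1
  -- label recursively
  have main : ∀ m, m ≤ n → ∃ U : K → ℕ, Continuous U ∧ (∀ x, (∃ i < m, x ∈ C i) → U x ≠ 0) ∧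
      (∀ x i, U x = i + 1 → i < m ∧ x ∈ C i) := by
    intro m
    induction m with
    | zero =>
      intro _
      exact ⟨fun _ => 0, continuous_const, by simp, by simp⟩
    | succ m ih =>
      intro hm
      obtain ⟨U, hU1, hU2, hU3⟩ := ih (by omega)
      refine ⟨fun x => if U x = 0 then (if x ∈ C m then m + 1 else 0) else U x, ?_, ?_, ?_⟩
      · have hcl : IsClopen {x | U x = 0} := (isClopen_discrete ({0} : Set ℕ)).preimage hU1
        refine Continuous.if ?_ ?_ hU1
        · intro a ha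
          rw [hcl.frontier_eq] at ha
          exact ha.elim
        · refine Continuous.if ?_ continuous_const continuous_const
          intro a ha
          rw [show {a | a ∈ C m} = C m from rfl, (hC1 m).frontier_eq] at ha
          exact ha.elim
      · rintro x ⟨i, hi, hx⟩
        by_cases h0 : U x = 0
        · have him : i = m := by
            by_contra hne
            exact hU2 x ⟨i, by omega, hx⟩ h0
          subst him
          simp only [h0, if_true, hx]
          omega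
        · simp only [h0, if_false]
          exact h0
      · intro x i hxi
        by_cases h0 : U x = 0
        · simp only [h0, if_true] at hxi
          split_ifs at hxi with h1
          · have : i = m := by omega
            subst this
            exact ⟨by omega, h1⟩
        · simp only [h0, if_false] at hxi
          obtain ⟨h1, h2⟩ := hU3 x i hxi
          exact ⟨by omega, h2⟩
  obtain ⟨U, hU1, hU2, hU3⟩ := main n le_rfl
  refine ⟨U, hU1, ?_, fun x i hx => ⟨(hU3 x i hx).1, hC3 i (hU3 x i hx).2⟩⟩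
  intro i hi x hx
  have h1 : U x ≠ 0 := hU2 x ⟨i, hi, hC2 i hi hx⟩
  obtain ⟨j, hj⟩ : ∃ j, U x = j + 1 := ⟨U x - 1, by omega⟩
  obtain ⟨h2, h3⟩ := hU3 x j hj
  have : j = i := by
    by_contra hne
    exact Set.disjoint_left.1 (hC4 j i hi (Ne.symm hne) h2) h3 hx
  rw [hj, this]

end

/-- fine continuous labelings of a compact totally disconnected metric space -/
theorem exists_fine {K : Type*} [MetricSpace K] [CompactSpace K] [TotallyDisconnectedSpace K]
    {u v : K → ℕ} (hu : Continuous u) (hv : Continuous v) {ε : ℝ} (hε : 0 < ε) :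
    ∃ (n : ℕ) (κ : K → ℕ), Continuous κ ∧ (∀ x, κ x < n) ∧
      ∀ x y, κ x = κ y → dist x y < ε ∧ u x = u y ∧ v x = v y := by
  have h1 : ∀ x : K, ∃ C, IsClopen C ∧ x ∈ C ∧
      C ⊆ Metric.ball x (ε / 2) ∩ ({y | u y = u x} ∩ {y | v y = v x}) := by
    intro x
    refine compact_exists_isClopen_in_isOpen ?_ ⟨Metric.mem_ball_self (by positivity), rfl, rfl⟩
    exact Metric.isOpen_ball.inter
      (((isOpen_discrete ({u x} : Set ℕ)).preimage hu).inter
        ((isOpen_discrete ({v x} : Set ℕ)).preimage hv))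
  choose C hC1 hC2 hC3 using h1
  obtain ⟨t, ht⟩ := isCompact_univ.elim_finite_subcover C (fun a => (hC1 a).isOpen)
    (fun a _ => mem_iUnion.2 ⟨a, hC2 a⟩)
  -- enumerate the finite set
  obtain ⟨l, hl⟩ : ∃ l : List K, ∀ x, x ∈ l ↔ x ∈ t := ⟨t.toList, fun x => Finset.mem_toList⟩
  have main : ∀ l : List K, ∃ κ : K → ℕ, Continuous κ ∧ (∀ x, κ x ≤ l.length) ∧
      (∀ x, (∃ a ∈ l, x ∈ C a) → κ x ≠ 0) ∧
      ∀ x y, κ x = κ y → κ x ≠ 0 → ∃ a ∈ l, x ∈ C a ∧ y ∈ C a := by
    intro l
    induction l with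
    | nil => exact ⟨fun _ => 0, continuous_const, by simp, by simp, by simp⟩
    | cons a l ih =>
      classical
      obtain ⟨κ, h1, h2, h3, h4⟩ := ih
      refine ⟨fun x => if κ x = 0 then (if x ∈ C a then l.length + 1 else 0) else κ x,
        ?_, ?_, ?_, ?_⟩
      · have hcl : IsClopen {x | κ x = 0} := (isClopen_discrete ({0} : Set ℕ)).preimage h1
        refine Continuous.if ?_ ?_ h1
        · intro b hb
          rw [hcl.frontier_eq] at hb
          exact hb.elim
        · refine Continuous.if ?_ continuous_const continuous_const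
          intro b hb
          rw [show {b | b ∈ C a} = C a from rfl, (hC1 a).frontier_eq] at hb
          exact hb.elim
      · intro x
        have := h2 x
        simp only [List.length_cons]
        split_ifs <;> omega
      · rintro x ⟨b, hb, hx⟩
        by_cases h0 : κ x = 0
        · have : b = a := by
            rcases List.mem_cons.1 hb with h | h
            · exact h
            · exact (h3 x ⟨b, h, hx⟩ h0).elim
          subst this
          simp only [h0, if_true, hx]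
          omega
        · simp only [h0, if_false]; exact h0
      · intro x y hxy hx
        have hx2 := h2 x
        have hy2 := h2 y
        by_cases h0 : κ x = 0 <;> by_cases h0' : κ y = 0
        · simp only [h0, h0', if_true] at hxy hx
          by_cases hxa : x ∈ C a <;> by_cases hya : y ∈ C a
          · exact ⟨a, by simp, hxa, hya⟩
          · simp [hxa, hya] at hxy
          · simp [hxa] at hx
          · simp [hxa] at hx
        · simp only [h0, h0', if_true, if_false] at hxy hx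
          by_cases hxa : x ∈ C a
          · simp only [hxa, if_true] at hxy
            omega
          · simp [hxa] at hx
        · simp only [h0, h0', if_true, if_false] at hxy hx
          by_cases hya : y ∈ C a
          · simp only [hya, if_true] at hxy
            omega
          · simp only [hya, if_false] at hxy
            exact (hx hxy).elim
        · simp only [h0, h0', if_false] at hxy hx
          obtain ⟨b, hb, h5⟩ := h4 x y hxy hx
          exact ⟨b, by simp [hb], h5⟩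
  obtain ⟨κ, h1, h2, h3, h4⟩ := main l
  refine ⟨l.length + 1, κ, h1, fun x => Nat.lt_succ_of_le (h2 x), ?_⟩
  intro x y hxy
  have hx : κ x ≠ 0 := by
    obtain ⟨a, ha, hxa⟩ := mem_iUnion₂.1 (ht (mem_univ x))
    exact h3 x ⟨a, (hl a).2 ha, hxa⟩
  obtain ⟨a, ha, hxa, hya⟩ := h4 x y hxy hx
  have h5 := hC3 a hxa
  have h6 := hC3 a hya
  refine ⟨?_, h5.2.1.trans h6.2.1.symm, h5.2.2.trans h6.2.2.symm⟩
  have h7 := Metric.mem_ball.1 h5.1
  have h8 := Metric.mem_ball.1 h6.1
  have h9 := dist_triangle_right x y a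
  linarith

/-- The preliminary refinement step. -/
theorem exists_pre {K : Type*} [MetricSpace K] [CompactSpace K] [TotallyDisconnectedSpace K]
    {A : Set K} (hA : IsClosed A) {γ : K → K} (hγ : ContinuousOn γ A) (hinj : InjOn γ A)
    {u v : K → ℕ} (hu : Continuous u) (hv : Continuous v)
    (huv : ∀ a ∈ A, u a = v (γ a) ∧ u a ≠ 0) {X0 Y0 : Set K} (hX0 : X0.Finite)
    (hY0 : Y0.Finite) (hXA : Disjoint X0 A) (hYA : Disjoint Y0 (γ '' A)) {ε : ℝ}
    (hε : 0 < ε) :
    ∃ U V : K → ℕ, Continuous U ∧ Continuous V ∧ (∀ a ∈ A, U a = V (γ a) ∧ U a ≠ 0) ∧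
      (∀ x y, U x = U y → U x ≠ 0 → dist x y < ε) ∧
      (∀ x y, V x = V y → V x ≠ 0 → dist x y < ε) ∧
      (∀ x y, U x = V y → U x ≠ 0 → u x = v y ∧ u x ≠ 0) ∧
      (∀ x ∈ X0, U x = 0) ∧ (∀ y ∈ Y0, V y = 0) ∧
      (∀ x, U x ≠ 0 → ∃ a ∈ A, U a = U x) ∧ (∀ y, V y ≠ 0 → ∃ a ∈ A, U a = V y) := by
  obtain ⟨n, κ, hκ, hκn, hκf⟩ := exists_fine hu hv hε
  let J : K → ℕ := fun a => κ a * n + κ (γ a)
  have hJinj : ∀ a b, J a = J b → κ a = κ b ∧ κ (γ a) = κ (γ b) := by
    intro a b h
    have h1 := hκn (γ a)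
    have h2 := hκn (γ b)
    simp only [J] at h
    have hn : 0 < n := by omega
    have h3 : (κ a * n + κ (γ a)) / n = (κ b * n + κ (γ b)) / n := by rw [h]
    rw [Nat.mul_comm, Nat.mul_add_div hn, Nat.div_eq_of_lt h1, Nat.mul_comm,
      Nat.mul_add_div hn, Nat.div_eq_of_lt h2] at h3
    have h4 : κ a = κ b := by omega
    rw [h4] at h
    exact ⟨h4, by omega⟩
  have hJlt : ∀ a, J a < n * n + n := by
    intro a
    have h1 := hκn a
    have h2 := hκn (γ a)
    simp only [J]
    have : κ a * n ≤ n * n := Nat.mul_le_mul_right n h1.le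
    omega
  let AA : ℕ → Set K := fun j => {a | a ∈ A ∧ J a = j}
  have hJc : ContinuousOn J A := by
    have h1 : ContinuousOn (fun a => κ (γ a)) A := hκ.comp_continuousOn hγ
    exact ((hκ.continuousOn).mul continuousOn_const).add h1
  have hAA : ∀ j, IsClosed (AA j) := by
    intro j
    have := hJc.preimage_isClosed_of_isClosed hA (isClosed_discrete ({j} : Set ℕ))
    exact this
  have hBB : ∀ j, IsClosed (γ '' AA j) := fun j =>
    ((hAA j).isCompact.image_of_continuousOn (hγ.mono fun a ha => ha.1)).isClosed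
  obtain ⟨U, hU1, hU2, hU3⟩ := exists_label (n * n + n) AA
    (fun j => X0ᶜ ∩ ⋃ a ∈ AA j, {x | κ x = κ a}) hAA
    (by
      intro i _ j _ hij
      rw [Set.disjoint_left]
      rintro x ⟨_, h1⟩ ⟨_, h2⟩
      exact hij (h1.symm.trans h2))
    (by
      intro j
      refine hX0.isClosed.isOpen_compl.inter (isOpen_biUnion fun a _ => ?_)
      exact (isOpen_discrete ({κ a} : Set ℕ)).preimage hκ)
    (by
      intro j a ha
      refine ⟨fun h => Set.disjoint_left.1 hXA h ha.1, mem_iUnion₂.2 ⟨a, ha, rfl⟩⟩)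
  obtain ⟨V, hV1, hV2, hV3⟩ := exists_label (n * n + n) (fun j => γ '' AA j)
    (fun j => Y0ᶜ ∩ ⋃ a ∈ AA j, {x | κ x = κ (γ a)}) hBB
    (by
      intro i _ j _ hij
      rw [Set.disjoint_left]
      rintro _ ⟨a, ⟨ha, h1⟩, rfl⟩ ⟨b, ⟨hb, h2⟩, he⟩
      have : b = a := hinj hb ha he
      subst this
      exact hij (h1.symm.trans h2))
    (by
      intro j
      refine hY0.isClosed.isOpen_compl.inter (isOpen_biUnion fun a _ => ?_)
      exact (isOpen_discrete ({κ (γ a)} : Set ℕ)).preimage hκ)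
    (by
      rintro j _ ⟨a, ha, rfl⟩
      exact ⟨fun h => Set.disjoint_left.1 hYA h ⟨a, ha.1, rfl⟩, mem_iUnion₂.2 ⟨a, ha, rfl⟩⟩)
  have hUA : ∀ a ∈ A, U a = J a + 1 := fun a ha => hU2 (J a) (hJlt a) a ⟨ha, rfl⟩
  have hVA : ∀ a ∈ A, V (γ a) = J a + 1 := fun a ha => hV2 (J a) (hJlt a) _ ⟨a, ⟨ha, rfl⟩, rfl⟩
  have hUx : ∀ x, U x ≠ 0 → x ∉ X0 ∧ ∃ a ∈ A, U x = J a + 1 ∧ κ x = κ a := by
    intro x hx
    obtain ⟨j, hj⟩ : ∃ j, U x = j + 1 := ⟨U x - 1, by omega⟩
    obtain ⟨-, h1, h2⟩ := hU3 x j hj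
    obtain ⟨a, ⟨ha, ha'⟩, h3⟩ := mem_iUnion₂.1 h2
    exact ⟨h1, a, ha, by rw [hj, ha'], h3⟩
  have hVy : ∀ y, V y ≠ 0 → y ∉ Y0 ∧ ∃ a ∈ A, V y = J a + 1 ∧ κ y = κ (γ a) := by
    intro x hx
    obtain ⟨j, hj⟩ : ∃ j, V x = j + 1 := ⟨V x - 1, by omega⟩
    obtain ⟨-, h1, h2⟩ := hV3 x j hj
    obtain ⟨a, ⟨ha, ha'⟩, h3⟩ := mem_iUnion₂.1 h2
    exact ⟨h1, a, ha, by rw [hj, ha'], h3⟩
  refine ⟨U, V, hU1, hV1, ?_, ?_, ?_, ?_, ?_, ?_, ?_, ?_⟩
  · intro a ha
    rw [hUA a ha, hVA a ha]
    exact ⟨rfl, Nat.succ_ne_zero _⟩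
  · intro x y hxy hx
    obtain ⟨-, a, ha, h1, h2⟩ := hUx x hx
    obtain ⟨-, b, hb, h3, h4⟩ := hUx y (hxy ▸ hx)
    have : J a = J b := by omega
    exact (hκf x y (by rw [h2, h4, (hJinj a b this).1])).1
  · intro x y hxy hx
    obtain ⟨-, a, ha, h1, h2⟩ := hVy x hx
    obtain ⟨-, b, hb, h3, h4⟩ := hVy y (hxy ▸ hx)
    have : J a = J b := by omega
    exact (hκf x y (by rw [h2, h4, (hJinj a b this).2])).1
  · intro x y hxy hx
    obtain ⟨-, a, ha, h1, h2⟩ := hUx x hx
    obtain ⟨-, b, hb, h3, h4⟩ := hVy y (hxy ▸ hx)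
    have hab : J a = J b := by omega
    have h5 : u x = u a := (hκf x a h2).2.1
    have h6 : v y = v (γ a) := (hκf y (γ a) (by rw [h4, (hJinj a b hab).2])).2.2
    rw [h5, h6]
    exact huv a ha
  · intro x hx
    by_contra h
    exact (hUx x h).1 hx
  · intro y hy
    by_contra h
    exact (hVy y h).1 hy
  · intro x hx
    obtain ⟨-, a, ha, h1, h2⟩ := hUx x hx
    exact ⟨a, ha, by rw [hUA a ha, h1]⟩
  · intro y hy
    obtain ⟨-, a, ha, h1, h2⟩ := hVy y hy
    exact ⟨a, ha, by rw [hUA a ha, h1]⟩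

end Pool.Agent.Work.MP_97bde0_lc
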