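import Pool.Agent.Work.MP_97bde0_lc.Greedy
import Pool.Agent.Work.MP_97bde0_lc.Theta

/-!
# The tower of sorted greedy matchings
-/

set_option autoImplicit false

open Set MeasureTheory Topology

namespace Pool.Agent.Work.MP_97bde0_lc

variable {X : Type*} [MeasurableSpace X] [StandardBorelSpace X] {E : X → X → Prop}

/-- a stage of the tower -/
structure TS (X : Type*) where
  R : Set X
  T : X → ℕ
  k : ℕ
  pat : X → ℕ → ℕ

/-- correctness of a stage -/
structure TOK [MeasurableSpace X] (n : ℕ) (S : TS X) : Prop where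
  mR : MeasurableSet S.R
  mT : Measurable S.T
  Tk : ∀ x, S.T x < S.k
  mp : ∀ j, Measurable (fun x => S.pat x j)
  bp : ∃ β, ∀ x j, S.pat x j < β
  Tp : ∀ x y, S.T x = S.T y → ∀ j ≤ n, S.pat x j = S.pat y j

/-- the relation between consecutive stages -/
structure TNext (E : X → X → Prop) (S : TS X) (h : X → X) (S' : TS X) : Prop where
  mh : Measurable h
  inj : InjOn h S'.R
  sub : S'.R ⊆ S.R
  img : ∀ x ∈ S'.R, h x ∈ S.R
  dis : ∀ x ∈ S'.R, ∀ y ∈ S'.R, h x ≠ y
  rel : ∀ x ∈ S'.R, E x (h x)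
  rest : PT E (PM.rest S.R S'.R h)
  sorted : ∀ x ∈ S'.R, ∀ y ∈ S'.R, E x y → S.T x ≤ S.T (h y)
  leT : ∀ x ∈ S'.R, ∀ y ∈ S'.R, E x y → S'.T x ≤ S'.T y →
    S.T x ≤ S.T y ∧ S.T (h y) ≤ S.T (h x)
  pat : ∀ x j, S'.pat x j = Nat.pair (S.pat x j) (S.pat (h x) j)

theorem lex_eq {a b a' b' β : ℕ} (hb : b < β) (hb' : b' < β) (h : a * β + b = a' * β + b') :
    a = a' ∧ b = b' := by
  have h1 : a = a' := by
    rcases lt_trichotomy a a' with h2 | h2 | h2
    · have : (a + 1) * β ≤ a' * β := Nat.mul_le_mul_right β h2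
      rw [add_mul] at this
      omega
    · exact h2
    · have : (a' + 1) * β ≤ a * β := Nat.mul_le_mul_right β h2
      rw [add_mul] at this
      omega
  subst h1
  exact ⟨rfl, by omega⟩

theorem lex_le {a b a' b' β : ℕ} (hb : b < β) (hb' : b' < β) (h : a * β + b ≤ a' * β + b') :
    a ≤ a' ∧ (a = a' → b ≤ b') := by
  constructor
  · by_contra h2
    push Not at h2
    have : (a' + 1) * β ≤ a * β := Nat.mul_le_mul_right β h2
    rw [add_mul] at this
    omega
  · rintro rfl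
    omega

theorem lex_lt {a b α β : ℕ} (ha : a < α) (hb : b < β) : a * β + b < α * β := by
  have : (a + 1) * β ≤ α * β := Nat.mul_le_mul_right β ha
  rw [add_mul] at this
  omega

omit [StandardBorelSpace X] in
theorem exists_code_fin {f : X → ℕ → ℕ} (hf : ∀ j, Measurable (fun x => f x j)) {β : ℕ}
    (hβ : ∀ x j, f x j < β) (n : ℕ) : ∃ (c : X → ℕ) (B : ℕ), Measurable c ∧ (∀ x, c x < B) ∧
      ∀ x y, c x = c y → ∀ j ≤ n, f x j = f y j := by
  induction n with
  | zero =>
    refine ⟨fun x => f x 0, β, hf 0, fun x => hβ x 0, fun x y h j hj => ?_⟩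
    rw [Nat.le_zero.1 hj]; exact h
  | succ n ih =>
    obtain ⟨c, B, hc, hcB, hcf⟩ := ih
    refine ⟨fun x => c x * β + f x (n + 1), B * β, ?_, fun x => lex_lt (hcB x) (hβ x _), ?_⟩
    · exact (hc.mul_const β).add (hf (n + 1))
    · intro x y h j hj
      obtain ⟨h1, h2⟩ := lex_eq (hβ x _) (hβ y _) h
      rcases Nat.lt_or_ge n j with h3 | h3
      · have : j = n + 1 := by omega
        rw [this]; exact h2
      · exact hcf x y h1 j h3

theorem exists_next [Nonempty X] (hE : Equivalence E) (F : FM E) (n : ℕ) (S : TS X)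
    (hS : TOK n S) : ∃ (S' : TS X) (h : X → X), TOK (n + 1) S' ∧ TNext E S h S' := by
  obtain ⟨A, h, H, hPT, hs, ha⟩ := exists_sorted_matching hE F hS.mR hS.mT hS.Tk
  obtain ⟨β, hβ⟩ := hS.bp
  let pat' : X → ℕ → ℕ := fun x j => Nat.pair (S.pat x j) (S.pat (h x) j)
  have hpm : ∀ j, Measurable (fun x => pat' x j) := fun j =>
    (measurable_of_countable (fun q : ℕ × ℕ => Nat.pair q.1 q.2)).comp
      ((hS.mp j).prodMk ((hS.mp j).comp H.mh))
  have hpb : ∀ x j, pat' x j < (β + 1) ^ 2 := by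
    intro x j
    refine (Nat.pair_lt_max_add_one_sq _ _).trans_le (Nat.pow_le_pow_left ?_ 2)
    have h1 := hβ x j
    have h2 := hβ (h x) j
    omega
  obtain ⟨c, B, hc, hcB, hcf⟩ := exists_code_fin hpm hpb (n + 1)
  let T' : X → ℕ := fun x => (S.T x * S.k + (S.k - 1 - S.T (h x))) * B + c x
  have hkk : ∀ x, S.k - 1 - S.T (h x) < S.k := fun x => by
    have := hS.Tk (h x); omega
  have hT' : Measurable T' := by
    refine Measurable.add (Measurable.mul_const ?_ B) hc
    refine Measurable.add (hS.mT.mul_const _) ?_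
    exact (measurable_of_countable (fun m : ℕ => S.k - 1 - m)).comp (hS.mT.comp H.mh)
  refine ⟨⟨A, T', S.k * S.k * B, pat'⟩, h, ⟨H.mA, hT', ?_, hpm, ⟨_, hpb⟩, ?_⟩,
    ⟨H.mh, H.inj, H.sub, H.img, H.dis, H.rel, hPT, hs, ?_, fun x j => rfl⟩⟩
  · intro x
    exact lex_lt (lex_lt (hS.Tk x) (hkk x)) (hcB x)
  · intro x y hxy
    exact hcf x y (lex_eq (hcB x) (hcB y) hxy).2
  · intro x hx y hy hxy hle
    have h1 := (lex_le (hcB x) (hcB y) hle).1
    have h2 := lex_le (hkk x) (hkk y) h1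
    refine ⟨h2.1, ?_⟩
    rcases h2.1.lt_or_eq with h3 | h3
    · exact ha x hx y hy hxy h3
    · have h4 := h2.2 h3
      have h5 := hS.Tk (h x)
      have h6 := hS.Tk (h y)
      omega

/-- The full tower. -/
theorem exists_tower [Nonempty X] (hE : Equivalence E) (F : FM E) {A : Set X}
    (hA : MeasurableSet A) {κ : X → ℕ → Bool} (hκ : Measurable κ) :
    ∃ (S : ℕ → TS X) (h : ℕ → X → X), (S 0).R = A ∧ (∀ x j, (S 0).pat x j = (κ x j).toNat) ∧
      (∀ n, TOK n (S n)) ∧ ∀ n, TNext E (S n) (h n) (S (n + 1)) := by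
  have hm : ∀ j, Measurable (fun x => (κ x j).toNat) := fun j =>
    (measurable_of_countable (fun b : Bool => b.toNat)).comp ((measurable_pi_apply j).comp hκ)
  have hb : ∀ b : Bool, b.toNat < 2 := fun b => by cases b <;> simp
  let S0 : TS X := ⟨A, fun x => (κ x 0).toNat, 2, fun x j => (κ x j).toNat⟩
  have h0 : TOK 0 S0 := ⟨hA, hm 0, fun x => hb _, hm, ⟨2, fun x j => hb _⟩,
    fun x y h j hj => by rw [Nat.le_zero.1 hj]; exact h⟩
  have hstep : ∀ (n : ℕ) (p : {S : TS X // TOK n S}), ∃ (p' : {S : TS X // TOK (n + 1) S})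
      (h : X → X), TNext E p.1 h p'.1 := by
    rintro n ⟨S, hS⟩
    obtain ⟨S', h, h1, h2⟩ := exists_next hE F n S hS
    exact ⟨⟨S', h1⟩, h, h2⟩
  choose nxt hh hnxt using hstep
  let P : ∀ n, {S : TS X // TOK n S} := fun n => Nat.rec ⟨S0, h0⟩ (fun n p => nxt n p) n
  exact ⟨fun n => (P n).1, fun n => hh n (P n), rfl, fun x j => rfl, fun n => (P n).2,
    fun n => hnxt n (P n)⟩

/-- parity of the number of ones in `[m, m + d)` -/
def par (m : ℕ) : ℕ → (ℕ → Bool) → Bool
  | 0, _ => false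
  | d + 1, s => xor (par m d s) (s (m + d))

theorem par_congr {m d : ℕ} {s s' : ℕ → Bool} (h : ∀ i < d, s (m + i) = s' (m + i)) :
    par m d s = par m d s' := by
  induction d with
  | zero => rfl
  | succ d ih =>
    simp only [par]
    rw [ih (fun i hi => h i (by omega)), h d (by omega)]

/-- An exact tower on the invariant set `Y`, with base point maps and addresses. -/
structure Tower (E : X → X → Prop) (κ : X → ℕ → Bool) (Y : Set X) (S : ℕ → TS X)
    (h : ℕ → X → X) (b : ℕ → X → X) (s : X → ℕ → Bool) : Prop where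
  mY : MeasurableSet Y
  iY : Inv E Y
  ok : ∀ n, TOK n (S n)
  nx : ∀ n, TNext E (S n) (h n) (S (n + 1))
  p0 : ∀ x j, (S 0).pat x j = (κ x j).toNat
  mb : ∀ n, Measurable (b n)
  ms : Measurable s
  b0 : ∀ x, b 0 x = x
  bR : ∀ n, ∀ x ∈ Y, b n x ∈ (S n).R
  bE : ∀ n, ∀ x ∈ Y, E x (b n x)
  st : ∀ n, ∀ x ∈ Y, b n x = if s x n = true then h n (b (n + 1) x) else b (n + 1) x
  un : ∀ n, ∀ x ∈ Y, ∀ y ∈ (S (n + 1)).R, b n x = y → b (n + 1) x = y
  un' : ∀ n, ∀ x ∈ Y, ∀ y ∈ (S (n + 1)).R, b n x = h n y → b (n + 1) x = y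

theorem exists_Tower [Nonempty X] (hE : Equivalence E) (F : FM E)
    (hap : ∀ x, {y | E x y}.Infinite) (μ : Measure X) {A : Set X}
    (hA : MeasurableSet A) (hAE : Inv E A)
    (hfin : ∀ B, MeasurableSet B → B ⊆ A → Copies E B → μ (sat E B) = 0)
    {κ : X → ℕ → Bool} (hκ : Measurable κ) :
    ∃ (Y : Set X) (S : ℕ → TS X) (h : ℕ → X → X) (b : ℕ → X → X) (s : X → ℕ → Bool),
      Y ⊆ A ∧ μ (A \ Y) = 0 ∧ Tower E κ Y S h b s := by
  classical
  obtain ⟨S, h, hS0, hp0, hok, hnx⟩ := exists_tower hE F hA hκ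
  have hRA : ∀ n, (S n).R ⊆ A := by
    intro n
    induction n with
    | zero => rw [hS0]
    | succ n ih => exact (hnx n).sub.trans ih
  let L : ℕ → Set X := fun n => PM.rest (S n).R (S (n + 1)).R (h n)
  have hLm : ∀ n, MeasurableSet (L n) := fun n =>
    (hok n).mR.diff ((hok (n + 1)).mR.union
      ((hok (n + 1)).mR.image_of_measurable_injOn (hnx n).mh (hnx n).inj))
  have hLA : ∀ n, L n ⊆ A := fun n => sdiff_subset.trans (hRA n)
  have hLμ : ∀ n, μ (sat E (L n)) = 0 := fun n =>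
    hfin _ (hLm n) (hLA n) ((hnx n).rest.copies hE F hap)
  have hsm : ∀ n, MeasurableSet (sat E (L n)) := fun n => F.measurableSet_sat (hLm n)
  let Y : Set X := A \ ⋃ n, sat E (L n)
  have hYm : MeasurableSet Y := hA.diff (MeasurableSet.iUnion hsm)
  have hYi : Inv E Y := hAE.diff hE (Inv.iUnion fun n => inv_sat hE _)
  have hg : ∀ n, ∃ g : X → X, Measurable g ∧ ∀ x ∈ (S (n + 1)).R, g (h n x) = x := fun n =>
    exists_leftInv (hnx n).mh (hok (n + 1)).mR (hnx n).inj
  choose g hgm hgh using hg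
  let b : ℕ → X → X := fun n x => Nat.rec x
    (fun n y => if y ∈ (S (n + 1)).R then y else g n y) n
  have hb0 : ∀ x, b 0 x = x := fun x => rfl
  have hbs : ∀ n x, b (n + 1) x = if b n x ∈ (S (n + 1)).R then b n x else g n (b n x) :=
    fun n x => rfl
  have hbm : ∀ n, Measurable (b n) := by
    intro n
    induction n with
    | zero => exact measurable_id
    | succ n ih =>
      have : b (n + 1) = fun x => if b n x ∈ (S (n + 1)).R then b n x else g n (b n x) :=
        funext fun x => hbs n x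
      rw [this]
      exact Measurable.ite (ih (hok (n + 1)).mR) ih ((hgm n).comp ih)
  let s : X → ℕ → Bool := fun x n => decide (b n x ∉ (S (n + 1)).R)
  have hsms : Measurable s := by
    refine measurable_pi_lambda _ fun n => ?_
    have h1 : MeasurableSet {x | b n x ∉ (S (n + 1)).R} := (hbm n (hok (n + 1)).mR).compl
    have : (fun x => s x n) = fun x => if x ∈ {x | b n x ∉ (S (n + 1)).R} then true else false := by
      funext x
      simp [s]
    rw [this]
    exact Measurable.ite h1 measurable_const measurable_const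
  have key : ∀ n, ∀ x ∈ Y, b n x ∈ (S n).R ∧ E x (b n x) := by
    intro n x hx
    induction n with
    | zero => exact ⟨by rw [hS0]; exact hx.1, hE.refl _⟩
    | succ n ih =>
      rw [hbs]
      by_cases hR : b n x ∈ (S (n + 1)).R
      · rw [if_pos hR]; exact ⟨hR, ih.2⟩
      · rw [if_neg hR]
        have h1 : b n x ∉ L n := by
          intro hL
          exact hx.2 (mem_iUnion.2 ⟨n, _, hL, ih.2⟩)
        have h2 : b n x ∈ h n '' (S (n + 1)).R := by
          by_contra h3
          exact h1 ⟨ih.1, fun h => h.elim hR h3⟩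
        obtain ⟨y, hy, hyx⟩ := h2
        rw [← hyx, hgh n y hy]
        refine ⟨hy, ?_⟩
        have h4 := (hnx n).rel y hy
        rw [hyx] at h4
        exact hE.trans ih.2 (hE.symm h4)
  have himg : ∀ n, ∀ x ∈ Y, b n x ∉ (S (n + 1)).R → ∃ y ∈ (S (n + 1)).R, h n y = b n x := by
    intro n x hx hR
    have h1 : b n x ∉ L n := by
      intro hL
      exact hx.2 (mem_iUnion.2 ⟨n, _, hL, (key n x hx).2⟩)
    by_contra h3
    exact h1 ⟨(key n x hx).1, fun h => h.elim hR h3⟩
  refine ⟨Y, S, h, b, s, sdiff_subset, ?_, ⟨hYm, hYi, hok, hnx, hp0, hbm, hsms, hb0,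
    fun n x hx => (key n x hx).1, fun n x hx => (key n x hx).2, ?_, ?_, ?_⟩⟩
  · refine measure_mono_null ?_ (measure_iUnion_null hLμ)
    intro x hx
    by_contra h1
    exact hx.2 ⟨hx.1, h1⟩
  · intro n x hx
    by_cases hR : b n x ∈ (S (n + 1)).R
    · have h1 : s x n = false := by simp [s, hR]
      rw [h1, hbs, if_pos hR]
      simp
    · have h1 : s x n = true := by simp [s, hR]
      obtain ⟨y, hy, hyx⟩ := himg n x hx hR
      rw [h1, hbs, if_neg hR, if_pos rfl, ← hyx, hgh n y hy]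
  · intro n x hx y hy hxy
    rw [hbs, hxy, if_pos hy]
  · intro n x hx y hy hxy
    have : b n x ∉ (S (n + 1)).R := by
      intro h1
      exact (hnx n).dis y hy _ h1 hxy.symm
    rw [hbs, if_neg this, hxy, hgh n y hy]

end Pool.Agent.Work.MP_97bde0_lc
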